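import Pool.Agent.Lib.MP_529d88_nt.Defs

set_option autoImplicit false

namespace Pool.Agent.Syr66

open Finset

/-- Squared modulus of the first Fourier coefficient, divided by the mass, of a nonnegative weight
on `ZMod 3` (given by its values at `0, 1, 2`). -/
noncomputable def ps (u : ℕ → ℝ) : ℝ :=
  (3 * (∑ d ∈ range 3, (u d) ^ 2) / (∑ d ∈ range 3, u d) - ∑ d ∈ range 3, u d) / 2

/-- The law of `(j, r mod 3 ^ i)` over the words of length `k`. -/
noncomputable def Gw (k i j : ℕ) (z : ℤ) : ℝ :=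
  Ex (1 / 2) k (fun q => if q.1 = j ∧ (3 : ℤ) ^ i ∣ z - q.2 then 1 else 0)

/-- Fourier defect of the digit `n` of `r` given the lower digits, on the words with `j` odd steps. -/
noncomputable def Aw (k n j : ℕ) : ℝ :=
  ∑ x ∈ range (3 ^ n), ps (fun d => Gw k (n + 1) j ((x : ℤ) + 3 ^ n * d))

/-- Fourier defect of the digit `n` of `r` given the lower digits and `j`. -/
noncomputable def aw (k n : ℕ) : ℝ := ∑ j ∈ range (k + 1), Aw k n j

/-- The constants `r` of the words of length `k` with `j` odd steps. -/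
def Sj (k j : ℕ) : Finset ℕ := ((W k).filter (fun q => q.1 = j)).image Prod.snd

/-- The part of the law of `(3 ^ j X + r) / 2 ^ k mod 3 ^ i` (`X` stationary) carried by the words
with `j` odd steps. -/
noncomputable def Gm (k j i : ℕ) (z : ℤ) : ℝ :=
  Ex (1 / 2) k (fun q => if q.1 = j then Kf (1 / 2) i j (2 ^ k * z - q.2) else 0)

/-- Shifted binomial weights. -/
noncomputable def Ms (k s j : ℕ) : ℝ := if s ≤ j then M (1 / 2) k (j - s) else 0

/-- Upper bound for `T^[k] n`, `n ≤ X`, when there are `j` odd steps. -/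
def XJ (k j X : ℕ) : ℕ := (3 ^ j * X + 3 ^ k) / 2 ^ k

open Classical in
/-- Weighted number of elements of `B` up to `X`. -/
noncomputable def bb (m X : ℕ) (B : ℕ → Prop) : ℝ :=
  ∑ n ∈ Icc 1 X, if B n then 3 ^ m * p (1 / 2) m (n : ℤ) else 0

/-- The orbit stays above `N` for `t` steps. -/
def BN (N t n : ℕ) : Prop := ∀ i : ℕ, i ≤ t → N < T^[i] n

/-- The discrepancy of the law of `(3 ^ j X + r) / 2 ^ k mod 3 ^ (m + j)` from level `m'`. -/
noncomputable def er (k m m' j : ℕ) : ℝ :=
  ∑ x ∈ range (3 ^ (m + j)),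
    |Gm k j (m + j) (x : ℤ) - M (1 / 2) k j * p (1 / 2) m' (x : ℤ) / 3 ^ (m + j - m')|

/-- Number of steps used at scale `X`. -/
noncomputable def kk (X : ℕ) : ℕ := ⌊Real.log X / 20⌋₊

/-- Level used at scale `X`. -/
noncomputable def mk (κ : ℝ) (X : ℕ) : ℕ := ⌊(Real.log X / 2) ^ κ⌋₊

end Pool.Agent.Syr66
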