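import Pool.Agent.Lib.MP_529d88_nt.ND.NDefs

set_option autoImplicit false

namespace Pool.Agent.Syr66

open Finset

theorem ps_congr (u v : ℕ → ℝ) (h : ∀ a ∈ range 3, u a = v a) : ps u = ps v := by
  unfold ps
  have h1 : ∑ d ∈ range 3, (u d) ^ 2 = ∑ d ∈ range 3, (v d) ^ 2 :=
    Finset.sum_congr rfl (fun a ha => by rw [h a ha])
  have h2 : ∑ d ∈ range 3, u d = ∑ d ∈ range 3, v d :=
    Finset.sum_congr rfl (fun a ha => by rw [h a ha])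
  rw [h1, h2]

/-- `ps` only depends on `∑ u` and `∑ u ^ 2`. -/
theorem ps_congr_sums (u v : ℕ → ℝ) (h1 : ∑ a ∈ range 3, u a = ∑ a ∈ range 3, v a)
    (h2 : ∑ a ∈ range 3, (u a) ^ 2 = ∑ a ∈ range 3, (v a) ^ 2) : ps u = ps v := by
  unfold ps
  rw [h1, h2]

/-- `(∑ u) ^ 2 ≤ 3 * ∑ u ^ 2`. -/
theorem ps_nonneg (u : ℕ → ℝ) (hu : ∀ a ∈ range 3, 0 ≤ u a) : 0 ≤ ps u := by
  unfold ps
  have hs : 0 ≤ ∑ d ∈ range 3, u d := Finset.sum_nonneg hu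
  have hcs : (∑ d ∈ range 3, u d) ^ 2 ≤ 3 * ∑ d ∈ range 3, (u d) ^ 2 := by
    have := sq_sum_le_card_mul_sum_sq (s := range 3) (f := u)
    simpa using this
  rcases hs.eq_or_lt with h0 | hpos
  · rw [← h0]
    simp
  · have : ∑ d ∈ range 3, u d ≤ 3 * (∑ d ∈ range 3, (u d) ^ 2) / (∑ d ∈ range 3, u d) := by
      rw [le_div_iff₀ hpos]
      nlinarith [hcs]
    linarith

/-- `∑ u ^ 2 ≤ (∑ u) ^ 2`. -/
theorem ps_le (u : ℕ → ℝ) (hu : ∀ a ∈ range 3, 0 ≤ u a) : ps u ≤ ∑ a ∈ range 3, u a := by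
  unfold ps
  have hs : 0 ≤ ∑ d ∈ range 3, u d := Finset.sum_nonneg hu
  have h0 := hu 0 (by simp)
  have h1 := hu 1 (by simp)
  have h2 := hu 2 (by simp)
  have hcs : ∑ d ∈ range 3, (u d) ^ 2 ≤ (∑ d ∈ range 3, u d) ^ 2 := by
    simp only [Finset.sum_range_succ, Finset.sum_range_zero, zero_add]
    nlinarith [mul_nonneg h0 h1, mul_nonneg h0 h2, mul_nonneg h1 h2]
  rcases hs.eq_or_lt with h0' | hpos
  · rw [← h0']
    simp
  · have : 3 * (∑ d ∈ range 3, (u d) ^ 2) / (∑ d ∈ range 3, u d) ≤ 3 * ∑ d ∈ range 3, u d := by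
      rw [div_le_iff₀ hpos]
      nlinarith [hcs]
    linarith

theorem ps_mul (u : ℕ → ℝ) (c : ℝ) : ps (fun d => c * u d) = c * ps u := by
  unfold ps
  have h1 : ∑ d ∈ range 3, (c * u d) ^ 2 = c ^ 2 * ∑ d ∈ range 3, (u d) ^ 2 := by
    rw [Finset.mul_sum]
    exact Finset.sum_congr rfl (fun a _ => by ring)
  have h2 : ∑ d ∈ range 3, c * u d = c * ∑ d ∈ range 3, u d := by
    rw [Finset.mul_sum]
  simp only [h1, h2]
  by_cases hc : c = 0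
  · subst hc
    simp
  · have : 3 * (c ^ 2 * ∑ d ∈ range 3, (u d) ^ 2) / (c * ∑ d ∈ range 3, u d)
        = c * (3 * (∑ d ∈ range 3, (u d) ^ 2) / (∑ d ∈ range 3, u d)) := by
      have e : 3 * (c ^ 2 * ∑ d ∈ range 3, (u d) ^ 2)
          = c * (c * (3 * ∑ d ∈ range 3, (u d) ^ 2)) := by ring
      rw [e, mul_div_mul_left _ _ hc, mul_div_assoc]
    rw [this]
    ring

end Pool.Agent.Syr66
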