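import Pool.Agent.Lib.MP_529d88_nt.ND.NDefs
import Pool.Agent.Lib.MP_529d88_nt.P1
import Pool.Agent.Lib.MP_529d88_nt.C3
import Pool.Agent.Lib.MP_529d88_nt.T1

set_option autoImplicit false

namespace Pool.Agent.Syr66

open Finset

theorem Gw_nonneg (k i j : ℕ) (z : ℤ) : 0 ≤ Gw k i j z := by
  unfold Gw
  apply Ex_nonneg (by norm_num) (by norm_num)
  intro q _
  split_ifs <;> norm_num

theorem Gw_periodic (k i j : ℕ) (z t : ℤ) : Gw k i j (z + 3 ^ i * t) = Gw k i j z := by
  unfold Gw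
  apply Ex_congr
  intro q _
  have : ((3 : ℤ) ^ i ∣ z + 3 ^ i * t - q.2) ↔ ((3 : ℤ) ^ i ∣ z - q.2) := by
    have e : z + 3 ^ i * t - (q.2 : ℤ) = (z - q.2) + 3 ^ i * t := by ring
    rw [e]
    exact (Int.dvd_add_left (Dvd.intro t rfl))
  simp only [this]

theorem Gw_marg (k i j : ℕ) (z : ℤ) :
    ∑ d ∈ range 3, Gw k (i + 1) j (z + 3 ^ i * d) = Gw k i j z := by
  unfold Gw
  rw [← Ex_sum]
  apply Ex_congr
  intro q _
  by_cases hq : q.1 = j
  · simp only [hq, true_and]
    have h3 : (3 : ℤ) ^ i ≠ 0 := by positivity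
    by_cases hd : (3 : ℤ) ^ i ∣ z - q.2
    · rw [if_pos hd]
      obtain ⟨c, hc⟩ := hd
      have key : ∀ d : ℤ, ((3 : ℤ) ^ (i + 1) ∣ z + 3 ^ i * d - q.2) ↔ (3 : ℤ) ∣ c + d := by
        intro d
        have e : z + 3 ^ i * d - (q.2 : ℤ) = 3 ^ i * (c + d) := by rw [mul_add, ← hc]; ring
        rw [e, pow_succ]
        exact mul_dvd_mul_iff_left h3
      simp only [key]
      simp only [sum_range_succ, sum_range_zero, zero_add]
      have hm : c % 3 = 0 ∨ c % 3 = 1 ∨ c % 3 = 2 := by omega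
      rcases hm with h | h | h
      · rw [if_pos (by push_cast; omega), if_neg (by push_cast; omega),
          if_neg (by push_cast; omega)]
        norm_num
      · rw [if_neg (by push_cast; omega), if_neg (by push_cast; omega),
          if_pos (by push_cast; omega)]
        norm_num
      · rw [if_neg (by push_cast; omega), if_pos (by push_cast; omega),
          if_neg (by push_cast; omega)]
        norm_num
    · rw [if_neg hd]
      refine sum_eq_zero fun d _ => ?_
      rw [if_neg]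
      intro h
      apply hd
      have h1 : (3 : ℤ) ^ i ∣ z + 3 ^ i * (d : ℤ) - q.2 :=
        dvd_trans (pow_dvd_pow 3 (Nat.le_succ i)) h
      have e : z + 3 ^ i * (d : ℤ) - (q.2 : ℤ) = (z - q.2) + 3 ^ i * (d : ℤ) := by ring
      rw [e] at h1
      exact (Int.dvd_add_left (Dvd.intro _ rfl)).1 h1
  · simp only [hq, false_and, if_false, sum_const_zero]

theorem Gw_zero_level (k j : ℕ) (z : ℤ) : Gw k 0 j z = M (1 / 2) k j := by
  unfold Gw M
  apply Ex_congr
  intro q _
  simp only [pow_zero, one_dvd, and_true]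

/-- Exactly one `x < 3 ^ i` satisfies `3 ^ i ∣ x - r`. -/
theorem Gw_sum (k i j : ℕ) : ∑ x ∈ range (3 ^ i), Gw k i j (x : ℤ) = M (1 / 2) k j := by
  induction i with
  | zero => simp [Gw_zero_level]
  | succ i ih =>
    rw [← ih]
    have h := sum_split (3 ^ i) 3 (fun z : ℤ => Gw k (i + 1) j z)
    rw [pow_succ, h]
    refine sum_congr rfl fun x _ => ?_
    rw [← Gw_marg]
    refine sum_congr rfl fun d _ => ?_
    push_cast
    rfl

theorem Gw_eq_zero (k i j : ℕ) (hj : k < j) (z : ℤ) : Gw k i j z = 0 := by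
  unfold Gw
  rw [Ex_congr (1 / 2) k _ (fun _ => 0)]
  · exact Ex_const (1 / 2) k 0
  · intro q hq
    have := W_fst_le hq
    rw [if_neg]
    rintro ⟨h, _⟩
    omega

theorem M_eq_zero (k j : ℕ) (hj : k < j) : M (1 / 2) k j = 0 := by
  rw [← Gw_zero_level k j 0]
  exact Gw_eq_zero k 0 j hj 0

end Pool.Agent.Syr66
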