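import Pool.Agent.Lib.MP_529d88_nt.ND.Q1
import Pool.Agent.Lib.MP_529d88_nt.A1
import Pool.Agent.Lib.MP_529d88_nt.P1
import Pool.Agent.Lib.MP_529d88_nt.C3
import Pool.Agent.Lib.MP_529d88_nt.ND.Q9

section

set_option autoImplicit false

namespace Pool.Agent.Syr66

open Finset

/-- Cauchy-Schwarz: `(∑ |u - m|) ^ 2 ≤ 3 * ∑ (u - m) ^ 2 = 3 * (∑ u ^ 2 - (∑ u) ^ 2 / 3) =
2 * (∑ u) * ps u`, `m = (∑ u) / 3`. -/
theorem ps_l1 (u : ℕ → ℝ) (hu : ∀ a ∈ range 3, 0 ≤ u a) :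
    ∑ d ∈ range 3, |u d - (∑ a ∈ range 3, u a) / 3| ≤
      Real.sqrt (2 * (∑ a ∈ range 3, u a) * ps u) := by
  have h0 : 0 ≤ u 0 := hu 0 (by simp)
  have h1 : 0 ≤ u 1 := hu 1 (by simp)
  have h2 : 0 ≤ u 2 := hu 2 (by simp)
  simp only [ps, Finset.sum_range_succ, Finset.sum_range_zero, zero_add]
  generalize u 0 = a at *
  generalize u 1 = b at *
  generalize u 2 = c at *
  rcases eq_or_lt_of_le (show 0 ≤ a + b + c by positivity) with hS | hS
  · have ha : a = 0 := by linarith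
    have hb : b = 0 := by linarith
    have hc : c = 0 := by linarith
    subst ha; subst hb; subst hc
    simp
  · apply Real.le_sqrt_of_sq_le
    have hr : 2 * (a + b + c) * ((3 * (a ^ 2 + b ^ 2 + c ^ 2) / (a + b + c) - (a + b + c)) / 2)
        = 3 * (a ^ 2 + b ^ 2 + c ^ 2) - (a + b + c) ^ 2 := by
      field_simp
    rw [hr]
    set m := (a + b + c) / 3 with hm
    have e1 : |a - m| ^ 2 = (a - m) ^ 2 := sq_abs _
    have e2 : |b - m| ^ 2 = (b - m) ^ 2 := sq_abs _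
    have e3 : |c - m| ^ 2 = (c - m) ^ 2 := sq_abs _
    have key : 3 * (a ^ 2 + b ^ 2 + c ^ 2) - (a + b + c) ^ 2
        = 3 * ((a - m) ^ 2 + (b - m) ^ 2 + (c - m) ^ 2) := by
      rw [hm]; ring
    rw [key]
    nlinarith [sq_nonneg (|a - m| - |b - m|), sq_nonneg (|a - m| - |c - m|),
      sq_nonneg (|b - m| - |c - m|)]

end Pool.Agent.Syr66
end

section

section

set_option autoImplicit false

namespace Pool.Agent.Syr66

open Finset

/-- Telescoping: induction on `l`. `∑ x < 3 ^ (i₀ + l + 1)` is split as `x + 3 ^ (i₀ + l) d`, `d < 3`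
(`sum_split`), and
`|f (l + 1) (x + 3 ^ _ d) - f 0 / 3 ^ (l + 1)| ≤ |f (l + 1) (x + 3 ^ _ d) - f l x / 3| +
|f l x - f 0 x / 3 ^ l| / 3` (`f i` has period `3 ^ i`, so `f 0` at `x + 3 ^ _ d` is `f 0 x`). -/
theorem tele (f : ℕ → ℤ → ℝ) (hf : ∀ (i : ℕ) (x t : ℤ), f i (x + 3 ^ i * t) = f i x) (i₀ l : ℕ) :
    ∑ x ∈ range (3 ^ (i₀ + l)), |f (i₀ + l) (x : ℤ) - f i₀ (x : ℤ) / 3 ^ l| ≤
      ∑ i ∈ range l, ∑ x ∈ range (3 ^ (i₀ + i)), ∑ d ∈ range 3,
        |f (i₀ + i + 1) ((x : ℤ) + 3 ^ (i₀ + i) * d) - f (i₀ + i) (x : ℤ) / 3| := by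
  induction l with
  | zero => simp
  | succ l ih =>
    rw [Finset.sum_range_succ]
    have h1 : ∑ x ∈ range (3 ^ (i₀ + (l + 1))),
        |f (i₀ + (l + 1)) (x : ℤ) - f i₀ (x : ℤ) / 3 ^ (l + 1)| =
        ∑ x ∈ range (3 ^ (i₀ + l)), ∑ d ∈ range 3,
          |f (i₀ + l + 1) ((x : ℤ) + 3 ^ (i₀ + l) * d) -
            f i₀ ((x : ℤ) + 3 ^ (i₀ + l) * d) / 3 ^ (l + 1)| := by
      have e : 3 ^ (i₀ + (l + 1)) = 3 ^ (i₀ + l) * 3 := by rw [← add_assoc, pow_succ]
      rw [e, sum_split (3 ^ (i₀ + l)) 3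
        (fun z => |f (i₀ + (l + 1)) z - f i₀ z / 3 ^ (l + 1)|)]
      refine Finset.sum_congr rfl fun x _ => Finset.sum_congr rfl fun d _ => ?_
      push_cast
      rfl
    have h2 : ∑ x ∈ range (3 ^ (i₀ + l)), ∑ d ∈ range 3,
          |f (i₀ + l + 1) ((x : ℤ) + 3 ^ (i₀ + l) * d) -
            f i₀ ((x : ℤ) + 3 ^ (i₀ + l) * d) / 3 ^ (l + 1)| ≤
        ∑ x ∈ range (3 ^ (i₀ + l)), (|f (i₀ + l) (x : ℤ) - f i₀ (x : ℤ) / 3 ^ l| +
          ∑ d ∈ range 3, |f (i₀ + l + 1) ((x : ℤ) + 3 ^ (i₀ + l) * d) - f (i₀ + l) (x : ℤ) / 3|) := by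
      refine Finset.sum_le_sum fun x _ => ?_
      have h3 : ∀ d ∈ range 3, |f (i₀ + l + 1) ((x : ℤ) + 3 ^ (i₀ + l) * d) -
            f i₀ ((x : ℤ) + 3 ^ (i₀ + l) * d) / 3 ^ (l + 1)| ≤
          |f (i₀ + l) (x : ℤ) - f i₀ (x : ℤ) / 3 ^ l| / 3 +
          |f (i₀ + l + 1) ((x : ℤ) + 3 ^ (i₀ + l) * d) - f (i₀ + l) (x : ℤ) / 3| := by
        intro d _
        have e1 : f i₀ ((x : ℤ) + 3 ^ (i₀ + l) * d) = f i₀ (x : ℤ) := by
          have := hf i₀ (x : ℤ) (3 ^ l * d)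
          rw [← this, pow_add]
          congr 1
          ring
        rw [e1]
        have e2 : f (i₀ + l + 1) ((x : ℤ) + 3 ^ (i₀ + l) * d) - f i₀ (x : ℤ) / 3 ^ (l + 1) =
            (f (i₀ + l + 1) ((x : ℤ) + 3 ^ (i₀ + l) * d) - f (i₀ + l) (x : ℤ) / 3) +
            (f (i₀ + l) (x : ℤ) - f i₀ (x : ℤ) / 3 ^ l) / 3 := by
          rw [pow_succ]
          field_simp
          ring
        rw [e2]
        refine (abs_add_le _ _).trans ?_
        rw [abs_div, abs_of_pos (by norm_num : (0 : ℝ) < 3)]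
        linarith
      refine (Finset.sum_le_sum h3).trans (le_of_eq ?_)
      rw [Finset.sum_add_distrib, Finset.sum_const, card_range, nsmul_eq_mul]
      congr 1
      push_cast
      ring
    rw [h1]
    refine h2.trans ?_
    rw [Finset.sum_add_distrib]
    exact add_le_add ih le_rfl

end Pool.Agent.Syr66
end

section

set_option autoImplicit false

namespace Pool.Agent.Syr66

open Finset

/-- Induction: `Ex_succ`, `Ex_pow` (`E 3 ^ j = 2 ^ k`): `E r (k + 1) = 2 E r k + 2 ^ k / 2`. -/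
theorem Ex_snd (k : ℕ) : Ex (1 / 2) k (fun q => (q.2 : ℝ)) = k * 2 ^ k / 4 := by
  induction k with
  | zero => simp [Ex_zero]
  | succ k ih =>
    rw [Ex_succ]
    have h1 : (fun q : ℕ × ℕ => (1 - (1 / 2 : ℝ)) * (((q.1, 2 * q.2) : ℕ × ℕ).2 : ℝ) +
        (1 / 2 : ℝ) * (((q.1 + 1, 2 * q.2 + 3 ^ q.1) : ℕ × ℕ).2 : ℝ)) =
        fun q => 2 * (q.2 : ℝ) + (1 / 2 : ℝ) * (3 : ℝ) ^ q.1 := by
      funext q
      push_cast
      ring
    rw [h1, Ex_add', Ex_mul, Ex_mul, ih, Ex_pow]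
    push_cast
    norm_num
    ring

/-- Jensen for the concave function `log` (e.g. `log y ≤ log a + (y - a) / a` with
`a = k 2 ^ k / (4 P) + 1`). -/
theorem Ex_log_le (k P : ℕ) (hP : 0 < P) :
    Ex (1 / 2) k (fun q => Real.log ((q.2 : ℝ) / P + 1)) ≤
      Real.log (k * 2 ^ k / (4 * P) + 1) := by
  have hP' : (0 : ℝ) < P := by exact_mod_cast hP
  set a : ℝ := k * 2 ^ k / (4 * P) + 1 with ha
  have ha0 : 0 < a := by positivity
  have key : ∀ q ∈ W k, Real.log ((q.2 : ℝ) / P + 1) ≤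
      (Real.log a - 1 + 1 / a) + (1 / (P * a)) * (q.2 : ℝ) := by
    intro q _
    have hy : (0 : ℝ) < (q.2 : ℝ) / P + 1 := by positivity
    have h := Real.log_le_sub_one_of_pos (div_pos hy ha0)
    rw [Real.log_div hy.ne' ha0.ne'] at h
    have h2 : ((q.2 : ℝ) / P + 1) / a = 1 / a + (1 / (P * a)) * (q.2 : ℝ) := by
      field_simp
      ring
    linarith
  calc Ex (1 / 2) k (fun q => Real.log ((q.2 : ℝ) / P + 1))
      ≤ Ex (1 / 2) k (fun q => (Real.log a - 1 + 1 / a) + (1 / (P * a)) * (q.2 : ℝ)) := by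
        unfold Ex
        refine Finset.sum_le_sum fun q hq => ?_
        exact mul_le_mul_of_nonneg_left (key q hq) (wt_nonneg (by norm_num) (by norm_num) _ _)
    _ = (Real.log a - 1 + 1 / a) + (1 / (P * a)) * (k * 2 ^ k / 4) := by
        rw [Ex_add', Ex_const, Ex_mul, Ex_snd]
    _ = Real.log a := by
        have h3 : (1 / (P * a)) * ((k : ℝ) * 2 ^ k / 4) = (a - 1) / a := by
          rw [ha]
          field_simp
          ring
        rw [h3]
        field_simp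
        ring

end Pool.Agent.Syr66
end

section

set_option autoImplicit false

namespace Pool.Agent.Syr66

open Finset

private theorem q11_aux (l i J j r : ℕ) (z : ℤ) :
    Ex (1 / 2) l (fun q' => if j + q'.1 = J ∧ (3 : ℤ) ^ i ∣ z - ((2 ^ l * r + 3 ^ j * q'.2 : ℕ) : ℤ)
      then (1 : ℝ) else 0) =
    if j ≤ J then (if (3 : ℤ) ^ (min j i) ∣ z - 2 ^ l * r then
          Gw l (i - j) (J - j) ((z - 2 ^ l * r) / 3 ^ (min j i)) else 0) else 0 := by
  by_cases hj : j ≤ J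
  · rw [if_pos hj]
    have hmj : (3 : ℤ) ^ (min j i) ∣ (3 : ℤ) ^ j := pow_dvd_pow 3 (min_le_left _ _)
    have hmi : (3 : ℤ) ^ (min j i) ∣ (3 : ℤ) ^ i := pow_dvd_pow 3 (min_le_right _ _)
    by_cases hd : (3 : ℤ) ^ (min j i) ∣ z - 2 ^ l * r
    · rw [if_pos hd, Gw]
      refine Ex_congr _ _ _ _ fun q' _ => ?_
      have h1 : j + q'.1 = J ↔ q'.1 = J - j := by omega
      obtain ⟨c, hc⟩ := hd
      have h3 : (3 : ℤ) ^ (min j i) ≠ 0 := by positivity
      have h2 : ((3 : ℤ) ^ i ∣ z - ((2 ^ l * r + 3 ^ j * q'.2 : ℕ) : ℤ)) ↔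
          (3 : ℤ) ^ (i - j) ∣ (z - 2 ^ l * r) / 3 ^ (min j i) - q'.2 := by
        rw [hc, Int.mul_ediv_cancel_left _ h3]
        have e : z - ((2 ^ l * r + 3 ^ j * q'.2 : ℕ) : ℤ) = 3 ^ (min j i) * c - 3 ^ j * q'.2 := by
          rw [← hc]
          push_cast
          ring
        rw [e]
        rcases le_total j i with h | h
        · rw [min_eq_left h, ← mul_sub]
          have h4 : (3 : ℤ) ^ i = 3 ^ j * 3 ^ (i - j) := by
            rw [← pow_add]
            congr 1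
            omega
          rw [h4]
          exact mul_dvd_mul_iff_left (by positivity)
        · rw [min_eq_right h, Nat.sub_eq_zero_of_le h, pow_zero]
          constructor
          · intro _
            exact one_dvd _
          · intro _
            apply dvd_sub
            · exact Dvd.intro _ rfl
            · exact Dvd.dvd.mul_right (pow_dvd_pow 3 h) _
      simp only [h1, h2]
    · rw [if_neg hd]
      have h0 : ∀ q' ∈ W l, (if j + q'.1 = J ∧ (3 : ℤ) ^ i ∣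
          z - ((2 ^ l * r + 3 ^ j * q'.2 : ℕ) : ℤ) then (1 : ℝ) else 0) = 0 := by
        intro q' _
        rw [if_neg]
        rintro ⟨_, h⟩
        apply hd
        have h4 := dvd_trans hmi h
        have h5 : z - 2 ^ l * r = z - ((2 ^ l * r + 3 ^ j * q'.2 : ℕ) : ℤ) + 3 ^ j * q'.2 := by
          push_cast
          ring
        rw [h5]
        exact dvd_add h4 (Dvd.dvd.mul_right hmj _)
      unfold Ex
      refine Finset.sum_eq_zero fun q' hq' => ?_
      exact mul_eq_zero_of_right _ (h0 q' hq')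
  · rw [if_neg hj]
    unfold Ex
    refine Finset.sum_eq_zero fun q' _ => ?_
    exact mul_eq_zero_of_right _ (if_neg (fun h => hj (by omega)))

/-- Composition. `Ex_add`; for `q.1 = j ≤ J` the condition is `q'.1 = J - j` and
`3 ^ i ∣ (z - 2 ^ l q.2) - 3 ^ j q'.2`. If `j ≤ i` this means `3 ^ j ∣ z - 2 ^ l q.2` and
`3 ^ (i - j) ∣ (z - 2 ^ l q.2) / 3 ^ j - q'.2`; if `i ≤ j` it means `3 ^ i ∣ z - 2 ^ l q.2`
(and `Gw l 0 (J - j)` is constant). -/
theorem Gw_add (k l i J : ℕ) (z : ℤ) :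
    Gw (k + l) i J z = ∑ j ∈ range (k + 1), if j ≤ J then
      ∑ q ∈ (W k).filter (fun q => q.1 = j), wt (1 / 2) k j *
        (if (3 : ℤ) ^ (min j i) ∣ z - 2 ^ l * q.2 then
          Gw l (i - j) (J - j) ((z - 2 ^ l * q.2) / 3 ^ (min j i)) else 0) else 0 := by
  have hl : Gw (k + l) i J z = ∑ q ∈ W k, wt (1 / 2) k q.1 * (if q.1 ≤ J then
      (if (3 : ℤ) ^ (min q.1 i) ∣ z - 2 ^ l * q.2 then
          Gw l (i - q.1) (J - q.1) ((z - 2 ^ l * q.2) / 3 ^ (min q.1 i)) else 0) else 0) := by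
    rw [Gw, Ex_add, Ex]
    refine Finset.sum_congr rfl fun q _ => ?_
    rw [q11_aux]
  rw [hl]
  have hfib : ∀ q ∈ W k, q.1 ∈ range (k + 1) := fun q hq => by
    rw [mem_range]
    exact Nat.lt_succ_of_le (W_fst_le hq)
  rw [← Finset.sum_fiberwise_of_maps_to hfib]
  refine Finset.sum_congr rfl fun j _ => ?_
  by_cases hj : j ≤ J
  · rw [if_pos hj]
    refine Finset.sum_congr rfl fun q hq => ?_
    rw [(Finset.mem_filter.1 hq).2, if_pos hj]
  · rw [if_neg hj]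
    refine Finset.sum_eq_zero fun q hq => ?_
    rw [(Finset.mem_filter.1 hq).2, if_neg hj, mul_zero]

end Pool.Agent.Syr66
end

section

set_option autoImplicit false

namespace Pool.Agent.Syr66

open Finset

theorem Aw_nonneg (k n j : ℕ) : 0 ≤ Aw k n j := by
  unfold Aw
  exact Finset.sum_nonneg fun x _ => ps_nonneg _ fun a _ => Gw_nonneg _ _ _ _

/-- `ps_le`, then `Gw_marg` and `Gw_sum`. -/
theorem Aw_le (k n j : ℕ) : Aw k n j ≤ M (1 / 2) k j := by
  unfold Aw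
  rw [← Gw_sum k n j]
  refine Finset.sum_le_sum fun x _ => ?_
  refine (ps_le _ fun a _ => Gw_nonneg _ _ _ _).trans (le_of_eq ?_)
  exact Gw_marg k n j (x : ℤ)

theorem Aw_eq_zero (k n j : ℕ) (hj : k < j) : Aw k n j = 0 := by
  apply le_antisymm
  · rw [← M_eq_zero k j hj]
    exact Aw_le k n j
  · exact Aw_nonneg k n j

theorem aw_nonneg (k n : ℕ) : 0 ≤ aw k n := by
  unfold aw
  exact Finset.sum_nonneg fun j _ => Aw_nonneg k n j

/-- `M_sum`. -/
theorem aw_le_one (k n : ℕ) : aw k n ≤ 1 := by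
  unfold aw
  refine (Finset.sum_le_sum fun j _ => Aw_le k n j).trans (le_of_eq ?_)
  exact M_sum k

end Pool.Agent.Syr66
end
end
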