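import Pool.Agent.Lib.MP_529d88_nt.ND.Q1

set_option autoImplicit false

namespace Pool.Agent.Syr66

open Finset

private theorem titu_aux (a b U V : ℝ) (hU : 0 < U) (hV : 0 < V) :
    (a + b) ^ 2 / (U + V) ≤ a ^ 2 / U + b ^ 2 / V := by
  rw [div_add_div _ _ hU.ne' hV.ne', div_le_div_iff₀ (by positivity) (by positivity)]
  nlinarith [sq_nonneg (a * V - b * U), mul_pos hU hV]

private theorem ps_congr_aux (u v : ℕ → ℝ) (h : ∀ a ∈ range 3, u a = v a) : ps u = ps v := by
  unfold ps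
  rw [Finset.sum_congr rfl h, Finset.sum_congr rfl (fun a ha => by rw [h a ha])]

private theorem ps_zero_aux (u : ℕ → ℝ) (h : ∀ a ∈ range 3, u a = 0) : ps u = 0 := by
  unfold ps
  rw [Finset.sum_congr rfl h, Finset.sum_congr rfl (fun a ha => by rw [h a ha])]
  simp

/-- Titu's inequality `(a + b) ^ 2 / (U + V) ≤ a ^ 2 / U + b ^ 2 / V` for each coordinate
(if one of the masses is zero the corresponding weight vanishes on `range 3`). -/
theorem ps_add_le (u v : ℕ → ℝ) (hu : ∀ a ∈ range 3, 0 ≤ u a) (hv : ∀ a ∈ range 3, 0 ≤ v a) :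
    ps (fun d => u d + v d) ≤ ps u + ps v := by
  rcases (Finset.sum_nonneg hu).eq_or_lt with hU | hU
  · have hz : ∀ a ∈ range 3, u a = 0 := (Finset.sum_eq_zero_iff_of_nonneg hu).1 hU.symm
    rw [ps_zero_aux u hz, ps_congr_aux (fun d => u d + v d) v (fun a ha => by simp [hz a ha])]
    simp
  rcases (Finset.sum_nonneg hv).eq_or_lt with hV | hV
  · have hz : ∀ a ∈ range 3, v a = 0 := (Finset.sum_eq_zero_iff_of_nonneg hv).1 hV.symm
    rw [ps_zero_aux v hz, ps_congr_aux (fun d => u d + v d) u (fun a ha => by simp [hz a ha])]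
    simp
  have key : (∑ d ∈ range 3, (u d + v d) ^ 2) / (∑ d ∈ range 3, u d + ∑ d ∈ range 3, v d)
      ≤ (∑ d ∈ range 3, (u d) ^ 2) / (∑ d ∈ range 3, u d)
        + (∑ d ∈ range 3, (v d) ^ 2) / (∑ d ∈ range 3, v d) := by
    have key' : ∀ U V : ℝ, 0 < U → 0 < V →
        (∑ d ∈ range 3, (u d + v d) ^ 2) / (U + V)
        ≤ (∑ d ∈ range 3, (u d) ^ 2) / U + (∑ d ∈ range 3, (v d) ^ 2) / V := by
      intro U V hU hV
      rw [Finset.sum_div, Finset.sum_div, Finset.sum_div, ← Finset.sum_add_distrib]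
      exact Finset.sum_le_sum (fun d _ => titu_aux _ _ _ _ hU hV)
    exact key' _ _ hU hV
  have e1 : ps (fun d => u d + v d)
      = (3 * ((∑ d ∈ range 3, (u d + v d) ^ 2) / (∑ d ∈ range 3, u d + ∑ d ∈ range 3, v d))
        - (∑ d ∈ range 3, u d + ∑ d ∈ range 3, v d)) / 2 := by
    unfold ps
    rw [Finset.sum_add_distrib, mul_div_assoc]
  have e2 : ps u = (3 * ((∑ d ∈ range 3, (u d) ^ 2) / (∑ d ∈ range 3, u d))
      - ∑ d ∈ range 3, u d) / 2 := by
    unfold ps
    rw [mul_div_assoc]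
  have e3 : ps v = (3 * ((∑ d ∈ range 3, (v d) ^ 2) / (∑ d ∈ range 3, v d))
      - ∑ d ∈ range 3, v d) / 2 := by
    unfold ps
    rw [mul_div_assoc]
  rw [e1, e2, e3]
  linarith

theorem ps_sum_le {ι : Type*} (s : Finset ι) (f : ι → ℕ → ℝ)
    (hf : ∀ i ∈ s, ∀ a ∈ range 3, 0 ≤ f i a) :
    ps (fun d => ∑ i ∈ s, f i d) ≤ ∑ i ∈ s, ps (f i) := by
  classical
  induction s using Finset.induction_on with
  | empty =>
    rw [ps_zero_aux _ (fun a _ => by simp)]
    simp
  | insert i s hi ih =>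
    have h1 : ps (fun d => ∑ j ∈ insert i s, f j d) = ps (fun d => f i d + ∑ j ∈ s, f j d) :=
      ps_congr_aux _ _ (fun a _ => by rw [Finset.sum_insert hi])
    rw [h1, Finset.sum_insert hi]
    have h2 := ps_add_le (f i) (fun d => ∑ j ∈ s, f j d)
      (hf i (Finset.mem_insert_self i s))
      (fun a ha => Finset.sum_nonneg (fun j hj => hf j (Finset.mem_insert_of_mem hj) a ha))
    have h3 := ih (fun j hj => hf j (Finset.mem_insert_of_mem hj))
    linarith

end Pool.Agent.Syr66
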