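import Pool.Agent.Lib.MP_529d88_nt.ND.Q1

set_option autoImplicit false

namespace Pool.Agent.Syr66

open Finset

/-- The function `t log (3 t) - (t - 1 / 3) - 3 / 4 (t - 1 / 3) ^ 2` is nonnegative on `[0, 1]`
(derivative `log (3 t) - 3 / 2 (t - 1 / 3)`, which is `≤ 0` on `(0, 1 / 3]` and `≥ 0` on
`[1 / 3, 1]` because it is concave there with values `0` and `log 3 - 1 > 0` at the ends). -/
theorem mul_log_three_ge (t : ℝ) (h0 : 0 ≤ t) (h1 : t ≤ 1) :
    3 / 4 * (t - 1 / 3) ^ 2 ≤ -Real.negMulLog t + t * Real.log 3 - (t - 1 / 3) := by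
  rcases h0.eq_or_lt with h | hpos
  · subst h
    simp only [Real.negMulLog_zero]
    norm_num
  have hlog : -Real.negMulLog t + t * Real.log 3 = t * Real.log (3 * t) := by
    rw [Real.negMulLog, Real.log_mul (by norm_num) hpos.ne']
    ring
  rw [hlog]
  by_cases hs : 1 ≤ 3 * t
  · have h2 := Real.le_log_one_add_of_nonneg (x := 3 * t - 1) (by linarith)
    have e1 : (1 : ℝ) + (3 * t - 1) = 3 * t := by ring
    have e2 : 3 * t - 1 + 2 = 3 * t + 1 := by ring
    rw [e1, e2] at h2
    have h3 : t * (2 * (3 * t - 1) / (3 * t + 1)) ≤ t * Real.log (3 * t) :=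
      mul_le_mul_of_nonneg_left h2 h0
    have h4 : 3 / 4 * (t - 1 / 3) ^ 2 + (t - 1 / 3) ≤ t * (2 * (3 * t - 1) / (3 * t + 1)) := by
      rw [← mul_div_assoc, le_div_iff₀ (by linarith)]
      nlinarith [mul_nonneg (sub_nonneg.2 h1) (mul_self_nonneg (3 * t - 1))]
    linarith
  · have hs' : 3 * t < 1 := not_le.1 hs
    have h3t : 0 < 3 * t := by linarith
    set r := Real.sqrt (3 * t) with hr
    have hrpos : 0 < r := Real.sqrt_pos.2 h3t
    have hrsq : r * r = 3 * t := Real.mul_self_sqrt h3t.le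
    have hr1 : r ≤ 1 := by nlinarith
    have hl : Real.log (3 * t) = 2 * Real.log r := by
      rw [← hrsq, Real.log_mul hrpos.ne' hrpos.ne']
      ring
    have h5 : 1 - r⁻¹ ≤ Real.log r := Real.one_sub_inv_le_log_of_pos hrpos
    have h6 : r * r * (1 - r⁻¹) ≤ r * r * Real.log r :=
      mul_le_mul_of_nonneg_left h5 (by positivity)
    have h7 : r * r * (1 - r⁻¹) = r * r - r := by
      field_simp
    rw [h7] at h6
    have ht : t = r * r / 3 := by linarith
    rw [hl, ht]
    nlinarith [mul_nonneg (mul_nonneg (sub_nonneg.2 hr1) (sub_nonneg.2 hr1))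
      (mul_nonneg (sub_nonneg.2 hr1) (by linarith : (0 : ℝ) ≤ r + 3))]

/-- Apply `mul_log_three_ge` to `u a / ∑ u` and sum (`ps u = (∑ u) * 3 / 2 * ∑ (q a - 1 / 3) ^ 2`,
`hh (range 3) u = (∑ u) * ∑ negMulLog (q a)`, `q a = u a / ∑ u`). -/
theorem ps_le_hh (u : ℕ → ℝ) (hu : ∀ a ∈ range 3, 0 ≤ u a) :
    ps u ≤ 2 * ((∑ a ∈ range 3, u a) * Real.log 3 - hh (range 3) u) := by
  have hU : 0 ≤ ∑ a ∈ range 3, u a := Finset.sum_nonneg hu
  rcases hU.eq_or_lt with h | hpos
  · have hz : ∀ a ∈ range 3, u a = 0 := (Finset.sum_eq_zero_iff_of_nonneg hu).1 h.symm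
    have e : ∑ a ∈ range 3, Real.negMulLog (u a) = 0 :=
      Finset.sum_eq_zero (fun a ha => by rw [hz a ha, Real.negMulLog_zero])
    unfold ps hh
    rw [e, ← h]
    simp
  · set U := ∑ a ∈ range 3, u a with hUdef
    have hq : ∀ a ∈ range 3, u a = U * (u a / U) := fun a _ => by
      rw [mul_div_cancel₀ _ hpos.ne']
    have hq0 : ∀ a ∈ range 3, 0 ≤ u a / U := fun a ha => div_nonneg (hu a ha) hpos.le
    have hq1 : ∀ a ∈ range 3, u a / U ≤ 1 := fun a ha => by
      rw [div_le_one hpos]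
      exact Finset.single_le_sum hu ha
    have hsum : ∑ a ∈ range 3, u a / U = 1 := by
      rw [← Finset.sum_div, ← hUdef, div_self hpos.ne']
    have hhh : hh (range 3) u = U * ∑ a ∈ range 3, Real.negMulLog (u a / U) := by
      unfold hh
      rw [← hUdef]
      have : ∀ a ∈ range 3, Real.negMulLog (u a)
          = u a / U * Real.negMulLog U + U * Real.negMulLog (u a / U) := fun a ha => by
        conv_lhs => rw [hq a ha]
        rw [Real.negMulLog_mul]
      rw [Finset.sum_congr rfl this, Finset.sum_add_distrib, ← Finset.sum_mul, hsum,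
        Finset.mul_sum]
      ring
    have hps : ps u = U * (3 / 2 * ∑ a ∈ range 3, (u a / U - 1 / 3) ^ 2) := by
      unfold ps
      rw [← hUdef]
      have e1 : ∑ a ∈ range 3, (u a) ^ 2 = U ^ 2 * ∑ a ∈ range 3, (u a / U) ^ 2 := by
        rw [Finset.mul_sum]
        refine Finset.sum_congr rfl (fun a ha => ?_)
        rw [div_pow, mul_div_cancel₀ _ (pow_ne_zero 2 hpos.ne')]
      have e2 : ∑ a ∈ range 3, (u a / U - 1 / 3) ^ 2
          = ∑ a ∈ range 3, (u a / U) ^ 2 - 1 / 3 := by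
        have : ∀ a ∈ range 3, (u a / U - 1 / 3) ^ 2
            = (u a / U) ^ 2 - 2 / 3 * (u a / U) + 1 / 9 := fun a _ => by ring
        rw [Finset.sum_congr rfl this, Finset.sum_add_distrib, Finset.sum_sub_distrib,
          ← Finset.mul_sum, hsum]
        simp
        ring
      rw [e1, e2]
      field_simp
    have hmain : ∑ a ∈ range 3, 3 / 4 * (u a / U - 1 / 3) ^ 2
        ≤ ∑ a ∈ range 3, (-Real.negMulLog (u a / U) + u a / U * Real.log 3
          - (u a / U - 1 / 3)) :=
      Finset.sum_le_sum (fun a ha => mul_log_three_ge _ (hq0 a ha) (hq1 a ha))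
    have hR : ∑ a ∈ range 3, (-Real.negMulLog (u a / U) + u a / U * Real.log 3
          - (u a / U - 1 / 3))
        = -(∑ a ∈ range 3, Real.negMulLog (u a / U)) + Real.log 3 := by
      rw [Finset.sum_sub_distrib, Finset.sum_add_distrib, Finset.sum_neg_distrib,
        ← Finset.sum_mul, hsum, Finset.sum_sub_distrib, hsum]
      simp
    rw [hR, ← Finset.mul_sum] at hmain
    rw [hps, hhh]
    have := mul_le_mul_of_nonneg_left hmain hpos.le
    nlinarith [this]

end Pool.Agent.Syr66
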