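import Pool.Agent.Lib.MP_529d88_nt.ND.Q1
import Pool.Agent.Lib.MP_529d88_nt.P1
import Pool.Agent.Lib.MP_529d88_nt.C3
import Pool.Agent.Lib.MP_529d88_nt.T1
import Pool.Agent.Lib.MP_529d88_nt.ND.NDefs
import Pool.Agent.Lib.MP_529d88_nt.P3
import Pool.Agent.Lib.MP_529d88_nt.ND.Q2

section

set_option autoImplicit false

namespace Pool.Agent.Syr66

open Finset

/-- `ps` is invariant under affine substitutions of the digit. -/
private theorem ps_affine_digit (G : ℤ → ℝ) (hG : ∀ x t : ℤ, G (x + 3 * t) = G x)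
    (u a : ℤ) (hu : IsCoprime u (3 : ℤ)) :
    ps (fun d => G (u * (d : ℤ) + a)) = ps (fun d => G (d : ℤ)) := by
  apply ps_congr_sums
  · exact sum_affine 3 (by norm_num) G (by simpa using hG) u a (by simpa using hu)
  · exact sum_affine 3 (by norm_num) (fun z => (G z) ^ 2)
      (fun x t => by
        have := hG x t
        simp only [Nat.cast_ofNat]
        rw [this]) u a (by simpa using hu)

/-- The three values `f (x + 3 ^ n * (t + d))`, `d < 3`, are a permutation of the values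
`f (x + 3 ^ n * d)`. -/
theorem ps_periodic (n : ℕ) (f : ℤ → ℝ) (hf : ∀ x t : ℤ, f (x + 3 ^ (n + 1) * t) = f x)
    (x t : ℤ) :
    ps (fun d => f (x + 3 ^ n * t + 3 ^ n * d)) = ps (fun d => f (x + 3 ^ n * d)) := by
  have h := ps_affine_digit (fun y => f (x + 3 ^ n * y)) (fun y s => by
    have := hf (x + 3 ^ n * y) s
    rw [← this]
    congr 1
    ring) 1 t isCoprime_one_left
  simp only [one_mul] at h
  rw [← h]
  congr 1
  funext d
  congr 1
  ring

/-- `ps (d ↦ f (u x + a + 3 ^ n (u d))) = ps (d ↦ f (u x + a + 3 ^ n d))` (permutation of `ZMod 3`),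
then `sum_affine` with `N = 3 ^ n` for `z ↦ ps (d ↦ f (z + 3 ^ n d))`, periodic by `ps_periodic`. -/
theorem sum_ps_affine (n : ℕ) (f : ℤ → ℝ) (hf : ∀ x t : ℤ, f (x + 3 ^ (n + 1) * t) = f x)
    (u a : ℤ) (hu : IsCoprime u (3 : ℤ)) :
    ∑ x ∈ range (3 ^ n), ps (fun d => f (u * ((x : ℤ) + 3 ^ n * d) + a)) =
      ∑ x ∈ range (3 ^ n), ps (fun d => f ((x : ℤ) + 3 ^ n * d)) := by
  have h1 : ∀ x ∈ range (3 ^ n), ps (fun d => f (u * ((x : ℤ) + 3 ^ n * d) + a)) =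
      (fun z : ℤ => ps (fun d => f (z + 3 ^ n * d))) (u * (x : ℤ) + a) := by
    intro x _
    have h := ps_affine_digit (fun y => f (u * (x : ℤ) + a + 3 ^ n * y)) (fun y s => by
      have := hf (u * (x : ℤ) + a + 3 ^ n * y) s
      rw [← this]
      congr 1
      ring) u 0 hu
    simp only [add_zero] at h
    show _ = ps (fun d => f (u * (x : ℤ) + a + 3 ^ n * d))
    rw [← h]
    congr 1
    funext d
    congr 1
    ring
  rw [Finset.sum_congr rfl h1]
  apply sum_affine (3 ^ n) (by positivity) (fun z : ℤ => ps (fun d => f (z + 3 ^ n * d)))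
  · intro x t
    have := ps_periodic n f hf x t
    push_cast
    exact this
  · push_cast
    exact hu.pow_right

end Pool.Agent.Syr66
end

section

set_option autoImplicit false

namespace Pool.Agent.Syr66

open Finset

theorem M_choose (k j : ℕ) : M (1 / 2) k j = (k.choose j : ℝ) / 2 ^ k := by
  induction k generalizing j with
  | zero =>
    unfold M
    rw [Ex_zero]
    rcases j with _ | j
    · simp
    · simp
  | succ k ih =>
    have hM : ∀ i, Ex (1 / 2) k (fun q => if q.1 = i then (1 : ℝ) else 0) =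
        (k.choose i : ℝ) / 2 ^ k := ih
    unfold M
    rw [Ex_succ]
    rcases j with _ | j
    · have h : (fun q : ℕ × ℕ => (1 - 1 / 2 : ℝ) * (if (q.1, 2 * q.2).1 = 0 then (1 : ℝ) else 0) +
          1 / 2 * (if (q.1 + 1, 2 * q.2 + 3 ^ q.1).1 = 0 then (1 : ℝ) else 0)) =
          fun q : ℕ × ℕ => (1 / 2 : ℝ) * (if q.1 = 0 then (1 : ℝ) else 0) := by
        funext q
        have : ¬ (q.1 + 1 = 0) := by omega
        simp only [this, if_false]
        ring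
      rw [h, Ex_mul, hM]
      simp only [Nat.choose_zero_right, Nat.cast_one, pow_succ]
      field_simp
    · have h : (fun q : ℕ × ℕ => (1 - 1 / 2 : ℝ) *
          (if (q.1, 2 * q.2).1 = j + 1 then (1 : ℝ) else 0) +
          1 / 2 * (if (q.1 + 1, 2 * q.2 + 3 ^ q.1).1 = j + 1 then (1 : ℝ) else 0)) =
          fun q : ℕ × ℕ => (1 / 2 : ℝ) * (if q.1 = j + 1 then (1 : ℝ) else 0) +
            (1 / 2 : ℝ) * (if q.1 = j then (1 : ℝ) else 0) := by
        funext q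
        have : (q.1 + 1 = j + 1) ↔ (q.1 = j) := by omega
        simp only [this]
        ring
      rw [h, Ex_add', Ex_mul, Ex_mul, hM, hM, Nat.choose_succ_succ]
      push_cast
      rw [pow_succ]
      field_simp
      ring

private theorem R7_central (n : ℕ) : (Nat.centralBinom n) ^ 2 * (3 * n + 1) ≤ 16 ^ n := by
  induction n with
  | zero => simp
  | succ n ih =>
    have h := Nat.succ_mul_centralBinom_succ n
    have h1 : (n + 1) ^ 2 * ((Nat.centralBinom (n + 1)) ^ 2 * (3 * (n + 1) + 1)) ≤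
        (n + 1) ^ 2 * 16 ^ (n + 1) := by
      calc (n + 1) ^ 2 * ((Nat.centralBinom (n + 1)) ^ 2 * (3 * (n + 1) + 1))
          = ((n + 1) * Nat.centralBinom (n + 1)) ^ 2 * (3 * (n + 1) + 1) := by ring
        _ = (2 * (2 * n + 1) * Nat.centralBinom n) ^ 2 * (3 * (n + 1) + 1) := by rw [h]
        _ = (Nat.centralBinom n) ^ 2 * (4 * ((2 * n + 1) ^ 2 * (3 * n + 4))) := by ring
        _ ≤ (Nat.centralBinom n) ^ 2 * (16 * ((n + 1) ^ 2 * (3 * n + 1))) := by
            apply Nat.mul_le_mul_left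
            nlinarith
        _ = 16 * (n + 1) ^ 2 * ((Nat.centralBinom n) ^ 2 * (3 * n + 1)) := by ring
        _ ≤ 16 * (n + 1) ^ 2 * 16 ^ n := Nat.mul_le_mul_left _ ih
        _ = (n + 1) ^ 2 * 16 ^ (n + 1) := by ring
    exact Nat.le_of_mul_le_mul_left h1 (by positivity)

private theorem R7_choose_sq (k j : ℕ) : (k.choose j) ^ 2 * (k + 1) ≤ 4 ^ k := by
  have h0 : k.choose j ≤ k.choose (k / 2) := Nat.choose_le_middle j k
  have h1 : (k.choose j) ^ 2 * (k + 1) ≤ (k.choose (k / 2)) ^ 2 * (k + 1) :=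
    Nat.mul_le_mul_right _ (Nat.pow_le_pow_left h0 2)
  refine h1.trans ?_
  rcases Nat.even_or_odd' k with ⟨n, rfl | rfl⟩
  · have h2 : 2 * n / 2 = n := by omega
    rw [h2]
    have h3 := R7_central n
    rw [Nat.centralBinom_eq_two_mul_choose] at h3
    have h4 : (4 : ℕ) ^ (2 * n) = 16 ^ n := by
      rw [pow_mul]; norm_num
    rw [h4]
    refine le_trans (Nat.mul_le_mul_left _ ?_) h3
    omega
  · have h2 : (2 * n + 1) / 2 = n := by omega
    rw [h2]
    have h3 := R7_central (n + 1)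
    rw [Nat.centralBinom_eq_two_mul_choose] at h3
    have h5 : (2 * (n + 1)).choose (n + 1) = 2 * (2 * n + 1).choose n := by
      have e : 2 * (n + 1) = (2 * n + 1) + 1 := by ring
      rw [e, Nat.choose_succ_succ]
      have e2 : (2 * n + 1).choose (n.succ) = (2 * n + 1).choose n := by
        apply Nat.choose_symm_of_eq_add
        simp only [Nat.succ_eq_add_one]
        ring
      rw [e2]
      ring
    rw [h5] at h3
    have h4 : (4 : ℕ) * 4 ^ (2 * n + 1) = 16 ^ (n + 1) := by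
      rw [← pow_succ']
      have : 2 * n + 1 + 1 = 2 * (n + 1) := by ring
      rw [this, pow_mul]
      norm_num
    rw [← h4] at h3
    have h6 : 4 * (((2 * n + 1).choose n) ^ 2 * (2 * n + 1 + 1)) ≤ 4 * 4 ^ (2 * n + 1) := by
      refine le_trans ?_ h3
      have : (2 * (2 * n + 1).choose n) ^ 2 * (3 * (n + 1) + 1) =
        4 * (((2 * n + 1).choose n) ^ 2 * (3 * n + 4)) := by ring
      rw [this]
      apply Nat.mul_le_mul_left
      apply Nat.mul_le_mul_left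
      omega
    exact Nat.le_of_mul_le_mul_left h6 (by norm_num)

/-- `C(k, j) ≤ C(k, k / 2)` (`Nat.choose_le_middle`), `C(2 n, n) ^ 2 (3 n + 1) ≤ 16 ^ n`
(induction), `2 C(2 n + 1, n) = C(2 n + 2, n + 1)`. -/
theorem M_le_sqrt (k j : ℕ) : M (1 / 2) k j ≤ 1 / Real.sqrt (k + 1) := by
  rw [M_choose]
  have h := R7_choose_sq k j
  have h2 : ((k.choose j : ℝ)) ^ 2 * ((k : ℝ) + 1) ≤ 4 ^ k := by exact_mod_cast h
  have hk : (0 : ℝ) < (k : ℝ) + 1 := by positivity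
  have hs : 0 < Real.sqrt ((k : ℝ) + 1) := Real.sqrt_pos.mpr hk
  rw [div_le_div_iff₀ (by positivity) hs, one_mul]
  have h3 : ((k.choose j : ℝ) * Real.sqrt ((k : ℝ) + 1)) ^ 2 ≤ ((2 : ℝ) ^ k) ^ 2 := by
    rw [mul_pow, Real.sq_sqrt hk.le, ← pow_mul, mul_comm k 2, pow_mul]
    norm_num
    exact h2
  exact le_of_sq_le_sq h3 (by positivity)

end Pool.Agent.Syr66
end

section

set_option autoImplicit false

namespace Pool.Agent.Syr66

open Finset

private theorem S7_nonneg (k j : ℕ) : 0 ≤ M (1 / 2) k j :=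
  M_nonneg (by norm_num) (by norm_num) k j

private theorem S7_choose_up (k i : ℕ) (h : 2 * i + 1 ≤ k) : k.choose i ≤ k.choose (i + 1) := by
  have e := Nat.choose_succ_right_eq k i
  have h1 : k.choose i * (i + 1) ≤ k.choose (i + 1) * (i + 1) := by
    rw [e]
    exact Nat.mul_le_mul_left _ (by omega)
  exact Nat.le_of_mul_le_mul_right h1 (by omega)

private theorem S7_choose_down (k i : ℕ) (h : k ≤ 2 * i + 1) : k.choose (i + 1) ≤ k.choose i := by
  have e := Nat.choose_succ_right_eq k i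
  have h1 : k.choose (i + 1) * (i + 1) ≤ k.choose i * (i + 1) := by
    rw [e]
    exact Nat.mul_le_mul_left _ (by omega)
  exact Nat.le_of_mul_le_mul_right h1 (by omega)

private theorem S7_up (k i : ℕ) (h : 2 * i + 1 ≤ k) : M (1 / 2) k i ≤ M (1 / 2) k (i + 1) := by
  rw [M_choose, M_choose]
  have := S7_choose_up k i h
  gcongr

private theorem S7_down (k i : ℕ) (h : k ≤ 2 * i + 1) : M (1 / 2) k (i + 1) ≤ M (1 / 2) k i := by
  rw [M_choose, M_choose]
  have := S7_choose_down k i h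
  gcongr

private theorem S7_tel_up (k n : ℕ) (h : n ≤ (k + 1) / 2) :
    M (1 / 2) k 0 + ∑ i ∈ range n, |M (1 / 2) k (i + 1) - M (1 / 2) k i| = M (1 / 2) k n := by
  induction n with
  | zero => simp
  | succ n ih =>
    rw [sum_range_succ, ← add_assoc, ih (by omega), abs_of_nonneg]
    · ring
    · have := S7_up k n (by omega)
      linarith

private theorem S7_tel_down (k n : ℕ) :
    M (1 / 2) k 0 + ∑ i ∈ range ((k + 1) / 2 + n), |M (1 / 2) k (i + 1) - M (1 / 2) k i| =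
      2 * M (1 / 2) k ((k + 1) / 2) - M (1 / 2) k ((k + 1) / 2 + n) := by
  induction n with
  | zero =>
    have := S7_tel_up k ((k + 1) / 2) le_rfl
    simp only [add_zero]
    rw [this]
    ring
  | succ n ih =>
    rw [← add_assoc, sum_range_succ, ← add_assoc, ih, abs_of_nonpos]
    · ring
    · have := S7_down k ((k + 1) / 2 + n) (by omega)
      linarith

private theorem S7_tel (k n : ℕ) :
    M (1 / 2) k 0 + ∑ i ∈ range n, |M (1 / 2) k (i + 1) - M (1 / 2) k i| ≤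
      2 / Real.sqrt (k + 1) := by
  have h1 : ∑ i ∈ range n, |M (1 / 2) k (i + 1) - M (1 / 2) k i| ≤
      ∑ i ∈ range ((k + 1) / 2 + n), |M (1 / 2) k (i + 1) - M (1 / 2) k i| :=
    sum_le_sum_of_subset_of_nonneg (range_subset_range.2 (by omega)) fun _ _ _ => abs_nonneg _
  have h2 := S7_tel_down k n
  have h3 := M_le_sqrt k ((k + 1) / 2)
  have h4 := S7_nonneg k ((k + 1) / 2 + n)
  have h5 : 2 / Real.sqrt ((k : ℝ) + 1) = 2 * (1 / Real.sqrt ((k : ℝ) + 1)) := by ring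
  rw [h5]
  linarith

/-- Unimodality of the binomial coefficients and telescoping, `M_le_sqrt`; or
`M k j - M k (j - 1) = M (k + 1) j * 2 (k + 1 - 2 j) / (k + 1)` and the variance `(k + 1) / 4`. -/
theorem Ms_shift_one (k s R : ℕ) :
    ∑ j ∈ range R, |Ms k s j - Ms k (s + 1) j| ≤ 2 / Real.sqrt (k + 1) := by
  have h1 : ∑ j ∈ range R, |Ms k s j - Ms k (s + 1) j| ≤
      ∑ j ∈ range (s + 1 + R), |Ms k s j - Ms k (s + 1) j| :=
    sum_le_sum_of_subset_of_nonneg (range_subset_range.2 (by omega)) fun _ _ _ => abs_nonneg _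
  refine h1.trans ?_
  rw [sum_range_add, sum_range_succ]
  have h2 : ∑ j ∈ range s, |Ms k s j - Ms k (s + 1) j| = 0 := by
    refine sum_eq_zero fun j hj => ?_
    have hj' := mem_range.1 hj
    unfold Ms
    rw [if_neg (by omega), if_neg (by omega)]
    simp
  have h3 : |Ms k s s - Ms k (s + 1) s| = M (1 / 2) k 0 := by
    unfold Ms
    rw [if_pos le_rfl, if_neg (by omega), Nat.sub_self, sub_zero, abs_of_nonneg (S7_nonneg k 0)]
  have h4 : ∀ i ∈ range R, |Ms k s (s + 1 + i) - Ms k (s + 1) (s + 1 + i)| =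
      |M (1 / 2) k (i + 1) - M (1 / 2) k i| := by
    intro i _
    unfold Ms
    have e1 : s + 1 + i - s = i + 1 := by omega
    have e2 : s + 1 + i - (s + 1) = i := by omega
    rw [if_pos (by omega), if_pos (by omega), e1, e2]
  rw [h2, h3, sum_congr rfl h4, zero_add]
  exact S7_tel k R

private theorem S7_shift_add (k s d R : ℕ) :
    ∑ j ∈ range R, |Ms k s j - Ms k (s + d) j| ≤ (d : ℝ) * (2 / Real.sqrt (k + 1)) := by
  induction d with
  | zero => simp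
  | succ d ih =>
    have h1 := Ms_shift_one k (s + d) R
    have h2 : ∑ j ∈ range R, |Ms k s j - Ms k (s + (d + 1)) j| ≤
        ∑ j ∈ range R, |Ms k s j - Ms k (s + d) j| +
          ∑ j ∈ range R, |Ms k (s + d) j - Ms k (s + d + 1) j| := by
      rw [← sum_add_distrib]
      refine sum_le_sum fun j _ => ?_
      have e : Ms k s j - Ms k (s + (d + 1)) j =
          (Ms k s j - Ms k (s + d) j) + (Ms k (s + d) j - Ms k (s + d + 1) j) := by
        rw [← add_assoc]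
        ring
      rw [e]
      exact abs_add_le _ _
    push_cast
    linarith

theorem Ms_shift (k s s' R : ℕ) :
    ∑ j ∈ range R, |Ms k s j - Ms k s' j| ≤ |(s : ℝ) - s'| * (2 / Real.sqrt (k + 1)) := by
  rcases le_total s s' with h | h
  · obtain ⟨d, rfl⟩ := Nat.exists_eq_add_of_le h
    have h1 := S7_shift_add k s d R
    have e : |(s : ℝ) - ((s + d : ℕ) : ℝ)| = (d : ℝ) := by
      push_cast
      rw [show (s : ℝ) - (s + d) = -(d : ℝ) by ring, abs_neg, abs_of_nonneg (Nat.cast_nonneg d)]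
    rw [e]
    exact h1
  · obtain ⟨d, rfl⟩ := Nat.exists_eq_add_of_le h
    have h1 := S7_shift_add k s' d R
    have e : |((s' + d : ℕ) : ℝ) - (s' : ℝ)| = (d : ℝ) := by
      push_cast
      rw [show (s' : ℝ) + d - s' = (d : ℝ) by ring, abs_of_nonneg (Nat.cast_nonneg d)]
    rw [e]
    refine le_trans (le_of_eq ?_) h1
    exact sum_congr rfl fun j _ => abs_sub_comm _ _

/-- `Ex_add`. -/
theorem M_conv (k₂ k₁ j : ℕ) :
    M (1 / 2) (k₂ + k₁) j = ∑ s ∈ range (k₂ + 1), M (1 / 2) k₂ s * Ms k₁ s j := by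
  have h1 : M (1 / 2) (k₂ + k₁) j = Ex (1 / 2) k₂ (fun q => Ms k₁ q.1 j) := by
    unfold M
    rw [Ex_add]
    refine Ex_congr _ _ _ _ fun q _ => ?_
    unfold Ms
    by_cases h : q.1 ≤ j
    · rw [if_pos h]
      unfold M
      refine Ex_congr _ _ _ _ fun q' _ => ?_
      have e : (q.1 + q'.1 = j) ↔ (q'.1 = j - q.1) := by omega
      simp only [e]
    · rw [if_neg h]
      have e : (fun q' : ℕ × ℕ => if q.1 + q'.1 = j then (1 : ℝ) else 0) = fun _ => 0 := by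
        funext q'
        rw [if_neg (by omega)]
      have e2 := Ex_const (1 / 2) k₁ 0
      simp only [e]
      exact e2
  rw [h1, ← M_expect (α := 1 / 2) k₂ (fun s => Ms k₁ s j)]
  exact sum_congr rfl fun s _ => mul_comm _ _

theorem Ms_avg (k₂ k₁ s R : ℕ) (hs : s ≤ k₂) :
    ∑ j ∈ range R, |Ms k₁ s j - M (1 / 2) (k₂ + k₁) j| ≤ k₂ * (2 / Real.sqrt (k₁ + 1)) := by
  have hsum : ∑ s' ∈ range (k₂ + 1), M (1 / 2) k₂ s' = 1 := M_sum (α := 1 / 2) k₂
  have h1 : ∀ j ∈ range R, |Ms k₁ s j - M (1 / 2) (k₂ + k₁) j| ≤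
      ∑ s' ∈ range (k₂ + 1), M (1 / 2) k₂ s' * |Ms k₁ s j - Ms k₁ s' j| := by
    intro j _
    have e : Ms k₁ s j - M (1 / 2) (k₂ + k₁) j =
        ∑ s' ∈ range (k₂ + 1), M (1 / 2) k₂ s' * (Ms k₁ s j - Ms k₁ s' j) := by
      rw [M_conv]
      have : ∀ s', M (1 / 2) k₂ s' * (Ms k₁ s j - Ms k₁ s' j) =
          M (1 / 2) k₂ s' * Ms k₁ s j - M (1 / 2) k₂ s' * Ms k₁ s' j := fun s' => by ring
      rw [sum_congr rfl fun s' _ => this s', sum_sub_distrib, ← sum_mul, hsum, one_mul]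
    rw [e]
    refine (abs_sum_le_sum_abs _ _).trans (sum_le_sum fun s' _ => ?_)
    rw [abs_mul, abs_of_nonneg (S7_nonneg k₂ s')]
  refine (sum_le_sum h1).trans ?_
  rw [sum_comm]
  have hc : (0 : ℝ) ≤ 2 / Real.sqrt (k₁ + 1) := by positivity
  have h2 : ∀ s' ∈ range (k₂ + 1), ∑ j ∈ range R, M (1 / 2) k₂ s' * |Ms k₁ s j - Ms k₁ s' j| ≤
      M (1 / 2) k₂ s' * (k₂ * (2 / Real.sqrt (k₁ + 1))) := by
    intro s' hs'
    rw [← mul_sum]
    refine mul_le_mul_of_nonneg_left ((Ms_shift k₁ s s' R).trans ?_) (S7_nonneg k₂ s')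
    refine mul_le_mul_of_nonneg_right ?_ hc
    have hs1 : (s : ℝ) ≤ k₂ := by exact_mod_cast hs
    have hs2 : (s' : ℝ) ≤ k₂ := by
      have := mem_range.1 hs'
      exact_mod_cast (by omega : s' ≤ k₂)
    have hs3 : (0 : ℝ) ≤ s := Nat.cast_nonneg s
    have hs4 : (0 : ℝ) ≤ s' := Nat.cast_nonneg s'
    rw [abs_le]
    constructor <;> linarith
  refine (sum_le_sum h2).trans ?_
  rw [← sum_mul, hsum, one_mul]

end Pool.Agent.Syr66
end

section

section

set_option autoImplicit false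

namespace Pool.Agent.Syr66

open Finset

private theorem S1_h0 : (0 : ℝ) < 1 / 2 := by norm_num
private theorem S1_h1 : (1 / 2 : ℝ) < 1 := by norm_num

private theorem S1_le {m j : ℕ} (h : j ≤ m) (z : ℤ) :
    Kf (1 / 2) m j z = if (3 : ℤ) ^ j ∣ z then p (1 / 2) (m - j) (z / 3 ^ j) else 0 := by
  unfold Kf
  rw [min_eq_left h]

private theorem S1_ge {m j : ℕ} (h : m ≤ j) (z : ℤ) :
    Kf (1 / 2) m j z = if (3 : ℤ) ^ m ∣ z then 1 else 0 := by
  unfold Kf
  rw [min_eq_right h, Nat.sub_eq_zero_of_le h]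
  simp [p]

theorem Kf_nonneg (m j : ℕ) (z : ℤ) : 0 ≤ Kf (1 / 2) m j z := by
  unfold Kf
  split_ifs
  · exact p_nonneg S1_h0 S1_h1 _ _
  · exact le_rfl

theorem Kf_periodic (m j : ℕ) (z t : ℤ) : Kf (1 / 2) m j (z + 3 ^ m * t) = Kf (1 / 2) m j z := by
  rcases le_total j m with h | h
  · rw [S1_le h, S1_le h]
    have h3 : (3 : ℤ) ^ j ≠ 0 := by positivity
    have hmj : (3 : ℤ) ^ m = 3 ^ j * 3 ^ (m - j) := by rw [← pow_add]; congr 1; omega
    have e : z + 3 ^ m * t = z + 3 ^ j * (3 ^ (m - j) * t) := by rw [hmj]; ring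
    rw [e]
    have hd : (3 : ℤ) ^ j ∣ z + 3 ^ j * (3 ^ (m - j) * t) ↔ (3 : ℤ) ^ j ∣ z :=
      Int.dvd_add_left (Dvd.intro _ rfl)
    by_cases hz : (3 : ℤ) ^ j ∣ z
    · rw [if_pos (hd.2 hz), if_pos hz, Int.add_mul_ediv_left _ _ h3, p_periodic]
    · rw [if_neg (fun h' => hz (hd.1 h')), if_neg hz]
  · rw [S1_ge h, S1_ge h]
    have hd : (3 : ℤ) ^ m ∣ z + 3 ^ m * t ↔ (3 : ℤ) ^ m ∣ z :=
      Int.dvd_add_left (Dvd.intro _ rfl)
    by_cases hz : (3 : ℤ) ^ m ∣ z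
    · rw [if_pos (hd.2 hz), if_pos hz]
    · rw [if_neg (fun h' => hz (hd.1 h')), if_neg hz]

/-- For `j ≤ m` this is `p_marg` (with `α = 1 / 2`) at `z / 3 ^ j`, `3 ^ m d / 3 ^ j = 3 ^ (m - j) d`;
for `m < j` both kernels are indicator functions (`p 0 = 1`). -/
theorem Kf_marg (m j : ℕ) (z : ℤ) :
    ∑ d ∈ range 3, Kf (1 / 2) (m + 1) j (z + 3 ^ m * d) = Kf (1 / 2) m j z := by
  rcases le_or_gt j m with h | h
  · rw [S1_le h]
    have h3 : (3 : ℤ) ^ j ≠ 0 := by positivity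
    have hmj : (3 : ℤ) ^ m = 3 ^ j * 3 ^ (m - j) := by rw [← pow_add]; congr 1; omega
    by_cases hz : (3 : ℤ) ^ j ∣ z
    · rw [if_pos hz, ← p_marg S1_h0 S1_h1 (m - j) (z / 3 ^ j)]
      refine Finset.sum_congr rfl fun d _ => ?_
      rw [S1_le (by omega : j ≤ m + 1)]
      have e : z + 3 ^ m * (d : ℤ) = z + 3 ^ j * (3 ^ (m - j) * d) := by rw [hmj]; ring
      rw [e, if_pos ((Int.dvd_add_left (Dvd.intro _ rfl)).2 hz), Int.add_mul_ediv_left _ _ h3]
      congr 1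
      omega
    · rw [if_neg hz]
      refine Finset.sum_eq_zero fun d _ => ?_
      rw [S1_le (by omega : j ≤ m + 1)]
      have e : z + 3 ^ m * (d : ℤ) = z + 3 ^ j * (3 ^ (m - j) * d) := by rw [hmj]; ring
      rw [e, if_neg (fun h' => hz ((Int.dvd_add_left (Dvd.intro _ rfl)).1 h'))]
  · rw [S1_ge h.le]
    have h3 : (3 : ℤ) ^ m ≠ 0 := by positivity
    have e1 : ∀ d : ℕ, Kf (1 / 2) (m + 1) j (z + 3 ^ m * (d : ℤ)) =
        if (3 : ℤ) ^ (m + 1) ∣ z + 3 ^ m * (d : ℤ) then 1 else 0 := fun d =>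
      S1_ge (by omega : m + 1 ≤ j) _
    simp only [e1]
    by_cases hz : (3 : ℤ) ^ m ∣ z
    · rw [if_pos hz]
      obtain ⟨w, rfl⟩ := hz
      have e2 : ∀ d : ℕ, ((3 : ℤ) ^ (m + 1) ∣ 3 ^ m * w + 3 ^ m * (d : ℤ)) ↔ (3 : ℤ) ∣ w + d := by
        intro d
        rw [← mul_add, pow_succ]
        exact mul_dvd_mul_iff_left h3
      simp only [e2]
      rw [Finset.sum_range_succ, Finset.sum_range_succ, Finset.sum_range_succ,
        Finset.sum_range_zero]
      push_cast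
      have hw : w % 3 = 0 ∨ w % 3 = 1 ∨ w % 3 = 2 := by omega
      rcases hw with hw | hw | hw
      · rw [if_pos (by omega : (3 : ℤ) ∣ w + 0), if_neg (by omega : ¬ (3 : ℤ) ∣ w + 1),
          if_neg (by omega : ¬ (3 : ℤ) ∣ w + 2)]
        norm_num
      · rw [if_neg (by omega : ¬ (3 : ℤ) ∣ w + 0), if_neg (by omega : ¬ (3 : ℤ) ∣ w + 1),
          if_pos (by omega : (3 : ℤ) ∣ w + 2)]
        norm_num
      · rw [if_neg (by omega : ¬ (3 : ℤ) ∣ w + 0), if_pos (by omega : (3 : ℤ) ∣ w + 1),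
          if_neg (by omega : ¬ (3 : ℤ) ∣ w + 2)]
        norm_num
    · rw [if_neg hz]
      refine Finset.sum_eq_zero fun d _ => ?_
      rw [if_neg]
      intro h'
      apply hz
      have h5 : (3 : ℤ) ^ m ∣ z + 3 ^ m * (d : ℤ) := (pow_dvd_pow 3 (Nat.le_succ m)).trans h'
      exact (Int.dvd_add_left (Dvd.intro _ rfl)).1 h5

/-- The same after a unit and a translation (permute `d`, use `Kf_periodic` for `m + 1`). -/
theorem Kf_marg_unit (m j : ℕ) (u a z : ℤ) (hu : IsCoprime u (3 : ℤ)) :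
    ∑ d ∈ range 3, Kf (1 / 2) (m + 1) j (u * (z + 3 ^ m * d) + a) = Kf (1 / 2) m j (u * z + a) := by
  rw [← Kf_marg m j (u * z + a)]
  have h := sum_affine 3 (by norm_num) (fun x : ℤ => Kf (1 / 2) (m + 1) j (u * z + a + 3 ^ m * x))
    (fun x t => by
      have e : u * z + a + 3 ^ m * (x + ((3 : ℕ) : ℤ) * t) =
          u * z + a + 3 ^ m * x + 3 ^ (m + 1) * t := by
        push_cast
        ring
      show Kf (1 / 2) (m + 1) j (u * z + a + 3 ^ m * (x + ((3 : ℕ) : ℤ) * t)) = _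
      rw [e, Kf_periodic]) u 0 (by exact_mod_cast hu)
  rw [← h]
  refine Finset.sum_congr rfl fun d _ => ?_
  congr 1
  ring

/-- `sum_affine`, then `sum_branch` and `p_sum` (for `j ≤ m`), or a direct count (for `m ≤ j`). -/
theorem Kf_sum (m j : ℕ) (u a : ℤ) (hu : IsCoprime u (3 : ℤ)) :
    ∑ x ∈ range (3 ^ m), Kf (1 / 2) m j (u * (x : ℤ) + a) = 1 := by
  have h := sum_affine (3 ^ m) (by positivity) (fun x : ℤ => Kf (1 / 2) m j x)
    (fun x t => by
      show Kf (1 / 2) m j (x + ((3 ^ m : ℕ) : ℤ) * t) = _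
      push_cast
      exact Kf_periodic m j x t) u a (by
        push_cast
        exact hu.pow_right)
  rw [h]
  clear h
  induction m with
  | zero => simp [Kf, p]
  | succ m ih =>
    rw [pow_succ, sum_split (3 ^ m) 3 (Kf (1 / 2) (m + 1) j)]
    refine (Finset.sum_congr rfl fun c _ => ?_).trans ih
    rw [← Kf_marg m j (c : ℤ)]
    push_cast
    rfl

end Pool.Agent.Syr66
end

section

set_option autoImplicit false

namespace Pool.Agent.Syr66

open Finset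

theorem Gm_nonneg (k j i : ℕ) (z : ℤ) : 0 ≤ Gm k j i z := by
  unfold Gm
  apply Ex_nonneg (by norm_num) (by norm_num)
  intro q _
  split_ifs
  · exact Kf_nonneg _ _ _
  · exact le_rfl

theorem Gm_periodic (k j i : ℕ) (z t : ℤ) : Gm k j i (z + 3 ^ i * t) = Gm k j i z := by
  unfold Gm
  apply Ex_congr
  intro q _
  have e : (2 : ℤ) ^ k * (z + 3 ^ i * t) - (q.2 : ℤ) =
      (2 ^ k * z - q.2) + 3 ^ i * (2 ^ k * t) := by ring
  rw [e, Kf_periodic]

private theorem S2_cop (k : ℕ) : IsCoprime ((2 : ℤ) ^ k) (3 : ℤ) := by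
  apply IsCoprime.pow_left
  exact ⟨-1, 1, by norm_num⟩

/-- `Kf_marg_unit` with `u = 2 ^ k`, `a = - q.2`. -/
theorem Gm_marg (k j i : ℕ) (z : ℤ) :
    ∑ d ∈ range 3, Gm k j (i + 1) (z + 3 ^ i * d) = Gm k j i z := by
  unfold Gm
  rw [← Ex_sum]
  apply Ex_congr
  intro q _
  by_cases hq : q.1 = j
  · simp only [if_pos hq]
    have h := Kf_marg_unit i j (2 ^ k) (-(q.2 : ℤ)) z (S2_cop k)
    simpa only [sub_eq_add_neg] using h
  · simp only [if_neg hq]
    simp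

/-- `Kf_sum`. -/
theorem Gm_sum (k j i : ℕ) : ∑ x ∈ range (3 ^ i), Gm k j i (x : ℤ) = M (1 / 2) k j := by
  unfold Gm M
  rw [← Ex_sum]
  apply Ex_congr
  intro q _
  by_cases hq : q.1 = j
  · simp only [if_pos hq]
    have h := Kf_sum i j (2 ^ k) (-(q.2 : ℤ)) (S2_cop k)
    simpa only [sub_eq_add_neg] using h
  · simp only [if_neg hq]
    simp

/-- `p_words`. -/
theorem sum_Gm (k i : ℕ) (z : ℤ) : ∑ j ∈ range (k + 1), Gm k j i z = p (1 / 2) i z := by
  rw [p_words (by norm_num) (by norm_num) i k z]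
  unfold Gm
  rw [← Ex_sum]
  apply Ex_congr
  intro q hq
  have hle := W_fst_le hq
  rw [Finset.sum_eq_single q.1]
  · rw [if_pos rfl]
  · intro b _ hb
    rw [if_neg (fun h => hb h.symm)]
  · intro h
    exact absurd (mem_range.mpr (by omega)) h

end Pool.Agent.Syr66
end
end

section

section

set_option autoImplicit false

namespace Pool.Agent.Syr66

open Finset

private lemma ps_conv_aux (a b c x y z : ℝ) (ha : 0 ≤ a) (hb : 0 ≤ b) (hc : 0 ≤ c)
    (hx : 0 ≤ x) (hy : 0 ≤ y) (hz : 0 ≤ z) :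
    (3 * ((a * x + b * z + c * y) ^ 2 + (a * y + b * x + c * z) ^ 2 + (a * z + b * y + c * x) ^ 2) /
      ((a * x + b * z + c * y) + (a * y + b * x + c * z) + (a * z + b * y + c * x)) -
      ((a * x + b * z + c * y) + (a * y + b * x + c * z) + (a * z + b * y + c * x))) / 2 =
    (3 * (a ^ 2 + b ^ 2 + c ^ 2) / (a + b + c) - (a + b + c)) / 2 *
      ((3 * (x ^ 2 + y ^ 2 + z ^ 2) / (x + y + z) - (x + y + z)) / 2) := by
  by_cases h1 : a + b + c = 0
  · have h2 : a = 0 := by linarith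
    have h3 : b = 0 := by linarith
    have h4 : c = 0 := by linarith
    subst h2 h3 h4
    simp
  by_cases h5 : x + y + z = 0
  · have h2 : x = 0 := by linarith
    have h3 : y = 0 := by linarith
    have h4 : z = 0 := by linarith
    subst h2 h3 h4
    simp
  have h6 : (a * x + b * z + c * y) + (a * y + b * x + c * z) + (a * z + b * y + c * x) =
      (a + b + c) * (x + y + z) := by ring
  rw [h6]
  field_simp
  ring

/-- `ps` is multiplicative under convolution on `ZMod 3`. Proof: `2 * (∑ u) * ps u =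
3 * ∑ u ^ 2 - (∑ u) ^ 2 = 2 * N u`, `N u = u 0 ^ 2 + u 1 ^ 2 + u 2 ^ 2 - u 0 * u 1 - u 1 * u 2 - u 2 * u 0`,
`N (u * w) = N u * N w` and `∑ (u * w) = (∑ u) (∑ w)` (expand the sums over `range 3` and `ring`);
if a mass is zero the weight vanishes on `range 3` and both sides are zero. -/
theorem ps_conv (u w : ℕ → ℝ) (hu : ∀ a ∈ range 3, 0 ≤ u a) (hw : ∀ a ∈ range 3, 0 ≤ w a) :
    ps (fun d => ∑ a ∈ range 3, u a * w ((d + 3 - a) % 3)) = ps u * ps w := by
  have h := ps_conv_aux (u 0) (u 1) (u 2) (w 0) (w 1) (w 2) (hu 0 (by simp)) (hu 1 (by simp))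
    (hu 2 (by simp)) (hw 0 (by simp)) (hw 1 (by simp)) (hw 2 (by simp))
  unfold ps
  simp only [sum_range_succ, sum_range_zero, zero_add, Nat.reduceAdd, Nat.reduceSub, Nat.reduceMod]
  exact h

end Pool.Agent.Syr66
end

section

set_option autoImplicit false

namespace Pool.Agent.Syr66

open Finset

private lemma ps_congr7 (u v : ℕ → ℝ) (h : ∀ a ∈ range 3, u a = v a) : ps u = ps v := by
  unfold ps
  rw [Finset.sum_congr rfl h, Finset.sum_congr rfl (fun a ha => by rw [h a ha])]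

private lemma ps_zero7 : ps (fun _ => 0) = 0 := by
  unfold ps
  simp

private lemma pt_aux7 (n j : ℕ) (hj : j ≤ n) (g : ℤ → ℝ)
    (hg : ∀ y t : ℤ, g (y + 3 ^ (n + 1 - j) * t) = g y) (z R : ℤ) (x a d : ℕ) (ha : a < 3)
    (h : (3 : ℤ) ^ (n + 1) ∣ (x : ℤ) + 3 ^ n * a - R) :
    (if (3 : ℤ) ^ j ∣ z + 3 ^ n * d - R then g ((z + 3 ^ n * d - R) / 3 ^ j) else 0) =
      (if (3 : ℤ) ^ j ∣ z - x then
        g ((z - x) / 3 ^ j + 3 ^ (n - j) * (((d + 3 - a) % 3 : ℕ) : ℤ)) else 0) := by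
  obtain ⟨t, ht⟩ := h
  obtain ⟨s, hs⟩ : ∃ s : ℤ, (((d + 3 - a) % 3 : ℕ) : ℤ) = (d : ℤ) - a + 3 * s := by
    refine ⟨1 - ((d + 3 - a) / 3 : ℕ), ?_⟩
    have := Nat.div_add_mod (d + 3 - a) 3
    omega
  have e1 : (3 : ℤ) ^ n = 3 ^ j * 3 ^ (n - j) := by
    rw [← pow_add]
    congr 1
    omega
  have e2 : (3 : ℤ) ^ (n + 1 - j) = 3 * 3 ^ (n - j) := by
    rw [← pow_succ']
    congr 1
    omega
  have hR : z + 3 ^ n * d - R =
      (z - x) + 3 ^ j * (3 ^ (n - j) * (d - a) + 3 ^ (n + 1 - j) * t) := by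
    have h1 : R = x + 3 ^ n * a - 3 ^ (n + 1) * t := by linarith
    rw [h1, pow_succ, e1, e2]
    ring
  by_cases hd : (3 : ℤ) ^ j ∣ z - x
  · obtain ⟨c, hc⟩ := hd
    have hpos : (3 : ℤ) ^ j ≠ 0 := by positivity
    rw [hR, hc, ← mul_add, if_pos (dvd_mul_right _ _), if_pos (dvd_mul_right _ _),
      Int.mul_ediv_cancel_left _ hpos, Int.mul_ediv_cancel_left _ hpos, hs]
    rw [show c + (3 ^ (n - j) * ((d : ℤ) - a) + 3 ^ (n + 1 - j) * t) =
      (c + 3 ^ (n - j) * ((d : ℤ) - a)) + 3 ^ (n + 1 - j) * t by ring, hg,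
      show c + 3 ^ (n - j) * ((d : ℤ) - a + 3 * s) =
      (c + 3 ^ (n - j) * ((d : ℤ) - a)) + 3 ^ (n + 1 - j) * s by rw [e2]; ring, hg]
  · rw [if_neg, if_neg hd]
    rw [hR]
    intro h
    exact hd ((dvd_add_left (dvd_mul_right _ _)).1 h)

private lemma rep7 (n : ℕ) (R : ℤ) (φ : ℕ → ℕ → ℝ) :
    ∃ x₀ ∈ range (3 ^ n), ∃ a₀ ∈ range 3, (3 : ℤ) ^ (n + 1) ∣ (x₀ : ℤ) + 3 ^ n * a₀ - R ∧
      ∑ x ∈ range (3 ^ n), ∑ a ∈ range 3,
        (if (3 : ℤ) ^ (n + 1) ∣ (x : ℤ) + 3 ^ n * a - R then (1 : ℝ) else 0) * φ x a = φ x₀ a₀ := by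
  have hp : (0 : ℤ) < 3 ^ n := by positivity
  have hx0 : 0 ≤ R % 3 ^ n := Int.emod_nonneg _ hp.ne'
  have hx1 : R % 3 ^ n < 3 ^ n := Int.emod_lt_of_pos _ hp
  have ha0 : 0 ≤ R / 3 ^ n % 3 := Int.emod_nonneg _ (by norm_num)
  have ha1 : R / 3 ^ n % 3 < 3 := Int.emod_lt_of_pos _ (by norm_num)
  obtain ⟨x₀, hx₀⟩ := Int.eq_ofNat_of_zero_le hx0
  obtain ⟨a₀, ha₀⟩ := Int.eq_ofNat_of_zero_le ha0
  have hx₀' : x₀ < 3 ^ n := by
    have : (x₀ : ℤ) < 3 ^ n := by rw [← hx₀]; exact hx1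
    exact_mod_cast this
  have ha₀' : a₀ < 3 := by
    have : (a₀ : ℤ) < 3 := by rw [← ha₀]; exact ha1
    exact_mod_cast this
  have hdiv : (3 : ℤ) ^ (n + 1) ∣ (x₀ : ℤ) + 3 ^ n * a₀ - R := by
    refine ⟨-(R / 3 ^ n / 3), ?_⟩
    have h1 := Int.emod_add_mul_ediv R (3 ^ n)
    have h2 := Int.emod_add_mul_ediv (R / 3 ^ n) 3
    rw [hx₀] at h1
    rw [ha₀] at h2
    have h3 : R = (x₀ : ℤ) + 3 ^ n * (a₀ + 3 * (R / 3 ^ n / 3)) := by rw [h2, h1]
    rw [pow_succ]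
    linear_combination -h3
  have huniq : ∀ x ∈ range (3 ^ n), ∀ a ∈ range 3,
      (3 : ℤ) ^ (n + 1) ∣ (x : ℤ) + 3 ^ n * a - R → x = x₀ ∧ a = a₀ := by
    intro x hx a ha h
    rw [mem_range] at hx ha
    have h1 : (3 : ℤ) ^ (n + 1) ∣ ((x : ℤ) + 3 ^ n * a) - (x₀ + 3 ^ n * a₀) := by
      have h2 := dvd_sub h hdiv
      have h3 : (x : ℤ) + 3 ^ n * a - R - (x₀ + 3 ^ n * a₀ - R) =
        ((x : ℤ) + 3 ^ n * a) - (x₀ + 3 ^ n * a₀) := by ring
      rwa [h3] at h2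
    have hlt : ∀ y b : ℕ, y < 3 ^ n → b < 3 → y + 3 ^ n * b < 3 ^ (n + 1) := by
      intro y b hy hb
      have hb' : 3 ^ n * b ≤ 3 ^ n * 2 := Nat.mul_le_mul_left _ (by omega)
      rw [pow_succ]
      omega
    have h4 := hlt x a hx ha
    have h5 := hlt x₀ a₀ hx₀' ha₀'
    have h6 : x + 3 ^ n * a = x₀ + 3 ^ n * a₀ := by
      have h7 : ((x₀ + 3 ^ n * a₀ : ℕ) : ℤ) ≡ ((x + 3 ^ n * a : ℕ) : ℤ) [ZMOD ((3 ^ (n + 1) : ℕ) : ℤ)] := by
        rw [Int.modEq_iff_dvd]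
        push_cast
        exact h1
      have h8 : (x₀ + 3 ^ n * a₀) ≡ (x + 3 ^ n * a) [MOD 3 ^ (n + 1)] :=
        (Int.natCast_modEq_iff).1 h7
      exact (Nat.ModEq.eq_of_lt_of_lt h8 h5 h4).symm
    have h9 : x = x₀ := by
      have := congrArg (· % 3 ^ n) h6
      simpa [Nat.add_mul_mod_self_left, Nat.mod_eq_of_lt hx, Nat.mod_eq_of_lt hx₀'] using this
    refine ⟨h9, ?_⟩
    subst h9
    have h10 : 3 ^ n * a = 3 ^ n * a₀ := by omega
    exact Nat.eq_of_mul_eq_mul_left (by positivity) h10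
  refine ⟨x₀, mem_range.2 hx₀', a₀, mem_range.2 ha₀', hdiv, ?_⟩
  rw [Finset.sum_eq_single x₀, Finset.sum_eq_single a₀, if_pos hdiv, one_mul]
  · intro a ha hne
    rw [if_neg, zero_mul]
    intro h
    exact hne (huniq x₀ (mem_range.2 hx₀') a ha h).2
  · intro h
    exact absurd (mem_range.2 ha₀') h
  · intro x hx hne
    refine Finset.sum_eq_zero fun a ha => ?_
    rw [if_neg, zero_mul]
    intro h
    exact hne (huniq x hx a ha h).1
  · intro h
    exact absurd (mem_range.2 hx₀') h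

/-- Pointwise convolution inequality. Write `r q = x + 3 ^ n * b`, `x = r q mod 3 ^ n ∈ [0, 3 ^ n)`,
`a = b mod 3`. Then `3 ^ j ∣ z + 3 ^ n d - r q ↔ 3 ^ j ∣ z - x` and
`(z + 3 ^ n d - r q) / 3 ^ j = (z - x) / 3 ^ j + 3 ^ (n - j) (d - b)`, so that the left function of `d`
is `∑ x, [3 ^ j ∣ z - x] ∑ a < 3, U x a * g ((z - x) / 3 ^ j + 3 ^ (n - j) ((d + 3 - a) % 3))` with
`U x a = ∑ q, w q [3 ^ (n + 1) ∣ x + 3 ^ n a - r q]`. Use `ps_sum_le` and `ps_conv`. -/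
theorem conv_pt {ι : Type*} (S : Finset ι) (w : ι → ℝ) (hw : ∀ q ∈ S, 0 ≤ w q) (r : ι → ℤ)
    (n j : ℕ) (hj : j ≤ n) (g : ℤ → ℝ) (hg0 : ∀ y : ℤ, 0 ≤ g y)
    (hg : ∀ y t : ℤ, g (y + 3 ^ (n + 1 - j) * t) = g y) (z : ℤ) :
    ps (fun d => ∑ q ∈ S, w q * (if (3 : ℤ) ^ j ∣ z + 3 ^ n * d - r q then
        g ((z + 3 ^ n * d - r q) / 3 ^ j) else 0)) ≤
      ∑ x ∈ range (3 ^ n), (if (3 : ℤ) ^ j ∣ z - x then
        ps (fun a => ∑ q ∈ S, w q *
          (if (3 : ℤ) ^ (n + 1) ∣ (x : ℤ) + 3 ^ n * a - r q then 1 else 0)) *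
        ps (fun e => g ((z - x) / 3 ^ j + 3 ^ (n - j) * e)) else 0) := by
  classical
  have e : ∀ d ∈ range 3, (∑ q ∈ S, w q * (if (3 : ℤ) ^ j ∣ z + 3 ^ n * (d : ℤ) - r q then
        g ((z + 3 ^ n * d - r q) / 3 ^ j) else 0)) =
      ∑ x ∈ range (3 ^ n), (if (3 : ℤ) ^ j ∣ z - x then
        ∑ a ∈ range 3, (∑ q ∈ S, w q *
          (if (3 : ℤ) ^ (n + 1) ∣ (x : ℤ) + 3 ^ n * a - r q then 1 else 0)) *
          (fun b : ℕ => g ((z - x) / 3 ^ j + 3 ^ (n - j) * (b : ℤ))) ((d + 3 - a) % 3) else 0) := by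
    intro d _
    have e1 : ∀ q ∈ S, w q * (if (3 : ℤ) ^ j ∣ z + 3 ^ n * (d : ℤ) - r q then
        g ((z + 3 ^ n * d - r q) / 3 ^ j) else 0) =
        ∑ x ∈ range (3 ^ n), ∑ a ∈ range 3, w q *
          ((if (3 : ℤ) ^ (n + 1) ∣ (x : ℤ) + 3 ^ n * a - r q then (1 : ℝ) else 0) *
          (if (3 : ℤ) ^ j ∣ z - x then
            g ((z - x) / 3 ^ j + 3 ^ (n - j) * (((d + 3 - a) % 3 : ℕ) : ℤ)) else 0)) := by
      intro q _
      obtain ⟨x₀, hx₀, a₀, ha₀, hdiv, hsum⟩ := rep7 n (r q) (fun x a =>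
        (if (3 : ℤ) ^ j ∣ z - x then
            g ((z - x) / 3 ^ j + 3 ^ (n - j) * (((d + 3 - a) % 3 : ℕ) : ℤ)) else 0))
      rw [pt_aux7 n j hj g hg z (r q) x₀ a₀ d (mem_range.1 ha₀) hdiv]
      rw [← hsum, Finset.mul_sum]
      refine Finset.sum_congr rfl fun x _ => ?_
      rw [Finset.mul_sum]
    rw [Finset.sum_congr rfl e1, Finset.sum_comm]
    refine Finset.sum_congr rfl fun x _ => ?_
    rw [Finset.sum_comm]
    split_ifs with hd
    · refine Finset.sum_congr rfl fun a _ => ?_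
      rw [Finset.sum_mul]
      refine Finset.sum_congr rfl fun q _ => ?_
      ring
    · simp
  rw [ps_congr7 _ _ e]
  refine (ps_sum_le (range (3 ^ n)) (fun (x : ℕ) (d : ℕ) => (if (3 : ℤ) ^ j ∣ z - x then
        ∑ a ∈ range 3, (∑ q ∈ S, w q *
          (if (3 : ℤ) ^ (n + 1) ∣ (x : ℤ) + 3 ^ n * a - r q then 1 else 0)) *
          (fun b : ℕ => g ((z - x) / 3 ^ j + 3 ^ (n - j) * (b : ℤ))) ((d + 3 - a) % 3) else 0))
      ?_).trans ?_
  · intro x _ d _
    dsimp only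
    split_ifs
    · refine Finset.sum_nonneg fun a _ => mul_nonneg (Finset.sum_nonneg fun q hq => ?_) (hg0 _)
      refine mul_nonneg (hw q hq) ?_
      split_ifs <;> norm_num
    · exact le_rfl
  · refine Finset.sum_le_sum fun x _ => ?_
    by_cases hd : (3 : ℤ) ^ j ∣ z - x
    · simp only [if_pos hd]
      refine le_of_eq (ps_conv (fun a => ∑ q ∈ S, w q *
          (if (3 : ℤ) ^ (n + 1) ∣ (x : ℤ) + 3 ^ n * a - r q then 1 else 0))
        (fun b : ℕ => g ((z - x) / 3 ^ j + 3 ^ (n - j) * (b : ℤ))) ?_ ?_)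
      · intro a _
        refine Finset.sum_nonneg fun q hq => mul_nonneg (hw q hq) ?_
        split_ifs <;> norm_num
      · intro a _
        exact hg0 _
    · simp only [if_neg hd]
      exact ps_zero7.le

end Pool.Agent.Syr66
end

section

set_option autoImplicit false

namespace Pool.Agent.Syr66

open Finset

/-- Sum `conv_pt` over `z`; for fixed `x` use `sum_branch` (with `m := n`, `r := x`) for the function
`y ↦ c * ps (e ↦ g (y + 3 ^ (n - j) e))`, which has period `3 ^ (n - j)` by `ps_periodic`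
(`n - j` in place of `n`; note `n + 1 - j = n - j + 1`). -/
theorem conv_sum {ι : Type*} (S : Finset ι) (w : ι → ℝ) (hw : ∀ q ∈ S, 0 ≤ w q) (r : ι → ℤ)
    (n j : ℕ) (hj : j ≤ n) (g : ℤ → ℝ) (hg0 : ∀ y : ℤ, 0 ≤ g y)
    (hg : ∀ y t : ℤ, g (y + 3 ^ (n + 1 - j) * t) = g y) :
    ∑ z ∈ range (3 ^ n), ps (fun d => ∑ q ∈ S, w q *
        (if (3 : ℤ) ^ j ∣ (z : ℤ) + 3 ^ n * d - r q then
          g (((z : ℤ) + 3 ^ n * d - r q) / 3 ^ j) else 0)) ≤
      (∑ x ∈ range (3 ^ n), ps (fun a => ∑ q ∈ S, w q *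
        (if (3 : ℤ) ^ (n + 1) ∣ (x : ℤ) + 3 ^ n * a - r q then 1 else 0))) *
      ∑ y ∈ range (3 ^ (n - j)), ps (fun e => g ((y : ℤ) + 3 ^ (n - j) * e)) := by
  have hnj : n + 1 - j = n - j + 1 := by omega
  set A : ℕ → ℝ := fun x => ps (fun a => ∑ q ∈ S, w q *
        (if (3 : ℤ) ^ (n + 1) ∣ (x : ℤ) + 3 ^ n * a - r q then 1 else 0)) with hA
  set G : ℤ → ℝ := fun y => ps (fun e => g (y + 3 ^ (n - j) * e)) with hG
  have hper : ∀ x t : ℤ, G (x + 3 ^ (n - j) * t) = G x := by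
    intro x t
    exact ps_periodic (n - j) g (fun x t => by rw [← hnj]; exact hg x t) x t
  calc ∑ z ∈ range (3 ^ n), ps (fun d => ∑ q ∈ S, w q *
        (if (3 : ℤ) ^ j ∣ (z : ℤ) + 3 ^ n * d - r q then
          g (((z : ℤ) + 3 ^ n * d - r q) / 3 ^ j) else 0))
      ≤ ∑ z ∈ range (3 ^ n), ∑ x ∈ range (3 ^ n),
        (if (3 : ℤ) ^ j ∣ (z : ℤ) - (x : ℤ) then A x * G (((z : ℤ) - (x : ℤ)) / 3 ^ j) else 0) :=
        sum_le_sum fun z _ => conv_pt S w hw r n j hj g hg0 hg (z : ℤ)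
    _ = ∑ x ∈ range (3 ^ n), ∑ z ∈ range (3 ^ n),
        (if (3 : ℤ) ^ j ∣ (z : ℤ) - (x : ℤ) then A x * G (((z : ℤ) - (x : ℤ)) / 3 ^ j) else 0) :=
        sum_comm
    _ = ∑ x ∈ range (3 ^ n), A x * ∑ y ∈ range (3 ^ (n - j)), G (y : ℤ) := by
        refine sum_congr rfl fun x _ => ?_
        rw [← sum_branch n j hj G hper (x : ℤ), mul_sum]
        refine sum_congr rfl fun z _ => ?_
        rw [mul_ite, mul_zero]
    _ = (∑ x ∈ range (3 ^ n), A x) * ∑ y ∈ range (3 ^ (n - j)), G (y : ℤ) := by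
        rw [sum_mul]

end Pool.Agent.Syr66
end
end
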