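import Pool.Agent.Lib.MP_529d88_nt.ND.U9
import Pool.Agent.Lib.MP_529d88_nt.K2

set_option autoImplicit false

namespace Pool.Agent.Syr66

open Finset

open Classical in
/-- Lower half: by `trajectory_law`, all but `o(x)` of the `n ≤ x` (also discard `n ≤ x ^ (1 - ε')`) have
`T^[i] n > 1` for all `i ≤ (2 / log (4 / 3) - ε) log x`. -/
theorem lower_half (ε : ℝ) (hε : 0 < ε) :
    Filter.Tendsto (fun x : ℕ => (((Finset.Icc 1 x).filter (fun n : ℕ => ∃ i : ℕ,
        (i : ℝ) ≤ (2 / Real.log (4 / 3) - ε) * Real.log x ∧ T^[i] n = 1)).card : ℝ) / x)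
      Filter.atTop (nhds 0) := by
  have hl : 0 < Real.log (4 / 3) := Real.log_pos (by norm_num)
  obtain ⟨l, hldef⟩ : ∃ l : ℝ, l = Real.log (4 / 3) := ⟨_, rfl⟩
  rw [← hldef] at hl ⊢
  obtain ⟨η, hη⟩ : ∃ η : ℝ, η = ε * l / 8 := ⟨_, rfl⟩
  have hη0 : 0 < η := by rw [hη]; positivity
  obtain ⟨δ, hδ, C, hC, htr⟩ := trajectory_law η hη0
  rw [← hldef] at htr
  have hbound : ∀ x : ℕ, 2 ≤ x → (((Finset.Icc 1 x).filter (fun n : ℕ => ∃ i : ℕ,
        (i : ℝ) ≤ (2 / l - ε) * Real.log x ∧ T^[i] n = 1)).card : ℝ) / x ≤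
        (x : ℝ) ^ (-η) + C * (x : ℝ) ^ (-δ) := by
    intro x hx
    have hx1 : (1 : ℝ) < x := by exact_mod_cast (by omega : 1 < x)
    have hx0 : (0 : ℝ) < x := by linarith
    have hlx : 0 < Real.log x := Real.log_pos hx1
    have h1 := htr x hx1.le
    rw [Nat.floor_natCast] at h1
    have hsub : (Finset.Icc 1 x).filter (fun n : ℕ => ∃ i : ℕ,
        (i : ℝ) ≤ (2 / l - ε) * Real.log x ∧ T^[i] n = 1) ⊆
        (Finset.Icc 1 ⌊(x : ℝ) ^ (1 - η)⌋₊) ∪
        (Finset.Icc 1 x).filter (fun n : ℕ => ¬ ∀ i : ℕ,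
          (i : ℝ) ≤ 2 / l * Real.log x →
            (n : ℝ) * (Real.sqrt 3 / 2) ^ i * (x : ℝ) ^ (-η) ≤ (T^[i] n : ℝ) ∧
            (T^[i] n : ℝ) ≤ (n : ℝ) * (Real.sqrt 3 / 2) ^ i * (x : ℝ) ^ η) := by
      intro n hn
      rw [mem_filter] at hn
      obtain ⟨hnI, i, hi, hTi⟩ := hn
      rw [mem_union]
      by_cases hsm : (n : ℝ) ≤ (x : ℝ) ^ (1 - η)
      · left
        rw [mem_Icc] at hnI ⊢
        exact ⟨hnI.1, Nat.le_floor hsm⟩
      · right
        rw [mem_filter]
        refine ⟨hnI, fun hall => ?_⟩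
        rw [not_le] at hsm
        have hi2 : (i : ℝ) ≤ 2 / l * Real.log x := by
          refine hi.trans ?_
          apply mul_le_mul_of_nonneg_right _ hlx.le
          linarith
        have h2 := (hall i hi2).1
        rw [hTi] at h2
        have h3 : (x : ℝ) ^ (-1 + ε * l / 2) ≤ (Real.sqrt 3 / 2) ^ i := by
          have hs : Real.sqrt 3 / 2 = Real.exp (-(l / 2)) := by
            have h4 : Real.log (Real.sqrt 3 / 2) = -(l / 2) := by
              rw [Real.log_div (by positivity) (by norm_num), Real.log_sqrt (by norm_num), hldef,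
                Real.log_div (by norm_num) (by norm_num)]
              have h5 : Real.log 4 = 2 * Real.log 2 := by
                rw [show (4 : ℝ) = 2 ^ (2 : ℕ) by norm_num, Real.log_pow]
                push_cast
                ring
              rw [h5]
              ring
            rw [← h4, Real.exp_log (by positivity)]
          rw [hs, ← Real.exp_nat_mul, Real.rpow_def_of_pos hx0, Real.exp_le_exp]
          have h6 : (i : ℝ) * (l / 2) ≤ (2 / l - ε) * Real.log x * (l / 2) :=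
            mul_le_mul_of_nonneg_right hi (by positivity)
          have h7 : (2 / l - ε) * Real.log x * (l / 2) = (1 - ε * l / 2) * Real.log x := by
            field_simp
          rw [h7] at h6
          nlinarith [h6]
        have h8 : (x : ℝ) ^ (1 - η) * (x : ℝ) ^ (-1 + ε * l / 2) * (x : ℝ) ^ (-η) ≤
            (n : ℝ) * (Real.sqrt 3 / 2) ^ i * (x : ℝ) ^ (-η) := by
          apply mul_le_mul_of_nonneg_right _ (Real.rpow_nonneg hx0.le _)
          exact mul_le_mul hsm.le h3 (Real.rpow_nonneg hx0.le _) (Nat.cast_nonneg _)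
        rw [← Real.rpow_add hx0, ← Real.rpow_add hx0] at h8
        have h9 : (1 : ℝ) < (x : ℝ) ^ (1 - η + (-1 + ε * l / 2) + -η) := by
          apply Real.one_lt_rpow hx1
          rw [hη]
          have : 0 < ε * l := by positivity
          linarith
        have h10 := h9.trans_le (h8.trans h2)
        simp at h10
    have h11 : (((Finset.Icc 1 x).filter (fun n : ℕ => ∃ i : ℕ,
        (i : ℝ) ≤ (2 / l - ε) * Real.log x ∧ T^[i] n = 1)).card : ℝ) ≤
        (x : ℝ) ^ (1 - η) + C * (x : ℝ) ^ (1 - δ) := by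
      have h12 := (card_le_card hsub).trans (card_union_le _ _)
      have h13 : (((Finset.Icc 1 x).filter (fun n : ℕ => ∃ i : ℕ,
        (i : ℝ) ≤ (2 / l - ε) * Real.log x ∧ T^[i] n = 1)).card : ℝ) ≤
          ((Finset.Icc 1 ⌊(x : ℝ) ^ (1 - η)⌋₊).card : ℝ) +
          (((Finset.Icc 1 x).filter (fun n : ℕ => ¬ ∀ i : ℕ,
          (i : ℝ) ≤ 2 / l * Real.log x →
            (n : ℝ) * (Real.sqrt 3 / 2) ^ i * (x : ℝ) ^ (-η) ≤ (T^[i] n : ℝ) ∧
            (T^[i] n : ℝ) ≤ (n : ℝ) * (Real.sqrt 3 / 2) ^ i * (x : ℝ) ^ η)).card : ℝ) := by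
        exact_mod_cast h12
      have h14 : ((Finset.Icc 1 ⌊(x : ℝ) ^ (1 - η)⌋₊).card : ℝ) ≤ (x : ℝ) ^ (1 - η) := by
        rw [Nat.card_Icc]
        simp only [Nat.add_sub_cancel]
        exact Nat.floor_le (Real.rpow_nonneg hx0.le _)
      linarith
    rw [div_le_iff₀ hx0]
    refine h11.trans (le_of_eq ?_)
    have h15 : ∀ a : ℝ, (x : ℝ) ^ (1 - a) = (x : ℝ) ^ (-a) * x := by
      intro a
      rw [show (1 : ℝ) - a = -a + 1 by ring, Real.rpow_add hx0, Real.rpow_one]
    rw [h15, h15]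
    ring
  have hlim : Filter.Tendsto (fun x : ℕ => (x : ℝ) ^ (-η) + C * (x : ℝ) ^ (-δ))
      Filter.atTop (nhds 0) := by
    have h1 : Filter.Tendsto (fun x : ℕ => (x : ℝ) ^ (-η)) Filter.atTop (nhds 0) :=
      (tendsto_rpow_neg_atTop hη0).comp tendsto_natCast_atTop_atTop
    have h2 : Filter.Tendsto (fun x : ℕ => (x : ℝ) ^ (-δ)) Filter.atTop (nhds 0) :=
      (tendsto_rpow_neg_atTop hδ).comp tendsto_natCast_atTop_atTop
    have h3 := h1.add (h2.const_mul C)
    simpa using h3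
  refine squeeze_zero' (Filter.Eventually.of_forall fun x => by positivity) ?_ hlim
  filter_upwards [Filter.eventually_ge_atTop 2] with x hx
  exact hbound x hx

end Pool.Agent.Syr66
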