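import Pool.Agent.Lib.MP_529d88_nt.ND.U10

set_option autoImplicit false

namespace Pool.Agent.Syr66

open Finset

private theorem T_pos11 {n : ℕ} (h : 1 ≤ n) : 1 ≤ T n := by
  unfold T
  split_ifs <;> omega

private theorem iter_pos11 {n : ℕ} (h : 1 ≤ n) (i : ℕ) : 1 ≤ T^[i] n := by
  induction i generalizing n with
  | zero => simpa using h
  | succ i ih =>
    rw [Function.iterate_succ_apply]
    exact ih (T_pos11 h)

open Classical in
/-- Theorem B. Upper half from `almost_bounded` (given `η` choose `N` with `C (log N) ^ (-c) < η`; if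
`T^[i] n = m ≤ N`, `m ≥ 1`, then `sInf ≤ i + max_{m ≤ N} sInf`), lower half from `lower_half`. -/
theorem normal_order (h : ∀ n : ℕ, 1 ≤ n → ∃ k : ℕ, T^[k] n = 1) (ε : ℝ) (hε : 0 < ε) :
    Filter.Tendsto (fun x : ℕ => (((Finset.Icc 1 x).filter (fun n : ℕ =>
        ε * Real.log x <
          |((sInf {k : ℕ | T^[k] n = 1} : ℕ) : ℝ) - 2 / Real.log (4 / 3) * Real.log x|)).card : ℝ) / x)
      Filter.atTop (nhds 0) := by
  obtain ⟨f, hf⟩ : ∃ f : ℕ → ℕ, f = fun n => sInf {k : ℕ | T^[k] n = 1} := ⟨_, rfl⟩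
  have hfn : ∀ n : ℕ, sInf {k : ℕ | T^[k] n = 1} = f n := fun n => by rw [hf]
  have hmem : ∀ n : ℕ, 1 ≤ n → T^[f n] n = 1 := by
    intro n hn
    rw [← hfn n]
    exact Nat.sInf_mem (s := {k : ℕ | T^[k] n = 1}) (h n hn)
  have hadd : ∀ (n i : ℕ), 1 ≤ n → f n ≤ f (T^[i] n) + i := by
    intro n i hn
    rw [← hfn n]
    refine Nat.sInf_le ?_
    show T^[f (T^[i] n) + i] n = 1
    rw [Function.iterate_add_apply]
    exact hmem _ (iter_pos11 hn i)
  simp only [hfn]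
  obtain ⟨μ, hμ⟩ : ∃ μ : ℝ, μ = 2 / Real.log (4 / 3) := ⟨_, rfl⟩
  have hlow := lower_half ε hε
  obtain ⟨C, hC, hAB⟩ := almost_bounded (ε / 2) (1 / 4) (by linarith) (by norm_num) (by norm_num)
  rw [← hμ] at hlow hAB ⊢
  rw [tendsto_order] at hlow
  rw [tendsto_order]
  refine ⟨fun a ha => Filter.Eventually.of_forall fun x => lt_of_lt_of_le ha (by positivity),
    fun η hη => ?_⟩
  have hN : ∃ N : ℕ, 2 ≤ N ∧ C * Real.log N ^ (-(1 / 4) : ℝ) < η / 2 := by
    have h1 : Filter.Tendsto (fun N : ℕ => C * Real.log (N : ℝ) ^ (-(1 / 4) : ℝ)) Filter.atTop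
        (nhds (C * 0)) :=
      ((tendsto_rpow_neg_atTop (y := 1 / 4) (by norm_num)).comp
        (Real.tendsto_log_atTop.comp tendsto_natCast_atTop_atTop)).const_mul C
    rw [mul_zero] at h1
    have h2 := (tendsto_order.1 h1).2 (η / 2) (by linarith)
    obtain ⟨N, hN1, hN2⟩ := ((Filter.eventually_ge_atTop 2).and h2).exists
    exact ⟨N, hN1, hN2⟩
  obtain ⟨N, hN2, hNη⟩ := hN
  obtain ⟨G, hG⟩ : ∃ G : ℕ, ∀ m ≤ N, f m ≤ G :=
    ⟨(range (N + 1)).sup f, fun m hm => Finset.le_sup (f := f) (mem_range.2 (by omega))⟩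
  have hlog : Filter.Tendsto (fun x : ℕ => ε / 2 * Real.log (x : ℝ)) Filter.atTop Filter.atTop :=
    (Real.tendsto_log_atTop.comp tendsto_natCast_atTop_atTop).const_mul_atTop (by linarith)
  filter_upwards [hlow.2 (η / 2) (by linarith), hlog.eventually_ge_atTop (G : ℝ),
    Filter.eventually_ge_atTop 1] with x hx1 hx2 hx3
  have hx0 : (0 : ℝ) < x := by exact_mod_cast hx3
  have hx1' : (1 : ℝ) ≤ x := by exact_mod_cast hx3
  have hB := hAB N x hN2 hx1'
  rw [Nat.floor_natCast] at hB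
  have hsub : (Finset.Icc 1 x).filter (fun n : ℕ =>
        ε * Real.log x < |((f n : ℕ) : ℝ) - μ * Real.log x|) ⊆
      (Finset.Icc 1 x).filter (fun n : ℕ => ∃ i : ℕ,
        (i : ℝ) ≤ (μ - ε) * Real.log x ∧ T^[i] n = 1) ∪
      (Finset.Icc 1 x).filter (fun n : ℕ => ∀ i : ℕ,
        (i : ℝ) ≤ (μ + ε / 2) * Real.log x → N < T^[i] n) := by
    intro n hn
    rw [mem_filter, mem_Icc] at hn
    obtain ⟨⟨hn1, hn2⟩, hn3⟩ := hn
    rw [mem_union, mem_filter, mem_filter, mem_Icc]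
    rcases lt_abs.1 hn3 with h4 | h4
    · right
      refine ⟨⟨hn1, hn2⟩, fun i hi => ?_⟩
      by_contra hcon
      rw [not_lt] at hcon
      have h5 := hG _ hcon
      have h6 := hadd n i hn1
      have h7 : (f n : ℝ) ≤ G + i := by
        have h8 : f n ≤ G + i := by omega
        exact_mod_cast h8
      nlinarith
    · left
      refine ⟨⟨hn1, hn2⟩, f n, ?_, hmem n hn1⟩
      linarith
  have hcard : (((Finset.Icc 1 x).filter (fun n : ℕ =>
        ε * Real.log x < |((f n : ℕ) : ℝ) - μ * Real.log x|)).card : ℝ) ≤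
      (((Finset.Icc 1 x).filter (fun n : ℕ => ∃ i : ℕ,
        (i : ℝ) ≤ (μ - ε) * Real.log x ∧ T^[i] n = 1)).card : ℝ) +
      (((Finset.Icc 1 x).filter (fun n : ℕ => ∀ i : ℕ,
        (i : ℝ) ≤ (μ + ε / 2) * Real.log x → N < T^[i] n)).card : ℝ) := by
    exact_mod_cast (card_le_card hsub).trans (card_union_le _ _)
  rw [div_lt_iff₀ hx0] at hx1 ⊢
  have h9 : C * x * Real.log N ^ (-(1 / 4) : ℝ) < η / 2 * x := by
    have := mul_lt_mul_of_pos_right hNη hx0
    linarith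
  linarith

end Pool.Agent.Syr66
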