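import Pool.Agent.Lib.MP_529d88_nt.ND.NDefs

set_option autoImplicit false

namespace Pool.Agent.Syr66

open Finset

/-- For typical `j`: `3 ^ j X / 2 ^ k - 1 ≤ XJ ≤ (3 ^ j X / 2 ^ k) (1 + 3 ^ k / X)`,
`j log 3 - k log 2 = - k (log (4 / 3) / 2) + (j - k / 2) log 3`. -/
theorem typ_facts (θ₁ : ℝ) (hθ : 0 < θ₁) (hθ1 : θ₁ ≤ 1 / 100) :
    ∃ X₀ : ℕ, ∀ X j : ℕ, X₀ ≤ X → |(j : ℝ) - kk X / 2| ≤ θ₁ * kk X →
      XJ (kk X) j X < X ∧ Real.log X / 2 ≤ Real.log (XJ (kk X) j X) ∧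
      Real.log (XJ (kk X) j X) ≤ Real.log X - kk X * (Real.log (4 / 3) / 2 - 2 * θ₁) := by
  refine ⟨⌈Real.exp (2 / θ₁)⌉₊, fun X j hX hj => ?_⟩
  have hx1 : Real.exp (2 / θ₁) ≤ (X : ℝ) := by
    exact le_trans (Nat.le_ceil _) (by exact_mod_cast hX)
  have hx0 : (0 : ℝ) < X := lt_of_lt_of_le (Real.exp_pos _) hx1
  set L : ℝ := Real.log X with hLdef
  have hxL : (X : ℝ) = Real.exp L := (Real.exp_log hx0).symm
  have hL1 : 2 / θ₁ ≤ L := by
    rw [hLdef, Real.le_log_iff_exp_le hx0]; exact hx1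
  have hL2 : 2 ≤ L * θ₁ := by
    rw [div_le_iff₀ hθ] at hL1; exact hL1
  have hL200 : 200 ≤ L := by
    have hLpos : 0 ≤ L := le_trans (by positivity) hL1
    nlinarith
  set k : ℕ := kk X with hk
  have hk1 : (k : ℝ) ≤ L / 20 := by
    rw [hk]; unfold kk; exact Nat.floor_le (by rw [← hLdef]; linarith)
  have hk2 : L / 20 - 1 < (k : ℝ) := by
    rw [hk]; unfold kk; exact Nat.sub_one_lt_floor _
  have hk9 : 1 ≤ (k : ℝ) := by linarith
  have hlog2a := Real.log_two_gt_d9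
  have hlog2b := Real.log_two_lt_d9
  have hlog43 : Real.log (4 / 3) = 2 * Real.log 2 - Real.log 3 := by
    rw [Real.log_div (by norm_num) (by norm_num)]
    have : (4 : ℝ) = 2 ^ 2 := by norm_num
    rw [this, Real.log_pow]; push_cast; ring
  have hlog43b : 1 / 4 ≤ Real.log (4 / 3) := by
    have h := Real.one_sub_inv_le_log_of_pos (x := 4 / 3) (by norm_num)
    have h2 : (1 : ℝ) - (4 / 3)⁻¹ = 1 / 4 := by norm_num
    linarith
  have hlog3 : Real.log 3 ≤ 6 / 5 := by linarith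
  have hlog3p : 0 ≤ Real.log 3 := Real.log_nonneg (by norm_num)
  have h2k : (2 : ℝ) ^ k = Real.exp (k * Real.log 2) := by
    rw [mul_comm, Real.exp_mul, Real.exp_log (by norm_num), Real.rpow_natCast]
  have h3k : (3 : ℝ) ^ k = Real.exp (k * Real.log 3) := by
    rw [mul_comm, Real.exp_mul, Real.exp_log (by norm_num), Real.rpow_natCast]
  have h3j : (1 : ℝ) ≤ 3 ^ j := one_le_pow₀ (by norm_num)
  -- upper bound
  have hup : ((XJ k j X : ℕ) : ℝ) ≤ (3 ^ j * X + 3 ^ k) / 2 ^ k := by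
    unfold XJ
    have := @Nat.cast_div_le ℝ _ _ _ (3 ^ j * X + 3 ^ k) (2 ^ k)
    push_cast at this
    exact this
  have hlo : ((3 : ℝ) ^ j * X + 3 ^ k) / 2 ^ k - 1 < ((XJ k j X : ℕ) : ℝ) := by
    unfold XJ
    have h1 : 3 ^ j * X + 3 ^ k < 2 ^ k * ((3 ^ j * X + 3 ^ k) / 2 ^ k + 1) :=
      Nat.lt_mul_div_succ _ (by positivity)
    have h2 : ((3 : ℝ) ^ j * X + 3 ^ k) < 2 ^ k * ((((3 ^ j * X + 3 ^ k) / 2 ^ k : ℕ) : ℝ) + 1) := by
      exact_mod_cast h1
    have h3 : (0 : ℝ) < 2 ^ k := by positivity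
    rw [sub_lt_iff_lt_add, div_lt_iff₀ h3]
    linarith
  -- lower bound for XJ
  have hroot : Real.exp (L / 2) + 1 ≤ X / 2 ^ k := by
    rw [h2k, hxL, ← Real.exp_sub]
    have h1 : 3 * L / 4 ≤ L - k * Real.log 2 := by
      have : (k : ℝ) * Real.log 2 ≤ L / 20 * 1 := by
        apply mul_le_mul hk1 (by linarith) (by linarith) (by linarith)
      linarith
    have h2 : Real.exp (3 * L / 4) ≤ Real.exp (L - k * Real.log 2) := Real.exp_le_exp.mpr h1
    have h3 : Real.exp (3 * L / 4) = Real.exp (L / 2) * Real.exp (L / 4) := by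
      rw [← Real.exp_add]; congr 1; ring
    have h4 : 2 ≤ Real.exp (L / 4) := by
      have := Real.add_one_le_exp (L / 4); linarith
    have h5 : 1 ≤ Real.exp (L / 2) := Real.one_le_exp (by linarith)
    nlinarith
  have hlow2 : Real.exp (L / 2) ≤ ((XJ k j X : ℕ) : ℝ) := by
    have h3 : (0 : ℝ) < 2 ^ k := by positivity
    have h4 : (X : ℝ) / 2 ^ k ≤ ((3 : ℝ) ^ j * X + 3 ^ k) / 2 ^ k := by
      apply div_le_div_of_nonneg_right _ h3.le
      have : (0 : ℝ) < 3 ^ k := by positivity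
      nlinarith
    linarith
  have hXJpos : (0 : ℝ) < ((XJ k j X : ℕ) : ℝ) := lt_of_lt_of_le (Real.exp_pos _) hlow2
  have hA : L / 2 ≤ Real.log ((XJ k j X : ℕ) : ℝ) := by
    rw [Real.le_log_iff_exp_le hXJpos]; exact hlow2
  -- upper bound for the logarithm
  have hB : Real.log ((XJ k j X : ℕ) : ℝ) ≤ L - k * (Real.log (4 / 3) / 2 - 2 * θ₁) := by
    have h1 : ((3 : ℝ) ^ j * X + 3 ^ k) / 2 ^ k ≤ 3 ^ j * X / 2 ^ k * (1 + 3 ^ k / X) := by
      have e : (3 : ℝ) ^ j * X / 2 ^ k * (1 + 3 ^ k / X) = (3 ^ j * X + 3 ^ j * 3 ^ k) / 2 ^ k := by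
        field_simp
      rw [e]
      have h3 : (0 : ℝ) < 2 ^ k := by positivity
      apply div_le_div_of_nonneg_right _ h3.le
      have : (0 : ℝ) < 3 ^ k := by positivity
      nlinarith
    have h2 : Real.log ((XJ k j X : ℕ) : ℝ) ≤ Real.log (3 ^ j * X / 2 ^ k * (1 + 3 ^ k / X)) :=
      Real.log_le_log hXJpos (hup.trans h1)
    have h3 : Real.log (3 ^ j * X / 2 ^ k * (1 + 3 ^ k / X)) =
        j * Real.log 3 + L - k * Real.log 2 + Real.log (1 + 3 ^ k / X) := by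
      rw [Real.log_mul (by positivity) (by positivity), Real.log_div (by positivity) (by positivity),
        Real.log_mul (by positivity) (by positivity), Real.log_pow, Real.log_pow]
    have h4 : Real.log (1 + (3 : ℝ) ^ k / X) ≤ 3 ^ k / X := by
      have := Real.log_le_sub_one_of_pos (x := 1 + (3 : ℝ) ^ k / X) (by positivity)
      linarith
    have h5 : (3 : ℝ) ^ k / X ≤ θ₁ * (4 / 5) := by
      have e : (3 : ℝ) ^ k / X = Real.exp (-(L - k * Real.log 3)) := by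
        rw [h3k, hxL, ← Real.exp_sub]; congr 1; ring
      rw [e]
      have h6 : (k : ℝ) * Real.log 3 ≤ L / 20 * (6 / 5) := by
        apply mul_le_mul hk1 hlog3 hlog3p (by linarith)
      have h7 : 9 / 10 * L ≤ L - k * Real.log 3 := by linarith
      have h8 : Real.exp (-(L - k * Real.log 3)) ≤ Real.exp (-(9 / 10 * L)) :=
        Real.exp_le_exp.mpr (by linarith)
      have h9 : 9 / 10 * L + 1 ≤ Real.exp (9 / 10 * L) := Real.add_one_le_exp _
      have h10 : Real.exp (-(9 / 10 * L)) * Real.exp (9 / 10 * L) = 1 := by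
        rw [← Real.exp_add]; simp
      have h11 : 0 < Real.exp (-(9 / 10 * L)) := Real.exp_pos _
      have h12 : Real.exp (-(9 / 10 * L)) * (9 / 10 * L) ≤ 1 := by nlinarith
      have h13 : Real.exp (-(9 / 10 * L)) * (9 / 5) ≤ θ₁ := by
        have : Real.exp (-(9 / 10 * L)) * (9 / 10 * (L * θ₁)) ≤ θ₁ := by nlinarith
        nlinarith
      linarith
    have h14 : (j : ℝ) ≤ k / 2 + θ₁ * k := by
      have := (abs_le.mp hj).2; linarith
    have h15 : (j : ℝ) * Real.log 3 ≤ (k / 2 + θ₁ * k) * Real.log 3 :=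
      mul_le_mul_of_nonneg_right h14 hlog3p
    have h16 : θ₁ * k * Real.log 3 ≤ θ₁ * k * (6 / 5) :=
      mul_le_mul_of_nonneg_left hlog3 (by positivity)
    have h17 : θ₁ * (4 / 5) ≤ θ₁ * (4 / 5) * k := by nlinarith
    rw [hlog43]
    nlinarith
  refine ⟨?_, hA, hB⟩
  have hlt : Real.log ((XJ k j X : ℕ) : ℝ) < L := by
    have : 0 < (k : ℝ) * (Real.log (4 / 3) / 2 - 2 * θ₁) := by
      apply mul_pos (by linarith); linarith
    linarith
  have h := (Real.log_lt_log_iff hXJpos hx0).mp hlt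
  exact_mod_cast h

end Pool.Agent.Syr66
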