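import Pool.Agent.Lib.MP_529d88_nt.ND.NDefs

set_option autoImplicit false

namespace Pool.Agent.Syr66

open Finset

/-- The error terms at scale `X` are `O((log X) ^ (-c))`, `κ = 1 / 2 - c`, `A = c / κ`. -/
theorem err_facts (c θ₁ : ℝ) (hc : 0 < c) (hc1 : c < 1 / 2) (hθ : 0 < θ₁) :
    ∃ C : ℝ, 0 < C ∧ ∃ X₀ : ℕ, ∀ (X : ℕ) (k m' : ℝ), X₀ ≤ X → Real.log X / 40 ≤ k →
      k ≤ Real.log X / 20 → (Real.log X / 2) ^ (1 / 2 - c) / 2 ≤ m' →
      m' ≤ (Real.log X / 2) ^ (1 / 2 - c) →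
      m' ^ (-(c / (1 / 2 - c))) + m' / Real.sqrt k ≤ C * Real.log X ^ (-c) ∧
      Real.exp (-(2 * θ₁ ^ 2 * k)) ≤ C * Real.log X ^ (-c) := by
  set κ : ℝ := 1 / 2 - c with hκ
  have hκ0 : 0 < κ := by rw [hκ]; linarith
  set A : ℝ := c / κ with hA
  have hA0 : 0 < A := div_pos hc hκ0
  have hκA : κ * A = c := by rw [hA]; field_simp
  have ha0 : 0 < 20 / θ₁ ^ 2 := by positivity
  have h2pos : (0 : ℝ) < (2 : ℝ) ^ (c + A) := Real.rpow_pos_of_pos (by norm_num) _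
  refine ⟨(2 : ℝ) ^ (c + A) + 7 + 20 / θ₁ ^ 2, by positivity, 3, ?_⟩
  intro X k m' hX hk1 hk2 hm1 hm2
  have hX3 : (3 : ℝ) ≤ (X : ℝ) := by exact_mod_cast hX
  have hL1 : 1 ≤ Real.log X := by
    have h := Real.log_le_log (by norm_num : (0 : ℝ) < 3) hX3
    have h3 : (1 : ℝ) ≤ Real.log 3 := by
      rw [Real.le_log_iff_exp_le (by norm_num)]
      have := Real.exp_one_lt_d9
      linarith
    linarith
  set L : ℝ := Real.log X with hL
  have hL0 : 0 < L := by linarith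
  have hLc : 0 < L ^ (-c) := Real.rpow_pos_of_pos hL0 _
  have hL2 : 0 < (L / 2) ^ κ := Real.rpow_pos_of_pos (by positivity) _
  have hm0 : 0 < m' := lt_of_lt_of_le (by positivity) hm1
  have hk0 : 0 < k := lt_of_lt_of_le (by positivity) hk1
  refine ⟨?_, ?_⟩
  · -- first part
    have h1 : m' ^ (-A) ≤ (2 : ℝ) ^ (c + A) * L ^ (-c) := by
      calc m' ^ (-A) ≤ ((L / 2) ^ κ / 2) ^ (-A) :=
            Real.rpow_le_rpow_of_nonpos (by positivity) hm1 (by linarith)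
        _ = (2 : ℝ) ^ (c + A) * L ^ (-c) := by
            rw [Real.div_rpow hL2.le (by norm_num), ← Real.rpow_mul (by positivity)]
            rw [show κ * -A = -c by rw [mul_neg, hκA]]
            rw [Real.div_rpow hL0.le (by norm_num), Real.rpow_neg (by norm_num : (0:ℝ) ≤ 2) A,
              Real.rpow_neg (by norm_num : (0:ℝ) ≤ 2) c, Real.rpow_add (by norm_num : (0:ℝ) < 2)]
            field_simp
    have h2 : m' / Real.sqrt k ≤ 7 * L ^ (-c) := by
      have hs : Real.sqrt L / 7 ≤ Real.sqrt k := by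
        rw [div_le_iff₀ (by norm_num)]
        have : Real.sqrt L ≤ Real.sqrt (k * 49) := Real.sqrt_le_sqrt (by linarith)
        rw [Real.sqrt_mul hk0.le] at this
        rw [show (49 : ℝ) = 7 ^ 2 by norm_num, Real.sqrt_sq (by norm_num)] at this
        exact this
      have hsL : 0 < Real.sqrt L := Real.sqrt_pos.mpr hL0
      have hsk : 0 < Real.sqrt k := Real.sqrt_pos.mpr hk0
      rw [div_le_iff₀ hsk]
      have h3 : m' ≤ L ^ κ :=
        hm2.trans (Real.rpow_le_rpow (by positivity) (by linarith) hκ0.le)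
      have h4 : L ^ κ = L ^ (-c) * Real.sqrt L := by
        rw [Real.sqrt_eq_rpow, ← Real.rpow_add hL0]
        congr 1
        rw [hκ]; ring
      calc m' ≤ L ^ (-c) * Real.sqrt L := by rw [← h4]; exact h3
        _ = 7 * L ^ (-c) * (Real.sqrt L / 7) := by ring
        _ ≤ 7 * L ^ (-c) * Real.sqrt k := by
            apply mul_le_mul_of_nonneg_left hs (by positivity)
    have h5 : 0 ≤ 20 / θ₁ ^ 2 * L ^ (-c) := by positivity
    calc m' ^ (-A) + m' / Real.sqrt k ≤ (2 : ℝ) ^ (c + A) * L ^ (-c) + 7 * L ^ (-c) := by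
          linarith
      _ ≤ ((2 : ℝ) ^ (c + A) + 7 + 20 / θ₁ ^ 2) * L ^ (-c) := by
          rw [add_mul, add_mul]; linarith
  · have h1 : Real.exp (-(2 * θ₁ ^ 2 * k)) ≤ Real.exp (-(θ₁ ^ 2 / 20 * L)) := by
      apply Real.exp_le_exp.mpr
      have : θ₁ ^ 2 * (L / 40) ≤ θ₁ ^ 2 * k := mul_le_mul_of_nonneg_left hk1 (by positivity)
      linarith
    have h2 : Real.exp (-(θ₁ ^ 2 / 20 * L)) ≤ 20 / θ₁ ^ 2 * L ^ (-c) := by
      have h3 : θ₁ ^ 2 / 20 * L ≤ Real.exp (θ₁ ^ 2 / 20 * L) := by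
        have := Real.add_one_le_exp (θ₁ ^ 2 / 20 * L)
        linarith
      have h4 : L ^ (-(1 : ℝ)) ≤ L ^ (-c) :=
        Real.rpow_le_rpow_of_exponent_le hL1 (by linarith)
      rw [Real.rpow_neg_one] at h4
      rw [Real.exp_neg]
      calc (Real.exp (θ₁ ^ 2 / 20 * L))⁻¹ ≤ (θ₁ ^ 2 / 20 * L)⁻¹ :=
            inv_anti₀ (by positivity) h3
        _ = 20 / θ₁ ^ 2 * L⁻¹ := by field_simp
        _ ≤ 20 / θ₁ ^ 2 * L ^ (-c) := mul_le_mul_of_nonneg_left h4 ha0.le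
    calc Real.exp (-(2 * θ₁ ^ 2 * k)) ≤ 20 / θ₁ ^ 2 * L ^ (-c) := h1.trans h2
      _ ≤ ((2 : ℝ) ^ (c + A) + 7 + 20 / θ₁ ^ 2) * L ^ (-c) := by
          apply mul_le_mul_of_nonneg_right _ hLc.le
          linarith

/-- `(3 ^ k) / X` is smaller than any negative power of `log X`. -/
theorem small_facts (c η : ℝ) (hc : 0 < c) (hη : 0 < η) :
    ∃ X₀ : ℕ, ∀ X k : ℕ, X₀ ≤ X → (k : ℝ) ≤ Real.log X / 20 →
      (3 : ℝ) ^ k / X ≤ η * Real.log X ^ (-c) := by
  have ht := tendsto_rpow_mul_exp_neg_mul_atTop_nhds_zero c (1 / 2) (by norm_num)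
  have ht2 : Filter.Tendsto (fun X : ℕ => Real.log X ^ c * Real.exp (-(1 / 2) * Real.log X))
      Filter.atTop (nhds 0) :=
    ht.comp (Real.tendsto_log_atTop.comp tendsto_natCast_atTop_atTop)
  have hev := (ht2.eventually (gt_mem_nhds hη)).and (Filter.eventually_ge_atTop 3)
  obtain ⟨X₀, hX₀⟩ := Filter.eventually_atTop.mp hev
  refine ⟨X₀, ?_⟩
  intro X k hX hk
  obtain ⟨h1, h2⟩ := hX₀ X hX
  have hX3 : (3 : ℝ) ≤ (X : ℝ) := by exact_mod_cast h2
  have hX0 : (0 : ℝ) < X := by linarith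
  have hL0 : 0 < Real.log X := Real.log_pos (by linarith)
  set L : ℝ := Real.log X with hL
  have hXe : (X : ℝ) = Real.exp L := (Real.exp_log hX0).symm
  have h3 : (3 : ℝ) ^ k ≤ Real.exp (L / 2) := by
    have h4 : (3 : ℝ) ^ k = Real.exp (Real.log 3 * k) := by
      rw [← Real.rpow_natCast, Real.rpow_def_of_pos (by norm_num)]
    rw [h4]
    apply Real.exp_le_exp.mpr
    have h5 : Real.log 3 ≤ 2 := by
      have := Real.log_le_sub_one_of_pos (by norm_num : (0 : ℝ) < 3)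
      linarith
    have h6 : Real.log 3 * k ≤ 2 * (L / 20) :=
      mul_le_mul h5 hk (by positivity) (by norm_num)
    linarith
  rw [Real.rpow_neg hL0.le, ← div_eq_mul_inv, le_div_iff₀ (Real.rpow_pos_of_pos hL0 _)]
  calc (3 : ℝ) ^ k / X * L ^ c ≤ Real.exp (L / 2) / X * L ^ c := by
        apply mul_le_mul_of_nonneg_right _ (Real.rpow_nonneg hL0.le _)
        exact div_le_div_of_nonneg_right h3 hX0.le
    _ = L ^ c * Real.exp (-(1 / 2) * L) := by
        rw [hXe, ← Real.exp_sub]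
        rw [show L / 2 - L = -(1 / 2) * L by ring]
        ring
    _ ≤ η := h1.le

/-- Gain of the potential: `y ≤ L (1 - δ)` gives `y ^ (-c) - L ^ (-c) ≥ c δ L ^ (-c)`. -/
theorem gain_potential (c δ L y : ℝ) (hc : 0 < c) (hδ : 0 < δ) (hδ1 : δ < 1) (hL : 0 < L)
    (hy : 0 < y) (h : y ≤ L * (1 - δ)) :
    L ^ (-c) + c * δ * L ^ (-c) ≤ y ^ (-c) := by
  have h1δ : 0 < 1 - δ := by linarith
  have h1 : (L * (1 - δ)) ^ (-c) ≤ y ^ (-c) :=
    Real.rpow_le_rpow_of_nonpos hy h (by linarith)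
  rw [Real.mul_rpow hL.le h1δ.le] at h1
  have h2 : 1 + c * δ ≤ (1 - δ) ^ (-c) := by
    rw [Real.rpow_def_of_pos h1δ]
    have h3 := Real.add_one_le_exp (Real.log (1 - δ) * -c)
    have h4 : Real.log (1 - δ) ≤ -δ := by
      have := Real.log_le_sub_one_of_pos h1δ
      linarith
    have h5 : c * δ ≤ Real.log (1 - δ) * -c := by
      nlinarith
    linarith
  have hLc : 0 < L ^ (-c) := Real.rpow_pos_of_pos hL _
  calc L ^ (-c) + c * δ * L ^ (-c) = L ^ (-c) * (1 + c * δ) := by ring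
    _ ≤ L ^ (-c) * (1 - δ) ^ (-c) := mul_le_mul_of_nonneg_left h2 hLc.le
    _ ≤ y ^ (-c) := h1

end Pool.Agent.Syr66
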