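import Pool.Agent.Lib.MP_529d88_nt.A1
import Pool.Agent.Lib.MP_529d88_nt.ND.NDefs
import Pool.Agent.Lib.MP_529d88_nt.ND.Q8
import Pool.Agent.Lib.MP_529d88_nt.C3

section

set_option autoImplicit false

namespace Pool.Agent.Syr66

open Finset

private lemma u1_shift (P : ℕ) (f : ℤ → ℝ) (hf : ∀ x t : ℤ, f (x + P * t) = f x) :
    ∑ i ∈ range P, f ((i : ℤ) + 1) = ∑ x ∈ range P, f (x : ℤ) := by
  have h1 := Finset.sum_range_succ (fun i : ℕ => f (i : ℤ)) P
  have h2 := Finset.sum_range_succ' (fun i : ℕ => f (i : ℤ)) P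
  have h3 : f ((P : ℕ) : ℤ) = f ((0 : ℕ) : ℤ) := by
    have := hf 0 1
    simpa using this
  rw [h1, h3] at h2
  have h4 : ∑ i ∈ range P, f ((i : ℤ) + 1) = ∑ i ∈ range P, f (((i + 1 : ℕ)) : ℤ) := by
    refine Finset.sum_congr rfl fun i _ => ?_
    push_cast
    rfl
  rw [h4]
  linarith

private lemma u1_blocks (P : ℕ) (f : ℤ → ℝ) (hf : ∀ x t : ℤ, f (x + P * t) = f x) (Q : ℕ) :
    ∑ i ∈ range (P * Q), f ((i : ℤ) + 1) = Q * ∑ x ∈ range P, f (x : ℤ) := by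
  induction Q with
  | zero => simp
  | succ Q ih =>
    rw [Nat.mul_succ, Finset.sum_range_add, ih]
    have : ∑ x ∈ range P, f (((P * Q + x : ℕ) : ℤ) + 1) = ∑ x ∈ range P, f ((x : ℤ) + 1) := by
      refine Finset.sum_congr rfl fun i _ => ?_
      have h := hf ((i : ℤ) + 1) Q
      rw [← h]
      congr 1
      push_cast
      ring
    rw [this, u1_shift P f hf]
    push_cast
    ring

/-- Cover `[1, X]` by at most `X / P + 1` blocks of length `P`. -/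
theorem sum_periodic_le (P X : ℕ) (hP : 0 < P) (f : ℤ → ℝ) (hf0 : ∀ z, 0 ≤ f z)
    (hf : ∀ x t : ℤ, f (x + P * t) = f x) :
    ∑ n ∈ Icc 1 X, f (n : ℤ) ≤ ((X : ℝ) / P + 1) * ∑ x ∈ range P, f (x : ℤ) := by
  have h1 : ∑ n ∈ Icc 1 X, f (n : ℤ) = ∑ i ∈ range X, f ((i : ℤ) + 1) := by
    rw [Finset.range_eq_Ico]
    have := Finset.sum_Ico_add' (fun i : ℕ => f (i : ℤ)) 0 X 1
    have h2 : ∑ i ∈ Ico 0 X, f ((i : ℤ) + 1) = ∑ i ∈ Ico 0 X, f (((i + 1 : ℕ)) : ℤ) := by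
      refine Finset.sum_congr rfl fun i _ => ?_
      push_cast
      rfl
    rw [h2, this]
    refine Finset.sum_congr ?_ fun _ _ => rfl
    ext n
    simp only [Finset.mem_Icc, Finset.mem_Ico]
    omega
  have h2 : X ≤ P * (X / P + 1) := by
    have := Nat.lt_mul_div_succ X hP
    exact this.le
  have h3 : ∑ i ∈ range X, f ((i : ℤ) + 1) ≤ ∑ i ∈ range (P * (X / P + 1)), f ((i : ℤ) + 1) :=
    Finset.sum_le_sum_of_subset_of_nonneg (Finset.range_subset_range.2 h2)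
      (fun _ _ _ => hf0 _)
  rw [h1]
  refine h3.trans ?_
  rw [u1_blocks P f hf]
  refine mul_le_mul_of_nonneg_right ?_ (Finset.sum_nonneg fun _ _ => hf0 _)
  push_cast
  have : ((X / P : ℕ) : ℝ) ≤ (X : ℝ) / P := Nat.cast_div_le
  linarith

end Pool.Agent.Syr66
end

section

section

set_option autoImplicit false

namespace Pool.Agent.Syr66

open Finset

/-- Sizes, for `X` large: `k = kk X ~ log X / 20`, `m ≤ (log X) ^ κ`, `m' = mk κ X`, `0 < κ < 1 / 2`. -/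
theorem size_facts (κ θ : ℝ) (hκ : 0 < κ) (hκ1 : κ < 1 / 2) (hθ : 0 < θ) :
    ∃ X₀ : ℕ, ∀ X m : ℕ, X₀ ≤ X → (m : ℝ) ≤ Real.log X ^ κ →
      3 ^ kk X + 3 ^ m * 2 ^ kk X ≤ X ∧ 1 ≤ mk κ X ∧ 16 * mk κ X ≤ kk X ∧
      (m : ℝ) ≤ θ * kk X ∧ Real.log X / 40 ≤ kk X ∧ (kk X : ℝ) ≤ Real.log X / 20 ∧
      (Real.log X / 2) ^ κ / 2 ≤ mk κ X ∧ (mk κ X : ℝ) ≤ (Real.log X / 2) ^ κ := by
  set S : ℝ := 400 + 40 / θ + θ with hS
  have hdiv : 0 < 40 / θ := by positivity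
  have hS400 : 400 ≤ S := by rw [hS]; linarith
  have hSθ : θ ≤ S := by rw [hS]; linarith
  have hS40 : 40 / θ ≤ S := by rw [hS]; linarith
  refine ⟨⌈Real.exp (S ^ 2)⌉₊ + 1, ?_⟩
  intro X m hX hm
  have hXr : Real.exp (S ^ 2) ≤ (X : ℝ) := by
    have h1 := Nat.le_ceil (Real.exp (S ^ 2))
    have h2 : ((⌈Real.exp (S ^ 2)⌉₊ + 1 : ℕ) : ℝ) ≤ (X : ℝ) := by exact_mod_cast hX
    push_cast at h2
    linarith
  have hXpos : (0 : ℝ) < X := lt_of_lt_of_le (Real.exp_pos _) hXr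
  set L : ℝ := Real.log X with hL
  have hLS : S ^ 2 ≤ L := by
    rw [hL, Real.le_log_iff_exp_le hXpos]
    exact hXr
  set s : ℝ := Real.sqrt L with hs
  have hL0 : 0 ≤ L := le_trans (sq_nonneg S) hLS
  have hsS : S ≤ s := by
    rw [hs]
    exact Real.le_sqrt_of_sq_le hLS
  have hsq : s ^ 2 = L := by
    rw [hs]
    exact Real.sq_sqrt hL0
  have hs400 : 400 ≤ s := le_trans hS400 hsS
  have hL1 : 1 ≤ L := by nlinarith
  have hL160 : 160000 ≤ L := by nlinarith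
  have hLk : L ^ κ ≤ s := by
    calc L ^ κ ≤ L ^ (1 / 2 : ℝ) := Real.rpow_le_rpow_of_exponent_le hL1 hκ1.le
      _ = s := by rw [hs, Real.sqrt_eq_rpow]
  have hL2k : (L / 2) ^ κ ≤ L ^ κ :=
    Real.rpow_le_rpow (by linarith) (by linarith) hκ.le
  have hL2one : 1 ≤ (L / 2) ^ κ := Real.one_le_rpow (by linarith) hκ.le
  have hk1 : (kk X : ℝ) ≤ L / 20 := by
    unfold kk
    exact Nat.floor_le (by rw [← hL]; linarith)
  have hk2 : L / 20 - 1 < (kk X : ℝ) := by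
    unfold kk
    exact Nat.sub_one_lt_floor _
  have hm1 : (mk κ X : ℝ) ≤ (L / 2) ^ κ := by
    unfold mk
    exact Nat.floor_le (by rw [← hL]; linarith)
  have hm2 : (L / 2) ^ κ - 1 < (mk κ X : ℝ) := by
    unfold mk
    exact Nat.sub_one_lt_floor _
  have hm3 : 1 ≤ mk κ X := by
    unfold mk
    exact Nat.le_floor (by rw [← hL]; exact_mod_cast hL2one)
  have hm3r : (1 : ℝ) ≤ (mk κ X : ℝ) := by exact_mod_cast hm3
  refine ⟨?_, hm3, ?_, ?_, ?_, hk1, ?_, hm1⟩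
  · -- the size condition
    have hlog3 : Real.log 3 ≤ 1.2 := by
      have h := Real.log_le_sub_one_of_pos (x := (3 : ℝ) / Real.exp 1) (by positivity)
      rw [Real.log_div (by norm_num) (by positivity), Real.log_exp] at h
      have he : 2.7 ≤ Real.exp 1 := by
        have := Real.exp_one_gt_d9
        linarith
      have : (3 : ℝ) / Real.exp 1 ≤ 3 / 2.7 := by
        apply div_le_div_of_nonneg_left (by norm_num) (by norm_num) he
      have h3 : (3 : ℝ) / 2.7 ≤ 1.2 := by norm_num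
      linarith
    have hlog2 : Real.log 2 ≤ 1 := by
      have := Real.log_two_lt_d9
      linarith
    have hkn : (0 : ℝ) ≤ kk X := by positivity
    have hmn : (0 : ℝ) ≤ m := by positivity
    have hms : (m : ℝ) ≤ s := le_trans hm hLk
    have h3k : (3 : ℝ) ^ kk X ≤ Real.exp (L / 2) := by
      rw [← Real.rpow_natCast, Real.rpow_def_of_pos (by norm_num)]
      apply Real.exp_le_exp.mpr
      nlinarith
    have h3m : (3 : ℝ) ^ m * 2 ^ kk X ≤ Real.exp (L / 2) := by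
      rw [← Real.rpow_natCast, ← Real.rpow_natCast, Real.rpow_def_of_pos (by norm_num),
        Real.rpow_def_of_pos (by norm_num), ← Real.exp_add]
      apply Real.exp_le_exp.mpr
      have hlog3n : 0 ≤ Real.log 3 := Real.log_nonneg (by norm_num)
      have hlog2n : 0 ≤ Real.log 2 := Real.log_nonneg (by norm_num)
      have h1 : Real.log 3 * m ≤ 1.2 * s := mul_le_mul hlog3 hms hmn (by norm_num)
      have h2 : Real.log 2 * kk X ≤ 1 * (L / 20) := mul_le_mul hlog2 hk1 hkn (by norm_num)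
      nlinarith
    have h2 : 2 * Real.exp (L / 2) ≤ Real.exp L := by
      have h3 : Real.exp L = Real.exp (L / 2) * Real.exp (L / 2) := by
        rw [← Real.exp_add]; congr 1; ring
      have h4 : 2 ≤ Real.exp (L / 2) := by
        have := Real.add_one_le_exp (L / 2)
        linarith
      rw [h3]
      have := Real.exp_pos (L / 2)
      nlinarith
    have h5 : Real.exp L = X := by rw [hL, Real.exp_log hXpos]
    have h6 : (3 : ℝ) ^ kk X + 3 ^ m * 2 ^ kk X ≤ X := by linarith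
    exact_mod_cast h6
  · have h1 : (16 : ℝ) * mk κ X ≤ kk X := by nlinarith
    exact_mod_cast h1
  · have h1 : (m : ℝ) ≤ s := le_trans hm hLk
    have h2 : 40 ≤ θ * s := by
      have : 40 / θ ≤ s := le_trans hS40 hsS
      rw [div_le_iff₀ hθ] at this
      linarith
    have h3 : θ ≤ s := le_trans hSθ hsS
    have h4 : θ * (L / 20 - 1) ≤ θ * kk X := by
      apply mul_le_mul_of_nonneg_left hk2.le hθ.le
    have h5 : 40 * s ≤ θ * s * s := by
      apply mul_le_mul_of_nonneg_right h2 (by linarith)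
    have h6 : s ≤ θ * (L / 20 - 1) := by
      rw [← hsq]
      nlinarith
    linarith
  · linarith
  · linarith

end Pool.Agent.Syr66
end

section

set_option autoImplicit false

namespace Pool.Agent.Syr66

open Finset

private theorem U2_pow {k : ℕ} {q : ℕ × ℕ} (hq : q ∈ W k) :
    (2 : ℝ) ^ k * wt (1 / 2) k q.1 = 1 := by
  have h1 := W_fst_le hq
  unfold wt
  have e : (1 - 1 / 2 : ℝ) = 1 / 2 := by norm_num
  rw [e, ← pow_add, Nat.add_sub_cancel' h1, ← mul_pow]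
  norm_num

open Classical in
private noncomputable def U2_g (k m : ℕ) (B' : ℕ → Prop) (x : Σ _ : ℕ, ℕ × (ℕ × ℕ)) : ℝ :=
  if B' x.2.1 then (if x.2.2.1 = x.1 then
    3 ^ m * Kf (1 / 2) (m + x.1) x.1 (2 ^ k * (x.2.1 : ℤ) - x.2.2.2) else 0) else 0

private theorem U2_g_nonneg (k m : ℕ) (B' : ℕ → Prop) (x : Σ _ : ℕ, ℕ × (ℕ × ℕ)) :
    0 ≤ U2_g k m B' x := by
  unfold U2_g
  split_ifs
  · exact mul_nonneg (by positivity) (Kf_nonneg _ _ _)
  · exact le_rfl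
  · exact le_rfl

open Classical in
private theorem U2_rhs (k m X : ℕ) (B' : ℕ → Prop) :
    (∑ j ∈ range (k + 1), 3 ^ m * 2 ^ k *
      ∑ n ∈ Icc 1 (XJ k j X), if B' n then Gm k j (m + j) (n : ℤ) else 0) =
    ∑ x ∈ (range (k + 1)).sigma (fun j => Icc 1 (XJ k j X) ×ˢ W k), U2_g k m B' x := by
  rw [sum_sigma]
  refine sum_congr rfl (fun j _ => ?_)
  rw [sum_product, mul_sum]
  refine sum_congr rfl (fun n _ => ?_)
  unfold U2_g
  by_cases hB : B' n
  · simp only [if_pos hB]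
    unfold Gm Ex
    rw [mul_sum]
    refine sum_congr rfl (fun q hq => ?_)
    by_cases hj : q.1 = j
    · simp only [if_pos hj]
      have h := U2_pow hq
      calc (3 : ℝ) ^ m * 2 ^ k * (wt (1 / 2) k q.1 *
            Kf (1 / 2) (m + j) j (2 ^ k * (n : ℤ) - q.2))
          = (2 ^ k * wt (1 / 2) k q.1) *
            (3 ^ m * Kf (1 / 2) (m + j) j (2 ^ k * (n : ℤ) - q.2)) := by ring
        _ = _ := by rw [h, one_mul]
    · simp only [if_neg hj, mul_zero]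
  · simp only [if_neg hB, mul_zero, sum_const_zero]

private noncomputable def U2_i (k n : ℕ) : Σ _ : ℕ, ℕ × (ℕ × ℕ) :=
  ⟨(enc k n).1, (T^[k] n, enc k n)⟩

private theorem U2_i_inj (k : ℕ) {a b : ℕ} (h : U2_i k a = U2_i k b) : a = b := by
  unfold U2_i at h
  have h1 : (T^[k] a, enc k a) = (T^[k] b, enc k b) := by
    have := congrArg Sigma.snd h
    simpa using this
  have h2 : T^[k] a = T^[k] b := (Prod.mk.inj h1).1
  have h3 : enc k a = enc k b := (Prod.mk.inj h1).2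
  have e1 := enc_spec k a
  have e2 := enc_spec k b
  rw [h2, h3, e2] at e1
  have h4 : 3 ^ (enc k b).1 * b = 3 ^ (enc k b).1 * a := by omega
  exact (Nat.eq_of_mul_eq_mul_left (by positivity) h4).symm

open Classical in
/-- Group `n ∈ [1, X]`, `B n`, by `q = enc k n ∈ W k` and `n' = T^[k] n`: `2 ^ k n' = 3 ^ j n + r`
(`enc_spec`), so `n' ≤ XJ k j X` (`W_snd_lt`), `n' ≥ 1` and `n = (2 ^ k n' - r) / 3 ^ j`; hence
`∑ n, [B n] 3 ^ m p m n ≤ ∑ q ∈ W k, ∑ n' ≤ XJ, [B' n'] [3 ^ j ∣ 2 ^ k n' - r] 3 ^ m p m (...)`, and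
`Kf (m + j) j z = [3 ^ j ∣ z] p m (z / 3 ^ j)`. -/
theorem transfer (k m X : ℕ) (B B' : ℕ → Prop) (h : ∀ n, B n → B' (T^[k] n)) :
    bb m X B ≤ ∑ j ∈ range (k + 1), 3 ^ m * 2 ^ k *
      ∑ n ∈ Icc 1 (XJ k j X), if B' n then Gm k j (m + j) (n : ℤ) else 0 := by
  rw [U2_rhs]
  unfold bb
  rw [← sum_filter]
  have hval : ∀ n ∈ (Icc 1 X).filter B, 3 ^ m * p (1 / 2) m (n : ℤ) =
      U2_g k m B' (U2_i k n) := by
    intro n hn
    rw [mem_filter] at hn
    unfold U2_g U2_i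
    simp only [if_pos (h n hn.2), if_true]
    congr 1
    unfold Kf
    have hs := enc_spec k n
    have hz : (2 : ℤ) ^ k * ((T^[k] n : ℕ) : ℤ) - ((enc k n).2 : ℤ) =
        3 ^ (enc k n).1 * (n : ℤ) := by
      have : ((2 ^ k * T^[k] n : ℕ) : ℤ) = ((3 ^ (enc k n).1 * n + (enc k n).2 : ℕ) : ℤ) := by
        rw [hs]
      push_cast at this
      linarith
    have hmin : min (enc k n).1 (m + (enc k n).1) = (enc k n).1 := by omega
    have hsub : m + (enc k n).1 - (enc k n).1 = m := by omega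
    rw [hz, hmin, hsub, if_pos (Dvd.intro _ rfl),
      Int.mul_ediv_cancel_left _ (by positivity)]
  rw [sum_congr rfl hval, ← sum_image (s := (Icc 1 X).filter B) (g := U2_i k)
    (f := U2_g k m B') (fun a _ b _ hab => U2_i_inj k hab)]
  refine sum_le_sum_of_subset_of_nonneg ?_ (fun x _ _ => U2_g_nonneg k m B' x)
  intro x hx
  rw [mem_image] at hx
  obtain ⟨n, hn, rfl⟩ := hx
  rw [mem_filter, mem_Icc] at hn
  obtain ⟨⟨hn1, hnX⟩, -⟩ := hn
  have hm := enc_mem k n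
  have h1 := W_fst_le hm
  have h2 := W_snd_lt hm
  have hs := enc_spec k n
  rw [mem_sigma]
  unfold U2_i
  refine ⟨mem_range.2 (by show (enc k n).1 < k + 1; omega), ?_⟩
  show (T^[k] n, enc k n) ∈ Icc 1 (XJ k (enc k n).1 X) ×ˢ W k
  rw [mem_product, mem_Icc]
  refine ⟨⟨?_, ?_⟩, hm⟩
  · show 1 ≤ T^[k] n
    by_contra hc
    have h0 : T^[k] n = 0 := by omega
    rw [h0, mul_zero] at hs
    have : 0 < 3 ^ (enc k n).1 * n := by positivity
    omega
  · show T^[k] n ≤ XJ k (enc k n).1 X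
    unfold XJ
    rw [Nat.le_div_iff_mul_le (by positivity), mul_comm, hs]
    have : 3 ^ (enc k n).1 * n ≤ 3 ^ (enc k n).1 * X := Nat.mul_le_mul_left _ hnX
    omega

end Pool.Agent.Syr66
end

section

set_option autoImplicit false

namespace Pool.Agent.Syr66

open Finset

private theorem U3_factor (k m j X : ℕ) (hX : 3 ^ k + 3 ^ m * 2 ^ k ≤ X) :
    (3 : ℝ) ^ m * 2 ^ k * ((XJ k j X : ℝ) / (3 ^ (m + j) : ℕ) + 1) ≤ 2 * X := by
  have h1 : (XJ k j X : ℝ) * 2 ^ k ≤ 3 ^ j * X + 3 ^ k := by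
    have := Nat.div_mul_le_self (3 ^ j * X + 3 ^ k) (2 ^ k)
    have h : (XJ k j X) * 2 ^ k ≤ 3 ^ j * X + 3 ^ k := this
    exact_mod_cast h
  have hXr : (3 : ℝ) ^ k + 3 ^ m * 2 ^ k ≤ X := by exact_mod_cast hX
  have h3j : (1 : ℝ) ≤ 3 ^ j := one_le_pow₀ (by norm_num)
  have e : (3 : ℝ) ^ m * 2 ^ k * ((XJ k j X : ℝ) / (3 ^ (m + j) : ℕ) + 1) =
      (XJ k j X : ℝ) * 2 ^ k / 3 ^ j + 3 ^ m * 2 ^ k := by
    push_cast
    rw [pow_add]
    field_simp
  rw [e]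
  have h2 : (XJ k j X : ℝ) * 2 ^ k / 3 ^ j ≤ X + 3 ^ k := by
    rw [div_le_iff₀ (by positivity)]
    have : (3 : ℝ) ^ k ≤ 3 ^ k * 3 ^ j := le_mul_of_one_le_right (by positivity) h3j
    nlinarith [h1, this]
  linarith

private theorem U3_period (k m m' j : ℕ) (hm : m' ≤ m + j) (x t : ℤ) :
    |Gm k j (m + j) (x + ((3 ^ (m + j) : ℕ) : ℤ) * t) -
        M (1 / 2) k j * p (1 / 2) m' (x + ((3 ^ (m + j) : ℕ) : ℤ) * t) / 3 ^ (m + j - m')| =
      |Gm k j (m + j) x - M (1 / 2) k j * p (1 / 2) m' x / 3 ^ (m + j - m')| := by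
  push_cast
  rw [Gm_periodic]
  have e : x + (3 : ℤ) ^ (m + j) * t = x + 3 ^ m' * (3 ^ (m + j - m') * t) := by
    rw [← mul_assoc, ← pow_add, Nat.add_sub_cancel' hm]
  rw [e, p_periodic]

open Classical in
private theorem U3_in (k m m' j X : ℕ) (hm : m' ≤ m + j) (B' : ℕ → Prop)
    (hX : 3 ^ k + 3 ^ m * 2 ^ k ≤ X) :
    (3 : ℝ) ^ m * 2 ^ k *
      (∑ n ∈ Icc 1 (XJ k j X), if B' n then Gm k j (m + j) (n : ℤ) else 0) ≤
      2 ^ k / 3 ^ j * M (1 / 2) k j * bb m' (XJ k j X) B' + 2 * X * er k m m' j := by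
  have h1 : (∑ n ∈ Icc 1 (XJ k j X), if B' n then Gm k j (m + j) (n : ℤ) else 0) ≤
      (∑ n ∈ Icc 1 (XJ k j X),
        if B' n then M (1 / 2) k j * p (1 / 2) m' (n : ℤ) / 3 ^ (m + j - m') else 0) +
      ∑ n ∈ Icc 1 (XJ k j X),
        |Gm k j (m + j) (n : ℤ) - M (1 / 2) k j * p (1 / 2) m' (n : ℤ) / 3 ^ (m + j - m')| := by
    rw [← Finset.sum_add_distrib]
    refine Finset.sum_le_sum fun n _ => ?_
    by_cases hB : B' n
    · simp only [if_pos hB]
      have := le_abs_self (Gm k j (m + j) (n : ℤ) -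
        M (1 / 2) k j * p (1 / 2) m' (n : ℤ) / 3 ^ (m + j - m'))
      linarith
    · simp only [if_neg hB]
      have := abs_nonneg (Gm k j (m + j) (n : ℤ) -
        M (1 / 2) k j * p (1 / 2) m' (n : ℤ) / 3 ^ (m + j - m'))
      linarith
  have h2 : (∑ n ∈ Icc 1 (XJ k j X),
        |Gm k j (m + j) (n : ℤ) - M (1 / 2) k j * p (1 / 2) m' (n : ℤ) / 3 ^ (m + j - m')|) ≤
      ((XJ k j X : ℝ) / (3 ^ (m + j) : ℕ) + 1) * er k m m' j := by
    have h := sum_periodic_le (3 ^ (m + j)) (XJ k j X) (by positivity)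
      (fun z => |Gm k j (m + j) z - M (1 / 2) k j * p (1 / 2) m' z / 3 ^ (m + j - m')|)
      (fun z => abs_nonneg _) (fun x t => U3_period k m m' j hm x t)
    exact h
  have h3 : (3 : ℝ) ^ m * 2 ^ k * (∑ n ∈ Icc 1 (XJ k j X),
        if B' n then M (1 / 2) k j * p (1 / 2) m' (n : ℤ) / 3 ^ (m + j - m') else 0) =
      2 ^ k / 3 ^ j * M (1 / 2) k j * bb m' (XJ k j X) B' := by
    unfold bb
    rw [Finset.mul_sum, Finset.mul_sum]
    refine Finset.sum_congr rfl fun n _ => ?_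
    by_cases hB : B' n
    · simp only [if_pos hB]
      have e : (3 : ℝ) ^ m * 3 ^ j = 3 ^ m' * 3 ^ (m + j - m') := by
        rw [← pow_add, ← pow_add, Nat.add_sub_cancel' hm]
      have hp : (3 : ℝ) ^ (m + j - m') ≠ 0 := by positivity
      have hj : (3 : ℝ) ^ j ≠ 0 := by positivity
      have e2 : (3 : ℝ) ^ m / 3 ^ (m + j - m') = 3 ^ m' / 3 ^ j := by
        rw [div_eq_div_iff hp hj]
        linarith
      calc (3 : ℝ) ^ m * 2 ^ k * (M (1 / 2) k j * p (1 / 2) m' (n : ℤ) / 3 ^ (m + j - m'))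
          = (3 : ℝ) ^ m / 3 ^ (m + j - m') * 2 ^ k * M (1 / 2) k j * p (1 / 2) m' (n : ℤ) := by
            ring
        _ = 3 ^ m' / 3 ^ j * 2 ^ k * M (1 / 2) k j * p (1 / 2) m' (n : ℤ) := by rw [e2]
        _ = 2 ^ k / 3 ^ j * M (1 / 2) k j * (3 ^ m' * p (1 / 2) m' (n : ℤ)) := by ring
    · simp only [if_neg hB, mul_zero]
  have her : 0 ≤ er k m m' j := Finset.sum_nonneg fun _ _ => abs_nonneg _
  have hfac := U3_factor k m j X hX
  have h4 : (3 : ℝ) ^ m * 2 ^ k * (∑ n ∈ Icc 1 (XJ k j X),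
        |Gm k j (m + j) (n : ℤ) - M (1 / 2) k j * p (1 / 2) m' (n : ℤ) / 3 ^ (m + j - m')|) ≤
      2 * X * er k m m' j := by
    calc _ ≤ (3 : ℝ) ^ m * 2 ^ k * (((XJ k j X : ℝ) / (3 ^ (m + j) : ℕ) + 1) * er k m m' j) :=
          mul_le_mul_of_nonneg_left h2 (by positivity)
      _ = (3 : ℝ) ^ m * 2 ^ k * ((XJ k j X : ℝ) / (3 ^ (m + j) : ℕ) + 1) * er k m m' j := by ring
      _ ≤ 2 * X * er k m m' j := mul_le_mul_of_nonneg_right hfac her
  calc _ ≤ (3 : ℝ) ^ m * 2 ^ k * ((∑ n ∈ Icc 1 (XJ k j X),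
        if B' n then M (1 / 2) k j * p (1 / 2) m' (n : ℤ) / 3 ^ (m + j - m') else 0) +
      ∑ n ∈ Icc 1 (XJ k j X),
        |Gm k j (m + j) (n : ℤ) - M (1 / 2) k j * p (1 / 2) m' (n : ℤ) / 3 ^ (m + j - m')|) :=
        mul_le_mul_of_nonneg_left h1 (by positivity)
    _ ≤ _ := by rw [mul_add, h3]; linarith

open Classical in
private theorem U3_out (k m j X : ℕ) (B' : ℕ → Prop) (hX : 3 ^ k + 3 ^ m * 2 ^ k ≤ X) :
    (3 : ℝ) ^ m * 2 ^ k *
      (∑ n ∈ Icc 1 (XJ k j X), if B' n then Gm k j (m + j) (n : ℤ) else 0) ≤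
      2 * X * M (1 / 2) k j := by
  have h1 : (∑ n ∈ Icc 1 (XJ k j X), if B' n then Gm k j (m + j) (n : ℤ) else 0) ≤
      ∑ n ∈ Icc 1 (XJ k j X), Gm k j (m + j) (n : ℤ) := by
    refine Finset.sum_le_sum fun n _ => ?_
    split_ifs
    · exact le_refl _
    · exact Gm_nonneg _ _ _ _
  have h2 : (∑ n ∈ Icc 1 (XJ k j X), Gm k j (m + j) (n : ℤ)) ≤
      ((XJ k j X : ℝ) / (3 ^ (m + j) : ℕ) + 1) * M (1 / 2) k j := by
    have h := sum_periodic_le (3 ^ (m + j)) (XJ k j X) (by positivity)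
      (fun z => Gm k j (m + j) z) (fun z => Gm_nonneg _ _ _ _) (fun x t => by
        have := Gm_periodic k j (m + j) x t
        push_cast
        exact this)
    rw [Gm_sum] at h
    exact h
  have hM : 0 ≤ M (1 / 2) k j := by
    rw [← Gm_sum k j 0]
    exact Finset.sum_nonneg fun _ _ => Gm_nonneg _ _ _ _
  have hfac := U3_factor k m j X hX
  calc _ ≤ (3 : ℝ) ^ m * 2 ^ k * (((XJ k j X : ℝ) / (3 ^ (m + j) : ℕ) + 1) * M (1 / 2) k j) :=
        mul_le_mul_of_nonneg_left (h1.trans h2) (by positivity)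
    _ = (3 : ℝ) ^ m * 2 ^ k * ((XJ k j X : ℝ) / (3 ^ (m + j) : ℕ) + 1) * M (1 / 2) k j := by ring
    _ ≤ 2 * X * M (1 / 2) k j := mul_le_mul_of_nonneg_right hfac hM

/-- `transfer`; for `j ∈ J` replace `Gm k j (m + j)` by `M j p m' / 3 ^ (m + j - m')` at the cost of the
absolute difference, which has period `3 ^ (m + j)` (`sum_periodic_le`), and
`3 ^ m 2 ^ k (XJ / 3 ^ (m + j) + 1) ≤ X + 3 ^ k + 3 ^ m 2 ^ k ≤ 2 X` as `2 ^ k XJ ≤ 3 ^ j X + 3 ^ k`;
for `j ∉ J` drop `B'` and use `Gm_sum`. -/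
theorem onestep (k m m' X : ℕ) (J : Finset ℕ) (hJ : J ⊆ range (k + 1))
    (hm : ∀ j ∈ J, m' ≤ m + j) (B B' : ℕ → Prop) (h : ∀ n, B n → B' (T^[k] n))
    (hX : 3 ^ k + 3 ^ m * 2 ^ k ≤ X) :
    bb m X B ≤ ∑ j ∈ J, 2 ^ k / 3 ^ j * M (1 / 2) k j * bb m' (XJ k j X) B' +
      2 * X * ∑ j ∈ J, er k m m' j + 2 * X * ∑ j ∈ range (k + 1) \ J, M (1 / 2) k j := by
  classical
  refine (transfer k m X B B' h).trans ?_
  rw [← Finset.sum_sdiff hJ, add_comm, Finset.mul_sum, Finset.mul_sum, ← Finset.sum_add_distrib]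
  refine add_le_add (Finset.sum_le_sum fun j hj => ?_) (Finset.sum_le_sum fun j _ => ?_)
  · exact U3_in k m m' j X (hm j hj) B' hX
  · exact U3_out k m j X B' hX

end Pool.Agent.Syr66
end

section

set_option autoImplicit false

namespace Pool.Agent.Syr66

open Finset

theorem BN_iter (N t k n : ℕ) (h : BN N t n) (hk : k ≤ t) : BN N (t - k) (T^[k] n) := by
  intro i hi
  have h1 := h (i + k) (by omega)
  rwa [Function.iterate_add_apply] at h1

theorem bb_BN_zero (m X N t : ℕ) (h : X ≤ N) : bb m X (BN N t) = 0 := by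
  unfold bb
  refine sum_eq_zero fun n hn => ?_
  rw [if_neg]
  intro hB
  have h0 := hB 0 (Nat.zero_le _)
  simp only [Function.iterate_zero, id_eq] at h0
  have := (mem_Icc.1 hn).2
  omega

/-- `BN N t` is decreasing in `t`. -/
theorem BN_mono (N t t' n : ℕ) (h : BN N t n) (ht : t' ≤ t) : BN N t' n :=
  fun i hi => h i (hi.trans ht)

/-- `bb` is monotone in the set. -/
theorem bb_mono (m X : ℕ) (B B' : ℕ → Prop) (h : ∀ n, B n → B' n) (hp : ∀ z, 0 ≤ p (1 / 2) m z) :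
    bb m X B ≤ bb m X B' := by
  unfold bb
  refine sum_le_sum fun n _ => ?_
  have h0 : 0 ≤ 3 ^ m * p (1 / 2) m (n : ℤ) := mul_nonneg (by positivity) (hp _)
  by_cases hB : B n
  · rw [if_pos hB, if_pos (h n hB)]
  · rw [if_neg hB]
    split_ifs
    · exact h0
    · exact le_rfl

end Pool.Agent.Syr66
end
end
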