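import Pool.Agent.Lib.MP_529d88_nt.Defs
import Pool.Agent.Lib.MP_529d88_nt.ND.Q9
import Pool.Agent.Lib.MP_529d88_nt.A1
import Pool.Agent.Lib.MP_529d88_nt.ND.Q8
import Pool.Agent.Lib.MP_529d88_nt.ND.Q10
import Pool.Agent.Lib.MP_529d88_nt.T1
import Pool.Agent.Lib.MP_529d88_nt.ND.Q4
import Pool.Agent.Lib.MP_529d88_nt.ND.U7
import Pool.Agent.Lib.MP_529d88_nt.ND.U5
import Pool.Agent.Lib.MP_529d88_nt.ND.U6

section

section

set_option autoImplicit false

namespace Pool.Agent.Syr66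

open Finset

private theorem card_log_aux (n : ℕ) : ∀ Q : Finset ℕ, Q.card = n →
    (n : ℝ) * Real.log n ≤ n + ∑ q ∈ Q, Real.log ((q : ℝ) + 1) := by
  induction n with
  | zero =>
    intro Q hQ
    have : Q = ∅ := Finset.card_eq_zero.mp hQ
    subst this
    simp
  | succ n ih =>
    intro Q hQ
    have hne : Q.Nonempty := by
      rw [← Finset.card_pos]
      omega
    have hM := Finset.max'_mem Q hne
    have hsub : Q ⊆ range (Q.max' hne + 1) := by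
      intro q hq
      rw [Finset.mem_range]
      exact Nat.lt_succ_of_le (Finset.le_max' Q q hq)
    have hcard := Finset.card_le_card hsub
    rw [Finset.card_range, hQ] at hcard
    have hMn : n ≤ Q.max' hne := by omega
    have herase : (Q.erase (Q.max' hne)).card = n := by
      rw [Finset.card_erase_of_mem hM, hQ]
      omega
    have h1 := ih _ herase
    rw [← Finset.add_sum_erase Q _ hM]
    have h2 : Real.log ((n : ℝ) + 1) ≤ Real.log (((Q.max' hne : ℕ) : ℝ) + 1) := by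
      apply Real.log_le_log (by positivity)
      have : (n : ℝ) ≤ ((Q.max' hne : ℕ) : ℝ) := by exact_mod_cast hMn
      linarith
    have h3 : (n : ℝ) * (Real.log ((n : ℝ) + 1) - Real.log n) ≤ 1 := by
      rcases Nat.eq_zero_or_pos n with h0 | h0
      · subst h0
        simp
      · have hn : (0 : ℝ) < n := by exact_mod_cast h0
        have h4 : Real.log ((n : ℝ) + 1) - Real.log n = Real.log (1 + 1 / n) := by
          rw [← Real.log_div (by positivity) (by positivity)]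
          congr 1
          field_simp
        have h5 : Real.log (1 + 1 / (n : ℝ)) ≤ 1 / n := by
          have := Real.log_le_sub_one_of_pos (show (0 : ℝ) < 1 + 1 / n by positivity)
          linarith
        rw [h4]
        calc (n : ℝ) * Real.log (1 + 1 / n) ≤ n * (1 / n) :=
              mul_le_mul_of_nonneg_left h5 hn.le
          _ = 1 := by field_simp
    push_cast
    nlinarith [h1, h2, h3]

/-- For distinct natural numbers `q`: `∑ log (q + 1) ≥ log (|Q|!) ≥ |Q| log |Q| - |Q|`.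
(Induction on `|Q|`, removing the maximum, which is at least `|Q| - 1`; `n log n - n ≤ log n !`.) -/
theorem card_log_card_le (Q : Finset ℕ) :
    (Q.card : ℝ) * Real.log Q.card ≤ Q.card + ∑ q ∈ Q, Real.log ((q : ℝ) + 1) :=
  card_log_aux Q.card Q rfl

end Pool.Agent.Syr66
end

section

set_option autoImplicit false

namespace Pool.Agent.Syr66

open Finset

/-- In a class `r % P = c` the quotients `r / P` are distinct; `r / P ≤ (r : ℝ) / P`.
Use `card_log_card_le` for the image of the class under `r ↦ r / P`. -/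
theorem sum_class_log_le (S : Finset ℕ) (P : ℕ) (hP : 0 < P) :
    ∑ c ∈ range P, ((S.filter (fun r => r % P = c)).card : ℝ) *
        Real.log ((S.filter (fun r => r % P = c)).card) ≤
      S.card + ∑ r ∈ S, Real.log ((r : ℝ) / P + 1) := by
  have hP' : (0 : ℝ) < P := by exact_mod_cast hP
  have h1 : ∀ c ∈ range P, ((S.filter (fun r => r % P = c)).card : ℝ) *
      Real.log ((S.filter (fun r => r % P = c)).card) ≤
      ((S.filter (fun r => r % P = c)).card : ℝ) +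
        ∑ r ∈ S.filter (fun r => r % P = c), Real.log ((r : ℝ) / P + 1) := by
    intro c _
    have hinj : Set.InjOn (fun r : ℕ => r / P)
        (S.filter (fun r => r % P = c) : Finset ℕ) := by
      intro a ha b hb hab
      have ha2 := (mem_filter.1 (mem_coe.1 ha)).2
      have hb2 := (mem_filter.1 (mem_coe.1 hb)).2
      have hab' : a / P = b / P := hab
      rw [← Nat.div_add_mod a P, ← Nat.div_add_mod b P, ha2, hb2, hab']
    have h2 := card_log_card_le ((S.filter (fun r => r % P = c)).image (fun r => r / P))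
    rw [card_image_of_injOn hinj, sum_image hinj] at h2
    refine h2.trans ?_
    have h3 : ∑ r ∈ S.filter (fun r => r % P = c), Real.log (((r / P : ℕ) : ℝ) + 1) ≤
        ∑ r ∈ S.filter (fun r => r % P = c), Real.log ((r : ℝ) / P + 1) := by
      refine sum_le_sum (fun r _ => ?_)
      apply Real.log_le_log (by positivity)
      have : ((r / P : ℕ) : ℝ) ≤ (r : ℝ) / P := Nat.cast_div_le
      linarith
    linarith
  refine (sum_le_sum h1).trans ?_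
  rw [sum_add_distrib]
  have hmaps : ∀ r ∈ S, r % P ∈ range P := fun r _ => mem_range.2 (Nat.mod_lt _ hP)
  have h4 : ∑ c ∈ range P, ((S.filter (fun r => r % P = c)).card : ℝ) = S.card := by
    have := card_eq_sum_card_fiberwise (f := fun r => r % P) (s := S) (t := range P) hmaps
    rw [this]
    push_cast
    rfl
  have h5 : ∑ c ∈ range P, ∑ r ∈ S.filter (fun r => r % P = c), Real.log ((r : ℝ) / P + 1) =
      ∑ r ∈ S, Real.log ((r : ℝ) / P + 1) :=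
    sum_fiberwise_of_maps_to hmaps _
  rw [h4, h5]

end Pool.Agent.Syr66
end

section

set_option autoImplicit false

namespace Pool.Agent.Syr66

open Finset

private theorem R4_wt_half {k j : ℕ} (h : j ≤ k) : wt (1 / 2) k j = (1 / 2) ^ k := by
  unfold wt
  have e : (1 : ℝ) - 1 / 2 = 1 / 2 := by norm_num
  rw [e, ← pow_add, Nat.add_sub_cancel' h]

private theorem R4_Ex_ite (k : ℕ) (P : ℕ × ℕ → Prop) [DecidablePred P] :
    Ex (1 / 2) k (fun q => if P q then 1 else 0) =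
      (1 / 2) ^ k * (((W k).filter P).card : ℝ) := by
  unfold Ex
  have h1 : ∀ q ∈ W k, wt (1 / 2) k q.1 * (if P q then (1 : ℝ) else 0) =
      (1 / 2) ^ k * (if P q then (1 : ℝ) else 0) := by
    intro q hq
    rw [R4_wt_half (W_fst_le hq)]
  rw [sum_congr rfl h1, ← mul_sum, sum_boole]

theorem card_Sj (k j : ℕ) : (Sj k j).card = ((W k).filter (fun q => q.1 = j)).card := by
  unfold Sj
  apply card_image_of_injOn
  intro a ha b hb hab
  have ha' := (mem_filter.1 (mem_coe.1 ha)).2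
  have hb' := (mem_filter.1 (mem_coe.1 hb)).2
  exact Prod.ext (ha'.trans hb'.symm) hab

theorem M_eq_card_Sj (k j : ℕ) : M (1 / 2) k j = (1 / 2) ^ k * ((Sj k j).card : ℝ) := by
  unfold M
  rw [R4_Ex_ite, card_Sj]

theorem Gw_eq_card (k N j c : ℕ) (hc : c < 3 ^ N) :
    Gw k N j (c : ℤ) = (1 / 2) ^ k * (((Sj k j).filter (fun r => r % 3 ^ N = c)).card : ℝ) := by
  unfold Gw
  rw [R4_Ex_ite]
  congr 2
  have h1 : ∀ q : ℕ × ℕ, ((3 : ℤ) ^ N ∣ (c : ℤ) - q.2) ↔ q.2 % 3 ^ N = c := by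
    intro q
    have e : ((3 : ℤ) ^ N ∣ (c : ℤ) - q.2) ↔ (q.2 ≡ c [MOD 3 ^ N]) := by
      rw [Nat.modEq_iff_dvd]
      push_cast
      rfl
    rw [e, Nat.ModEq, Nat.mod_eq_of_lt hc]
  have h2 : ((Sj k j).filter (fun r => r % 3 ^ N = c)) =
      (((W k).filter (fun q => q.1 = j ∧ (3 : ℤ) ^ N ∣ (c : ℤ) - q.2))).image Prod.snd := by
    ext r
    unfold Sj
    simp only [mem_filter, mem_image]
    constructor
    · rintro ⟨⟨q, ⟨hq, hj⟩, rfl⟩, hr⟩
      exact ⟨q, ⟨hq, hj, (h1 q).2 hr⟩, rfl⟩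
    · rintro ⟨q, ⟨hq, hj, hd⟩, rfl⟩
      exact ⟨⟨q, ⟨hq, hj⟩, rfl⟩, (h1 q).1 hd⟩
  rw [h2, card_image_of_injOn]
  intro a ha b hb hab
  have ha' := (mem_filter.1 (mem_coe.1 ha)).2.1
  have hb' := (mem_filter.1 (mem_coe.1 hb)).2.1
  exact Prod.ext (ha'.trans hb'.symm) hab

/-- `hh_mul` and `sum_class_log_le` with `P = 3 ^ N`. -/
theorem hh_Gw_ge (k N j : ℕ) :
    (1 / 2) ^ k * (((Sj k j).card : ℝ) * Real.log ((Sj k j).card) - (Sj k j).card -
      ∑ r ∈ Sj k j, Real.log ((r : ℝ) / (3 ^ N : ℕ) + 1)) ≤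
    hh (range (3 ^ N)) (fun c => Gw k N j (c : ℤ)) := by
  rw [hh_congr (range (3 ^ N)) (fun c => Gw k N j (c : ℤ))
    (fun c => (1 / 2) ^ k * (((Sj k j).filter (fun r => r % 3 ^ N = c)).card : ℝ))
    (fun c hc => Gw_eq_card k N j c (mem_range.1 hc)), hh_mul]
  apply mul_le_mul_of_nonneg_left _ (by positivity)
  have hP : 0 < 3 ^ N := by positivity
  have h1 := sum_class_log_le (Sj k j) (3 ^ N) hP
  have h2 : ∑ c ∈ range (3 ^ N), (((Sj k j).filter (fun r => r % 3 ^ N = c)).card : ℝ) =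
      ((Sj k j).card : ℝ) := by
    rw [card_eq_sum_card_fiberwise (f := fun r => r % 3 ^ N) (s := Sj k j) (t := range (3 ^ N))
      (fun r _ => by
        simp only [coe_range, Set.mem_Iio]
        exact Nat.mod_lt _ hP)]
    push_cast
    rfl
  unfold hh
  rw [h2]
  simp only [Real.negMulLog]
  have h3 : ∑ c ∈ range (3 ^ N), -(((Sj k j).filter (fun r => r % 3 ^ N = c)).card : ℝ) *
        Real.log ((Sj k j).filter (fun r => r % 3 ^ N = c)).card =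
      -∑ c ∈ range (3 ^ N), (((Sj k j).filter (fun r => r % 3 ^ N = c)).card : ℝ) *
        Real.log ((Sj k j).filter (fun r => r % 3 ^ N = c)).card := by
    rw [← sum_neg_distrib]
    exact sum_congr rfl fun c _ => by ring
  rw [h3]
  linarith

end Pool.Agent.Syr66
end
end

section

section

set_option autoImplicit false

namespace Pool.Agent.Syr66

open Finset

/-- Choose `u` with `3 ^ (n + 1) ∣ u * 2 ^ l - 1`. Then `3 ^ (n + 1) ∣ X - 2 ^ l r ↔
3 ^ (n + 1) ∣ u X - r`, so the inner sum is `Gw k (n + 1) j (u X)`, `X = x + 3 ^ n a`;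
conclude with `sum_ps_affine`. -/
theorem Aw_word (k l n j : ℕ) :
    ∑ x ∈ range (3 ^ n), ps (fun a => ∑ q ∈ (W k).filter (fun q => q.1 = j), wt (1 / 2) k j *
      (if (3 : ℤ) ^ (n + 1) ∣ (x : ℤ) + 3 ^ n * a - 2 ^ l * q.2 then 1 else 0)) = Aw k n j := by
  have hco : IsCoprime ((2 : ℤ) ^ l) ((3 : ℤ) ^ (n + 1)) := by
    refine IsCoprime.pow ?_
    exact ⟨-1, 1, by norm_num⟩
  obtain ⟨u, v, huv⟩ := hco
  have hu3 : IsCoprime u (3 : ℤ) := by
    refine ⟨(2 : ℤ) ^ l, v * 3 ^ n, ?_⟩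
    rw [← huv, pow_succ]
    ring
  have hdvd : ∀ X r : ℤ, (3 : ℤ) ^ (n + 1) ∣ X - 2 ^ l * r ↔ (3 : ℤ) ^ (n + 1) ∣ u * X - r := by
    intro X r
    constructor
    · rintro ⟨c, hc⟩
      refine ⟨u * c - v * r, ?_⟩
      have h1 : u * X - r = u * (X - 2 ^ l * r) + (u * 2 ^ l - 1) * r := by ring
      have h2 : u * 2 ^ l - 1 = -(v * 3 ^ (n + 1)) := by linarith
      rw [h1, hc, h2]
      ring
    · rintro ⟨c, hc⟩
      refine ⟨2 ^ l * c + v * X, ?_⟩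
      have h1 : X - 2 ^ l * r = 2 ^ l * (u * X - r) + (1 - u * 2 ^ l) * X := by ring
      have h2 : 1 - u * 2 ^ l = v * 3 ^ (n + 1) := by linarith
      rw [h1, hc, h2]
      ring
  have hin : ∀ X : ℤ, ∑ q ∈ (W k).filter (fun q => q.1 = j), wt (1 / 2) k j *
      (if (3 : ℤ) ^ (n + 1) ∣ X - 2 ^ l * (q.2 : ℤ) then (1 : ℝ) else 0) =
      Gw k (n + 1) j (u * X) := by
    intro X
    unfold Gw Ex
    rw [sum_filter]
    refine sum_congr rfl fun q _ => ?_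
    dsimp only
    by_cases h1 : q.1 = j
    · by_cases h2 : (3 : ℤ) ^ (n + 1) ∣ X - 2 ^ l * (q.2 : ℤ)
      · rw [if_pos h1, if_pos h2, if_pos ⟨h1, (hdvd _ _).1 h2⟩, h1]
      · rw [if_pos h1, if_neg h2, if_neg (fun h => h2 ((hdvd _ _).2 h.2)), mul_zero, mul_zero]
    · rw [if_neg h1, if_neg (fun h => h1 h.1), mul_zero]
  have hmain := sum_ps_affine n (Gw k (n + 1) j) (fun x t => Gw_periodic k (n + 1) j x t) u 0 hu3
  unfold Aw
  rw [← hmain]
  refine sum_congr rfl fun x _ => ?_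
  congr 1
  funext a
  rw [hin, add_zero]

end Pool.Agent.Syr66
end

section

set_option autoImplicit false

namespace Pool.Agent.Syr66

open Finset

/-- `Aw ≤ M` and `dev_one` (`i = k`), `M_expect`-type rewriting. -/
theorem M_atyp (k : ℕ) (ε : ℝ) (hε : 0 < ε) :
    ∑ j ∈ (range (k + 1)).filter (fun j : ℕ => ε * k < |(j : ℝ) - k / 2|), M (1 / 2) k j ≤
      2 * Real.exp (-(2 * ε ^ 2 * k)) := by
  refine le_trans ?_ (dev_one ε hε k k le_rfl)
  have h1 : ∑ j ∈ (range (k + 1)).filter (fun j : ℕ => ε * k < |(j : ℝ) - k / 2|), M (1 / 2) k j =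
      Ex (1 / 2) k (fun q => ∑ j ∈ (range (k + 1)).filter
        (fun j : ℕ => ε * k < |(j : ℝ) - k / 2|), if q.1 = j then 1 else 0) := by
    rw [Ex_sum]
    rfl
  rw [h1]
  apply Ex_mono (by norm_num) (by norm_num)
  intro q _
  rw [Finset.sum_ite_eq]
  by_cases hq : ε * k < |(q.1 : ℝ) - k / 2|
  · rw [if_pos hq]
    split_ifs <;> norm_num
  · rw [if_neg hq, if_neg]
    intro hm
    exact hq (Finset.mem_filter.mp hm).2

theorem Aw_atyp (k n : ℕ) (ε : ℝ) (hε : 0 < ε) :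
    ∑ j ∈ (range (k + 1)).filter (fun j : ℕ => ε * k < |(j : ℝ) - k / 2|), Aw k n j ≤
      2 * Real.exp (-(2 * ε ^ 2 * k)) :=
  (Finset.sum_le_sum fun j _ => Aw_le k n j).trans (M_atyp k ε hε)

end Pool.Agent.Syr66
end

section

set_option autoImplicit false

namespace Pool.Agent.Syr66

open Finset

private theorem R5_wt_half {k j : ℕ} (h : j ≤ k) : wt (1 / 2) k j = (1 / 2) ^ k := by
  unfold wt
  have h1 : (1 - 1 / 2 : ℝ) = 1 / 2 := by norm_num
  rw [h1, ← pow_add]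
  congr 1
  omega

private theorem R5_group (k : ℕ) (f : ℕ → ℝ) :
    ∑ j ∈ range (k + 1), (1 / 2 : ℝ) ^ k * ∑ r ∈ Sj k j, f r =
      Ex (1 / 2) k (fun q => f q.2) := by
  unfold Ex Sj
  have h1 : ∀ j ∈ range (k + 1), (1 / 2 : ℝ) ^ k * ∑ r ∈ ((W k).filter (fun q => q.1 = j)).image Prod.snd, f r =
      ∑ q ∈ (W k).filter (fun q => q.1 = j), wt (1 / 2) k q.1 * f q.2 := by
    intro j _
    rw [Finset.sum_image, Finset.mul_sum]
    · refine Finset.sum_congr rfl fun q hq => ?_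
      rw [Finset.mem_filter] at hq
      rw [R5_wt_half (W_fst_le hq.1)]
    · intro a ha b hb hab
      have ha' := (Finset.mem_filter.1 ha).2
      have hb' := (Finset.mem_filter.1 hb).2
      exact Prod.ext (ha'.trans hb'.symm) hab
  rw [Finset.sum_congr rfl h1]
  exact Finset.sum_fiberwise_of_maps_to (fun q hq => mem_range.2 (Nat.lt_succ_of_le (W_fst_le hq)))
    (fun q => wt (1 / 2) k q.1 * f q.2)

/-- Sum `hh_Gw_ge` over `j`: `(1 / 2) ^ k |S j| log |S j| = M j log (M j 2 ^ k)` and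
`∑ negMulLog (M j) ≤ log (k + 1)` (`hh_le`, `M_sum`); `(1 / 2) ^ k ∑ j, ∑ r ∈ S j, f r = Ex f`;
`Ex_log_le`. -/
theorem sum_hh_Gw_ge (k N : ℕ) :
    k * Real.log 2 - Real.log (k + 1) - 1 - Real.log (k * 2 ^ k / (4 * (3 ^ N : ℕ)) + 1) ≤
      ∑ j ∈ range (k + 1), hh (range (3 ^ N)) (fun c => Gw k N j (c : ℤ)) := by
  have hM := fun j => M_eq_card_Sj k j
  have hsum : ∑ j ∈ range (k + 1), M (1 / 2) k j = 1 := M_sum k
  have h1 : ∑ j ∈ range (k + 1), (1 / 2 : ℝ) ^ k * (((Sj k j).card : ℝ) *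
      Real.log ((Sj k j).card) - (Sj k j).card -
      ∑ r ∈ Sj k j, Real.log ((r : ℝ) / (3 ^ N : ℕ) + 1)) ≤
      ∑ j ∈ range (k + 1), hh (range (3 ^ N)) (fun c => Gw k N j (c : ℤ)) :=
    Finset.sum_le_sum fun j _ => hh_Gw_ge k N j
  have h2 : ∑ j ∈ range (k + 1), (1 / 2 : ℝ) ^ k * (((Sj k j).card : ℝ) *
      Real.log ((Sj k j).card) - (Sj k j).card -
      ∑ r ∈ Sj k j, Real.log ((r : ℝ) / (3 ^ N : ℕ) + 1)) =
      (k * Real.log 2 - ∑ j ∈ range (k + 1), Real.negMulLog (M (1 / 2) k j)) - 1 -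
        Ex (1 / 2) k (fun q => Real.log ((q.2 : ℝ) / (3 ^ N : ℕ) + 1)) := by
    rw [← R5_group k (fun r => Real.log ((r : ℝ) / (3 ^ N : ℕ) + 1))]
    have e1 : k * Real.log 2 - ∑ j ∈ range (k + 1), Real.negMulLog (M (1 / 2) k j) =
        ∑ j ∈ range (k + 1), (1 / 2 : ℝ) ^ k * (((Sj k j).card : ℝ) *
          Real.log ((Sj k j).card)) := by
      have e2 : (k : ℝ) * Real.log 2 = ∑ j ∈ range (k + 1), M (1 / 2) k j * (k * Real.log 2) := by
        rw [← Finset.sum_mul, hsum, one_mul]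
      rw [e2, ← Finset.sum_sub_distrib]
      refine Finset.sum_congr rfl fun j _ => ?_
      rw [hM j, Real.negMulLog]
      rcases eq_or_ne ((Sj k j).card : ℝ) 0 with h0 | h0
      · rw [h0]
        simp
      · rw [Real.log_mul (by positivity) h0, Real.log_pow, one_div, Real.log_inv]
        ring
    have e3 : ∑ j ∈ range (k + 1), (1 / 2 : ℝ) ^ k * ((Sj k j).card : ℝ) = 1 := by
      refine Eq.trans ?_ hsum
      exact Finset.sum_congr rfl fun j _ => (hM j).symm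
    have e4 : ∀ j ∈ range (k + 1), (1 / 2 : ℝ) ^ k * (((Sj k j).card : ℝ) *
        Real.log ((Sj k j).card) - (Sj k j).card -
        ∑ r ∈ Sj k j, Real.log ((r : ℝ) / (3 ^ N : ℕ) + 1)) =
        (1 / 2 : ℝ) ^ k * (((Sj k j).card : ℝ) * Real.log ((Sj k j).card)) -
          (1 / 2 : ℝ) ^ k * ((Sj k j).card : ℝ) -
          (1 / 2 : ℝ) ^ k * ∑ r ∈ Sj k j, Real.log ((r : ℝ) / (3 ^ N : ℕ) + 1) := by
      intro j _
      ring
    rw [Finset.sum_congr rfl e4, Finset.sum_sub_distrib, Finset.sum_sub_distrib, e3, e1]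
  have h3 : ∑ j ∈ range (k + 1), Real.negMulLog (M (1 / 2) k j) ≤ Real.log (k + 1) := by
    have h := hh_le (range (k + 1)) (fun j => M (1 / 2) k j)
      (fun j _ => M_nonneg (by norm_num) (by norm_num) k j)
    unfold hh at h
    rw [hsum, Finset.card_range] at h
    simp only [Real.negMulLog_one, sub_zero, one_mul] at h
    push_cast at h
    exact h
  have h4 := Ex_log_le k (3 ^ N) (by positivity)
  rw [h2] at h1
  linarith

end Pool.Agent.Syr66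
end

section

set_option autoImplicit false

namespace Pool.Agent.Syr66

open Finset

/-- Chain rule (`hh_split` with `K = 3`, `Gw_marg`), induction on `N`. -/
theorem Gw_chain (k N j : ℕ) :
    ∑ n ∈ range N, ∑ x ∈ range (3 ^ n),
      hh (range 3) (fun d => Gw k (n + 1) j ((x : ℤ) + 3 ^ n * d)) =
    hh (range (3 ^ N)) (fun c => Gw k N j (c : ℤ)) := by
  induction N with
  | zero => simp [hh]
  | succ N ih =>
    rw [Finset.sum_range_succ, ih]
    have h := hh_split (3 ^ N) 3 (fun z : ℤ => Gw k (N + 1) j z)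
    rw [pow_succ, h]
    push_cast
    congr 1
    congr 1
    funext c
    exact (Gw_marg k N j (c : ℤ)).symm

private theorem R6_Aw_le (k n j : ℕ) :
    Aw k n j ≤ 2 * (M (1 / 2) k j * Real.log 3 - ∑ x ∈ range (3 ^ n),
      hh (range 3) (fun d => Gw k (n + 1) j ((x : ℤ) + 3 ^ n * d))) := by
  unfold Aw
  have h1 : ∀ x ∈ range (3 ^ n), ps (fun d => Gw k (n + 1) j ((x : ℤ) + 3 ^ n * d)) ≤
      2 * (Gw k n j (x : ℤ) * Real.log 3 -
        hh (range 3) (fun d => Gw k (n + 1) j ((x : ℤ) + 3 ^ n * d))) := by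
    intro x _
    have h2 := ps_le_hh (fun d => Gw k (n + 1) j ((x : ℤ) + 3 ^ n * d))
      (fun a _ => Gw_nonneg _ _ _ _)
    have h3 : ∑ a ∈ range 3, (fun d : ℕ => Gw k (n + 1) j ((x : ℤ) + 3 ^ n * d)) a =
        Gw k n j (x : ℤ) := Gw_marg k n j (x : ℤ)
    rw [h3] at h2
    exact h2
  refine (Finset.sum_le_sum h1).trans (le_of_eq ?_)
  rw [← Finset.mul_sum, Finset.sum_sub_distrib, ← Finset.sum_mul, Gw_sum]

/-- `ps_le_hh` termwise: `∑ n < N, aw k n ≤ 2 (N log 3 - ∑ j, hh (range (3 ^ N)) (Gw k N j))`;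
then `sum_hh_Gw_ge` and
`N log 3 - k log 2 + log (k 2 ^ k / (4 3 ^ N) + 1) = log (k / 4 + 3 ^ N / 2 ^ k) ≤ log (k + 1)`
(for `k = 0`, `N = 0`). -/
theorem sum_aw_le (k N : ℕ) (h : 3 ^ N ≤ 2 ^ k) :
    ∑ n ∈ range N, aw k n ≤ 4 * Real.log (k + 1) + 2 := by
  have h1 : ∑ n ∈ range N, aw k n ≤ 2 * (N * Real.log 3 -
      ∑ j ∈ range (k + 1), hh (range (3 ^ N)) (fun c => Gw k N j (c : ℤ))) := by
    unfold aw
    rw [Finset.sum_comm]
    have h2 : ∀ j ∈ range (k + 1), ∑ n ∈ range N, Aw k n j ≤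
        2 * (N * Real.log 3 * M (1 / 2) k j - hh (range (3 ^ N)) (fun c => Gw k N j (c : ℤ))) := by
      intro j _
      refine (Finset.sum_le_sum fun n _ => R6_Aw_le k n j).trans (le_of_eq ?_)
      rw [← Finset.mul_sum, Finset.sum_sub_distrib, Gw_chain, Finset.sum_const, Finset.card_range,
        nsmul_eq_mul]
      ring
    refine (Finset.sum_le_sum h2).trans (le_of_eq ?_)
    rw [← Finset.mul_sum, Finset.sum_sub_distrib, ← Finset.mul_sum, M_sum, mul_one]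
  have h3 := sum_hh_Gw_ge k N
  have h2k : (0 : ℝ) < 2 ^ k := by positivity
  have h3N : (0 : ℝ) < 3 ^ N := by positivity
  have hcast : (3 : ℝ) ^ N ≤ 2 ^ k := by exact_mod_cast h
  have h4 : N * Real.log 3 - k * Real.log 2 +
      Real.log (k * 2 ^ k / (4 * (3 ^ N : ℕ)) + 1) ≤ Real.log (k + 1) := by
    have e1 : (N : ℝ) * Real.log 3 - k * Real.log 2 = Real.log (3 ^ N / 2 ^ k) := by
      rw [Real.log_div h3N.ne' h2k.ne', Real.log_pow, Real.log_pow]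
    have hpos : (0 : ℝ) < k * 2 ^ k / (4 * (3 ^ N : ℕ)) + 1 := by positivity
    rw [e1, ← Real.log_mul (by positivity) hpos.ne']
    have e2 : (3 : ℝ) ^ N / 2 ^ k * (k * 2 ^ k / (4 * (3 ^ N : ℕ)) + 1) =
        k / 4 + 3 ^ N / 2 ^ k := by
      push_cast
      field_simp
    rw [e2]
    apply Real.log_le_log (by positivity)
    have e3 : (3 : ℝ) ^ N / 2 ^ k ≤ 1 := by
      rw [div_le_one h2k]
      exact hcast
    have e4 : (0 : ℝ) ≤ k := Nat.cast_nonneg k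
    linarith
  linarith

end Pool.Agent.Syr66
end

section

set_option autoImplicit false

namespace Pool.Agent.Syr66

open Finset

private theorem S8_cop (k : ℕ) : IsCoprime ((2 : ℤ) ^ k) (3 : ℤ) := by
  have h : IsCoprime (2 : ℤ) (3 : ℤ) := ⟨-1, 1, by norm_num⟩
  exact h.pow_left

private theorem S8_abs (k : ℕ) (f : ℕ × ℕ → ℝ) :
    |Ex (1 / 2) k f| ≤ Ex (1 / 2) k (fun q => |f q|) := by
  unfold Ex
  refine (abs_sum_le_sum_abs _ _).trans (sum_le_sum fun q _ => ?_)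
  rw [abs_mul, abs_of_nonneg (wt_nonneg (by norm_num) (by norm_num) _ _)]

/-- The inner expectation. -/
private noncomputable def S8A (k₂ k₁ m' : ℕ) (q : ℕ × ℕ) (x : ℤ) (j : ℕ) : ℝ :=
  Ex (1 / 2) k₁ (fun q' => if q.1 + q'.1 = j then
    Kf (1 / 2) m' j (2 ^ (k₂ + k₁) * x - (2 ^ k₁ * (q.2 : ℤ) + 3 ^ q.1 * (q'.2 : ℤ))) else 0)

private theorem S8_Gm (k₂ k₁ m' j : ℕ) (x : ℤ) :
    Gm (k₂ + k₁) j m' x = Ex (1 / 2) k₂ (fun q => S8A k₂ k₁ m' q x j) := by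
  unfold Gm S8A
  rw [Ex_add]
  refine Ex_congr _ _ _ _ fun q _ => Ex_congr _ _ _ _ fun q' _ => ?_
  push_cast
  rfl

private theorem S8A_nonneg (k₂ k₁ m' : ℕ) (q : ℕ × ℕ) (x : ℤ) (j : ℕ) :
    0 ≤ S8A k₂ k₁ m' q x j := by
  unfold S8A
  refine Ex_nonneg (by norm_num) (by norm_num) _ _ fun q' _ => ?_
  split_ifs
  · exact Kf_nonneg _ _ _
  · exact le_rfl

private theorem S8_Kf (m j : ℕ) (hj : m ≤ j) (z : ℤ) :
    Kf (1 / 2) m j z = if (3 : ℤ) ^ m ∣ z then 1 else 0 := by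
  unfold Kf
  rw [min_eq_right hj, Nat.sub_eq_zero_of_le hj]
  simp [p]

private theorem S8A_big (k₂ k₁ m' : ℕ) (q : ℕ × ℕ) (hq : m' ≤ q.1) (x : ℤ) (j : ℕ) :
    S8A k₂ k₁ m' q x j = Kf (1 / 2) m' q.1 (2 ^ k₂ * x - (q.2 : ℤ)) * Ms k₁ q.1 j := by
  rw [S8_Kf m' q.1 hq]
  unfold S8A Ms
  have key : ∀ q' : ℕ × ℕ, (if q.1 + q'.1 = j then
      Kf (1 / 2) m' j (2 ^ (k₂ + k₁) * x - (2 ^ k₁ * (q.2 : ℤ) + 3 ^ q.1 * (q'.2 : ℤ))) else 0) =
      (if (3 : ℤ) ^ m' ∣ 2 ^ k₂ * x - (q.2 : ℤ) then (1 : ℝ) else 0) *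
        (if q.1 + q'.1 = j then (1 : ℝ) else 0) := by
    intro q'
    by_cases h : q.1 + q'.1 = j
    · rw [if_pos h, if_pos h, mul_one, S8_Kf m' j (by omega)]
      have e : (2 : ℤ) ^ (k₂ + k₁) * x - (2 ^ k₁ * (q.2 : ℤ) + 3 ^ q.1 * (q'.2 : ℤ)) =
          2 ^ k₁ * (2 ^ k₂ * x - (q.2 : ℤ)) - 3 ^ q.1 * (q'.2 : ℤ) := by
        rw [pow_add]
        ring
      have h1 : (3 : ℤ) ^ m' ∣ 3 ^ q.1 * (q'.2 : ℤ) := (pow_dvd_pow 3 hq).mul_right _
      have h2 : ((3 : ℤ) ^ m' ∣ 2 ^ k₁ * (2 ^ k₂ * x - (q.2 : ℤ)) - 3 ^ q.1 * (q'.2 : ℤ)) ↔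
          ((3 : ℤ) ^ m' ∣ 2 ^ k₂ * x - (q.2 : ℤ)) := by
        rw [dvd_sub_left h1]
        constructor
        · intro h3
          exact (((S8_cop k₁).symm.pow_left (m := m')).dvd_of_dvd_mul_left h3)
        · intro h3
          exact h3.mul_left _
      rw [e]
      simp only [h2]
    · rw [if_neg h, if_neg h, mul_zero]
  simp only [key]
  rw [Ex_mul]
  congr 1
  by_cases h : q.1 ≤ j
  · rw [if_pos h]
    unfold M
    refine Ex_congr _ _ _ _ fun q' _ => ?_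
    have e : (q.1 + q'.1 = j) ↔ (q'.1 = j - q.1) := by omega
    simp only [e]
  · rw [if_neg h]
    have e : (fun q' : ℕ × ℕ => if q.1 + q'.1 = j then (1 : ℝ) else 0) = fun _ => 0 := by
      funext q'
      rw [if_neg (by omega)]
    rw [e]
    exact Ex_const (1 / 2) k₁ 0

private theorem S8_Bsum (k₂ m' : ℕ) (q : ℕ × ℕ) :
    ∑ x ∈ range (3 ^ m'), Kf (1 / 2) m' q.1 (2 ^ k₂ * (x : ℤ) - (q.2 : ℤ)) = 1 := by
  have h := Kf_sum m' q.1 (2 ^ k₂) (-(q.2 : ℤ)) (S8_cop k₂)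
  simpa [sub_eq_add_neg] using h

private theorem S8A_sum (k₂ k₁ m' R : ℕ) (q : ℕ × ℕ) :
    ∑ j ∈ range R, ∑ x ∈ range (3 ^ m'), S8A k₂ k₁ m' q (x : ℤ) j ≤ 1 := by
  unfold S8A
  have h1 : ∀ j ∈ range R, ∑ x ∈ range (3 ^ m'), Ex (1 / 2) k₁ (fun q' => if q.1 + q'.1 = j then
      Kf (1 / 2) m' j (2 ^ (k₂ + k₁) * (x : ℤ) - (2 ^ k₁ * (q.2 : ℤ) + 3 ^ q.1 * (q'.2 : ℤ)))
        else 0) = Ex (1 / 2) k₁ (fun q' => if q.1 + q'.1 = j then (1 : ℝ) else 0) := by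
    intro j _
    rw [← Ex_sum]
    refine Ex_congr _ _ _ _ fun q' _ => ?_
    by_cases h : q.1 + q'.1 = j
    · simp only [if_pos h]
      have h2 := Kf_sum m' j (2 ^ (k₂ + k₁)) (-(2 ^ k₁ * (q.2 : ℤ) + 3 ^ q.1 * (q'.2 : ℤ)))
        (S8_cop (k₂ + k₁))
      refine Eq.trans ?_ h2
      exact sum_congr rfl fun x _ => by rw [← sub_eq_add_neg]
    · simp only [if_neg h, sum_const_zero]
  rw [sum_congr rfl h1, ← Ex_sum]
  have h3 : Ex (1 / 2) k₁ (fun q' => ∑ j ∈ range R, if q.1 + q'.1 = j then (1 : ℝ) else 0) ≤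
      Ex (1 / 2) k₁ (fun _ => 1) := by
    refine Ex_mono (by norm_num) (by norm_num) _ _ _ fun q' _ => ?_
    rw [sum_ite_eq]
    split_ifs
    · exact le_rfl
    · norm_num
  rw [Ex_const] at h3
  exact h3

/-- By `Ex_add`, `Gm (k₂ + k₁) j m' x = Ex k₂ (q ↦ Ex k₁ (q' ↦ [q.1 + q'.1 = j]
Kf m' j (2 ^ k x - 2 ^ k₁ q.2 - 3 ^ q.1 q'.2)))`, and for `m' ≤ q.1` the inner expectation is
`[3 ^ m' ∣ 2 ^ k₂ x - q.2] * Ms k₁ q.1 j`; by `p_words` with `L = k₂`,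
`p m' x = Ex k₂ (q ↦ Kf m' q.1 (2 ^ k₂ x - q.2))`, where for `m' ≤ q.1` the kernel is the same indicator.
The words `q` with `q.1 < m'` contribute at most `2` each (`Kf_sum`), the others
`∑ j, |Ms k₁ q.1 j - M (k₂ + k₁) j|` (`Ms_avg`). -/
theorem decouple (k₂ k₁ m' : ℕ) :
    ∑ j ∈ range (k₂ + k₁ + 1), ∑ x ∈ range (3 ^ m'),
      |Gm (k₂ + k₁) j m' (x : ℤ) - M (1 / 2) (k₂ + k₁) j * p (1 / 2) m' (x : ℤ)| ≤
    2 * Ex (1 / 2) k₂ (fun q => if q.1 < m' then 1 else 0) + k₂ * (2 / Real.sqrt (k₁ + 1)) := by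
  have h0 : ∀ j ∈ range (k₂ + k₁ + 1), ∀ x ∈ range (3 ^ m'),
      |Gm (k₂ + k₁) j m' (x : ℤ) - M (1 / 2) (k₂ + k₁) j * p (1 / 2) m' (x : ℤ)| ≤
      Ex (1 / 2) k₂ (fun q => |S8A k₂ k₁ m' q (x : ℤ) j -
        M (1 / 2) (k₂ + k₁) j * Kf (1 / 2) m' q.1 (2 ^ k₂ * (x : ℤ) - (q.2 : ℤ))|) := by
    intro j _ x _
    have e : Gm (k₂ + k₁) j m' (x : ℤ) - M (1 / 2) (k₂ + k₁) j * p (1 / 2) m' (x : ℤ) =
        Ex (1 / 2) k₂ (fun q => S8A k₂ k₁ m' q (x : ℤ) j -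
        M (1 / 2) (k₂ + k₁) j * Kf (1 / 2) m' q.1 (2 ^ k₂ * (x : ℤ) - (q.2 : ℤ))) := by
      rw [S8_Gm, p_words (α := 1 / 2) (by norm_num) (by norm_num) m' k₂ (x : ℤ), ← Ex_mul]
      unfold Ex
      rw [← sum_sub_distrib]
      exact sum_congr rfl fun q _ => by ring
    rw [e]
    exact S8_abs _ _
  refine (sum_le_sum fun j hj => sum_le_sum fun x hx => h0 j hj x hx).trans ?_
  have h1 : ∑ j ∈ range (k₂ + k₁ + 1), ∑ x ∈ range (3 ^ m'),
      Ex (1 / 2) k₂ (fun q => |S8A k₂ k₁ m' q (x : ℤ) j -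
        M (1 / 2) (k₂ + k₁) j * Kf (1 / 2) m' q.1 (2 ^ k₂ * (x : ℤ) - (q.2 : ℤ))|) =
      Ex (1 / 2) k₂ (fun q => ∑ j ∈ range (k₂ + k₁ + 1), ∑ x ∈ range (3 ^ m'),
        |S8A k₂ k₁ m' q (x : ℤ) j -
        M (1 / 2) (k₂ + k₁) j * Kf (1 / 2) m' q.1 (2 ^ k₂ * (x : ℤ) - (q.2 : ℤ))|) := by
    rw [Ex_sum]
    refine sum_congr rfl fun j _ => ?_
    rw [Ex_sum]
  rw [h1]
  have h2 : 2 * Ex (1 / 2) k₂ (fun q => if q.1 < m' then 1 else 0) +
      k₂ * (2 / Real.sqrt (k₁ + 1)) = Ex (1 / 2) k₂ (fun q =>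
        2 * (if q.1 < m' then 1 else 0) + k₂ * (2 / Real.sqrt (k₁ + 1))) := by
    rw [Ex_add', Ex_mul, Ex_const]
  rw [h2]
  refine Ex_mono (by norm_num) (by norm_num) _ _ _ fun q hq => ?_
  have hqk : q.1 ≤ k₂ := W_fst_le hq
  have hM : ∀ j, 0 ≤ M (1 / 2) (k₂ + k₁) j := fun j =>
    M_nonneg (by norm_num) (by norm_num) (k₂ + k₁) j
  have hB : ∀ x : ℤ, 0 ≤ Kf (1 / 2) m' q.1 (2 ^ k₂ * x - (q.2 : ℤ)) := fun x => Kf_nonneg _ _ _
  by_cases hm : q.1 < m'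
  · rw [if_pos hm]
    have hsum : ∑ j ∈ range (k₂ + k₁ + 1), M (1 / 2) (k₂ + k₁) j = 1 :=
      M_sum (α := 1 / 2) (k₂ + k₁)
    have h3 : ∑ j ∈ range (k₂ + k₁ + 1), ∑ x ∈ range (3 ^ m'),
        |S8A k₂ k₁ m' q (x : ℤ) j -
        M (1 / 2) (k₂ + k₁) j * Kf (1 / 2) m' q.1 (2 ^ k₂ * (x : ℤ) - (q.2 : ℤ))| ≤
        ∑ j ∈ range (k₂ + k₁ + 1), ∑ x ∈ range (3 ^ m'), S8A k₂ k₁ m' q (x : ℤ) j +
        ∑ j ∈ range (k₂ + k₁ + 1), ∑ x ∈ range (3 ^ m'),
          M (1 / 2) (k₂ + k₁) j * Kf (1 / 2) m' q.1 (2 ^ k₂ * (x : ℤ) - (q.2 : ℤ)) := by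
      rw [← sum_add_distrib]
      refine sum_le_sum fun j _ => ?_
      rw [← sum_add_distrib]
      refine sum_le_sum fun x _ => ?_
      refine (abs_sub _ _).trans ?_
      rw [abs_of_nonneg (S8A_nonneg _ _ _ _ _ _), abs_of_nonneg (mul_nonneg (hM j) (hB x))]
    have h4 := S8A_sum k₂ k₁ m' (k₂ + k₁ + 1) q
    have h5 : ∑ j ∈ range (k₂ + k₁ + 1), ∑ x ∈ range (3 ^ m'),
          M (1 / 2) (k₂ + k₁) j * Kf (1 / 2) m' q.1 (2 ^ k₂ * (x : ℤ) - (q.2 : ℤ)) = 1 := by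
      have : ∀ j ∈ range (k₂ + k₁ + 1), ∑ x ∈ range (3 ^ m'),
          M (1 / 2) (k₂ + k₁) j * Kf (1 / 2) m' q.1 (2 ^ k₂ * (x : ℤ) - (q.2 : ℤ)) =
          M (1 / 2) (k₂ + k₁) j := by
        intro j _
        rw [← mul_sum, S8_Bsum, mul_one]
      rw [sum_congr rfl this, hsum]
    have h6 : (0 : ℝ) ≤ k₂ * (2 / Real.sqrt (k₁ + 1)) := by positivity
    linarith
  · rw [if_neg hm]
    have hm := not_lt.1 hm
    have h3 : ∑ j ∈ range (k₂ + k₁ + 1), ∑ x ∈ range (3 ^ m'),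
        |S8A k₂ k₁ m' q (x : ℤ) j -
        M (1 / 2) (k₂ + k₁) j * Kf (1 / 2) m' q.1 (2 ^ k₂ * (x : ℤ) - (q.2 : ℤ))| =
        ∑ j ∈ range (k₂ + k₁ + 1), |Ms k₁ q.1 j - M (1 / 2) (k₂ + k₁) j| := by
      refine sum_congr rfl fun j _ => ?_
      have : ∀ x ∈ range (3 ^ m'), |S8A k₂ k₁ m' q (x : ℤ) j -
          M (1 / 2) (k₂ + k₁) j * Kf (1 / 2) m' q.1 (2 ^ k₂ * (x : ℤ) - (q.2 : ℤ))| =
          Kf (1 / 2) m' q.1 (2 ^ k₂ * (x : ℤ) - (q.2 : ℤ)) *
            |Ms k₁ q.1 j - M (1 / 2) (k₂ + k₁) j| := by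
        intro x _
        rw [S8A_big k₂ k₁ m' q hm]
        rw [show Kf (1 / 2) m' q.1 (2 ^ k₂ * (x : ℤ) - (q.2 : ℤ)) * Ms k₁ q.1 j -
          M (1 / 2) (k₂ + k₁) j * Kf (1 / 2) m' q.1 (2 ^ k₂ * (x : ℤ) - (q.2 : ℤ)) =
          Kf (1 / 2) m' q.1 (2 ^ k₂ * (x : ℤ) - (q.2 : ℤ)) *
            (Ms k₁ q.1 j - M (1 / 2) (k₂ + k₁) j) by ring, abs_mul, abs_of_nonneg (hB x)]
      rw [sum_congr rfl this, ← sum_mul, S8_Bsum, one_mul]
    rw [h3, mul_zero, zero_add]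
    exact Ms_avg k₂ k₁ q.1 (k₂ + k₁ + 1) hqk

end Pool.Agent.Syr66
end

section

set_option autoImplicit false

namespace Pool.Agent.Syr66

open Finset

private lemma ps_zero_fun : ps (fun _ => (0 : ℝ)) = 0 := by
  unfold ps
  simp

private lemma Aw_add_wt_nonneg (k j : ℕ) : (0 : ℝ) ≤ wt (1 / 2) k j := by
  unfold wt
  positivity

/-- `Gw_add` with `i = n + 1`, `ps_sum_le` over `j`; for `j ≤ n` (then `min j (n + 1) = j`) use
`conv_sum` with `S = (W k).filter (q.1 = j)`, `r q = 2 ^ l q.2`, `g = Gw l (n + 1 - j) (J - j)`, and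
`Aw_word`; for `n < j` (`min j (n + 1) = n + 1`, `Gw_zero_level`) use `ps_mul` and `Aw_word`. -/
theorem Aw_add (k l n J : ℕ) :
    Aw (k + l) n J ≤ ∑ j ∈ range (k + 1), if j ≤ J then
      Aw k n j * (if j ≤ n then Aw l (n - j) (J - j) else M (1 / 2) l (J - j)) else 0 := by
  set Fj : ℕ → ℤ → ℝ := fun j z => if j ≤ J then
      ∑ q ∈ (W k).filter (fun q => q.1 = j), wt (1 / 2) k j *
        (if (3 : ℤ) ^ (min j (n + 1)) ∣ z - 2 ^ l * q.2 then
          Gw l (n + 1 - j) (J - j) ((z - 2 ^ l * q.2) / 3 ^ (min j (n + 1))) else 0) else 0 with hF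
  have hF0 : ∀ j z, 0 ≤ Fj j z := by
    intro j z
    simp only [hF]
    split_ifs with h
    · refine sum_nonneg fun q _ => mul_nonneg (Aw_add_wt_nonneg k j) ?_
      split_ifs
      · exact Gw_nonneg _ _ _ _
      · exact le_rfl
    · exact le_rfl
  have h1 : Aw (k + l) n J ≤
      ∑ j ∈ range (k + 1), ∑ x ∈ range (3 ^ n), ps (fun d => Fj j ((x : ℤ) + 3 ^ n * d)) := by
    rw [sum_comm]
    unfold Aw
    refine sum_le_sum fun x _ => ?_
    have e : (fun d : ℕ => Gw (k + l) (n + 1) J ((x : ℤ) + 3 ^ n * d)) =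
        fun d : ℕ => ∑ j ∈ range (k + 1), Fj j ((x : ℤ) + 3 ^ n * d) := by
      funext d
      rw [Gw_add]
    rw [e]
    exact ps_sum_le (range (k + 1)) (fun j d => Fj j ((x : ℤ) + 3 ^ n * d))
      (fun j _ a _ => hF0 j _)
  refine h1.trans (sum_le_sum fun j _ => ?_)
  by_cases hjJ : j ≤ J
  · rw [if_pos hjJ]
    by_cases hjn : j ≤ n
    · rw [if_pos hjn]
      have hm : min j (n + 1) = j := by omega
      have key := conv_sum ((W k).filter (fun q => q.1 = j)) (fun _ => wt (1 / 2) k j)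
        (fun q _ => Aw_add_wt_nonneg k j) (fun q => (2 : ℤ) ^ l * (q.2 : ℤ)) n j hjn
        (Gw l (n + 1 - j) (J - j)) (fun y => Gw_nonneg _ _ _ y)
        (fun y t => Gw_periodic _ _ _ y t)
      rw [Aw_word] at key
      have e2 : ∑ y ∈ range (3 ^ (n - j)),
          ps (fun e => Gw l (n + 1 - j) (J - j) ((y : ℤ) + 3 ^ (n - j) * e)) =
          Aw l (n - j) (J - j) := by
        unfold Aw
        have : n + 1 - j = n - j + 1 := by omega
        rw [this]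
      rw [e2] at key
      refine le_trans (le_of_eq ?_) key
      refine sum_congr rfl fun x _ => ?_
      congr 1
      funext d
      simp only [hF, if_pos hjJ, hm]
    · rw [if_neg hjn]
      have hm : min j (n + 1) = n + 1 := by omega
      have hi : n + 1 - j = 0 := by omega
      rw [mul_comm, ← Aw_word k l n j, mul_sum]
      refine le_of_eq (sum_congr rfl fun x _ => ?_)
      rw [← ps_mul]
      congr 1
      funext d
      simp only [hF, if_pos hjJ, hm, hi, Gw_zero_level, mul_sum]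
      refine sum_congr rfl fun q _ => ?_
      split_ifs
      · ring
      · ring
  · rw [if_neg hjJ]
    refine le_of_eq (sum_eq_zero fun x _ => ?_)
    have : (fun d : ℕ => Fj j ((x : ℤ) + 3 ^ n * d)) = fun _ => (0 : ℝ) := by
      funext d
      simp only [hF, if_neg hjJ]
    rw [this, ps_zero_fun]

end Pool.Agent.Syr66
end

section

set_option autoImplicit false

namespace Pool.Agent.Syr66

open Finset

private lemma q14_shift (f : ℕ → ℝ) (k l j : ℕ) (hj : j ≤ k) (hf : ∀ J, l < J → f J = 0) :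
    ∑ J ∈ range (k + l + 1), (if j ≤ J then f (J - j) else 0) = ∑ J ∈ range (l + 1), f J := by
  have e1 : k + l + 1 = j + (k - j + l + 1) := by omega
  rw [e1, sum_range_add]
  have h1 : ∑ x ∈ range j, (if j ≤ x then f (x - j) else 0) = 0 := by
    refine sum_eq_zero fun x hx => ?_
    rw [mem_range] at hx
    rw [if_neg (by omega)]
  rw [h1, zero_add]
  have h2 : ∀ x ∈ range (k - j + l + 1), (if j ≤ j + x then f (j + x - j) else 0) = f x := by
    intro x _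
    rw [if_pos (Nat.le_add_right _ _), Nat.add_sub_cancel_left]
  rw [sum_congr rfl h2]
  have e2 : k - j + l + 1 = (l + 1) + (k - j) := by omega
  rw [e2, sum_range_add]
  have h3 : ∑ x ∈ range (k - j), f (l + 1 + x) = 0 :=
    sum_eq_zero fun x _ => hf _ (by omega)
  rw [h3, add_zero]

/-- Sum `Aw_add` over `J ≤ k + l`, exchange the sums; `∑ J', Aw l (n - j) J' = aw l (n - j)`,
`∑ J', M l J' = 1` (terms with `J' > l` vanish). -/
theorem aw_add (k l n : ℕ) :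
    aw (k + l) n ≤ ∑ j ∈ range (k + 1), Aw k n j * (if j ≤ n then aw l (n - j) else 1) := by
  unfold aw
  refine (sum_le_sum fun J _ => Aw_add k l n J).trans (le_of_eq ?_)
  rw [sum_comm]
  refine sum_congr rfl fun j hj => ?_
  have hjk : j ≤ k := Nat.lt_succ_iff.mp (mem_range.mp hj)
  by_cases hjn : j ≤ n
  · simp only [if_pos hjn]
    rw [← q14_shift (fun J => Aw l (n - j) J) k l j hjk (fun J hJ => Aw_eq_zero l (n - j) J hJ),
      mul_sum]
    refine sum_congr rfl fun J _ => ?_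
    split_ifs
    · rfl
    · rw [mul_zero]
  · simp only [if_neg hjn]
    have hMs : ∑ j ∈ range (l + 1), M (1 / 2) l j = 1 := M_sum l
    have hs := q14_shift (fun J => M (1 / 2) l J) k l j hjk (fun J hJ => M_eq_zero l J hJ)
    have hs' : ∑ J ∈ range (k + l + 1), (if j ≤ J then M (1 / 2) l (J - j) else 0) = 1 :=
      hs.trans hMs
    have hm := congrArg (fun t : ℝ => Aw k n j * t) hs'
    simp only [mul_sum] at hm
    rw [← hm]
    refine sum_congr rfl fun J _ => ?_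
    split_ifs
    · rfl
    · rw [mul_zero]

theorem aw_add_le (k l n : ℕ) : aw (k + l) n ≤ aw k n := by
  refine (aw_add k l n).trans ?_
  unfold aw
  refine sum_le_sum fun j _ => ?_
  have h0 := Aw_nonneg k n j
  split_ifs
  · have h1 := aw_le_one l (n - j)
    unfold aw at h1
    nlinarith
  · rw [mul_one]

theorem aw_anti {k K : ℕ} (h : k ≤ K) (n : ℕ) : aw K n ≤ aw k n := by
  obtain ⟨l, rfl⟩ := Nat.exists_eq_add_of_le h
  exact aw_add_le k l n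

end Pool.Agent.Syr66
end

section

set_option autoImplicit false

namespace Pool.Agent.Syr66

open Finset

private theorem wt_half_nonneg (k j : ℕ) : 0 ≤ wt (1 / 2) k j := by
  unfold wt
  positivity

/-- Sums over words with `j` odd steps. -/
private theorem Ex_filter (k j : ℕ) (f : ℕ × ℕ → ℝ) :
    Ex (1 / 2) k (fun q => if q.1 = j then f q else 0) =
      ∑ q ∈ (W k).filter (fun q => q.1 = j), wt (1 / 2) k j * f q := by
  unfold Ex
  rw [sum_filter]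
  refine sum_congr rfl fun q _ => ?_
  by_cases h : q.1 = j
  · simp [h]
  · simp [h]

/-- The kernel sum. -/
private theorem Kf_sum_periodic (k i j : ℕ) (x t : ℤ) :
    (∑ q ∈ (W k).filter (fun q => q.1 = j), wt (1 / 2) k j *
      Kf (1 / 2) (i + 1) j (x + 3 ^ (i + 1) * t - q.2)) =
    ∑ q ∈ (W k).filter (fun q => q.1 = j), wt (1 / 2) k j *
      Kf (1 / 2) (i + 1) j (x - q.2) := by
  refine sum_congr rfl fun q _ => ?_
  rw [show x + 3 ^ (i + 1) * t - (q.2 : ℤ) = x - q.2 + 3 ^ (i + 1) * t by ring,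
    Kf_periodic]

private theorem g_sum_le (m : ℕ) :
    ∑ y ∈ range (3 ^ m), ps (fun e => p (1 / 2) (m + 1) ((y : ℤ) + 3 ^ m * e)) ≤ 1 := by
  have h0 : (0 : ℝ) < 1 / 2 := by norm_num
  have h1 : (1 / 2 : ℝ) < 1 := by norm_num
  calc ∑ y ∈ range (3 ^ m), ps (fun e => p (1 / 2) (m + 1) ((y : ℤ) + 3 ^ m * e))
      ≤ ∑ y ∈ range (3 ^ m), ∑ e ∈ range 3, p (1 / 2) (m + 1) ((y : ℤ) + 3 ^ m * e) := by
        refine sum_le_sum fun y _ => ps_le _ fun a _ => p_nonneg h0 h1 _ _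
    _ = ∑ y ∈ range (3 ^ m), p (1 / 2) m (y : ℤ) := by
        refine sum_congr rfl fun y _ => ?_
        exact p_marg h0 h1 m y
    _ = 1 := p_sum h0 h1 m

/-- `Gm k j (i + 1) x = G (2 ^ k x)` with
`G z = ∑ q ∈ (W k).filter (q.1 = j), wt k j * Kf (i + 1) j (z - q.2)`, which has period `3 ^ (i + 1)`;
by `sum_ps_affine` (`u = 2 ^ k`) the sum is `∑ x, ps (d ↦ G (x + 3 ^ i d))`. If `j ≤ i`,
`Kf (i + 1) j z = [3 ^ j ∣ z] p (i + 1 - j) (z / 3 ^ j)` and `conv_sum` applies with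
`g = p (i + 1 - j)`, whose factor is at most `∑ p = 1` (`ps_le`); the first factor is `Aw k i j`
(`Aw_word` with `l = 0`). If `i < j`, `Kf (i + 1) j z = [3 ^ (i + 1) ∣ z]` and `G = Gw k (i + 1) j`. -/
theorem Gm_ps (k i j : ℕ) :
    ∑ x ∈ range (3 ^ i), ps (fun d => Gm k j (i + 1) ((x : ℤ) + 3 ^ i * d)) ≤ Aw k i j := by
  have hu : IsCoprime ((2 : ℤ) ^ k) (3 : ℤ) := by
    apply IsCoprime.pow_left
    rw [Int.isCoprime_iff_gcd_eq_one]
    norm_num
  have hG : ∀ z : ℤ, Gm k j (i + 1) z =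
      (fun z : ℤ => ∑ q ∈ (W k).filter (fun q => q.1 = j), wt (1 / 2) k j *
        Kf (1 / 2) (i + 1) j (z - q.2)) (2 ^ k * z + 0) := by
    intro z
    unfold Gm
    rw [Ex_filter k j (fun q => Kf (1 / 2) (i + 1) j (2 ^ k * z - q.2))]
    simp only [add_zero]
  have hLHS : ∑ x ∈ range (3 ^ i), ps (fun d => Gm k j (i + 1) ((x : ℤ) + 3 ^ i * d)) =
      ∑ x ∈ range (3 ^ i), ps (fun d => ∑ q ∈ (W k).filter (fun q => q.1 = j), wt (1 / 2) k j *
        Kf (1 / 2) (i + 1) j ((x : ℤ) + 3 ^ i * d - q.2)) := by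
    have h := sum_ps_affine i
      (fun z : ℤ => ∑ q ∈ (W k).filter (fun q => q.1 = j), wt (1 / 2) k j *
        Kf (1 / 2) (i + 1) j (z - q.2)) (fun x t => Kf_sum_periodic k i j x t) (2 ^ k) 0 hu
    rw [← h]
    refine sum_congr rfl fun x _ => ?_
    congr 1
    funext d
    exact hG _
  rw [hLHS]
  have hA := Aw_word k 0 i j
  simp only [pow_zero, one_mul] at hA
  by_cases hj : j ≤ i
  · have e1 : i + 1 - j = i - j + 1 := by omega
    have hKf : ∀ z : ℤ, Kf (1 / 2) (i + 1) j z =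
        if (3 : ℤ) ^ j ∣ z then p (1 / 2) (i + 1 - j) (z / 3 ^ j) else 0 := by
      intro z
      unfold Kf
      rw [min_eq_left (by omega : j ≤ i + 1)]
    simp_rw [hKf]
    have hc := conv_sum ((W k).filter (fun q => q.1 = j)) (fun _ => wt (1 / 2) k j)
      (fun q _ => wt_half_nonneg k j) (fun q => (q.2 : ℤ)) i j hj (p (1 / 2) (i + 1 - j))
      (fun y => p_nonneg (by norm_num) (by norm_num) _ _) (fun y t => p_periodic _ _ _ _)
    refine hc.trans ?_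
    rw [hA]
    have hg := g_sum_le (i - j)
    rw [e1]
    calc Aw k i j * _ ≤ Aw k i j * 1 := mul_le_mul_of_nonneg_left hg (Aw_nonneg k i j)
      _ = Aw k i j := mul_one _
  · have hKf : ∀ z : ℤ, Kf (1 / 2) (i + 1) j z =
        if (3 : ℤ) ^ (i + 1) ∣ z then 1 else 0 := by
      intro z
      unfold Kf
      rw [min_eq_right (by omega : i + 1 ≤ j), show i + 1 - j = 0 by omega]
      rfl
    simp_rw [hKf]
    exact hA.le

end Pool.Agent.Syr66
end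

section

set_option autoImplicit false

namespace Pool.Agent.Syr66

open Finset

/-- `ps_l1` termwise (`Gm_marg` for the mean), then Cauchy-Schwarz
`∑ sqrt (2 a b) ≤ sqrt (2 (∑ a) (∑ b))` with `∑ a = ∑ j, M j = 1` (`Gm_sum`) and `∑ b ≤ aw k i`
(`Gm_ps`). -/
theorem level_l1 (k i : ℕ) :
    ∑ j ∈ range (k + 1), ∑ x ∈ range (3 ^ i), ∑ d ∈ range 3,
      |Gm k j (i + 1) ((x : ℤ) + 3 ^ i * d) - Gm k j i (x : ℤ) / 3| ≤
    Real.sqrt (2 * aw k i) := by
  have hnn : ∀ (j x : ℕ), ∀ a ∈ range 3,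
      0 ≤ (fun d : ℕ => Gm k j (i + 1) ((x : ℤ) + 3 ^ i * d)) a := fun j x a _ =>
    Gm_nonneg k j (i + 1) _
  have hterm : ∀ (j x : ℕ), ∑ d ∈ range 3,
      |Gm k j (i + 1) ((x : ℤ) + 3 ^ i * d) - Gm k j i (x : ℤ) / 3| ≤
      Real.sqrt (2 * Gm k j i (x : ℤ)) *
        Real.sqrt (ps (fun d : ℕ => Gm k j (i + 1) ((x : ℤ) + 3 ^ i * d))) := by
    intro j x
    have h := ps_l1 (fun d : ℕ => Gm k j (i + 1) ((x : ℤ) + 3 ^ i * d)) (hnn j x)
    simp only [Gm_marg] at h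
    rw [← Real.sqrt_mul (mul_nonneg zero_le_two (Gm_nonneg k j i _))]
    exact h
  calc ∑ j ∈ range (k + 1), ∑ x ∈ range (3 ^ i), ∑ d ∈ range 3,
      |Gm k j (i + 1) ((x : ℤ) + 3 ^ i * d) - Gm k j i (x : ℤ) / 3|
      ≤ ∑ j ∈ range (k + 1), ∑ x ∈ range (3 ^ i), Real.sqrt (2 * Gm k j i (x : ℤ)) *
        Real.sqrt (ps (fun d : ℕ => Gm k j (i + 1) ((x : ℤ) + 3 ^ i * d))) :=
        sum_le_sum fun j _ => sum_le_sum fun x _ => hterm j x
    _ = ∑ q ∈ range (k + 1) ×ˢ range (3 ^ i), Real.sqrt (2 * Gm k q.1 i (q.2 : ℤ)) *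
        Real.sqrt (ps (fun d : ℕ => Gm k q.1 (i + 1) ((q.2 : ℤ) + 3 ^ i * d))) := by
        rw [sum_product]
    _ ≤ Real.sqrt (∑ q ∈ range (k + 1) ×ˢ range (3 ^ i), 2 * Gm k q.1 i (q.2 : ℤ)) *
        Real.sqrt (∑ q ∈ range (k + 1) ×ˢ range (3 ^ i),
          ps (fun d : ℕ => Gm k q.1 (i + 1) ((q.2 : ℤ) + 3 ^ i * d))) := by
        apply Real.sum_sqrt_mul_sqrt_le
        · intro q
          exact mul_nonneg zero_le_two (Gm_nonneg k q.1 i _)
        · intro q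
          exact ps_nonneg _ (hnn q.1 q.2)
    _ = Real.sqrt (2 * ∑ q ∈ range (k + 1) ×ˢ range (3 ^ i),
          ps (fun d : ℕ => Gm k q.1 (i + 1) ((q.2 : ℤ) + 3 ^ i * d))) := by
        have h1 : ∑ q ∈ range (k + 1) ×ˢ range (3 ^ i), 2 * Gm k q.1 i (q.2 : ℤ) = 2 := by
          rw [← mul_sum, sum_product]
          simp only [Gm_sum]
          rw [M_sum, mul_one]
        rw [h1, ← Real.sqrt_mul zero_le_two]
    _ ≤ Real.sqrt (2 * aw k i) := by
        apply Real.sqrt_le_sqrt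
        apply mul_le_mul_of_nonneg_left _ zero_le_two
        rw [sum_product]
        unfold aw
        exact sum_le_sum fun j _ => Gm_ps k i j

end Pool.Agent.Syr66
end

section

set_option autoImplicit false

namespace Pool.Agent.Syr66

open Finset

/-- `tele` for `f i = Gm k j i`, `i₀ = m'`, `l = m + j - m'`; enlarge `[m', m + j)` to `[m', R)`,
exchange the sums and use `level_l1`. -/
theorem fine_mix (k m m' R : ℕ) (J : Finset ℕ)
    (hJ : ∀ j ∈ J, j ≤ k ∧ m' ≤ m + j ∧ m + j ≤ R) :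
    ∑ j ∈ J, ∑ x ∈ range (3 ^ (m + j)),
      |Gm k j (m + j) (x : ℤ) - Gm k j m' (x : ℤ) / 3 ^ (m + j - m')| ≤
    ∑ i ∈ Ico m' R, Real.sqrt (2 * aw k i) := by
  have hnn : ∀ j i : ℕ, 0 ≤ ∑ x ∈ range (3 ^ i), ∑ d ∈ range 3,
      |Gm k j (i + 1) ((x : ℤ) + 3 ^ i * d) - Gm k j i (x : ℤ) / 3| := fun j i =>
    Finset.sum_nonneg fun x _ => Finset.sum_nonneg fun d _ => abs_nonneg _
  have h1 : ∀ j ∈ J, ∑ x ∈ range (3 ^ (m + j)),
      |Gm k j (m + j) (x : ℤ) - Gm k j m' (x : ℤ) / 3 ^ (m + j - m')| ≤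
      ∑ i ∈ Ico m' R, ∑ x ∈ range (3 ^ i), ∑ d ∈ range 3,
        |Gm k j (i + 1) ((x : ℤ) + 3 ^ i * d) - Gm k j i (x : ℤ) / 3| := by
    intro j hj
    obtain ⟨_, hm, hR⟩ := hJ j hj
    obtain ⟨l, hl⟩ := Nat.exists_eq_add_of_le hm
    rw [hl, Nat.add_sub_cancel_left]
    refine (tele (fun i => Gm k j i) (fun i x t => Gm_periodic k j i x t) m' l).trans ?_
    have e : Finset.range l = Finset.range (m' + l - m') := by
      rw [Nat.add_sub_cancel_left]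
    rw [e, ← Finset.sum_Ico_eq_sum_range (fun i => ∑ x ∈ range (3 ^ i), ∑ d ∈ range 3,
        |Gm k j (i + 1) ((x : ℤ) + 3 ^ i * d) - Gm k j i (x : ℤ) / 3|) m' (m' + l)]
    exact Finset.sum_le_sum_of_subset_of_nonneg
      (Finset.Ico_subset_Ico_right (by omega)) fun i _ _ => hnn j i
  refine (Finset.sum_le_sum h1).trans ?_
  rw [Finset.sum_comm]
  refine Finset.sum_le_sum fun i _ => ?_
  refine le_trans ?_ (level_l1 k i)
  refine Finset.sum_le_sum_of_subset_of_nonneg ?_ fun j _ _ => hnn j i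
  intro j hj
  exact Finset.mem_range.2 (Nat.lt_succ_of_le (hJ j hj).1)

end Pool.Agent.Syr66
end

section

set_option autoImplicit false

namespace Pool.Agent.Syr66

open Finset

/-- `aw_add q k`, `Aw q n j ≤ M q j ≤ 1 / sqrt (q + 1)`, `j ≤ q ≤ n`, and
`∑ j ≤ q, aw k (n - j) ≤ ∑ n' < n + 1, aw k n'`, `sum_aw_le`. -/
theorem aw_smooth (q k n : ℕ) (hq : q ≤ n) (h : 3 ^ (n + 1) ≤ 2 ^ k) :
    aw (q + k) n ≤ (4 * Real.log (k + 1) + 2) / Real.sqrt (q + 1) := by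
  have h1 := aw_add q k n
  have h2 : ∑ j ∈ range (q + 1), Aw q n j * (if j ≤ n then aw k (n - j) else 1) ≤
      ∑ j ∈ range (q + 1), 1 / Real.sqrt (q + 1) * aw k (n - j) := by
    refine Finset.sum_le_sum fun j hj => ?_
    have hjn : j ≤ n := by
      have := Finset.mem_range.mp hj
      omega
    rw [if_pos hjn]
    exact mul_le_mul_of_nonneg_right ((Aw_le q n j).trans (M_le_sqrt q j)) (aw_nonneg k (n - j))
  have h3 : ∑ j ∈ range (q + 1), aw k (n - j) ≤ ∑ j ∈ range (n + 1), aw k (n - j) := by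
    refine Finset.sum_le_sum_of_subset_of_nonneg ?_ fun j _ _ => aw_nonneg k (n - j)
    exact Finset.range_subset_range.mpr (by omega)
  have h4 : ∑ j ∈ range (n + 1), aw k (n - j) = ∑ j ∈ range (n + 1), aw k j := by
    have := Finset.sum_range_reflect (fun j => aw k j) (n + 1)
    rw [← this]
    refine Finset.sum_congr rfl fun j _ => ?_
    congr 1
  have h5 := sum_aw_le k (n + 1) h
  rw [← Finset.mul_sum] at h2
  have h6 : 1 / Real.sqrt (q + 1) * ∑ j ∈ range (q + 1), aw k (n - j) ≤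
      1 / Real.sqrt (q + 1) * (4 * Real.log (k + 1) + 2) := by
    refine mul_le_mul_of_nonneg_left (h3.trans (h4 ▸ h5)) (by positivity)
  calc aw (q + k) n ≤ 1 / Real.sqrt (q + 1) * (4 * Real.log (k + 1) + 2) := h1.trans (h2.trans h6)
    _ = (4 * Real.log (k + 1) + 2) / Real.sqrt (q + 1) := by ring

end Pool.Agent.Syr66
end

section

set_option autoImplicit false

namespace Pool.Agent.Syr66

open Finset

private theorem R9_pow (n m : ℕ) (h : 8 * (n + 1) ≤ 5 * m) : 3 ^ (n + 1) ≤ 2 ^ m := by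
  have h1 : (3 ^ (n + 1)) ^ 5 ≤ (2 ^ m) ^ 5 := by
    calc (3 ^ (n + 1)) ^ 5 = (3 ^ 5) ^ (n + 1) := by
          rw [← pow_mul, ← pow_mul, mul_comm]
      _ ≤ (2 ^ 8) ^ (n + 1) := Nat.pow_le_pow_left (by norm_num) _
      _ = 2 ^ (8 * (n + 1)) := by rw [← pow_mul]
      _ ≤ 2 ^ (5 * m) := Nat.pow_le_pow_right (by norm_num) h
      _ = (2 ^ m) ^ 5 := by rw [← pow_mul, mul_comm]
  exact (Nat.pow_le_pow_iff_left (by norm_num)).mp h1

/-- For `k ≥ 60` use `aw_smooth` with `q = k / 100` and inner length `k - q`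
(`8 (n + 1) ≤ 5 (k - q)` gives `3 ^ (n + 1) ≤ 2 ^ (k - q)` because `3 ^ 5 ≤ 2 ^ 8`) and
`log t ≤ 12 t ^ (1 / 12)`; small `k` by enlarging `C` (`aw ≤ 1`). -/
theorem aw_third : ∃ C : ℝ, 0 < C ∧ ∀ k n : ℕ, k ≤ 100 * n → 5 * n ≤ 3 * k →
    aw k n ≤ C * ((n : ℝ) + 1) ^ (-(1 / 3 : ℝ)) := by
  refine ⟨506, by norm_num, ?_⟩
  intro k n h1 h2
  have ht : (1 : ℝ) ≤ (n : ℝ) + 1 := by
    have : (0 : ℝ) ≤ n := Nat.cast_nonneg n
    linarith
  have ht0 : (0 : ℝ) < (n : ℝ) + 1 := by linarith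
  by_cases hk : k < 60
  · have hn : n < 36 := by omega
    have hn' : (n : ℝ) + 1 ≤ 37 := by
      have : (n : ℝ) ≤ 36 := by exact_mod_cast hn.le
      linarith
    have h3 : ((n : ℝ) + 1) ^ (-(1 : ℝ)) ≤ ((n : ℝ) + 1) ^ (-(1 / 3 : ℝ)) :=
      Real.rpow_le_rpow_of_exponent_le ht (by norm_num)
    have h4 : (1 / 37 : ℝ) ≤ ((n : ℝ) + 1) ^ (-(1 : ℝ)) := by
      rw [Real.rpow_neg_one, one_div]
      exact inv_anti₀ ht0 hn'
    have h5 := aw_le_one k n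
    linarith
  · push Not at hk
    have hq : k / 100 ≤ n := by omega
    have hn1 : 1 ≤ n := by omega
    have hpow : 3 ^ (n + 1) ≤ 2 ^ (k - k / 100) := R9_pow _ _ (by omega)
    have hsm := aw_smooth (k / 100) (k - k / 100) n hq hpow
    have hkk : k / 100 + (k - k / 100) = k := by omega
    rw [hkk] at hsm
    refine hsm.trans ?_
    -- the logarithm
    have hlog : Real.log (((k - k / 100 : ℕ) : ℝ) + 1) ≤ 5 + 6 * ((n : ℝ) + 1) ^ (1 / 6 : ℝ) := by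
      have e1 : ((k - k / 100 : ℕ) : ℝ) + 1 ≤ 100 * ((n : ℝ) + 1) := by
        have : (k - k / 100 : ℕ) + 1 ≤ 100 * (n + 1) := by omega
        exact_mod_cast this
      have e2 : Real.log (((k - k / 100 : ℕ) : ℝ) + 1) ≤ Real.log (100 * ((n : ℝ) + 1)) :=
        Real.log_le_log (by positivity) e1
      rw [Real.log_mul (by norm_num) ht0.ne'] at e2
      have e3 : Real.log (100 : ℝ) ≤ 5 := by
        have := Real.log_two_lt_d9
        have e4 : Real.log (100 : ℝ) ≤ Real.log ((2 : ℝ) ^ (7 : ℕ)) :=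
          Real.log_le_log (by norm_num) (by norm_num)
        rw [Real.log_pow] at e4
        push_cast at e4
        linarith
      have e5 : Real.log ((n : ℝ) + 1) ≤ ((n : ℝ) + 1) ^ (1 / 6 : ℝ) / (1 / 6 : ℝ) :=
        Real.log_le_rpow_div ht0.le (by norm_num)
      linarith
    have hsq : ((n : ℝ) + 1) ^ (1 / 2 : ℝ) / 11 ≤ Real.sqrt (((k / 100 : ℕ) : ℝ) + 1) := by
      have e1 : ((n : ℝ) + 1) / 120 ≤ ((k / 100 : ℕ) : ℝ) + 1 := by
        have : n + 1 ≤ 120 * (k / 100 + 1) := by omega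
        have h' : (n : ℝ) + 1 ≤ 120 * (((k / 100 : ℕ) : ℝ) + 1) := by exact_mod_cast this
        linarith
      rw [← Real.sqrt_eq_rpow]
      apply Real.le_sqrt_of_sq_le
      rw [div_pow, Real.sq_sqrt ht0.le]
      linarith
    have hone : (1 : ℝ) ≤ ((n : ℝ) + 1) ^ (1 / 6 : ℝ) := Real.one_le_rpow ht (by norm_num)
    have hs0 : 0 < ((n : ℝ) + 1) ^ (1 / 2 : ℝ) / 11 := by positivity
    calc (4 * Real.log (((k - k / 100 : ℕ) : ℝ) + 1) + 2) / Real.sqrt (((k / 100 : ℕ) : ℝ) + 1)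
        ≤ (46 * ((n : ℝ) + 1) ^ (1 / 6 : ℝ)) / (((n : ℝ) + 1) ^ (1 / 2 : ℝ) / 11) := by
          apply div_le_div₀ (by positivity) _ hs0 hsq
          linarith
      _ = 506 * (((n : ℝ) + 1) ^ (1 / 6 : ℝ) / ((n : ℝ) + 1) ^ (1 / 2 : ℝ)) := by
          field_simp
          norm_num
      _ = 506 * ((n : ℝ) + 1) ^ (-(1 / 3 : ℝ)) := by
          rw [← Real.rpow_sub ht0]
          norm_num

end Pool.Agent.Syr66
end

section

set_option autoImplicit false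

namespace Pool.Agent.Syr66

open Finset

private theorem R11_exp (c t : ℝ) (hc : 0 < c) (ht : 0 < t) : ∃ C : ℝ, 0 < C ∧ ∀ n : ℕ,
    Real.exp (-(c * n)) ≤ C * ((n : ℝ) + 1) ^ (-t) := by
  refine ⟨Real.exp (c + (-t - t * Real.log (c / t))), Real.exp_pos _, ?_⟩
  intro n
  have hx : (0 : ℝ) < (n : ℝ) + 1 := by positivity
  have hct : 0 < c / t := by positivity
  have h1 : Real.log (c / t * ((n : ℝ) + 1)) ≤ c / t * ((n : ℝ) + 1) - 1 :=
    Real.log_le_sub_one_of_pos (by positivity)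
  rw [Real.log_mul hct.ne' hx.ne'] at h1
  have h2 : t * Real.log ((n : ℝ) + 1) ≤ c * ((n : ℝ) + 1) - t - t * Real.log (c / t) := by
    have h3 := mul_le_mul_of_nonneg_left h1 ht.le
    have h4 : t * (c / t * ((n : ℝ) + 1) - 1) = c * ((n : ℝ) + 1) - t := by
      field_simp
    rw [h4] at h3
    linarith
  rw [Real.rpow_def_of_pos hx, ← Real.exp_add]
  apply Real.exp_le_exp.2
  nlinarith

/-- Layering. `θ' = e = θ / 40`; for `n` large let `K = ⌈2 (1 - θ') n⌉ ≤ k` (`aw_anti`),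
`k₁ = ⌈9 n / 5⌉`, `K = k₁ + k'`, `aw_add k₁ k' n`. For `|j - k₁ / 2| ≤ ε₁ k₁` (`ε₁` small compared with
`e`): `(1 / 10 - e) n ≤ n - j ≤ (1 / 10 + e) n` and `2 (1 - θ) (n - j) ≤ k'`, so
`aw k' (n - j) ≤ C' (n + 1) ^ (-s)`; `∑ j, Aw k₁ n j = aw k₁ n ≤ C (n + 1) ^ (-1 / 3)` by `aw_third`
(`5 n ≤ 3 k₁`); the other `j` by `Aw_atyp`. Small `n` by enlarging the constant. -/
theorem aw_layer (s : ℝ) (hs : 0 ≤ s)
    (h : ∃ θ : ℝ, 0 < θ ∧ θ < 1 ∧ ∃ C : ℝ, 0 < C ∧ ∀ k n : ℕ,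
      2 * (1 - θ) * n ≤ k → aw k n ≤ C * ((n : ℝ) + 1) ^ (-s)) :
    ∃ θ : ℝ, 0 < θ ∧ θ < 1 ∧ ∃ C : ℝ, 0 < C ∧ ∀ k n : ℕ,
      2 * (1 - θ) * n ≤ k → aw k n ≤ C * ((n : ℝ) + 1) ^ (-(s + 1 / 3)) := by
  obtain ⟨θ, h0, h1, C, hC, h⟩ := h
  obtain ⟨C₃, hC₃, h3⟩ := aw_third
  set ε : ℝ := θ / 160 with hε
  have hε0 : 0 < ε := by positivity
  obtain ⟨C₂, hC₂, h2⟩ := R11_exp (18 / 5 * ε ^ 2) (s + 1 / 3) (by positivity) (by positivity)
  obtain ⟨N₀, hN₀⟩ := exists_nat_ge (max 10 (8 / θ))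
  have hN10 : (10 : ℝ) ≤ N₀ := le_trans (le_max_left _ _) hN₀
  have hNθ : 8 / θ ≤ N₀ := le_trans (le_max_right _ _) hN₀
  refine ⟨θ / 40, by positivity, by linarith,
    C * 20 ^ s * C₃ + 2 * C₂ + ((N₀ : ℝ) + 1) ^ (s + 1 / 3), by positivity, ?_⟩
  intro k n hk
  have hx : (0 : ℝ) < (n : ℝ) + 1 := by positivity
  have hxt : (0 : ℝ) < ((n : ℝ) + 1) ^ (-(s + 1 / 3)) := Real.rpow_pos_of_pos hx _
  have h20 : (0 : ℝ) < 20 ^ s := Real.rpow_pos_of_pos (by norm_num) _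
  by_cases hn : n < N₀
  · -- small `n`
    have e1 : (1 : ℝ) ≤ ((N₀ : ℝ) + 1) ^ (s + 1 / 3) * ((n : ℝ) + 1) ^ (-(s + 1 / 3)) := by
      rw [Real.rpow_neg hx.le, ← div_eq_mul_inv, ← Real.div_rpow (by positivity) hx.le]
      apply Real.one_le_rpow _ (by positivity)
      rw [one_le_div hx]
      have : (n : ℝ) ≤ N₀ := by exact_mod_cast hn.le
      linarith
    have e2 : 0 ≤ (C * 20 ^ s * C₃ + 2 * C₂) * ((n : ℝ) + 1) ^ (-(s + 1 / 3)) := by positivity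
    have e3 := aw_le_one k n
    rw [add_mul]
    linarith
  push Not at hn
  have hnR : (N₀ : ℝ) ≤ n := by exact_mod_cast hn
  have hn10 : (10 : ℝ) ≤ n := hN10.trans hnR
  have hθn : 8 ≤ θ * n := by
    have := hNθ.trans hnR
    rw [div_le_iff₀ h0] at this
    linarith
  have hn1 : 1 ≤ n := by
    have : (1 : ℝ) ≤ n := by linarith
    exact_mod_cast this
  obtain ⟨k₁, hk₁⟩ : ∃ k₁ : ℕ, k₁ = (9 * n + 4) / 5 := ⟨_, rfl⟩
  have hk1a : 9 * n ≤ 5 * k₁ := by omega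
  have hk1b : 5 * k₁ ≤ 9 * n + 4 := by omega
  have hk1aR : 9 * (n : ℝ) ≤ 5 * k₁ := by exact_mod_cast hk1a
  have hk1bR : 5 * (k₁ : ℝ) ≤ 9 * n + 4 := by exact_mod_cast hk1b
  have hkk : k₁ ≤ k := by
    have : (k₁ : ℝ) ≤ k := by
      refine le_trans ?_ hk
      nlinarith
    exact_mod_cast this
  obtain ⟨k', rfl⟩ := Nat.exists_eq_add_of_le hkk
  have hk' : 2 * (1 - θ / 40) * n ≤ (k₁ : ℝ) + k' := by
    push_cast at hk
    exact hk
  refine (aw_add k₁ k' n).trans ?_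
  have hA := fun j => Aw_nonneg k₁ n j
  -- termwise bound
  have hterm : ∀ j ∈ range (k₁ + 1), Aw k₁ n j * (if j ≤ n then aw k' (n - j) else 1) ≤
      Aw k₁ n j * (C * 20 ^ s * ((n : ℝ) + 1) ^ (-s)) +
        (if ε * k₁ < |(j : ℝ) - k₁ / 2| then Aw k₁ n j else 0) := by
    intro j _
    by_cases hj : ε * k₁ < |(j : ℝ) - k₁ / 2|
    · rw [if_pos hj]
      have e1 : (if j ≤ n then aw k' (n - j) else 1) ≤ 1 := by
        split_ifs
        · exact aw_le_one _ _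
        · exact le_rfl
      have e2 : 0 ≤ Aw k₁ n j * (C * 20 ^ s * ((n : ℝ) + 1) ^ (-s)) :=
        mul_nonneg (hA j) (by positivity)
      have e3 := mul_le_mul_of_nonneg_left e1 (hA j)
      linarith
    · rw [if_neg hj, add_zero]
      apply mul_le_mul_of_nonneg_left _ (hA j)
      push Not at hj
      have hj1 := (abs_le.1 hj).1
      have hj2 := (abs_le.1 hj).2
      have hεk : ε * k₁ ≤ ε * (9 / 5 * n + 4 / 5) := by
        apply mul_le_mul_of_nonneg_left _ hε0.le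
        linarith
      have hε1 : ε ≤ 1 / 160 := by
        rw [hε]
        linarith
      have hεn : ε * n ≤ 1 / 160 * n := mul_le_mul_of_nonneg_right hε1 (by positivity)
      have hjn : j ≤ n := by
        have : (j : ℝ) ≤ n := by nlinarith
        exact_mod_cast this
      rw [if_pos hjn]
      have hcast : ((n - j : ℕ) : ℝ) = (n : ℝ) - j := by
        rw [Nat.cast_sub hjn]
      have hcond : 2 * (1 - θ) * ((n - j : ℕ) : ℝ) ≤ k' := by
        rw [hcast]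
        have e1 : (n : ℝ) - j ≤ n / 10 + ε * (9 / 5 * n + 4 / 5) := by linarith
        have e2 : 2 * (1 - θ) * ((n : ℝ) - j) ≤
            2 * (1 - θ) * (n / 10 + ε * (9 / 5 * n + 4 / 5)) :=
          mul_le_mul_of_nonneg_left e1 (by linarith)
        have e3 : 2 * (1 - θ) * (n / 10 + ε * (9 / 5 * n + 4 / 5)) ≤
            2 * (1 - θ) * (n / 10) + 2 * (ε * (9 / 5 * n + 4 / 5)) := by
          have : 0 ≤ θ * (ε * (9 / 5 * n + 4 / 5)) := by positivity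
          nlinarith
        have e4 : ε * n = θ * n / 160 := by
          rw [hε]
          ring
        nlinarith
      refine (h k' (n - j) hcond).trans ?_
      rw [mul_assoc]
      apply mul_le_mul_of_nonneg_left _ hC.le
      have hlow : ((n : ℝ) + 1) / 20 ≤ ((n - j : ℕ) : ℝ) + 1 := by
        rw [hcast]
        nlinarith
      have e5 : (((n - j : ℕ) : ℝ) + 1) ^ (-s) ≤ (((n : ℝ) + 1) / 20) ^ (-s) :=
        Real.rpow_le_rpow_of_nonpos (by positivity) hlow (by linarith)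
      refine e5.trans (le_of_eq ?_)
      rw [Real.div_rpow hx.le (by norm_num), Real.rpow_neg (by norm_num : (0 : ℝ) ≤ 20), div_inv_eq_mul]
      ring
  refine (Finset.sum_le_sum hterm).trans ?_
  rw [Finset.sum_add_distrib, ← Finset.sum_mul, ← Finset.sum_filter]
  have f1 : (∑ j ∈ range (k₁ + 1), Aw k₁ n j) ≤ C₃ * ((n : ℝ) + 1) ^ (-(1 / 3 : ℝ)) :=
    h3 k₁ n (by omega) (by omega)
  have f2 := Aw_atyp k₁ n ε hε0
  have f3 : Real.exp (-(2 * ε ^ 2 * k₁)) ≤ C₂ * ((n : ℝ) + 1) ^ (-(s + 1 / 3)) := by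
    refine le_trans ?_ (h2 n)
    apply Real.exp_le_exp.2
    have : 0 ≤ ε ^ 2 := by positivity
    nlinarith
  have f4 : (∑ j ∈ range (k₁ + 1), Aw k₁ n j) * (C * 20 ^ s * ((n : ℝ) + 1) ^ (-s)) ≤
      C * 20 ^ s * C₃ * ((n : ℝ) + 1) ^ (-(s + 1 / 3)) := by
    refine (mul_le_mul_of_nonneg_right f1 (by positivity)).trans (le_of_eq ?_)
    have e6 : (-(s + 1 / 3) : ℝ) = -(1 / 3 : ℝ) + -s := by ring
    rw [e6, Real.rpow_add hx]
    ring
  have f5 : 0 ≤ ((N₀ : ℝ) + 1) ^ (s + 1 / 3) * ((n : ℝ) + 1) ^ (-(s + 1 / 3)) := by positivity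
  rw [add_mul, add_mul]
  linarith

end Pool.Agent.Syr66
end

section

set_option autoImplicit false

namespace Pool.Agent.Syr66

open Finset

/-- Induction on `p : ℕ` for `s = p / 3` (start: `aw ≤ 1`), then monotonicity in `s`. -/
theorem aw_decay (s : ℝ) : ∃ θ : ℝ, 0 < θ ∧ θ < 1 ∧ ∃ C : ℝ, 0 < C ∧ ∀ k n : ℕ,
    2 * (1 - θ) * n ≤ k → aw k n ≤ C * ((n : ℝ) + 1) ^ (-s) := by
  have key : ∀ q : ℕ, ∃ θ : ℝ, 0 < θ ∧ θ < 1 ∧ ∃ C : ℝ, 0 < C ∧ ∀ k n : ℕ,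
      2 * (1 - θ) * n ≤ k → aw k n ≤ C * ((n : ℝ) + 1) ^ (-((q : ℝ) / 3)) := by
    intro q
    induction q with
    | zero =>
      refine ⟨1 / 2, by norm_num, by norm_num, 1, one_pos, ?_⟩
      intro k n _
      simpa using aw_le_one k n
    | succ q ih =>
      obtain ⟨θ, h0, h1, C, hC, h⟩ := aw_layer ((q : ℝ) / 3) (by positivity) ih
      refine ⟨θ, h0, h1, C, hC, ?_⟩
      intro k n hk
      have e : ((q + 1 : ℕ) : ℝ) / 3 = (q : ℝ) / 3 + 1 / 3 := by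
        push_cast
        ring
      rw [e]
      exact h k n hk
  obtain ⟨q, hq⟩ := exists_nat_ge (3 * s)
  obtain ⟨θ, h0, h1, C, hC, h⟩ := key q
  refine ⟨θ, h0, h1, C, hC, ?_⟩
  intro k n hk
  refine (h k n hk).trans (mul_le_mul_of_nonneg_left ?_ hC.le)
  apply Real.rpow_le_rpow_of_exponent_le
  · have : (0 : ℝ) ≤ n := Nat.cast_nonneg n
    linarith
  · linarith

end Pool.Agent.Syr66
end

section

set_option autoImplicit false

namespace Pool.Agent.Syr66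

open Finset

private theorem s9_sum_periodic (a b : ℕ) (g : ℤ → ℝ) (hg : ∀ x t : ℤ, g (x + 3 ^ a * t) = g x) :
    ∑ x ∈ range (3 ^ (a + b)), g (x : ℤ) = 3 ^ b * ∑ x ∈ range (3 ^ a), g (x : ℤ) := by
  have h := sum_split (3 ^ a) (3 ^ b) g
  rw [pow_add, h, Finset.mul_sum]
  refine Finset.sum_congr rfl fun c _ => ?_
  have h1 : ∀ y ∈ range (3 ^ b), g ((c : ℤ) + ((3 ^ a : ℕ) : ℤ) * y) = g c := by
    intro y _
    push_cast
    exact hg _ _
  rw [Finset.sum_congr rfl h1, Finset.sum_const, card_range, nsmul_eq_mul]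
  push_cast
  ring

private theorem s9_er_le (k m m' j : ℕ) (h : m' ≤ m + j) :
    er k m m' j ≤
      (∑ x ∈ range (3 ^ (m + j)),
        |Gm k j (m + j) (x : ℤ) - Gm k j m' (x : ℤ) / 3 ^ (m + j - m')|) +
      ∑ x ∈ range (3 ^ m'),
        |Gm k j m' (x : ℤ) - M (1 / 2) k j * p (1 / 2) m' (x : ℤ)| := by
  obtain ⟨l, hl⟩ : ∃ l, m + j = m' + l := ⟨m + j - m', by omega⟩
  have hl' : m + j - m' = l := by omega
  unfold er
  rw [hl']
  have h2 := s9_sum_periodic m' l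
    (fun z => |Gm k j m' z - M (1 / 2) k j * p (1 / 2) m' z|)
    (by intro x t; simp only [Gm_periodic, p_periodic])
  have h3 : ∑ x ∈ range (3 ^ m'),
        |Gm k j m' (x : ℤ) - M (1 / 2) k j * p (1 / 2) m' (x : ℤ)| =
      ∑ x ∈ range (3 ^ (m + j)),
        |Gm k j m' (x : ℤ) - M (1 / 2) k j * p (1 / 2) m' (x : ℤ)| / 3 ^ l := by
    rw [← Finset.sum_div, hl]
    rw [h2]
    field_simp
  rw [h3, ← Finset.sum_add_distrib]
  refine Finset.sum_le_sum fun x _ => ?_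
  have h4 : Gm k j (m + j) (x : ℤ) - M (1 / 2) k j * p (1 / 2) m' (x : ℤ) / 3 ^ l =
      (Gm k j (m + j) (x : ℤ) - Gm k j m' (x : ℤ) / 3 ^ l) +
      (Gm k j m' (x : ℤ) - M (1 / 2) k j * p (1 / 2) m' (x : ℤ)) / 3 ^ l := by ring
  rw [h4]
  refine (abs_add_le _ _).trans ?_
  rw [abs_div (Gm k j m' (x : ℤ) - M (1 / 2) k j * p (1 / 2) m' (x : ℤ)) (3 ^ l),
    abs_of_pos (by positivity : (0 : ℝ) < 3 ^ l)]

private theorem s9_tail (m' R : ℕ) (h : 1 ≤ m') :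
    ∑ i ∈ Ico m' R, (((i : ℝ) + 1) ^ 2)⁻¹ ≤ 1 := by
  rcases le_or_gt R m' with hR | hR
  · rw [Finset.Ico_eq_empty_of_le hR]; simp
  · have key : ∀ n : ℕ, m' ≤ n →
        ∑ i ∈ Ico m' n, (((i : ℝ) + 1) ^ 2)⁻¹ ≤ (m' : ℝ)⁻¹ - (n : ℝ)⁻¹ := by
      intro n hn
      induction n, hn using Nat.le_induction with
      | base => simp
      | succ n hn ih =>
        rw [Finset.sum_Ico_succ_top hn]
        have hn0 : (0 : ℝ) < n := by exact_mod_cast (by omega : 0 < n)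
        have h1 : (((n : ℝ) + 1) ^ 2)⁻¹ ≤ (n : ℝ)⁻¹ - ((n : ℝ) + 1)⁻¹ := by
          have h2 : (n : ℝ)⁻¹ - ((n : ℝ) + 1)⁻¹ = (n * (n + 1) : ℝ)⁻¹ := by
            field_simp; ring
          rw [h2]
          apply inv_anti₀ (by positivity)
          nlinarith
        push_cast
        linarith
    have h1 := key R hR.le
    have h2 : (0 : ℝ) ≤ (R : ℝ)⁻¹ := by positivity
    have h3 : (m' : ℝ)⁻¹ ≤ 1 := by
      apply inv_le_one_of_one_le₀
      exact_mod_cast h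
    linarith

private theorem s9_exp (A c : ℝ) (hc : 0 < c) : ∃ C : ℝ, 0 < C ∧ ∀ m : ℕ, 1 ≤ m →
    Real.exp (-(c * m)) ≤ C * (m : ℝ) ^ (-A) := by
  obtain ⟨N, hN⟩ := exists_nat_ge A
  refine ⟨(N.factorial : ℝ) / c ^ N, by positivity, fun m hm => ?_⟩
  have hm1 : (1 : ℝ) ≤ m := by exact_mod_cast hm
  have hm0 : (0 : ℝ) < m := by linarith
  have h1 := Real.pow_div_factorial_le_exp (c * m) (by positivity) N
  rw [Real.exp_neg]
  have h2 : (Real.exp (c * m))⁻¹ ≤ ((c * m) ^ N / (N.factorial : ℝ))⁻¹ :=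
    inv_anti₀ (by positivity) h1
  have h3 : ((c * m) ^ N / (N.factorial : ℝ))⁻¹ = (N.factorial : ℝ) / c ^ N * ((m : ℝ) ^ N)⁻¹ := by
    rw [mul_pow]; field_simp
  have h4 : ((m : ℝ) ^ N)⁻¹ ≤ (m : ℝ) ^ (-A) := by
    rw [Real.rpow_neg hm0.le]
    apply inv_anti₀ (by positivity)
    rw [← Real.rpow_natCast]
    exact Real.rpow_le_rpow_of_exponent_le hm1 hN
  calc (Real.exp (c * m))⁻¹ ≤ (N.factorial : ℝ) / c ^ N * ((m : ℝ) ^ N)⁻¹ := by
        rw [← h3]; exact h2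
    _ ≤ (N.factorial : ℝ) / c ^ N * (m : ℝ) ^ (-A) := by gcongr

/-- Mixing theorem. `aw_decay` with `s = 2 A + 4` (`A ≥ 0` without loss) gives `θ₀, C₀`; `θ` small with
`2 (1 - θ₀) (1 / 2 + 2 θ) ≤ 1`. `er` is at most the term of `fine_mix` (with `R = ⌊(1 / 2 + 2 θ) k⌋`)
plus `∑ x < 3 ^ m', |Gm k j m' x - M p|` (blocks of length `3 ^ m'`), `decouple` with `k₂ = 4 m'`
(`P (q.1 < m') ≤ exp (- c m')`, `lower_tail`), and
`∑ i ≥ m', (i + 1) ^ (- (A + 2)) ≤ 2 m' ^ (- A)`. -/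
theorem mixing (A : ℝ) : ∃ θ : ℝ, 0 < θ ∧ θ < 1 / 4 ∧ ∃ C : ℝ, 0 < C ∧ ∀ k m m' : ℕ,
    1 ≤ m' → 16 * m' ≤ k → (m : ℝ) ≤ θ * k →
    ∑ j ∈ (range (k + 1)).filter (fun j : ℕ => |(j : ℝ) - k / 2| ≤ θ * k), er k m m' j ≤
      C * ((m' : ℝ) ^ (-A) + m' / Real.sqrt k) := by
  obtain ⟨B, hB⟩ : ∃ B : ℝ, B = max A 0 := ⟨_, rfl⟩
  have hB0 : 0 ≤ B := by rw [hB]; exact le_max_right _ _
  have hBA : A ≤ B := by rw [hB]; exact le_max_left _ _
  obtain ⟨θ₀, hθ0, hθ1, C₀, hC0, hdec⟩ := aw_decay (2 * B + 4)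
  obtain ⟨c, hc, hlow⟩ := lower_tail (α := 1 / 2) (by norm_num) (by norm_num) (1 / 4) (by norm_num)
  obtain ⟨C₂, hC2, hexp⟩ := s9_exp B (c * 4) (by positivity)
  obtain ⟨θ, hθ⟩ : ∃ θ : ℝ, θ = min (θ₀ / 4) (1 / 8) := ⟨_, rfl⟩
  have hθp : 0 < θ := by rw [hθ]; exact lt_min (by linarith) (by norm_num)
  have hθa : θ ≤ θ₀ / 4 := by rw [hθ]; exact min_le_left _ _
  have hθb : θ ≤ 1 / 8 := by rw [hθ]; exact min_le_right _ _
  refine ⟨θ, hθp, by linarith, Real.sqrt (2 * C₀) + 2 * C₂ + 16, by positivity, ?_⟩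
  intro k m m' hm' hk hm
  have hm1 : (1 : ℝ) ≤ m' := by exact_mod_cast hm'
  have hm0 : (0 : ℝ) < m' := by linarith
  have hkR : (16 : ℝ) * m' ≤ k := by exact_mod_cast hk
  have hk0 : (0 : ℝ) < k := by linarith
  obtain ⟨R, hR⟩ : ∃ R : ℕ, R = ⌊(1 / 2 + 2 * θ) * k⌋₊ := ⟨_, rfl⟩
  have hRle : (R : ℝ) ≤ (1 / 2 + 2 * θ) * k := by
    rw [hR]; exact Nat.floor_le (by positivity)
  have hJ : ∀ j ∈ (range (k + 1)).filter (fun j : ℕ => |(j : ℝ) - k / 2| ≤ θ * k),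
      j ≤ k ∧ m' ≤ m + j ∧ m + j ≤ R := by
    intro j hj
    rw [mem_filter, mem_range] at hj
    obtain ⟨hj1, hj2⟩ := hj
    rw [abs_le] at hj2
    refine ⟨by omega, ?_, ?_⟩
    · have h1 : (m' : ℝ) ≤ j := by nlinarith
      have h2 : m' ≤ j := by exact_mod_cast h1
      omega
    · rw [hR]
      apply Nat.le_floor
      push_cast
      nlinarith
  have hrp : (m' : ℝ) ^ (-B) ≤ (m' : ℝ) ^ (-A) :=
    Real.rpow_le_rpow_of_exponent_le hm1 (by linarith)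
  have hrB : 0 < (m' : ℝ) ^ (-B) := Real.rpow_pos_of_pos hm0 _
  -- the fine part
  have hfine : ∑ i ∈ Ico m' R, Real.sqrt (2 * aw k i) ≤ Real.sqrt (2 * C₀) * (m' : ℝ) ^ (-B) := by
    have h1 : ∀ i ∈ Ico m' R, Real.sqrt (2 * aw k i) ≤
        (Real.sqrt (2 * C₀) * (m' : ℝ) ^ (-B)) * (((i : ℝ) + 1) ^ 2)⁻¹ := by
      intro i hi
      rw [mem_Ico] at hi
      have hi0 : (0 : ℝ) < (i : ℝ) + 1 := by positivity
      have hiR : (i : ℝ) ≤ R := by exact_mod_cast hi.2.le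
      have h2 : 2 * (1 - θ₀) * (i : ℝ) ≤ k := by
        have h3 : 2 * (1 - θ₀) * (i : ℝ) ≤ 2 * (1 - θ₀) * ((1 / 2 + 2 * θ) * k) := by
          apply mul_le_mul_of_nonneg_left (hiR.trans hRle) (by linarith)
        have h4 : 2 * (1 - θ₀) * (1 / 2 + 2 * θ) ≤ 1 := by nlinarith
        nlinarith
      have h5 := hdec k i h2
      have h6 : Real.sqrt (2 * aw k i) ≤ Real.sqrt (2 * C₀ * ((i : ℝ) + 1) ^ (-(2 * B + 4))) := by
        apply Real.sqrt_le_sqrt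
        linarith
      have h7 : Real.sqrt (2 * C₀ * ((i : ℝ) + 1) ^ (-(2 * B + 4))) =
          Real.sqrt (2 * C₀) * (((i : ℝ) + 1) ^ (-B) * (((i : ℝ) + 1) ^ 2)⁻¹) := by
        rw [Real.sqrt_mul (by positivity)]
        congr 1
        rw [Real.sqrt_eq_iff_mul_self_eq (by positivity) (by positivity)]
        have e1 : (((i : ℝ) + 1) ^ 2)⁻¹ = ((i : ℝ) + 1) ^ (-(2 : ℝ)) := by
          rw [Real.rpow_neg hi0.le]; norm_num
        rw [e1, ← Real.rpow_add hi0, ← Real.rpow_add hi0]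
        congr 1; ring
      have h8 : ((i : ℝ) + 1) ^ (-B) ≤ (m' : ℝ) ^ (-B) := by
        apply Real.rpow_le_rpow_of_nonpos hm0 _ (by linarith)
        have : (m' : ℝ) ≤ i := by exact_mod_cast hi.1
        linarith
      calc Real.sqrt (2 * aw k i) ≤
            Real.sqrt (2 * C₀) * (((i : ℝ) + 1) ^ (-B) * (((i : ℝ) + 1) ^ 2)⁻¹) := by
            rw [← h7]; exact h6
        _ ≤ Real.sqrt (2 * C₀) * ((m' : ℝ) ^ (-B) * (((i : ℝ) + 1) ^ 2)⁻¹) := by gcongr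
        _ = _ := by ring
    calc ∑ i ∈ Ico m' R, Real.sqrt (2 * aw k i) ≤
          ∑ i ∈ Ico m' R, (Real.sqrt (2 * C₀) * (m' : ℝ) ^ (-B)) * (((i : ℝ) + 1) ^ 2)⁻¹ :=
          Finset.sum_le_sum h1
      _ = (Real.sqrt (2 * C₀) * (m' : ℝ) ^ (-B)) * ∑ i ∈ Ico m' R, (((i : ℝ) + 1) ^ 2)⁻¹ := by
          rw [Finset.mul_sum]
      _ ≤ (Real.sqrt (2 * C₀) * (m' : ℝ) ^ (-B)) * 1 := by
          apply mul_le_mul_of_nonneg_left (s9_tail m' R hm') (by positivity)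
      _ = _ := by ring
  -- the coarse part
  have hcoarse : ∑ j ∈ range (k + 1), ∑ x ∈ range (3 ^ m'),
      |Gm k j m' (x : ℤ) - M (1 / 2) k j * p (1 / 2) m' (x : ℤ)| ≤
      2 * (C₂ * (m' : ℝ) ^ (-B)) + 16 * (m' / Real.sqrt k) := by
    have h1 := decouple (4 * m') (k - 4 * m') m'
    have e : 4 * m' + (k - 4 * m') = k := by omega
    rw [e] at h1
    refine h1.trans ?_
    have h2 : Ex (1 / 2) (4 * m') (fun q => if q.1 < m' then 1 else 0) ≤
        C₂ * (m' : ℝ) ^ (-B) := by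
      have h3 : Ex (1 / 2) (4 * m') (fun q => if q.1 < m' then 1 else 0) ≤
          Ex (1 / 2) (4 * m')
            (fun q => if (q.1 : ℝ) ≤ (1 / 2 - 1 / 4) * ((4 * m' : ℕ) : ℝ) then 1 else 0) := by
        refine Ex_mono (by norm_num) (by norm_num) _ _ _ (fun q _ => ?_)
        split_ifs with ha hb hb
        · exact le_rfl
        · exfalso
          apply hb
          have : (q.1 : ℝ) < m' := by exact_mod_cast ha
          push_cast
          linarith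
        · norm_num
        · exact le_rfl
      refine h3.trans ((hlow (4 * m')).trans ?_)
      have h4 := hexp m' hm'
      have e2 : c * ((4 * m' : ℕ) : ℝ) = c * 4 * m' := by push_cast; ring
      rw [e2]
      exact h4
    have h5 : ((4 * m' : ℕ) : ℝ) * (2 / Real.sqrt (((k - 4 * m' : ℕ) : ℝ) + 1)) ≤
        16 * (m' / Real.sqrt k) := by
      have h6 : ((k - 4 * m' : ℕ) : ℝ) = (k : ℝ) - 4 * m' := by
        rw [Nat.cast_sub (by omega)]; push_cast; ring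
      have h7 : Real.sqrt k / 2 ≤ Real.sqrt (((k - 4 * m' : ℕ) : ℝ) + 1) := by
        rw [h6]
        apply Real.le_sqrt_of_sq_le
        rw [div_pow, Real.sq_sqrt hk0.le]
        linarith
      have h8 : 0 < Real.sqrt k := Real.sqrt_pos.mpr hk0
      have h9 : 2 / Real.sqrt (((k - 4 * m' : ℕ) : ℝ) + 1) ≤ 2 / (Real.sqrt k / 2) := by
        apply div_le_div_of_nonneg_left (by norm_num) (by positivity) h7
      calc ((4 * m' : ℕ) : ℝ) * (2 / Real.sqrt (((k - 4 * m' : ℕ) : ℝ) + 1)) ≤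
            ((4 * m' : ℕ) : ℝ) * (2 / (Real.sqrt k / 2)) := by gcongr
        _ = 16 * (m' / Real.sqrt k) := by push_cast; field_simp; ring
    linarith
  calc ∑ j ∈ (range (k + 1)).filter (fun j : ℕ => |(j : ℝ) - k / 2| ≤ θ * k), er k m m' j
      ≤ ∑ j ∈ (range (k + 1)).filter (fun j : ℕ => |(j : ℝ) - k / 2| ≤ θ * k),
        ((∑ x ∈ range (3 ^ (m + j)),
          |Gm k j (m + j) (x : ℤ) - Gm k j m' (x : ℤ) / 3 ^ (m + j - m')|) +
        ∑ x ∈ range (3 ^ m'),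
          |Gm k j m' (x : ℤ) - M (1 / 2) k j * p (1 / 2) m' (x : ℤ)|) :=
        Finset.sum_le_sum fun j hj => s9_er_le k m m' j (hJ j hj).2.1
    _ = ∑ j ∈ (range (k + 1)).filter (fun j : ℕ => |(j : ℝ) - k / 2| ≤ θ * k),
        ∑ x ∈ range (3 ^ (m + j)),
          |Gm k j (m + j) (x : ℤ) - Gm k j m' (x : ℤ) / 3 ^ (m + j - m')| +
        ∑ j ∈ (range (k + 1)).filter (fun j : ℕ => |(j : ℝ) - k / 2| ≤ θ * k),
        ∑ x ∈ range (3 ^ m'),
          |Gm k j m' (x : ℤ) - M (1 / 2) k j * p (1 / 2) m' (x : ℤ)| :=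
        Finset.sum_add_distrib
    _ ≤ Real.sqrt (2 * C₀) * (m' : ℝ) ^ (-B) +
        (2 * (C₂ * (m' : ℝ) ^ (-B)) + 16 * (m' / Real.sqrt k)) := by
        refine add_le_add ((fine_mix k m m' R _ hJ).trans hfine) (le_trans ?_ hcoarse)
        refine Finset.sum_le_sum_of_subset_of_nonneg (Finset.filter_subset _ _) ?_
        intro j _ _
        exact Finset.sum_nonneg fun x _ => abs_nonneg _
    _ ≤ (Real.sqrt (2 * C₀) + 2 * C₂ + 16) * ((m' : ℝ) ^ (-A) + m' / Real.sqrt k) := by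
        have hs : 0 ≤ Real.sqrt (2 * C₀) := Real.sqrt_nonneg _
        have hq : 0 ≤ (m' : ℝ) / Real.sqrt k := by positivity
        have hra : 0 ≤ (m' : ℝ) ^ (-A) := by positivity
        nlinarith [mul_le_mul_of_nonneg_left hrp hs, mul_le_mul_of_nonneg_left hrp hC2.le,
          mul_nonneg hs hq, mul_nonneg hC2.le hq]

end Pool.Agent.Syr66
end
end

section

set_option autoImplicit false

namespace Pool.Agent.Syr66

open Finset

/-- Recursion over scales. With `κ = 1 / 2 - c`, `A = c / κ`, `mixing A` gives `θ, C`;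
`θ₁ = min θ (min (1 / 100) (ε / 200))`. Put `F X = D (2 (log N) ^ (-c) - (log X) ^ (-c))`, strong induction on
`X ≥ N`: `k = kk X`, `m' = mk κ X`, `J` = the typical `j` (`|j - k / 2| ≤ θ₁ k`), `B' = BN N (t - k)`
(`BN_iter`), `onestep`. For `j ∈ J` and `Y = XJ k j X`: if `Y < N` then `bb = 0` (`bb_BN_zero`), otherwise the
induction hypothesis applies (`Y < X`, `m' ≤ (log X / 2) ^ κ ≤ (log Y) ^ κ`,
`(2 / log (4 / 3) + ε) log Y ≤ t - k` because
`(2 / log (4 / 3) + ε) (log (4 / 3) / 2 - 2 θ₁) ≥ 1`); in both cases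
`bb m' Y B' ≤ Y (F X - D c₁ (log X) ^ (-c))` (`gain_potential` with `δ = 1 / 1000`), and
`2 ^ k Y / 3 ^ j ≤ X + 3 ^ k`. The errors are bounded by `err_facts`, `M_atyp` and `small_facts`;
choose `D`, then `N₀`. -/
theorem recursion (ε c : ℝ) (hε : 0 < ε) (hε1 : ε ≤ 1) (hc : 0 < c) (hc1 : c < 1 / 2) :
    ∃ D : ℝ, 0 < D ∧ ∃ N₀ : ℕ, 3 ≤ N₀ ∧ ∀ N : ℕ, N₀ ≤ N → ∀ X m t : ℕ, N ≤ X →
      (m : ℝ) ≤ Real.log X ^ (1 / 2 - c) → (2 / Real.log (4 / 3) + ε) * Real.log X ≤ t →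
      bb m X (BN N t) ≤ X * (D * (2 * Real.log N ^ (-c) - Real.log X ^ (-c))) := by
  obtain ⟨κ, hκ⟩ : ∃ κ : ℝ, κ = 1 / 2 - c := ⟨_, rfl⟩
  have hκ0 : 0 < κ := by rw [hκ]; linarith
  have hκ1 : κ < 1 / 2 := by rw [hκ]; linarith
  obtain ⟨θ, hθ0, hθ1, C₁, hC₁, hmix⟩ := mixing (c / κ)
  obtain ⟨θ₁, hθ₁⟩ : ∃ θ₁ : ℝ, θ₁ = min θ (min (1 / 100) (ε / 200)) := ⟨_, rfl⟩
  have hθ₁0 : 0 < θ₁ := by
    rw [hθ₁]; exact lt_min hθ0 (lt_min (by norm_num) (by linarith))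
  have hθ₁θ : θ₁ ≤ θ := by rw [hθ₁]; exact min_le_left _ _
  have hθ₁a : θ₁ ≤ 1 / 100 := by
    rw [hθ₁]; exact (min_le_right _ _).trans (min_le_left _ _)
  have hθ₁b : θ₁ ≤ ε / 200 := by
    rw [hθ₁]; exact (min_le_right _ _).trans (min_le_right _ _)
  obtain ⟨l, hl⟩ : ∃ l : ℝ, l = Real.log (4 / 3) := ⟨_, rfl⟩
  have hl4 : 1 / 4 ≤ l := by
    have h := Real.one_sub_inv_le_log_of_pos (x := 4 / 3) (by norm_num)
    have h2 : (1 : ℝ) - (4 / 3)⁻¹ = 1 / 4 := by norm_num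
    rw [hl]; linarith
  have hl0 : 0 < l := by linarith
  obtain ⟨X₁, hX₁⟩ := typ_facts θ₁ hθ₁0 hθ₁a
  obtain ⟨X₂, hX₂⟩ := size_facts κ θ₁ hκ0 hκ1 hθ₁0
  obtain ⟨C₂, hC₂, X₃, hX₃⟩ := err_facts c θ₁ hc hc1 hθ₁0
  obtain ⟨δ, hδ⟩ : ∃ δ : ℝ, δ = 1 / 1000 := ⟨_, rfl⟩
  have hδ0 : 0 < δ := by rw [hδ]; norm_num
  have hδ1 : δ < 1 := by rw [hδ]; norm_num
  have hcδ : 0 < c * δ := mul_pos hc hδ0
  obtain ⟨X₄, hX₄⟩ := small_facts c (c * δ / 4) hc (by positivity)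
  obtain ⟨D, hD⟩ : ∃ D : ℝ, D = (4 * C₁ * C₂ + 8 * C₂) / (c * δ) + 1 := ⟨_, rfl⟩
  have hD0 : 0 < D := by rw [hD]; positivity
  have hDc : 4 * C₁ * C₂ + 8 * C₂ ≤ D * (c * δ) := by
    rw [hD, add_mul, div_mul_cancel₀ _ hcδ.ne']
    linarith
  -- the constant `2 / l + ε` times the gain is at least one
  have hgain : 1 ≤ (2 / l + ε) * (l / 2 - 2 * θ₁) := by
    have h1 : (2 / l + ε) * (l / 2 - 2 * θ₁) = 1 + (ε * l / 2 - θ₁ * (4 / l + 2 * ε)) := by
      field_simp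
      ring
    have h2 : 4 / l ≤ 16 := by
      rw [div_le_iff₀ hl0]; linarith
    have h3 : θ₁ * (4 / l + 2 * ε) ≤ ε / 200 * 18 := by
      apply mul_le_mul hθ₁b (by linarith) (by positivity) (by positivity)
    have h4 : ε / 8 ≤ ε * l / 2 := by nlinarith
    rw [h1]
    linarith
  have hμ1 : 1 ≤ 2 / l + ε := by
    have hlup : l ≤ 2 := by
      have := Real.log_le_sub_one_of_pos (x := 4 / 3) (by norm_num)
      rw [hl]; linarith
    have : 1 ≤ 2 / l := by rw [le_div_iff₀ hl0]; linarith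
    linarith
  refine ⟨D, hD0, max 3 (max (max X₁ X₂) (max X₃ X₄)), le_max_left _ _, ?_⟩
  intro N hN X
  have hN3 : 3 ≤ N := (le_max_left _ _).trans hN
  have hNX1 : X₁ ≤ N := ((le_max_left _ _).trans (le_max_left _ _)).trans ((le_max_right _ _).trans hN)
  have hNX2 : X₂ ≤ N := ((le_max_right _ _).trans (le_max_left _ _)).trans ((le_max_right _ _).trans hN)
  have hNX3 : X₃ ≤ N := ((le_max_left _ _).trans (le_max_right _ _)).trans ((le_max_right _ _).trans hN)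
  have hNX4 : X₄ ≤ N := ((le_max_right _ _).trans (le_max_right _ _)).trans ((le_max_right _ _).trans hN)
  have hNr : (3 : ℝ) ≤ N := by exact_mod_cast hN3
  have hlogN1 : 1 ≤ Real.log N := by
    rw [Real.le_log_iff_exp_le (by linarith)]
    have := Real.exp_one_lt_d9
    linarith
  obtain ⟨LN, hLN⟩ : ∃ LN : ℝ, LN = Real.log N ^ (-c) := ⟨_, rfl⟩
  have hLN1 : LN ≤ 1 := by
    rw [hLN]; exact Real.rpow_le_one_of_one_le_of_nonpos hlogN1 (by linarith)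
  have hLN0 : 0 < LN := by rw [hLN]; exact Real.rpow_pos_of_pos (by linarith) _
  rw [← hl, ← hLN]
  rw [← hκ]
  induction X using Nat.strong_induction_on with
  | _ X ih =>
  intro m t hNX hm ht
  have hXr : (N : ℝ) ≤ X := by exact_mod_cast hNX
  have hX0 : (0 : ℝ) < X := by linarith
  obtain ⟨L, hL⟩ : ∃ L : ℝ, L = Real.log X := ⟨_, rfl⟩
  have hLge : Real.log N ≤ L := by
    rw [hL]; exact Real.log_le_log (by linarith) hXr
  have hL1 : 1 ≤ L := hlogN1.trans hLge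
  have hL0 : 0 < L := by linarith
  obtain ⟨LX, hLX⟩ : ∃ LX : ℝ, LX = L ^ (-c) := ⟨_, rfl⟩
  have hLX0 : 0 < LX := by rw [hLX]; exact Real.rpow_pos_of_pos hL0 _
  have hLXN : LX ≤ LN := by
    rw [hLX, hLN]
    exact Real.rpow_le_rpow_of_nonpos (by linarith) hLge (by linarith)
  obtain ⟨hs1, hs2, hs3, hs4, hs5, hs6, hs7, hs8⟩ := hX₂ X m (hNX2.trans hNX) hm
  obtain ⟨k, hk⟩ : ∃ k : ℕ, k = kk X := ⟨_, rfl⟩
  obtain ⟨m', hm'⟩ : ∃ m' : ℕ, m' = mk κ X := ⟨_, rfl⟩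
  have hty := fun j => hX₁ X j (hNX1.trans hNX)
  rw [← hk] at hs1 hs3 hs4 hs5 hs6 hty
  rw [← hm'] at hs2 hs3 hs7 hs8
  rw [← hL] at hs5 hs6 hs7 hs8 ht hm hty
  rw [← hl] at hty
  have her := hX₃ X (k : ℝ) (m' : ℝ) (hNX3.trans hNX) (by rw [← hL]; exact hs5)
    (by rw [← hL]; exact hs6) (by rw [← hL, ← hκ]; exact hs7) (by rw [← hL, ← hκ]; exact hs8)
  rw [← hL, ← hκ, ← hLX] at her
  have hsm := hX₄ X k (hNX4.trans hNX) (by rw [← hL]; exact hs6)
  rw [← hL, ← hLX] at hsm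
  have hk0 : (0 : ℝ) < k := by linarith
  -- `k ≤ t`
  have hkt : k ≤ t := by
    have h1 : (k : ℝ) ≤ t := by
      have : L ≤ (2 / l + ε) * L := by nlinarith
      linarith
    exact_mod_cast h1
  obtain ⟨J, hJ⟩ : ∃ J : Finset ℕ,
    J = (range (k + 1)).filter (fun j : ℕ => |(j : ℝ) - k / 2| ≤ θ₁ * k) := ⟨_, rfl⟩
  have hJsub : J ⊆ range (k + 1) := by rw [hJ]; exact filter_subset _ _
  have hJmem : ∀ j ∈ J, |(j : ℝ) - k / 2| ≤ θ₁ * k := by
    intro j hj; rw [hJ] at hj; exact (mem_filter.1 hj).2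
  have hmj : ∀ j ∈ J, m' ≤ m + j := by
    intro j hj
    have h1 := (abs_le.1 (hJmem j hj)).1
    have h2 : θ₁ * k ≤ 1 / 100 * k := mul_le_mul_of_nonneg_right hθ₁a hk0.le
    have h3 : (16 : ℝ) * m' ≤ k := by exact_mod_cast hs3
    have h4 : (0 : ℝ) ≤ m' := Nat.cast_nonneg _
    have h5 : (m' : ℝ) ≤ j := by linarith
    have h6 : m' ≤ j := by exact_mod_cast h5
    omega
  have hstep := onestep k m m' X J hJsub hmj (BN N t) (BN N (t - k))
    (fun n hn => BN_iter N t k n hn hkt) hs1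
  -- nonnegativity
  have hMnn : ∀ j, 0 ≤ M (1 / 2) k j := fun j => M_nonneg (by norm_num) (by norm_num) k j
  have hernn : ∀ j, 0 ≤ er k m m' j := by
    intro j; unfold er; exact sum_nonneg fun _ _ => abs_nonneg _
  -- the potential after one step
  obtain ⟨G, hG⟩ : ∃ G : ℝ, G = D * (2 * LN - LX) - D * (c * δ) * LX := ⟨_, rfl⟩
  have hcδ1 : c * δ ≤ 1 := by rw [hδ]; linarith
  have hG0 : 0 ≤ G := by
    have h1 : c * δ * LX ≤ 1 * LX := mul_le_mul_of_nonneg_right hcδ1 hLX0.le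
    have h2 : 0 ≤ 2 * LN - LX - c * δ * LX := by linarith
    have h3 : G = D * (2 * LN - LX - c * δ * LX) := by rw [hG]; ring
    rw [h3]
    exact mul_nonneg hD0.le h2
  have hbb : ∀ j ∈ J, bb m' (XJ k j X) (BN N (t - k)) ≤ (XJ k j X : ℕ) * G := by
    intro j hj
    obtain ⟨hy1, hy2, hy3⟩ := hty j (hJmem j hj)
    obtain ⟨Y, hY⟩ : ∃ Y : ℕ, Y = XJ k j X := ⟨_, rfl⟩
    rw [← hY] at hy1 hy2 hy3 ⊢
    rcases Nat.lt_or_ge Y N with hYN | hYN
    · rw [bb_BN_zero m' Y N (t - k) hYN.le]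
      exact mul_nonneg (Nat.cast_nonneg _) hG0
    · obtain ⟨y, hy⟩ : ∃ y : ℝ, y = Real.log Y := ⟨_, rfl⟩
      rw [← hy] at hy2 hy3
      have hy0 : 0 < y := by linarith
      have hv : 1 / 10 ≤ l / 2 - 2 * θ₁ := by linarith
      have hyL : y ≤ L * (1 - δ) := by
        have h1 : L / 40 * (1 / 10) ≤ k * (l / 2 - 2 * θ₁) :=
          mul_le_mul hs5 hv (by norm_num) hk0.le
        have h2 : L * (1 - δ) = L - L / 1000 := by rw [hδ]; ring
        rw [h2]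
        linarith
      have hgp := gain_potential c δ L y hc hδ0 hδ1 hL0 hy0 hyL
      rw [← hLX] at hgp
      have hm2 : (m' : ℝ) ≤ y ^ κ :=
        hs8.trans (Real.rpow_le_rpow (by linarith) hy2 hκ0.le)
      have ht2 : (2 / l + ε) * y ≤ ((t - k : ℕ) : ℝ) := by
        rw [Nat.cast_sub hkt]
        have h1 : (2 / l + ε) * y ≤ (2 / l + ε) * (L - k * (l / 2 - 2 * θ₁)) :=
          mul_le_mul_of_nonneg_left hy3 (by linarith)
        have h2 : (2 / l + ε) * (L - k * (l / 2 - 2 * θ₁)) =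
            (2 / l + ε) * L - k * ((2 / l + ε) * (l / 2 - 2 * θ₁)) := by ring
        have h3 : (k : ℝ) * 1 ≤ k * ((2 / l + ε) * (l / 2 - 2 * θ₁)) :=
          mul_le_mul_of_nonneg_left hgain hk0.le
        linarith
      have hih := ih Y hy1 m' (t - k) hYN (by rw [← hy]; exact hm2) (by rw [← hy]; exact ht2)
      rw [← hy] at hih
      refine hih.trans (mul_le_mul_of_nonneg_left ?_ (Nat.cast_nonneg _))
      have h4 : D * (LX + c * δ * LX) ≤ D * y ^ (-c) := mul_le_mul_of_nonneg_left hgp hD0.le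
      rw [hG]
      linarith
  -- the main sum
  have hXJ : ∀ j, (2 : ℝ) ^ k / 3 ^ j * (XJ k j X : ℕ) ≤ X + 3 ^ k := by
    intro j
    have h1 : (XJ k j X : ℝ) * 2 ^ k ≤ 3 ^ j * X + 3 ^ k := by
      have h : (XJ k j X) * 2 ^ k ≤ 3 ^ j * X + 3 ^ k :=
        Nat.div_mul_le_self (3 ^ j * X + 3 ^ k) (2 ^ k)
      exact_mod_cast h
    have h3j : (1 : ℝ) ≤ 3 ^ j := one_le_pow₀ (by norm_num)
    rw [div_mul_eq_mul_div, div_le_iff₀ (by positivity)]
    have h2 : (3 : ℝ) ^ k ≤ 3 ^ k * 3 ^ j := le_mul_of_one_le_right (by positivity) h3j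
    linarith
  have hmain : ∑ j ∈ J, (2 : ℝ) ^ k / 3 ^ j * M (1 / 2) k j * bb m' (XJ k j X) (BN N (t - k)) ≤
      (X + 3 ^ k) * G := by
    have h1 : ∀ j ∈ J, (2 : ℝ) ^ k / 3 ^ j * M (1 / 2) k j * bb m' (XJ k j X) (BN N (t - k)) ≤
        M (1 / 2) k j * ((X + 3 ^ k) * G) := by
      intro j hj
      have h2 : (0 : ℝ) ≤ 2 ^ k / 3 ^ j * M (1 / 2) k j := mul_nonneg (by positivity) (hMnn j)
      have h3 := mul_le_mul_of_nonneg_left (hbb j hj) h2
      have h4 : (2 : ℝ) ^ k / 3 ^ j * M (1 / 2) k j * ((XJ k j X : ℕ) * G) =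
          M (1 / 2) k j * ((2 : ℝ) ^ k / 3 ^ j * (XJ k j X : ℕ) * G) := by ring
      rw [h4] at h3
      refine h3.trans (mul_le_mul_of_nonneg_left ?_ (hMnn j))
      exact mul_le_mul_of_nonneg_right (hXJ j) hG0
    refine (sum_le_sum h1).trans ?_
    rw [← sum_mul]
    have h5 : ∑ j ∈ J, M (1 / 2) k j ≤ 1 :=
      (sum_le_sum_of_subset_of_nonneg hJsub fun j _ _ => hMnn j).trans_eq
        (M_sum (α := 1 / 2) k)
    have h6 : (0 : ℝ) ≤ (X + 3 ^ k) * G := mul_nonneg (by positivity) hG0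
    calc (∑ j ∈ J, M (1 / 2) k j) * ((X + 3 ^ k) * G) ≤ 1 * ((X + 3 ^ k) * G) :=
          mul_le_mul_of_nonneg_right h5 h6
      _ = (X + 3 ^ k) * G := one_mul _
  -- the mixing error
  have hmixk := hmix k m m' hs2 hs3 (hs4.trans (mul_le_mul_of_nonneg_right hθ₁θ hk0.le))
  have herr : ∑ j ∈ J, er k m m' j ≤ C₁ * (C₂ * LX) := by
    have h1 : ∑ j ∈ J, er k m m' j ≤
        ∑ j ∈ (range (k + 1)).filter (fun j : ℕ => |(j : ℝ) - k / 2| ≤ θ * k), er k m m' j := by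
      refine sum_le_sum_of_subset_of_nonneg ?_ fun j _ _ => hernn j
      intro j hj
      have h2 := hJmem j hj
      refine mem_filter.2 ⟨hJsub hj, h2.trans (mul_le_mul_of_nonneg_right hθ₁θ hk0.le)⟩
    exact (h1.trans hmixk).trans (mul_le_mul_of_nonneg_left her.1 hC₁.le)
  -- the atypical words
  have haty : ∑ j ∈ range (k + 1) \ J, M (1 / 2) k j ≤ 2 * (C₂ * LX) := by
    have h1 : range (k + 1) \ J =
        (range (k + 1)).filter (fun j : ℕ => θ₁ * k < |(j : ℝ) - k / 2|) := by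
      ext j
      rw [hJ]
      simp only [mem_sdiff, mem_filter, not_and, not_le]
      constructor
      · rintro ⟨h2, h3⟩
        exact ⟨h2, h3 h2⟩
      · rintro ⟨h2, h3⟩
        exact ⟨h2, fun _ => h3⟩
    rw [h1]
    refine (M_atyp k θ₁ hθ₁0).trans ?_
    exact mul_le_mul_of_nonneg_left her.2 (by norm_num)
  -- conclusion
  have h3k : (3 : ℝ) ^ k ≤ X * (c * δ / 4 * LX) := by
    rw [div_le_iff₀ hX0] at hsm
    linarith
  have hGle : G ≤ 2 * D := by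
    have h1 : D * LN ≤ D * 1 := mul_le_mul_of_nonneg_left hLN1 hD0.le
    have h2 : 0 ≤ D * LX := mul_nonneg hD0.le hLX0.le
    have h3 : 0 ≤ D * (c * δ) * LX := mul_nonneg (mul_nonneg hD0.le hcδ.le) hLX0.le
    rw [hG]
    linarith
  have h3kG : (3 : ℝ) ^ k * G ≤ X * (D * (c * δ) / 2 * LX) := by
    have h1 : (3 : ℝ) ^ k * G ≤ X * (c * δ / 4 * LX) * (2 * D) :=
      mul_le_mul h3k hGle hG0 (by positivity)
    have h2 : X * (c * δ / 4 * LX) * (2 * D) = X * (D * (c * δ) / 2 * LX) := by ring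
    linarith
  have hE : 2 * (X : ℝ) * ∑ j ∈ J, er k m m' j ≤ 2 * X * (C₁ * (C₂ * LX)) :=
    mul_le_mul_of_nonneg_left herr (by positivity)
  have hF : 2 * (X : ℝ) * ∑ j ∈ range (k + 1) \ J, M (1 / 2) k j ≤ 2 * X * (2 * (C₂ * LX)) :=
    mul_le_mul_of_nonneg_left haty (by positivity)
  have hfin : X * ((4 * C₁ * C₂ + 8 * C₂) * LX) ≤ X * (D * (c * δ) * LX) :=
    mul_le_mul_of_nonneg_left (mul_le_mul_of_nonneg_right hDc hLX0.le) hX0.le
  rw [← hL, ← hLX]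
  have hexp : ((X : ℝ) + 3 ^ k) * G = X * (D * (2 * LN - LX)) - X * (D * (c * δ) * LX) +
      3 ^ k * G := by
    rw [add_mul]
    congr 1
    rw [hG]
    ring
  have hhalf : X * (D * (c * δ) / 2 * LX) = X * (D * (c * δ) * LX) / 2 := by ring
  have hA1 : 2 * X * (C₁ * (C₂ * LX)) + 2 * X * (2 * (C₂ * LX)) =
      X * ((4 * C₁ * C₂ + 8 * C₂) * LX) / 2 := by ring
  linarith

end Pool.Agent.Syr66
end
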