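import Pool.Agent.Lib.MP_529d88_nt.ND.U8

set_option autoImplicit false

namespace Pool.Agent.Syr66

open Finset

open Classical in
/-- Theorem A. `recursion` with `min (ε / 2) 1`, `m = 0` (`p 0 = 1`), `X = ⌊x⌋`,
`t = ⌊(2 / log (4 / 3) + ε) log x⌋`; if `log x` is bounded in terms of `ε`, or `N < N₀`, enlarge `C`
(the count is at most `x`, and if `x < N` it is zero; `T^[0] n = n > N`). -/
theorem almost_bounded (ε c : ℝ) (hε : 0 < ε) (hc : 0 < c) (hc1 : c < 1 / 2) :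
    ∃ C : ℝ, 0 < C ∧ ∀ (N : ℕ) (x : ℝ), 2 ≤ N → 1 ≤ x →
      (((Finset.Icc 1 ⌊x⌋₊).filter (fun n : ℕ => ∀ i : ℕ,
        (i : ℝ) ≤ (2 / Real.log (4 / 3) + ε) * Real.log x → N < T^[i] n)).card : ℝ) ≤
        C * x * Real.log N ^ (-c) := by
  have hε1 : 0 < min (ε / 2) 1 := lt_min (by linarith) one_pos
  obtain ⟨D, hD, N₀, hN₀, hrec⟩ := recursion (min (ε / 2) 1) c hε1 (min_le_right _ _) hc hc1
  have hlogN₀ : 0 < Real.log (N₀ : ℝ) := by
    apply Real.log_pos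
    have : (3 : ℝ) ≤ N₀ := by exact_mod_cast hN₀
    linarith
  have hA : 0 < (2 / ε) ^ c := Real.rpow_pos_of_pos (by positivity) _
  have hB : 0 < Real.log (N₀ : ℝ) ^ c := Real.rpow_pos_of_pos hlogN₀ _
  refine ⟨2 * D + (2 / ε) ^ c + Real.log (N₀ : ℝ) ^ c, by positivity, ?_⟩
  intro N x hN hx
  have hx0 : 0 < x := by linarith
  have hlogx : 0 ≤ Real.log x := Real.log_nonneg hx
  have hNr : (2 : ℝ) ≤ N := by exact_mod_cast hN
  have hlogN : 0 < Real.log (N : ℝ) := Real.log_pos (by linarith)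
  have hLN : 0 < Real.log (N : ℝ) ^ (-c) := Real.rpow_pos_of_pos hlogN _
  have hlog43 : 0 < Real.log (4 / 3) := Real.log_pos (by norm_num)
  have hμ : 0 < 2 / Real.log (4 / 3) := by positivity
  obtain ⟨μ, hμdef⟩ : ∃ μ : ℝ, μ = 2 / Real.log (4 / 3) := ⟨_, rfl⟩
  rw [← hμdef] at hμ hrec ⊢
  obtain ⟨S, hS⟩ : ∃ S : Finset ℕ, S = (Finset.Icc 1 ⌊x⌋₊).filter (fun n : ℕ => ∀ i : ℕ,
        (i : ℝ) ≤ (μ + ε) * Real.log x → N < T^[i] n) := ⟨_, rfl⟩
  rw [← hS]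
  have hcardx : (S.card : ℝ) ≤ x := by
    have h1 : S.card ≤ ⌊x⌋₊ := by
      rw [hS]
      refine (card_filter_le _ _).trans ?_
      rw [Nat.card_Icc]
      omega
    have h2 : (⌊x⌋₊ : ℝ) ≤ x := Nat.floor_le hx0.le
    have h3 : (S.card : ℝ) ≤ (⌊x⌋₊ : ℝ) := by exact_mod_cast h1
    linarith
  have hRHS : 0 ≤ (2 * D + (2 / ε) ^ c + Real.log (N₀ : ℝ) ^ c) * x * Real.log (N : ℝ) ^ (-c) := by
    positivity
  have hmono : ∀ a : ℝ, 0 ≤ a → a ≤ 2 * D + (2 / ε) ^ c + Real.log (N₀ : ℝ) ^ c →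
      a * x * Real.log (N : ℝ) ^ (-c) ≤
      (2 * D + (2 / ε) ^ c + Real.log (N₀ : ℝ) ^ c) * x * Real.log (N : ℝ) ^ (-c) := by
    intro a _ h
    exact mul_le_mul_of_nonneg_right (mul_le_mul_of_nonneg_right h hx0.le) hLN.le
  -- general bound when `log N ≤ L`
  have hgen : ∀ L : ℝ, 0 < L → Real.log (N : ℝ) ≤ L → (S.card : ℝ) ≤
      L ^ c * x * Real.log (N : ℝ) ^ (-c) := by
    intro L hL hNL
    have h1 : Real.log (N : ℝ) ^ c ≤ L ^ c := Real.rpow_le_rpow hlogN.le hNL hc.le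
    have h2 : (1 : ℝ) ≤ L ^ c * Real.log (N : ℝ) ^ (-c) := by
      rw [Real.rpow_neg hlogN.le, ← div_eq_mul_inv, le_div_iff₀ (Real.rpow_pos_of_pos hlogN _),
        one_mul]
      exact h1
    calc (S.card : ℝ) ≤ x := hcardx
      _ = x * 1 := (mul_one x).symm
      _ ≤ x * (L ^ c * Real.log (N : ℝ) ^ (-c)) := mul_le_mul_of_nonneg_left h2 hx0.le
      _ = L ^ c * x * Real.log (N : ℝ) ^ (-c) := by ring
  by_cases hNx : ⌊x⌋₊ < N
  · -- the set is empty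
    have : S = ∅ := by
      rw [hS, Finset.filter_eq_empty_iff]
      intro n hn hcon
      rw [mem_Icc] at hn
      have h0 := hcon 0 (by
        push_cast
        exact mul_nonneg (by linarith) hlogx)
      simp only [Function.iterate_zero, id_eq] at h0
      omega
    rw [this]
    simpa using hRHS
  rw [not_lt] at hNx
  have hNx' : (N : ℝ) ≤ x := (by exact_mod_cast hNx : (N : ℝ) ≤ (⌊x⌋₊ : ℝ)).trans (Nat.floor_le hx0.le)
  by_cases hlx : Real.log x < 2 / ε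
  · have h1 : Real.log (N : ℝ) ≤ 2 / ε :=
      (Real.log_le_log (by linarith) hNx').trans hlx.le
    refine (hgen (2 / ε) (by positivity) h1).trans (hmono _ hA.le ?_)
    linarith
  rw [not_lt] at hlx
  by_cases hNN : N < N₀
  · have h1 : Real.log (N : ℝ) ≤ Real.log (N₀ : ℝ) :=
      Real.log_le_log (by linarith) (by exact_mod_cast hNN.le)
    refine (hgen _ hlogN₀ h1).trans (hmono _ hB.le ?_)
    linarith
  rw [not_lt] at hNN
  -- main case
  have hX1 : 1 ≤ ⌊x⌋₊ := by omega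
  have hXr : (1 : ℝ) ≤ (⌊x⌋₊ : ℝ) := by exact_mod_cast hX1
  have hXx : (⌊x⌋₊ : ℝ) ≤ x := Nat.floor_le hx0.le
  have hlogX : Real.log (⌊x⌋₊ : ℝ) ≤ Real.log x := Real.log_le_log (by linarith) hXx
  have hlogX0 : 0 ≤ Real.log (⌊x⌋₊ : ℝ) := Real.log_nonneg hXr
  have ht0 : 0 ≤ (μ + ε) * Real.log x := mul_nonneg (by linarith) hlogx
  have ht1 : (⌊(μ + ε) * Real.log x⌋₊ : ℝ) ≤ (μ + ε) * Real.log x := Nat.floor_le ht0
  have ht2 : (μ + ε) * Real.log x - 1 < (⌊(μ + ε) * Real.log x⌋₊ : ℝ) := Nat.sub_one_lt_floor _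
  have hmin : min (ε / 2) 1 ≤ ε / 2 := min_le_left _ _
  have hmain := hrec N hNN ⌊x⌋₊ 0 ⌊(μ + ε) * Real.log x⌋₊ hNx
    (by push_cast; exact Real.rpow_nonneg hlogX0 _)
    (by
      have h1 : (μ + min (ε / 2) 1) * Real.log (⌊x⌋₊ : ℝ) ≤ (μ + ε / 2) * Real.log x :=
        mul_le_mul (by linarith) hlogX hlogX0 (by linarith)
      have h2 : 1 ≤ ε / 2 * Real.log x := by
        have := mul_le_mul_of_nonneg_left hlx (by linarith : (0 : ℝ) ≤ ε / 2)
        have e : ε / 2 * (2 / ε) = 1 := by field_simp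
        linarith
      nlinarith)
  have hbb : (S.card : ℝ) ≤ bb 0 ⌊x⌋₊ (BN N ⌊(μ + ε) * Real.log x⌋₊) := by
    unfold bb
    rw [hS, Finset.card_filter]
    push_cast
    refine Finset.sum_le_sum (fun n _ => ?_)
    by_cases h : ∀ i : ℕ, (i : ℝ) ≤ (μ + ε) * Real.log x → N < T^[i] n
    · have h' : BN N ⌊(μ + ε) * Real.log x⌋₊ n := by
        intro i hi
        refine h i (le_trans ?_ ht1)
        exact_mod_cast hi
      rw [if_pos h, if_pos h']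
      simp [p]
    · rw [if_neg h]
      split_ifs
      · simp [p]
      · exact le_rfl
  have hlast : (⌊x⌋₊ : ℝ) * (D * (2 * Real.log (N : ℝ) ^ (-c) - Real.log (⌊x⌋₊ : ℝ) ^ (-c))) ≤
      2 * D * x * Real.log (N : ℝ) ^ (-c) := by
    have h1 : 0 ≤ Real.log (⌊x⌋₊ : ℝ) ^ (-c) := Real.rpow_nonneg hlogX0 _
    have h2 : D * (2 * Real.log (N : ℝ) ^ (-c) - Real.log (⌊x⌋₊ : ℝ) ^ (-c)) ≤
        2 * D * Real.log (N : ℝ) ^ (-c) := by nlinarith
    calc (⌊x⌋₊ : ℝ) * (D * (2 * Real.log (N : ℝ) ^ (-c) - Real.log (⌊x⌋₊ : ℝ) ^ (-c)))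
        ≤ (⌊x⌋₊ : ℝ) * (2 * D * Real.log (N : ℝ) ^ (-c)) :=
          mul_le_mul_of_nonneg_left h2 (by linarith)
      _ ≤ x * (2 * D * Real.log (N : ℝ) ^ (-c)) :=
          mul_le_mul_of_nonneg_right hXx (by positivity)
      _ = 2 * D * x * Real.log (N : ℝ) ^ (-c) := by ring
  refine (hbb.trans (hmain.trans hlast)).trans (hmono _ (by linarith) ?_)
  linarith

end Pool.Agent.Syr66
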