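import Pool.Agent.Lib.MP_529d88_nt.ND.NDefs
import Pool.Agent.Lib.MP_529d88_nt.ND.Q8

section

set_option autoImplicit false

namespace Pool.Agent.Syr66

open Finset

/-- `P (Z_t > a)`, `Z_t = J log 3 - t log 2`, `J` binomial `(t, 1 / 2)`. -/
noncomputable def Qg (t : ℕ) (a : ℝ) : ℝ :=
  ∑ j ∈ range (t + 1), if a < j * Real.log 3 - t * Real.log 2 then M (1 / 2) t j else 0

/-- `P (Z_t ≤ a)`. -/
noncomputable def Ql (t : ℕ) (a : ℝ) : ℝ :=
  ∑ j ∈ range (t + 1), if j * Real.log 3 - t * Real.log 2 ≤ a then M (1 / 2) t j else 0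

/-- The orbit reaches `1` within `t` steps. -/
def ET (t n : ℕ) : Prop := ∃ i : ℕ, i ≤ t ∧ T^[i] n = 1

/-- Distribution function of the standard normal law. -/
noncomputable def Phi (u : ℝ) : ℝ := (ProbabilityTheory.gaussianReal 0 1 (Set.Iic u)).toReal

end Pool.Agent.Syr66
end

section

set_option autoImplicit false

namespace Pool.Agent.Syr66

open Finset

private theorem V1_nonneg (k j : ℕ) : 0 ≤ M (1 / 2) k j :=
  M_nonneg (by norm_num) (by norm_num) k j

private theorem V1_sum (t : ℕ) : ∑ j ∈ range (t + 1), M (1 / 2) t j = 1 := by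
  have h : ∀ j ∈ range (t + 1), M (1 / 2) t j = (t.choose j : ℝ) / 2 ^ t := fun j _ => M_choose t j
  rw [Finset.sum_congr rfl h, ← Finset.sum_div]
  have h2 : (∑ j ∈ range (t + 1), (t.choose j : ℝ)) = 2 ^ t := by
    exact_mod_cast Nat.sum_range_choose t
  rw [h2]
  exact div_self (by positivity)

theorem Qg_add_Ql (t : ℕ) (a : ℝ) : Qg t a + Ql t a = 1 := by
  unfold Qg Ql
  rw [← Finset.sum_add_distrib]
  refine Eq.trans (Finset.sum_congr rfl (fun j _ => ?_)) (V1_sum t)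
  by_cases h : a < j * Real.log 3 - t * Real.log 2
  · rw [if_pos h, if_neg (not_le.mpr h), add_zero]
  · rw [if_neg h, if_pos (not_lt.mp h), zero_add]

theorem Qg_nonneg (t : ℕ) (a : ℝ) : 0 ≤ Qg t a := by
  unfold Qg
  refine Finset.sum_nonneg (fun j _ => ?_)
  split_ifs
  · exact V1_nonneg t j
  · exact le_rfl

theorem Ql_nonneg (t : ℕ) (a : ℝ) : 0 ≤ Ql t a := by
  unfold Ql
  refine Finset.sum_nonneg (fun j _ => ?_)
  split_ifs
  · exact V1_nonneg t j
  · exact le_rfl

theorem Qg_anti (t : ℕ) {a b : ℝ} (h : a ≤ b) : Qg t b ≤ Qg t a := by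
  unfold Qg
  refine Finset.sum_le_sum (fun j _ => ?_)
  by_cases hb : b < j * Real.log 3 - t * Real.log 2
  · rw [if_pos hb, if_pos (lt_of_le_of_lt h hb)]
  · rw [if_neg hb]
    split_ifs
    · exact V1_nonneg t j
    · exact le_rfl

theorem Ql_mono (t : ℕ) {a b : ℝ} (h : a ≤ b) : Ql t a ≤ Ql t b := by
  have h1 := Qg_add_Ql t a
  have h2 := Qg_add_Ql t b
  have h3 := Qg_anti t h
  linarith

/-- `Z_t ≥ - t log 2`. -/
theorem Qg_eq_one (t : ℕ) (a : ℝ) (h : a < -(t * Real.log 2)) : Qg t a = 1 := by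
  unfold Qg
  refine Eq.trans (Finset.sum_congr rfl (fun j _ => ?_)) (V1_sum t)
  have h3 : 0 ≤ (j : ℝ) * Real.log 3 := mul_nonneg (Nat.cast_nonneg j) (Real.log_nonneg (by norm_num))
  rw [if_pos (by linarith)]

/-- Markov's inequality for `exp Z_t = 3 ^ J / 2 ^ t`, whose mean is `1` (`Ex_pow`). -/
theorem Qg_markov (t : ℕ) (a : ℝ) : Qg t a ≤ Real.exp (-a) := by
  have h1 : ∀ j : ℕ, Real.exp (j * Real.log 3 - t * Real.log 2) = 3 ^ j / 2 ^ t := by
    intro j
    rw [Real.exp_sub, Real.exp_nat_mul, Real.exp_nat_mul, Real.exp_log (by norm_num),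
      Real.exp_log (by norm_num)]
  have h2 : ∀ j ∈ range (t + 1), (if a < j * Real.log 3 - t * Real.log 2 then M (1 / 2) t j else 0) ≤
      Real.exp (-a) * ((t.choose j : ℝ) * 3 ^ j / 4 ^ t) := by
    intro j _
    have hM : Real.exp (-a) * ((t.choose j : ℝ) * 3 ^ j / 4 ^ t) =
        M (1 / 2) t j * Real.exp ((j * Real.log 3 - t * Real.log 2) - a) := by
      rw [sub_eq_add_neg _ a, Real.exp_add, h1 j, M_choose]
      have h4 : (4 : ℝ) ^ t = 2 ^ t * 2 ^ t := by
        rw [← mul_pow]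
        norm_num
      rw [h4]
      field_simp
    rw [hM]
    split_ifs with hc
    · have h5 : 1 ≤ Real.exp ((j * Real.log 3 - t * Real.log 2) - a) :=
        Real.one_le_exp (by linarith)
      exact le_mul_of_one_le_right (V1_nonneg t j) h5
    · exact mul_nonneg (V1_nonneg t j) (Real.exp_pos _).le
  unfold Qg
  refine (Finset.sum_le_sum h2).trans ?_
  rw [← Finset.mul_sum, ← Finset.sum_div]
  have h6 : ∑ j ∈ range (t + 1), (t.choose j : ℝ) * 3 ^ j = 4 ^ t := by
    have h7 := add_pow (3 : ℝ) 1 t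
    rw [show (3 : ℝ) + 1 = 4 by norm_num] at h7
    rw [h7]
    refine Finset.sum_congr rfl (fun j _ => ?_)
    rw [one_pow]
    ring
  rw [h6, div_self (by positivity), mul_one]

end Pool.Agent.Syr66
end
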