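import Pool.Agent.Lib.MP_529d88_nt.ND.V1
import Pool.Agent.Lib.MP_529d88_nt.ND.Q8
import Pool.Agent.Lib.MP_529d88_nt.ND.U7
import Pool.Agent.Lib.MP_529d88_nt.C3
import Pool.Agent.Lib.MP_529d88_nt.ND.U5
import Pool.Agent.Lib.MP_529d88_nt.ND.U6
import Pool.Agent.Lib.MP_529d88_nt.ND.U8

section

section

set_option autoImplicit false

namespace Pool.Agent.Syr66

open Finset

private lemma v5_log3 : Real.log 3 ≤ 8 / 5 * Real.log 2 := by
  have h1 : Real.log ((3 : ℝ) ^ 5) ≤ Real.log ((2 : ℝ) ^ 8) :=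
    Real.log_le_log (by norm_num) (by norm_num)
  rw [Real.log_pow, Real.log_pow] at h1
  push_cast at h1
  linarith

private lemma v5_core (θ₁ : ℝ) (hθ1 : θ₁ ≤ 1 / 100) (X j : ℕ)
    (hX : 1000 ≤ Real.log X) (hj : |(j : ℝ) - kk X / 2| ≤ θ₁ * kk X) :
    0 < (XJ (kk X) j X : ℝ) ∧
    Real.log X + (j * Real.log 3 - kk X * Real.log 2) ≤ Real.log (XJ (kk X) j X) ∧
    Real.log (XJ (kk X) j X) ≤
      Real.log X + (j * Real.log 3 - kk X * Real.log 2) + Real.exp (-(Real.log X / 4)) ∧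
    2 * Real.exp (-(Real.log X / 4)) ≤ (XJ (kk X) j X : ℝ) ^ (-(1 / 4 : ℝ)) ∧
    (X : ℝ) ^ (-(1 / 4 : ℝ)) = Real.exp (-(Real.log X / 4)) := by
  set k := kk X with hk
  set L := Real.log X with hL
  have hl2 := Real.log_two_gt_d9
  have hl2' := Real.log_two_lt_d9
  have hl3 := v5_log3
  have hl3p : 0 < Real.log 3 := Real.log_pos (by norm_num)
  have hXpos : (0 : ℝ) < X := by
    rcases Nat.eq_zero_or_pos X with h | h
    · exfalso
      rw [hL, h] at hX
      simp at hX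
      linarith
    · exact_mod_cast h
  have hXe : (X : ℝ) = Real.exp L := by rw [hL, Real.exp_log hXpos]
  -- bounds for k
  have hk1 : (k : ℝ) ≤ L / 20 := by
    rw [hk, kk]
    exact Nat.floor_le (by rw [← hL]; linarith)
  have hk2 : L / 20 - 1 < (k : ℝ) := by
    have := Nat.lt_floor_add_one (Real.log X / 20)
    rw [hk, kk]
    rw [← hL] at this ⊢
    linarith
  have hk49 : (49 : ℝ) ≤ k := by linarith
  have hk0 : (0 : ℝ) ≤ k := by linarith
  have hj1 : (j : ℝ) ≤ 51 / 100 * k := by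
    have h1 := (abs_le.mp hj).2
    have h2 : θ₁ * k ≤ 1 / 100 * k := mul_le_mul_of_nonneg_right hθ1 hk0
    linarith
  have hj0 : (0 : ℝ) ≤ j := Nat.cast_nonneg j
  set a : ℝ := j * Real.log 3 - k * Real.log 2 with ha
  have ha1 : a ≤ -(5 * Real.log 2) := by
    have h1 : (j : ℝ) * Real.log 3 ≤ (51 / 100 * k) * (8 / 5 * Real.log 2) :=
      mul_le_mul hj1 hl3 hl3p.le (by linarith)
    have h2 : (k : ℝ) * Real.log 2 ≥ 49 * Real.log 2 :=
      mul_le_mul_of_nonneg_right hk49 (by linarith)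
    rw [ha]
    nlinarith
  have hea : Real.exp a = 3 ^ j / 2 ^ k := by
    rw [ha, Real.exp_sub]
    congr 1
    · rw [mul_comm, Real.exp_mul, Real.exp_log (by norm_num), Real.rpow_natCast]
    · rw [mul_comm, Real.exp_mul, Real.exp_log (by norm_num), Real.rpow_natCast]
  have h3k : (3 : ℝ) ^ k ≤ Real.exp (L / 10) := by
    have h1 : (3 : ℝ) ^ k = Real.exp (Real.log 3 * k) := by
      rw [Real.exp_mul, Real.exp_log (by norm_num), Real.rpow_natCast]
    rw [h1]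
    apply Real.exp_le_exp.mpr
    have h2 : Real.log 3 ≤ 2 := by linarith
    have h3 : Real.log 3 * k ≤ 2 * (L / 20) := mul_le_mul h2 hk1 hk0 (by norm_num)
    linarith
  -- the floor
  set Y := XJ k j X with hY
  have hYn : Y = (3 ^ j * X + 3 ^ k) / 2 ^ k := by rw [hY, XJ]
  have h2k : (0 : ℝ) < (2 : ℝ) ^ k := by positivity
  have hYle : (Y : ℝ) ≤ (3 ^ j * X + 3 ^ k) / 2 ^ k := by
    have h1 : Y * 2 ^ k ≤ 3 ^ j * X + 3 ^ k := by
      rw [hYn]
      exact Nat.div_mul_le_self _ _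
    have h2 : (Y : ℝ) * 2 ^ k ≤ 3 ^ j * X + 3 ^ k := by exact_mod_cast h1
    rw [le_div_iff₀ h2k]
    exact h2
  have hYge : (3 : ℝ) ^ j * X / 2 ^ k ≤ Y := by
    have h1 : 3 ^ j * X + 3 ^ k < (Y + 1) * 2 ^ k := by
      rw [hYn]
      have h2 := Nat.div_add_mod (3 ^ j * X + 3 ^ k) (2 ^ k)
      have h3 := Nat.mod_lt (3 ^ j * X + 3 ^ k) (show 2 ^ k > 0 by positivity)
      nlinarith
    have h4 : 2 ^ k ≤ 3 ^ k := Nat.pow_le_pow_left (by norm_num) k
    have h5 : 3 ^ j * X ≤ Y * 2 ^ k := by nlinarith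
    have h6 : (3 : ℝ) ^ j * X ≤ Y * 2 ^ k := by exact_mod_cast h5
    rw [div_le_iff₀ h2k]
    exact h6
  have hP : 0 < (3 : ℝ) ^ j * X / 2 ^ k := by positivity
  have hYpos : (0 : ℝ) < Y := lt_of_lt_of_le hP hYge
  have hmain : (3 : ℝ) ^ j * X / 2 ^ k = Real.exp (L + a) := by
    rw [Real.exp_add, hea, ← hXe]
    ring
  have hlow : L + a ≤ Real.log Y := by
    rw [Real.le_log_iff_exp_le hYpos, ← hmain]
    exact hYge
  -- error term
  have herr : (3 : ℝ) ^ k / 2 ^ k ≤ Real.exp (L + a) * Real.exp (-(L / 4)) := by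
    -- 3 ^ k / 2 ^ k ≤ 3 ^ j * X / 2 ^ k * exp (-L/4)
    rw [← hmain]
    have h1 : (1 : ℝ) ≤ 3 ^ j := one_le_pow₀ (by norm_num)
    have h2 : (3 : ℝ) ^ k ≤ 3 ^ j * X * Real.exp (-(L / 4)) := by
      have h3 : Real.exp (L / 10) ≤ X * Real.exp (-(L / 4)) := by
        rw [hXe, ← Real.exp_add]
        apply Real.exp_le_exp.mpr
        linarith
      have h4 : (X : ℝ) * Real.exp (-(L / 4)) ≤ 3 ^ j * (X * Real.exp (-(L / 4))) :=
        le_mul_of_one_le_left (by positivity) h1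
      calc (3 : ℝ) ^ k ≤ Real.exp (L / 10) := h3k
        _ ≤ X * Real.exp (-(L / 4)) := h3
        _ ≤ 3 ^ j * (X * Real.exp (-(L / 4))) := h4
        _ = 3 ^ j * X * Real.exp (-(L / 4)) := by ring
    calc (3 : ℝ) ^ k / 2 ^ k ≤ (3 ^ j * X * Real.exp (-(L / 4))) / 2 ^ k :=
          div_le_div_of_nonneg_right h2 h2k.le
      _ = 3 ^ j * X / 2 ^ k * Real.exp (-(L / 4)) := by ring
  have hYle2 : (Y : ℝ) ≤ Real.exp (L + a) * (1 + Real.exp (-(L / 4))) := by
    calc (Y : ℝ) ≤ (3 ^ j * X + 3 ^ k) / 2 ^ k := hYle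
      _ = 3 ^ j * X / 2 ^ k + 3 ^ k / 2 ^ k := by rw [add_div]
      _ ≤ Real.exp (L + a) + Real.exp (L + a) * Real.exp (-(L / 4)) := by
          rw [hmain]
          linarith
      _ = _ := by ring
  have hupp : Real.log Y ≤ L + a + Real.exp (-(L / 4)) := by
    have h1 : (Y : ℝ) ≤ Real.exp (L + a + Real.exp (-(L / 4))) := by
      rw [Real.exp_add (L + a)]
      refine hYle2.trans (mul_le_mul_of_nonneg_left ?_ (Real.exp_pos _).le)
      have := Real.add_one_le_exp (Real.exp (-(L / 4)))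
      linarith
    rw [← Real.log_exp (L + a + Real.exp (-(L / 4)))]
    exact Real.log_le_log hYpos h1
  have hsmall : Real.exp (-(L / 4)) ≤ 1 / 2 := by
    have h1 : Real.exp (-(L / 4)) ≤ Real.exp (-Real.log 2) := by
      apply Real.exp_le_exp.mpr
      linarith
    have h2 : Real.exp (-Real.log 2) = 1 / 2 := by
      rw [Real.exp_neg, Real.exp_log (by norm_num)]
      norm_num
    linarith
  refine ⟨hYpos, by linarith, by linarith, ?_, ?_⟩
  · have h1 : Real.log Y ≤ L - 4 * Real.log 2 := by linarith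
    rw [Real.rpow_def_of_pos hYpos]
    have h2 : (2 : ℝ) * Real.exp (-(L / 4)) = Real.exp (Real.log 2 + -(L / 4)) := by
      rw [Real.exp_add, Real.exp_log (by norm_num)]
    rw [h2]
    apply Real.exp_le_exp.mpr
    linarith
  · rw [Real.rpow_def_of_pos hXpos]
    congr 1
    ring

private lemma v5_X0 (X : ℕ) (h : ⌈Real.exp 1000⌉₊ ≤ X) : 1000 ≤ Real.log X := by
  have h1 : Real.exp 1000 ≤ X := (Nat.le_ceil _).trans (by exact_mod_cast h)
  rw [← Real.log_exp 1000]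
  exact Real.log_le_log (Real.exp_pos _) h1

/-- Rounding in `XJ`, upper side, for typical `j`. -/
theorem XJ_upper (θ₁ : ℝ) (hθ : 0 < θ₁) (hθ1 : θ₁ ≤ 1 / 100) :
    ∃ X₀ : ℕ, ∀ X j : ℕ, X₀ ≤ X → |(j : ℝ) - kk X / 2| ≤ θ₁ * kk X →
      Real.log (XJ (kk X) j X) - (XJ (kk X) j X : ℝ) ^ (-(1 / 4 : ℝ)) ≤
        Real.log X - (X : ℝ) ^ (-(1 / 4 : ℝ)) + (j * Real.log 3 - kk X * Real.log 2) := by
  refine ⟨⌈Real.exp 1000⌉₊, fun X j hX hj => ?_⟩
  obtain ⟨-, -, h3, h4, h5⟩ := v5_core θ₁ hθ1 X j (v5_X0 X hX) hj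
  rw [h5]
  linarith

/-- Rounding in `XJ`, lower side, for typical `j`. -/
theorem XJ_lower (θ₁ : ℝ) (hθ : 0 < θ₁) (hθ1 : θ₁ ≤ 1 / 100) :
    ∃ X₀ : ℕ, ∀ X j : ℕ, X₀ ≤ X → |(j : ℝ) - kk X / 2| ≤ θ₁ * kk X →
      Real.log X + (X : ℝ) ^ (-(1 / 4 : ℝ)) + (j * Real.log 3 - kk X * Real.log 2) ≤
        Real.log (XJ (kk X) j X) + (XJ (kk X) j X : ℝ) ^ (-(1 / 4 : ℝ)) := by
  refine ⟨⌈Real.exp 1000⌉₊, fun X j hX hj => ?_⟩
  obtain ⟨-, h2, -, h4, h5⟩ := v5_core θ₁ hθ1 X j (v5_X0 X hX) hj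
  have h6 := Real.exp_pos (-(Real.log X / 4))
  rw [h5]
  linarith

end Pool.Agent.Syr66
end

section

set_option autoImplicit false

namespace Pool.Agent.Syr66

open Finset

private noncomputable def mu8 (s : Finset ℕ) (a x : ℕ → ℝ) : MeasureTheory.Measure ℝ :=
  ∑ j ∈ s, ENNReal.ofReal (a j) • MeasureTheory.Measure.dirac (x j)

private theorem mu8_apply (s : Finset ℕ) {a : ℕ → ℝ} (ha : ∀ j, 0 ≤ a j) (x : ℕ → ℝ) {A : Set ℝ}
    (hA : MeasurableSet A) [DecidablePred (fun y : ℝ => y ∈ A)] :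
    (mu8 s a x A) = ENNReal.ofReal (∑ j ∈ s, if x j ∈ A then a j else 0) := by
  rw [mu8, MeasureTheory.Measure.coe_finsetSum, Finset.sum_apply, ENNReal.ofReal_sum_of_nonneg]
  · apply Finset.sum_congr rfl
    intro j _
    rw [MeasureTheory.Measure.smul_apply, MeasureTheory.Measure.dirac_apply' _ hA, smul_eq_mul]
    split_ifs with h
    · rw [Set.indicator_of_mem h, Pi.one_apply, mul_one]
    · rw [Set.indicator_of_notMem h, mul_zero, ENNReal.ofReal_zero]
  · intro j _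
    split_ifs
    · exact ha j
    · exact le_rfl

private theorem mu8_int (s : Finset ℕ) {a : ℕ → ℝ} (ha : ∀ j, 0 ≤ a j) (x : ℕ → ℝ)
    {E : Type*} [NormedAddCommGroup E] [NormedSpace ℝ E] [CompleteSpace E] (f : ℝ → E) :
    ∫ y, f y ∂(mu8 s a x) = ∑ j ∈ s, a j • f (x j) := by
  rw [mu8, MeasureTheory.integral_finsetSum_measure]
  · apply Finset.sum_congr rfl
    intro j _
    rw [MeasureTheory.integral_smul_measure, MeasureTheory.integral_dirac,
      ENNReal.toReal_ofReal (ha j)]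
  · intro j _
    apply MeasureTheory.Integrable.smul_measure _ ENNReal.ofReal_ne_top
    exact MeasureTheory.integrable_dirac (by simp)

private theorem mu8_prob (s : Finset ℕ) {a : ℕ → ℝ} (ha : ∀ j, 0 ≤ a j) (x : ℕ → ℝ)
    (h1 : ∑ j ∈ s, a j = 1) : MeasureTheory.IsProbabilityMeasure (mu8 s a x) := by
  classical
  constructor
  rw [mu8_apply s ha x MeasurableSet.univ]
  simp [h1]

private theorem M8_nonneg (n j : ℕ) : 0 ≤ M (1 / 2) n j := by
  rw [M_choose]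
  positivity

private theorem M8_sum (n : ℕ) : ∑ j ∈ range (n + 1), M (1 / 2) n j = 1 := by
  simp only [M_choose]
  rw [← Finset.sum_div]
  have h := Nat.sum_range_choose n
  have h2 : ∑ j ∈ range (n + 1), (n.choose j : ℝ) = 2 ^ n := by exact_mod_cast h
  rw [h2]
  exact div_self (by positivity)

private theorem char8 (n : ℕ) (t : ℝ) :
    MeasureTheory.charFun (mu8 (range (n + 1)) (M (1 / 2) n)
      (fun j => (Real.sqrt n)⁻¹ * (2 * j - n))) t =
    (MeasureTheory.charFun (MeasureTheory.Measure.map id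
      (mu8 (range 2) (fun _ => 1 / 2) (fun j => 2 * j - 1))) ((Real.sqrt n)⁻¹ * t)) ^ n := by
  rw [MeasureTheory.Measure.map_id, MeasureTheory.charFun_apply_real,
    MeasureTheory.charFun_apply_real, mu8_int _ (M8_nonneg n), mu8_int _ (fun _ => by norm_num),
    Finset.sum_range_succ _ 1, Finset.sum_range_one]
  set s : ℝ := (Real.sqrt n)⁻¹ * t with hs
  set w : ℂ := Complex.exp (s * Complex.I) with hw
  set w' : ℂ := Complex.exp (-(s * Complex.I)) with hw'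
  have e1 : ((1 / 2 : ℝ) • Complex.exp ((s : ℂ) * ((2 * ((0 : ℕ) : ℝ) - 1 : ℝ) : ℂ) * Complex.I) +
      (1 / 2 : ℝ) • Complex.exp ((s : ℂ) * ((2 * ((1 : ℕ) : ℝ) - 1 : ℝ) : ℂ) * Complex.I)) =
      (w + w') / 2 := by
    rw [hw, hw', Complex.real_smul, Complex.real_smul]
    have f1 : (s : ℂ) * ((2 * ((0 : ℕ) : ℝ) - 1 : ℝ) : ℂ) * Complex.I = -(s * Complex.I) := by
      push_cast
      ring
    have f2 : (s : ℂ) * ((2 * ((1 : ℕ) : ℝ) - 1 : ℝ) : ℂ) * Complex.I = s * Complex.I := by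
      push_cast
      ring
    rw [f1, f2]
    push_cast
    ring
  refine Eq.trans ?_ (congrArg (fun c : ℂ => c ^ n) e1.symm)
  rw [div_pow, add_pow, Finset.sum_div]
  apply Finset.sum_congr rfl
  intro j hj
  rw [Finset.mem_range] at hj
  have hj' : j ≤ n := by omega
  rw [Complex.real_smul, M_choose]
  have e2 : Complex.exp ((t : ℂ) * (((Real.sqrt n)⁻¹ * (2 * j - n) : ℝ) : ℂ) * Complex.I) =
      w ^ j * w' ^ (n - j) := by
    rw [hw, hw', ← Complex.exp_nat_mul, ← Complex.exp_nat_mul, ← Complex.exp_add]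
    congr 1
    rw [Nat.cast_sub hj', hs]
    push_cast
    ring
  rw [e2]
  push_cast
  ring

/-- Central limit theorem for the binomial laws `M (1 / 2) n`, from
`ProbabilityTheory.tendstoInDistribution_inv_sqrt_mul_sum` applied to the coordinates `± 1` of the product of
fair coins (the law of the number of `+ 1` among `n` coordinates is `M (1 / 2) n`). -/
theorem binom_clt (w : ℝ) :
    Filter.Tendsto (fun n : ℕ => ∑ j ∈ range (n + 1),
      if (j : ℝ) - n / 2 ≤ w / 2 * Real.sqrt n then M (1 / 2) n j else 0)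
      Filter.atTop (nhds (Phi w)) := by
  classical
  have hcoin : MeasureTheory.IsProbabilityMeasure
      (mu8 (range 2) (fun _ => 1 / 2) (fun j => 2 * j - 1)) :=
    mu8_prob _ (fun _ => by norm_num) _ (by simp)
  have hpr : ∀ n : ℕ, MeasureTheory.IsProbabilityMeasure (mu8 (range (n + 1)) (M (1 / 2) n)
      (fun j => (Real.sqrt n)⁻¹ * (2 * j - n))) :=
    fun n => mu8_prob _ (M8_nonneg n) _ (M8_sum n)
  let μs : ℕ → MeasureTheory.ProbabilityMeasure ℝ := fun n => ⟨_, hpr n⟩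
  let μ0 : MeasureTheory.ProbabilityMeasure ℝ := ⟨ProbabilityTheory.gaussianReal 0 1, inferInstance⟩
  have hlim : Filter.Tendsto μs Filter.atTop (nhds μ0) := by
    refine MeasureTheory.ProbabilityMeasure.tendsto_iff_tendsto_charFun.2 fun t => ?_
    have h1 := ProbabilityTheory.tendsto_charFun_inv_sqrt_mul_pow
      (P := mu8 (range 2) (fun _ => 1 / 2) (fun j => 2 * j - 1)) (X := id)
      aemeasurable_id (by
        rw [mu8_int _ (fun _ => by norm_num), Finset.sum_range_succ, Finset.sum_range_one]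
        norm_num) (by
        rw [mu8_int _ (fun _ => by norm_num), Finset.sum_range_succ, Finset.sum_range_one]
        simp only [Pi.pow_apply, id]
        norm_num) t
    have h2 : MeasureTheory.charFun (μ0 : MeasureTheory.Measure ℝ) t =
        Complex.exp (-(t : ℂ) ^ 2 / 2) := by
      change MeasureTheory.charFun (ProbabilityTheory.gaussianReal 0 1) t = _
      rw [ProbabilityTheory.charFun_gaussianReal]
      simp [neg_div]
    rw [h2]
    refine h1.congr ?_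
    intro n
    exact (char8 n t).symm
  have h3 := MeasureTheory.ProbabilityMeasure.tendsto_measure_of_null_frontier_of_tendsto' hlim
    (E := Set.Iic w) (by
      rw [frontier_Iic]
      change ProbabilityTheory.gaussianReal 0 1 {w} = 0
      have : MeasureTheory.NullSingletonClass (ProbabilityTheory.gaussianReal 0 1) :=
        ProbabilityTheory.nullSingletonClass_gaussianReal one_ne_zero
      exact MeasureTheory.measure_singleton w)
  have h4 := (ENNReal.tendsto_toReal (MeasureTheory.measure_ne_top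
    (ProbabilityTheory.gaussianReal 0 1) (Set.Iic w))).comp h3
  refine h4.congr' ?_
  filter_upwards [Filter.eventually_ge_atTop 1] with n hn
  change (mu8 (range (n + 1)) (M (1 / 2) n)
      (fun j => (Real.sqrt n)⁻¹ * (2 * j - n)) (Set.Iic w)).toReal = _
  rw [mu8_apply _ (M8_nonneg n) _ measurableSet_Iic, ENNReal.toReal_ofReal]
  · apply Finset.sum_congr rfl
    intro j _
    have hn0 : (0 : ℝ) < Real.sqrt n := Real.sqrt_pos.2 (by exact_mod_cast hn)
    have hiff : (Real.sqrt n)⁻¹ * (2 * (j : ℝ) - n) ∈ Set.Iic w ↔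
        (j : ℝ) - n / 2 ≤ w / 2 * Real.sqrt n := by
      rw [Set.mem_Iic, inv_mul_le_iff₀ hn0]
      constructor
      · intro h
        linarith
      · intro h
        linarith
    by_cases h : (j : ℝ) - n / 2 ≤ w / 2 * Real.sqrt n
    · rw [if_pos h, if_pos (hiff.2 h)]
    · rw [if_neg h, if_neg (fun h' => h (hiff.1 h'))]
  · apply Finset.sum_nonneg
    intro j _
    split_ifs
    · exact M8_nonneg n j
    · exact le_rfl

theorem Phi_continuous : Continuous Phi := by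
  have hna : MeasureTheory.NullSingletonClass (ProbabilityTheory.gaussianReal 0 1) :=
    ProbabilityTheory.nullSingletonClass_gaussianReal one_ne_zero
  have h : Phi = fun u => (ProbabilityTheory.gaussianReal 0 1).real (Set.Iic u) := rfl
  rw [h]
  have h2 : (fun u : ℝ => (ProbabilityTheory.gaussianReal 0 1).real (Set.Iic u)) =
      fun u : ℝ => ∫ x in Set.Iic u, (1 : ℝ) ∂(ProbabilityTheory.gaussianReal 0 1) := by
    funext u
    rw [MeasureTheory.setIntegral_const, smul_eq_mul, mul_one]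
  rw [h2]
  have hi : MeasureTheory.Integrable (fun _ : ℝ => (1 : ℝ)) (ProbabilityTheory.gaussianReal 0 1) :=
    MeasureTheory.integrable_const _
  have h3 : (fun u : ℝ => ∫ x in Set.Iic u, (1 : ℝ) ∂(ProbabilityTheory.gaussianReal 0 1)) =
      fun u : ℝ => (∫ x in Set.Iic 0, (1 : ℝ) ∂(ProbabilityTheory.gaussianReal 0 1)) +
        ∫ x in (0 : ℝ)..u, (1 : ℝ) ∂(ProbabilityTheory.gaussianReal 0 1) := by
    funext u
    have := intervalIntegral.integral_Iic_sub_Iic (μ := ProbabilityTheory.gaussianReal 0 1)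
      (f := fun _ : ℝ => (1 : ℝ)) (a := 0) (b := u) hi.integrableOn hi.integrableOn
    linarith
  rw [h3]
  exact continuous_const.add (intervalIntegral.continuous_primitive
    (fun a b => hi.intervalIntegrable) 0)

theorem Phi_mono : Monotone Phi := by
  intro a b hab
  rw [Phi, Phi]
  apply ENNReal.toReal_mono (MeasureTheory.measure_ne_top _ _)
  exact MeasureTheory.measure_mono (Set.Iic_subset_Iic.2 hab)

end Pool.Agent.Syr66
end

section

set_option autoImplicit false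

namespace Pool.Agent.Syr66

open Finset

private theorem V2_Qg (t : ℕ) (a : ℝ) :
    Qg t a = Ex (1 / 2) t (fun q => if a < (q.1 : ℝ) * Real.log 3 - t * Real.log 2 then 1 else 0) := by
  rw [← M_expect (α := 1 / 2) t
    (fun j => if a < (j : ℝ) * Real.log 3 - t * Real.log 2 then (1 : ℝ) else 0)]
  unfold Qg
  refine sum_congr rfl fun j _ => ?_
  split_ifs <;> simp

private theorem V2_Ql (t : ℕ) (a : ℝ) :
    Ql t a = Ex (1 / 2) t (fun q => if (q.1 : ℝ) * Real.log 3 - t * Real.log 2 ≤ a then 1 else 0) := by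
  rw [← M_expect (α := 1 / 2) t
    (fun j => if (j : ℝ) * Real.log 3 - t * Real.log 2 ≤ a then (1 : ℝ) else 0)]
  unfold Ql
  refine sum_congr rfl fun j _ => ?_
  split_ifs <;> simp

/-- `M_conv`. -/
theorem Qg_conv (k t : ℕ) (a : ℝ) :
    Qg (k + t) a = ∑ j ∈ range (k + 1), M (1 / 2) k j *
      Qg t (a - (j * Real.log 3 - k * Real.log 2)) := by
  have h1 : ∑ j ∈ range (k + 1), M (1 / 2) k j * Qg t (a - (j * Real.log 3 - k * Real.log 2)) =
      ∑ j ∈ range (k + 1), (fun j : ℕ => Qg t (a - ((j : ℝ) * Real.log 3 - k * Real.log 2))) j *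
        M (1 / 2) k j := sum_congr rfl fun j _ => mul_comm _ _
  rw [h1, M_expect (α := 1 / 2) k, V2_Qg, Ex_add]
  refine Ex_congr _ _ _ _ fun q _ => ?_
  simp only []
  rw [V2_Qg]
  refine Ex_congr _ _ _ _ fun q' _ => ?_
  have e : (a < ((q.1 + q'.1 : ℕ) : ℝ) * Real.log 3 - ((k + t : ℕ) : ℝ) * Real.log 2) ↔
      (a - ((q.1 : ℝ) * Real.log 3 - k * Real.log 2) < (q'.1 : ℝ) * Real.log 3 - t * Real.log 2) := by
    push_cast
    constructor <;> intro h <;> nlinarith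
  simp only [e]

theorem Ql_conv (k t : ℕ) (a : ℝ) :
    Ql (k + t) a = ∑ j ∈ range (k + 1), M (1 / 2) k j *
      Ql t (a - (j * Real.log 3 - k * Real.log 2)) := by
  have h1 : ∑ j ∈ range (k + 1), M (1 / 2) k j * Ql t (a - (j * Real.log 3 - k * Real.log 2)) =
      ∑ j ∈ range (k + 1), (fun j : ℕ => Ql t (a - ((j : ℝ) * Real.log 3 - k * Real.log 2))) j *
        M (1 / 2) k j := sum_congr rfl fun j _ => mul_comm _ _
  rw [h1, M_expect (α := 1 / 2) k, V2_Ql, Ex_add]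
  refine Ex_congr _ _ _ _ fun q _ => ?_
  simp only []
  rw [V2_Ql]
  refine Ex_congr _ _ _ _ fun q' _ => ?_
  have e : (((q.1 + q'.1 : ℕ) : ℝ) * Real.log 3 - ((k + t : ℕ) : ℝ) * Real.log 2 ≤ a) ↔
      ((q'.1 : ℝ) * Real.log 3 - t * Real.log 2 ≤ a - ((q.1 : ℝ) * Real.log 3 - k * Real.log 2)) := by
    push_cast
    constructor <;> intro h <;> nlinarith
  simp only [e]

end Pool.Agent.Syr66
end
end

section

section

set_option autoImplicit false

namespace Pool.Agent.Syr66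

open Finset

private theorem V9_mono (t : ℕ) (P Q : ℕ → Prop) [DecidablePred P] [DecidablePred Q]
    (h : ∀ j, P j → Q j) :
    (∑ j ∈ range (t + 1), if P j then M (1 / 2) t j else 0) ≤
      ∑ j ∈ range (t + 1), if Q j then M (1 / 2) t j else 0 := by
  have h0 : ∀ j, 0 ≤ M (1 / 2) t j := fun j => M_nonneg (by norm_num) (by norm_num) t j
  refine Finset.sum_le_sum (fun j _ => ?_)
  by_cases hp : P j
  · rw [if_pos hp, if_pos (h j hp)]
  · rw [if_neg hp]
    split_ifs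
    · exact h0 j
    · exact le_rfl

/-- `s = (log 3 / 2) μ ^ (3 / 2)`, `μ = 2 / log (4 / 3)`. If `t = μ L + u s sqrt L + O(L ^ (1 / 3))` (in
particular after changing `t` by a bounded amount or `a` by `O(L ^ (1 / 3))`), then
`P (Z_t ≤ - L + O(L ^ (1 / 3))) → Phi u`: the condition `j log 3 - t log 2 ≤ a` is
`j - t / 2 ≤ (a + t log (4 / 3) / 2) / log 3`, and the right side divided by `sqrt t / 2` tends to `u`.
Squeeze with `binom_clt` for `w` near `u`, `Phi_continuous`. -/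
theorem Ql_limit (u : ℝ) (L a : ℕ → ℝ) (t : ℕ → ℕ) (hL : Filter.Tendsto L Filter.atTop Filter.atTop)
    (ha : Filter.Tendsto (fun n => (a n + L n) / Real.sqrt (L n)) Filter.atTop (nhds 0))
    (ht : Filter.Tendsto (fun n => ((t n : ℝ) - 2 / Real.log (4 / 3) * L n) / Real.sqrt (L n))
      Filter.atTop (nhds (u * (Real.log 3 / 2 * (2 / Real.log (4 / 3)) ^ (3 / 2 : ℝ))))) :
    Filter.Tendsto (fun n => Ql (t n) (a n)) Filter.atTop (nhds (Phi u)) := by
  obtain ⟨l, hl⟩ : ∃ l : ℝ, l = Real.log (4 / 3) := ⟨_, rfl⟩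
  have hl0 : 0 < l := by rw [hl]; exact Real.log_pos (by norm_num)
  obtain ⟨g, hg⟩ : ∃ g : ℝ, g = Real.log 3 := ⟨_, rfl⟩
  have hg0 : 0 < g := by rw [hg]; exact Real.log_pos (by norm_num)
  have hlog : Real.log 2 = g / 2 + l / 2 := by
    have h1 : Real.log (4 / 3) = Real.log 4 - Real.log 3 :=
      Real.log_div (by norm_num) (by norm_num)
    have h2 : Real.log 4 = 2 * Real.log 2 := by
      rw [show (4 : ℝ) = 2 ^ 2 by norm_num, Real.log_pow]
      norm_num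
    rw [hl, hg, h1, h2]
    ring
  rw [← hl] at ht
  rw [← hg] at ht
  obtain ⟨μ, hμ⟩ : ∃ μ : ℝ, μ = 2 / l := ⟨_, rfl⟩
  have hμ0 : 0 < μ := by rw [hμ]; positivity
  have hμl : μ * l = 2 := by rw [hμ]; field_simp
  rw [← hμ] at ht
  have hr : μ ^ (3 / 2 : ℝ) = μ * Real.sqrt μ := by
    rw [show (3 / 2 : ℝ) = 1 + 1 / 2 by norm_num, Real.rpow_add hμ0, Real.rpow_one,
      Real.sqrt_eq_rpow]
  rw [hr] at ht
  have hLpos : ∀ᶠ n in Filter.atTop, 0 < L n := hL.eventually_gt_atTop 0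
  have hsL : Filter.Tendsto (fun n => Real.sqrt (L n)) Filter.atTop Filter.atTop :=
    Real.tendsto_sqrt_atTop.comp hL
  have htL : Filter.Tendsto (fun n => (t n : ℝ) / L n) Filter.atTop (nhds μ) := by
    have h1 := ht.mul (tendsto_inv_atTop_zero.comp hsL)
    rw [mul_zero] at h1
    have h2 := (tendsto_const_nhds (x := μ)).add h1
    rw [add_zero] at h2
    refine h2.congr' ?_
    filter_upwards [hLpos] with n hn
    have hs : Real.sqrt (L n) * Real.sqrt (L n) = L n := Real.mul_self_sqrt hn.le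
    have hs0 : Real.sqrt (L n) ≠ 0 := (Real.sqrt_pos.2 hn).ne'
    simp only [Function.comp]
    rw [eq_div_iff hn.ne']
    have h3 : ((t n : ℝ) - μ * L n) / Real.sqrt (L n) * (Real.sqrt (L n))⁻¹ * L n =
        (t n : ℝ) - μ * L n := by
      have h4 : ((t n : ℝ) - μ * L n) / Real.sqrt (L n) * (Real.sqrt (L n))⁻¹ *
          (Real.sqrt (L n) * Real.sqrt (L n)) = (t n : ℝ) - μ * L n := by
        field_simp
      rwa [hs] at h4
    rw [add_mul, h3]
    ring
  have hst : Filter.Tendsto (fun n => Real.sqrt ((t n : ℝ) / L n)) Filter.atTop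
      (nhds (Real.sqrt μ)) := (Real.continuous_sqrt.tendsto μ).comp htL
  have htr : Filter.Tendsto (fun n => (t n : ℝ)) Filter.atTop Filter.atTop := by
    have h1 := htL.pos_mul_atTop hμ0 hL
    refine h1.congr' ?_
    filter_upwards [hLpos] with n hn
    field_simp
  have htn : Filter.Tendsto t Filter.atTop Filter.atTop := tendsto_natCast_atTop_iff.1 htr
  have htpos : ∀ᶠ n in Filter.atTop, (0 : ℝ) < t n := htr.eventually_gt_atTop 0
  -- the normalised threshold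
  have hw : Filter.Tendsto (fun n => 2 / g * ((a n + t n * (l / 2)) / Real.sqrt (t n)))
      Filter.atTop (nhds u) := by
    have h1 := ha.add (ht.const_mul (l / 2))
    have h2 := (h1.div hst (Real.sqrt_pos.2 hμ0).ne').const_mul (2 / g)
    have hlim : 2 / g * ((0 + l / 2 * (u * (g / 2 * (μ * Real.sqrt μ)))) / Real.sqrt μ) = u := by
      have h3 : Real.sqrt μ ≠ 0 := (Real.sqrt_pos.2 hμ0).ne'
      have h4 : 2 / g * ((0 + l / 2 * (u * (g / 2 * (μ * Real.sqrt μ)))) / Real.sqrt μ) =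
          u * (μ * l) / 2 := by
        field_simp
        ring
      rw [h4, hμl]
      ring
    rw [hlim] at h2
    refine h2.congr' ?_
    filter_upwards [hLpos, htpos] with n hn htn0
    have hs0 : Real.sqrt (L n) ≠ 0 := (Real.sqrt_pos.2 hn).ne'
    have hst0 : Real.sqrt (t n) ≠ 0 := (Real.sqrt_pos.2 htn0).ne'
    have h5 : (a n + L n) / Real.sqrt (L n) + l / 2 * (((t n : ℝ) - μ * L n) / Real.sqrt (L n)) =
        (a n + t n * (l / 2)) / Real.sqrt (L n) := by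
      have h6 : (a n + L n) / Real.sqrt (L n) + l / 2 * (((t n : ℝ) - μ * L n) / Real.sqrt (L n)) =
          (a n + L n + l / 2 * ((t n : ℝ) - μ * L n)) / Real.sqrt (L n) := by
        field_simp
      rw [h6]
      congr 1
      have h7 : l / 2 * (μ * L n) = L n := by
        have : l / 2 * (μ * L n) = (μ * l) / 2 * L n := by ring
        rw [this, hμl]
        ring
      linarith
    simp only [Pi.div_apply]
    rw [h5, Real.sqrt_div' _ hn.le]
    congr 1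
    field_simp
  -- comparison
  have hiff : ∀ n, 0 < (t n : ℝ) → ∀ j : ℕ, ((j : ℝ) * Real.log 3 - t n * Real.log 2 ≤ a n ↔
      (j : ℝ) - t n / 2 ≤
        (2 / g * ((a n + t n * (l / 2)) / Real.sqrt (t n))) / 2 * Real.sqrt (t n)) := by
    intro n hn j
    have hst0 : Real.sqrt (t n) ≠ 0 := (Real.sqrt_pos.2 hn).ne'
    have h1 : (2 / g * ((a n + t n * (l / 2)) / Real.sqrt (t n))) / 2 * Real.sqrt (t n) =
        (a n + t n * (l / 2)) / g := by
      field_simp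
    rw [h1, le_div_iff₀ hg0, ← hg, hlog]
    constructor
    · intro h
      nlinarith
    · intro h
      nlinarith
  rw [tendsto_order]
  constructor
  · intro c hc
    have h1 : ∀ᶠ w in nhds u, c < Phi w := (Phi_continuous.tendsto u).eventually_const_lt hc
    obtain ⟨δ, hδ, hb⟩ := Metric.eventually_nhds_iff.1 h1
    have h2 : c < Phi (u - δ / 2) := hb (by
      rw [Real.dist_eq, show u - δ / 2 - u = -(δ / 2) by ring, abs_neg, abs_of_pos (by linarith)]
      linarith)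
    have h3 := ((binom_clt (u - δ / 2)).comp htn).eventually_const_lt h2
    have h4 : ∀ᶠ n in Filter.atTop,
        u - δ / 2 < 2 / g * ((a n + t n * (l / 2)) / Real.sqrt (t n)) :=
      hw.eventually_const_lt (by linarith)
    filter_upwards [h3, h4, htpos] with n h5 h6 h7
    refine lt_of_lt_of_le h5 ?_
    simp only [Function.comp]
    unfold Ql
    refine V9_mono (t n) _ _ (fun j hj => ?_)
    rw [hiff n h7 j]
    refine hj.trans ?_
    refine mul_le_mul_of_nonneg_right ?_ (Real.sqrt_nonneg _)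
    linarith
  · intro c hc
    have h1 : ∀ᶠ w in nhds u, Phi w < c := (Phi_continuous.tendsto u).eventually_lt_const hc
    obtain ⟨δ, hδ, hb⟩ := Metric.eventually_nhds_iff.1 h1
    have h2 : Phi (u + δ / 2) < c := hb (by
      rw [Real.dist_eq, show u + δ / 2 - u = δ / 2 by ring, abs_of_pos (by linarith)]
      linarith)
    have h3 := ((binom_clt (u + δ / 2)).comp htn).eventually_lt_const h2
    have h4 : ∀ᶠ n in Filter.atTop,
        2 / g * ((a n + t n * (l / 2)) / Real.sqrt (t n)) < u + δ / 2 :=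
      hw.eventually_lt_const (by linarith)
    filter_upwards [h3, h4, htpos] with n h5 h6 h7
    refine lt_of_le_of_lt ?_ h5
    simp only [Function.comp]
    unfold Ql
    refine V9_mono (t n) _ _ (fun j hj => ?_)
    rw [hiff n h7 j] at hj
    refine hj.trans ?_
    refine mul_le_mul_of_nonneg_right ?_ (Real.sqrt_nonneg _)
    linarith

end Pool.Agent.Syr66
end

section

set_option autoImplicit false

namespace Pool.Agent.Syr66

open Finset

private theorem V3_h0 : (0 : ℝ) < 1 / 2 := by norm_num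

private theorem V3_h1 : (1 / 2 : ℝ) < 1 := by norm_num

/-- `sum_periodic_le` with `P = 3 ^ m`, `p_sum`. -/
theorem bb_le (m X : ℕ) (B : ℕ → Prop) : bb m X B ≤ X + 3 ^ m := by
  have h1 : bb m X B ≤ bb m X (fun _ => True) :=
    bb_mono m X B _ (fun _ _ => trivial) (fun z => p_nonneg V3_h0 V3_h1 m z)
  refine h1.trans ?_
  unfold bb
  simp only [if_true]
  rw [← mul_sum]
  have h2 := sum_periodic_le (3 ^ m) X (by positivity) (fun z => p (1 / 2) m z)
    (fun z => p_nonneg V3_h0 V3_h1 m z) (fun x t => by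
      push_cast
      exact p_periodic (1 / 2) m x t)
  rw [p_sum V3_h0 V3_h1 m, mul_one] at h2
  push_cast at h2
  have h3 : (0 : ℝ) < 3 ^ m := by positivity
  calc (3 : ℝ) ^ m * ∑ n ∈ Icc 1 X, p (1 / 2) m (n : ℤ) ≤ 3 ^ m * ((X : ℝ) / 3 ^ m + 1) :=
        mul_le_mul_of_nonneg_left h2 h3.le
    _ = X + 3 ^ m := by field_simp

theorem bb_nonneg (m X : ℕ) (B : ℕ → Prop) : 0 ≤ bb m X B := by
  unfold bb
  refine sum_nonneg fun n _ => ?_
  split_ifs
  · exact mul_nonneg (by positivity) (p_nonneg V3_h0 V3_h1 m _)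
  · exact le_rfl

/-- Only the `n ≤ K` count (`p ≤ 1`). -/
theorem bb_le_of_small (m X K : ℕ) (B : ℕ → Prop) (h : ∀ n, B n → n ≤ K) :
    bb m X B ≤ 3 ^ m * K := by
  have h3 : (0 : ℝ) < 3 ^ m := by positivity
  have h1 : bb m X B ≤ ∑ n ∈ Icc 1 X, if n ≤ K then (3 : ℝ) ^ m else 0 := by
    unfold bb
    refine sum_le_sum fun n _ => ?_
    by_cases hB : B n
    · rw [if_pos hB, if_pos (h n hB)]
      calc (3 : ℝ) ^ m * p (1 / 2) m (n : ℤ) ≤ 3 ^ m * 1 :=
            mul_le_mul_of_nonneg_left (p_le_one V3_h0 V3_h1 m _) h3.le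
        _ = 3 ^ m := mul_one _
    · rw [if_neg hB]
      split_ifs
      · exact h3.le
      · exact le_rfl
  refine h1.trans ?_
  rw [← sum_filter, sum_const, nsmul_eq_mul, mul_comm]
  refine mul_le_mul_of_nonneg_left ?_ h3.le
  have h2 : ((Icc 1 X).filter (fun n => n ≤ K)).card ≤ (Icc 1 K).card := by
    apply card_le_card
    intro n hn
    rw [mem_filter, mem_Icc] at hn
    rw [mem_Icc]
    exact ⟨hn.1.1, hn.2⟩
  rw [Nat.card_Icc, Nat.add_sub_cancel] at h2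
  exact_mod_cast h2

/-- `m ≤ (log X) ^ κ`, `κ < 1 / 2`: `3 ^ m / X` is smaller than any power of `log X`. -/
theorem pow_m_small (κ c η : ℝ) (hκ : 0 < κ) (hκ1 : κ < 1 / 2) (hη : 0 < η) :
    ∃ X₀ : ℕ, ∀ X m : ℕ, X₀ ≤ X → (m : ℝ) ≤ Real.log X ^ κ →
      (3 : ℝ) ^ m * 2 ^ kk X ≤ η * Real.log X ^ (-c) * X := by
  set L₀ : ℝ := max 64 (max (64 * c ^ 2) (4 * |Real.log η|)) with hL₀
  refine ⟨⌈Real.exp L₀⌉₊, ?_⟩
  intro X m hX hm
  have hX1 : Real.exp L₀ ≤ (X : ℝ) := (Nat.le_ceil _).trans (by exact_mod_cast hX)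
  have hX0 : (0 : ℝ) < X := lt_of_lt_of_le (Real.exp_pos _) hX1
  set L : ℝ := Real.log X with hL
  have hLL : L₀ ≤ L := by
    rw [hL, ← Real.log_exp L₀]
    exact Real.log_le_log (Real.exp_pos _) hX1
  have hL64 : 64 ≤ L := (le_max_left _ _).trans hLL
  have hLc : 64 * c ^ 2 ≤ L := ((le_max_left _ _).trans (le_max_right _ _)).trans hLL
  have hLη : 4 * |Real.log η| ≤ L := ((le_max_right _ _).trans (le_max_right _ _)).trans hLL
  have hL0 : 0 < L := by linarith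
  have hsq : Real.sqrt L * Real.sqrt L = L := Real.mul_self_sqrt hL0.le
  have hs8 : 8 ≤ Real.sqrt L := by
    rw [show (8 : ℝ) = Real.sqrt 64 by
      rw [show (64 : ℝ) = 8 ^ 2 by norm_num]; exact (Real.sqrt_sq (by norm_num)).symm]
    exact Real.sqrt_le_sqrt hL64
  have hs0 : 0 < Real.sqrt L := by linarith
  have hsc : 8 * |c| ≤ Real.sqrt L := by
    apply Real.le_sqrt_of_sq_le
    rw [mul_pow, sq_abs]
    linarith
  have hκ2 : L ^ κ ≤ Real.sqrt L := by
    rw [Real.sqrt_eq_rpow]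
    exact Real.rpow_le_rpow_of_exponent_le (by linarith) hκ1.le
  have hm1 : (m : ℝ) ≤ Real.sqrt L := hm.trans hκ2
  have hlog3 : Real.log 3 ≤ 2 := by
    have := Real.log_le_sub_one_of_pos (show (0 : ℝ) < 3 by norm_num)
    linarith
  have hlog2 : Real.log 2 ≤ 1 := by
    have := Real.log_le_sub_one_of_pos (show (0 : ℝ) < 2 by norm_num)
    linarith
  have hlog2' : 0 < Real.log 2 := Real.log_pos (by norm_num)
  have hlog3' : 0 < Real.log 3 := Real.log_pos (by norm_num)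
  have e1 : (3 : ℝ) ^ m = Real.exp (Real.log 3 * m) := by
    rw [mul_comm, Real.exp_nat_mul, Real.exp_log (by norm_num)]
  have e2 : (2 : ℝ) ^ kk X = Real.exp (Real.log 2 * (kk X : ℝ)) := by
    rw [mul_comm, Real.exp_nat_mul, Real.exp_log (by norm_num)]
  have e3 : η * L ^ (-c) * X = Real.exp (Real.log η - c * Real.log L + L) := by
    rw [Real.exp_add, Real.exp_sub, Real.exp_log hη, hL, Real.exp_log hX0, ← hL,
      Real.rpow_def_of_pos hL0, mul_neg, Real.exp_neg, mul_comm (Real.log L) c]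
    ring
  rw [e1, e2, e3, ← Real.exp_add]
  apply Real.exp_le_exp.2
  have hk : (kk X : ℝ) ≤ L / 20 := by
    unfold kk
    exact Nat.floor_le (by positivity)
  have a1 : Real.log 3 * m ≤ L / 4 := by
    have : Real.log 3 * m ≤ 2 * Real.sqrt L :=
      mul_le_mul hlog3 hm1 (Nat.cast_nonneg _) (by norm_num)
    nlinarith
  have a2 : Real.log 2 * (kk X : ℝ) ≤ L / 20 := by
    calc Real.log 2 * (kk X : ℝ) ≤ 1 * (kk X : ℝ) :=
          mul_le_mul_of_nonneg_right hlog2 (Nat.cast_nonneg _)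
      _ ≤ L / 20 := by rw [one_mul]; exact hk
  have a3 : c * Real.log L ≤ L / 4 := by
    have hl : Real.log L ≤ 2 * Real.sqrt L := by
      have h1 : Real.log L = 2 * Real.log (Real.sqrt L) := by
        rw [Real.log_sqrt hL0.le]
        ring
      have h2 := Real.log_le_sub_one_of_pos hs0
      linarith
    have hl0 : 0 ≤ Real.log L := Real.log_nonneg (by linarith)
    calc c * Real.log L ≤ |c| * Real.log L := mul_le_mul_of_nonneg_right (le_abs_self _) hl0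
      _ ≤ |c| * (2 * Real.sqrt L) := mul_le_mul_of_nonneg_left hl (abs_nonneg _)
      _ ≤ L / 4 := by nlinarith [abs_nonneg c]
  have a4 : -Real.log η ≤ L / 4 := by
    have := neg_abs_le (Real.log η)
    linarith
  linarith

end Pool.Agent.Syr66
end

section

set_option autoImplicit false

namespace Pool.Agent.Syr66

open Finset

/-- `(2 ^ k / 3 ^ j) Y ≤ X + 3 ^ k` for `Y = XJ k j X`. -/
private theorem V4_XJ (k j X : ℕ) : (2 : ℝ) ^ k / 3 ^ j * (XJ k j X : ℝ) ≤ X + 3 ^ k := by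
  have h1 : (XJ k j X : ℝ) * 2 ^ k ≤ 3 ^ j * X + 3 ^ k := by
    have h : (XJ k j X) * 2 ^ k ≤ 3 ^ j * X + 3 ^ k := Nat.div_mul_le_self (3 ^ j * X + 3 ^ k) (2 ^ k)
    exact_mod_cast h
  have h3j : (1 : ℝ) ≤ 3 ^ j := one_le_pow₀ (by norm_num)
  have h3j0 : (0 : ℝ) < 3 ^ j := by positivity
  rw [div_mul_eq_mul_div, div_le_iff₀ h3j0]
  have : (3 : ℝ) ^ k ≤ 3 ^ k * 3 ^ j := le_mul_of_one_le_right (by positivity) h3j
  nlinarith [h1, this]

private theorem V4_pow (m : ℕ) (L : ℝ) (Y : ℕ) (hL : 0 < L) (hm : 16 * (m : ℝ) ≤ L / 20)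
    (hY : L / 2 ≤ Real.log Y) : 0 < Y ∧ (3 : ℝ) ^ m ≤ Y := by
  have hY0 : 0 < Y := by
    rcases Nat.eq_zero_or_pos Y with h | h
    · rw [h] at hY
      simp at hY
      linarith
    · exact h
  refine ⟨hY0, ?_⟩
  have hYr : (0 : ℝ) < Y := by exact_mod_cast hY0
  have hlog3 : Real.log 3 ≤ 2 := by
    have := Real.log_le_sub_one_of_pos (show (0 : ℝ) < 3 by norm_num)
    linarith
  have hm0 : (0 : ℝ) ≤ m := Nat.cast_nonneg m
  rw [← Real.exp_log hYr, ← Real.exp_log (show (0 : ℝ) < 3 ^ m by positivity)]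
  apply Real.exp_le_exp.2
  rw [Real.log_pow]
  have h1 : (m : ℝ) * Real.log 3 ≤ m * 2 := mul_le_mul_of_nonneg_left hlog3 hm0
  linarith

/-- One step from scale `X`, in normalised form. `mixing` with `A = c / (1 / 2 - c)`, `θ₁ = min θ (1 / 100)`,
`onestep` with `k = kk X`, `m' = mk κ X`, `J` = the typical `j`; `(2 ^ k / 3 ^ j) Y ≤ X + 3 ^ k` for
`Y = XJ k j X > 0`, `bb m' Y B' ≤ 2 Y` (`bb_le`), `err_facts`, `M_atyp`, `small_facts`, `size_facts`,
`typ_facts`. -/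
theorem scale_step (c : ℝ) (hc : 0 < c) (hc1 : c < 1 / 2) :
    ∃ θ₁ : ℝ, 0 < θ₁ ∧ θ₁ ≤ 1 / 100 ∧ ∃ C : ℝ, 0 < C ∧ ∃ X₀ : ℕ, ∀ (X m : ℕ) (B B' : ℕ → Prop),
      X₀ ≤ X → (m : ℝ) ≤ Real.log X ^ (1 / 2 - c) → (∀ n, B n → B' (T^[kk X] n)) →
      bb m X B ≤ X * (∑ j ∈ (range (kk X + 1)).filter
          (fun j : ℕ => |(j : ℝ) - kk X / 2| ≤ θ₁ * kk X),
          M (1 / 2) (kk X) j * (bb (mk (1 / 2 - c) X) (XJ (kk X) j X) B' / XJ (kk X) j X)
        + C * Real.log X ^ (-c)) := by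
  obtain ⟨θ, hθ0, hθ1, Cm, hCm, hmix⟩ := mixing (c / (1 / 2 - c))
  obtain ⟨θ₁, hθ₁⟩ : ∃ θ₁ : ℝ, θ₁ = min θ (1 / 100) := ⟨_, rfl⟩
  have hθp : 0 < θ₁ := by rw [hθ₁]; exact lt_min hθ0 (by norm_num)
  have hθa : θ₁ ≤ θ := by rw [hθ₁]; exact min_le_left _ _
  have hθb : θ₁ ≤ 1 / 100 := by rw [hθ₁]; exact min_le_right _ _
  obtain ⟨Ce, hCe, X1, herr⟩ := err_facts c θ₁ hc hc1 hθp
  obtain ⟨X2, hsize⟩ := size_facts (1 / 2 - c) θ (by linarith) (by linarith) hθ0
  obtain ⟨X3, htyp⟩ := typ_facts θ₁ hθp hθb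
  obtain ⟨X4, hsmall⟩ := small_facts c 1 hc one_pos
  refine ⟨θ₁, hθp, hθb, 2 * Cm * Ce + 4 * Ce + 2, by positivity, X1 + X2 + X3 + X4 + 3, ?_⟩
  intro X m B B' hX hm hB
  obtain ⟨s1, s2, s3, s4, s5, s6, s7, s8⟩ := hsize X m (by omega) hm
  obtain ⟨e1, e2⟩ := herr X (kk X : ℝ) (mk (1 / 2 - c) X : ℝ) (by omega) s5 s6 s7 s8
  have e3 := hsmall X (kk X) (by omega) s6
  have hX3 : (3 : ℝ) ≤ X := by exact_mod_cast (by omega : 3 ≤ X)
  have hX0 : (0 : ℝ) < X := by linarith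
  have hL0 : 0 < Real.log X := Real.log_pos (by linarith)
  have hLc : 0 < Real.log X ^ (-c) := Real.rpow_pos_of_pos hL0 _
  have hk0 : (0 : ℝ) ≤ kk X := Nat.cast_nonneg _
  have s3r : 16 * (mk (1 / 2 - c) X : ℝ) ≤ kk X := by exact_mod_cast s3
  set k := kk X with hk
  set m' := mk (1 / 2 - c) X with hm'
  set J := (range (k + 1)).filter (fun j : ℕ => |(j : ℝ) - k / 2| ≤ θ₁ * k) with hJ
  have hJs : J ⊆ range (k + 1) := filter_subset _ _
  have hM0 : ∀ j, 0 ≤ M (1 / 2) k j := fun j => M_nonneg (by norm_num) (by norm_num) k j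
  have hJm : ∀ j ∈ J, m' ≤ m + j := by
    intro j hj
    have h1 := (mem_filter.1 hj).2
    rw [abs_le] at h1
    have h2 : θ₁ * (k : ℝ) ≤ 1 / 100 * k := mul_le_mul_of_nonneg_right hθb hk0
    have h3 : (m' : ℝ) ≤ (j : ℝ) := by linarith [h1.1]
    have h4 : m' ≤ j := by exact_mod_cast h3
    omega
  have h0 := onestep k m m' X J hJs hJm B B' hB s1
  -- the mixing error
  have hE1 : ∑ j ∈ J, er k m m' j ≤ Cm * Ce * Real.log X ^ (-c) := by
    have h1 : ∑ j ∈ J, er k m m' j ≤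
        ∑ j ∈ (range (k + 1)).filter (fun j : ℕ => |(j : ℝ) - k / 2| ≤ θ * k), er k m m' j := by
      apply sum_le_sum_of_subset_of_nonneg
      · intro j hj
        rw [hJ, mem_filter] at hj
        rw [mem_filter]
        exact ⟨hj.1, hj.2.trans (mul_le_mul_of_nonneg_right hθa hk0)⟩
      · intro j _ _
        exact sum_nonneg fun _ _ => abs_nonneg _
    have h2 := hmix k m m' s2 s3 s4
    have h3 : Cm * ((m' : ℝ) ^ (-(c / (1 / 2 - c))) + m' / Real.sqrt k) ≤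
        Cm * (Ce * Real.log X ^ (-c)) := mul_le_mul_of_nonneg_left e1 hCm.le
    calc _ ≤ _ := h1
      _ ≤ _ := h2
      _ ≤ _ := h3
      _ = _ := by ring
  -- the atypical part
  have hE2 : ∑ j ∈ range (k + 1) \ J, M (1 / 2) k j ≤ 2 * (Ce * Real.log X ^ (-c)) := by
    have h1 : range (k + 1) \ J =
        (range (k + 1)).filter (fun j : ℕ => θ₁ * k < |(j : ℝ) - k / 2|) := by
      ext j
      rw [mem_sdiff, hJ, mem_filter, mem_filter]
      constructor
      · rintro ⟨h1, h2⟩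
        exact ⟨h1, not_le.1 fun h3 => h2 ⟨h1, h3⟩⟩
      · rintro ⟨h1, h2⟩
        exact ⟨h1, fun h3 => absurd h3.2 (not_le.2 h2)⟩
    rw [h1]
    have h2 := M_atyp k θ₁ hθp
    linarith
  -- the main term
  have hMain : ∑ j ∈ J, 2 ^ k / 3 ^ j * M (1 / 2) k j * bb m' (XJ k j X) B' ≤
      X * (∑ j ∈ J, M (1 / 2) k j * (bb m' (XJ k j X) B' / XJ k j X)) + 2 * 3 ^ k := by
    have h1 : ∀ j ∈ J, 2 ^ k / 3 ^ j * M (1 / 2) k j * bb m' (XJ k j X) B' ≤
        X * (M (1 / 2) k j * (bb m' (XJ k j X) B' / XJ k j X)) + 2 * 3 ^ k * M (1 / 2) k j := by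
      intro j hj
      have hj2 := (mem_filter.1 hj).2
      obtain ⟨t1, t2, t3⟩ := htyp X j (by omega) hj2
      obtain ⟨y1, y2⟩ := V4_pow m' (Real.log X) (XJ k j X) hL0 (by linarith) t2
      have yr : (0 : ℝ) < XJ k j X := by exact_mod_cast y1
      have hb := bb_le m' (XJ k j X) B'
      have hb0 := bb_nonneg m' (XJ k j X) B'
      set Y : ℝ := (XJ k j X : ℝ) with hY
      set b := bb m' (XJ k j X) B' with hbdef
      have hq0 : 0 ≤ b / Y := div_nonneg hb0 yr.le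
      have hq2 : b / Y ≤ 2 := by
        rw [div_le_iff₀ yr]
        linarith
      have e : b = Y * (b / Y) := by field_simp
      have h2 := V4_XJ k j X
      rw [← hY] at h2
      have h3 : (2 : ℝ) ^ k / 3 ^ j * b ≤ X * (b / Y) + 2 * 3 ^ k := by
        calc (2 : ℝ) ^ k / 3 ^ j * b = (2 : ℝ) ^ k / 3 ^ j * Y * (b / Y) := by
              rw [mul_assoc, ← e]
          _ ≤ (X + 3 ^ k) * (b / Y) := mul_le_mul_of_nonneg_right h2 hq0
          _ = X * (b / Y) + 3 ^ k * (b / Y) := by ring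
          _ ≤ X * (b / Y) + 3 ^ k * 2 := by
              have : (3 : ℝ) ^ k * (b / Y) ≤ 3 ^ k * 2 :=
                mul_le_mul_of_nonneg_left hq2 (by positivity)
              linarith
          _ = _ := by ring
      calc (2 : ℝ) ^ k / 3 ^ j * M (1 / 2) k j * b = M (1 / 2) k j * (2 ^ k / 3 ^ j * b) := by ring
        _ ≤ M (1 / 2) k j * (X * (b / Y) + 2 * 3 ^ k) := mul_le_mul_of_nonneg_left h3 (hM0 j)
        _ = _ := by ring
    calc _ ≤ ∑ j ∈ J, (X * (M (1 / 2) k j * (bb m' (XJ k j X) B' / XJ k j X)) +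
          2 * 3 ^ k * M (1 / 2) k j) := sum_le_sum h1
      _ = X * (∑ j ∈ J, M (1 / 2) k j * (bb m' (XJ k j X) B' / XJ k j X)) +
          2 * 3 ^ k * ∑ j ∈ J, M (1 / 2) k j := by
          rw [sum_add_distrib, ← mul_sum, ← mul_sum]
      _ ≤ _ := by
          have h2 : ∑ j ∈ J, M (1 / 2) k j ≤ 1 := by
            have h4 : ∑ j ∈ J, M (1 / 2) k j ≤ ∑ j ∈ range (k + 1), M (1 / 2) k j :=
              sum_le_sum_of_subset_of_nonneg hJs fun j _ _ => hM0 j
            have h5 : ∑ j ∈ range (k + 1), M (1 / 2) k j = 1 := M_sum k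
            rw [h5] at h4
            exact h4
          have h3 : 2 * (3 : ℝ) ^ k * ∑ j ∈ J, M (1 / 2) k j ≤ 2 * 3 ^ k * 1 :=
            mul_le_mul_of_nonneg_left h2 (by positivity)
          linarith
  have hsm : (3 : ℝ) ^ k ≤ Real.log X ^ (-c) * X := by
    rw [div_le_iff₀ hX0] at e3
    linarith
  have hA : 2 * (X : ℝ) * ∑ j ∈ J, er k m m' j ≤ 2 * X * (Cm * Ce * Real.log X ^ (-c)) :=
    mul_le_mul_of_nonneg_left hE1 (by positivity)
  have hB2 : 2 * (X : ℝ) * ∑ j ∈ range (k + 1) \ J, M (1 / 2) k j ≤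
      2 * X * (2 * (Ce * Real.log X ^ (-c))) :=
    mul_le_mul_of_nonneg_left hE2 (by positivity)
  have e : (X : ℝ) * (∑ j ∈ J, M (1 / 2) k j * (bb m' (XJ k j X) B' / XJ k j X) +
      (2 * Cm * Ce + 4 * Ce + 2) * Real.log X ^ (-c)) =
      X * (∑ j ∈ J, M (1 / 2) k j * (bb m' (XJ k j X) B' / XJ k j X)) +
      2 * X * (Cm * Ce * Real.log X ^ (-c)) + 2 * X * (2 * (Ce * Real.log X ^ (-c))) +
      2 * (Real.log X ^ (-c) * X) := by ring
  rw [e]
  linarith

end Pool.Agent.Syr66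
end

section

set_option autoImplicit false

namespace Pool.Agent.Syr66

open Finset

private theorem V7_cycle (i : ℕ) : T^[i] 1 = 1 ∨ T^[i] 1 = 2 := by
  induction i with
  | zero => exact Or.inl rfl
  | succ i ih =>
    rw [Function.iterate_succ_apply']
    rcases ih with h | h
    · rw [h]; right; decide
    · rw [h]; left; decide

/-- `1 → 2 → 1` is a cycle. -/
theorem ET_iter (t k n : ℕ) (h : ET t n) (hk : k + 1 ≤ t) : ET (t - k) (T^[k] n) := by
  obtain ⟨i, hi, h1⟩ := h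
  rcases Nat.lt_or_ge i k with hik | hik
  · have h2 : T^[k] n = T^[k - i] 1 := by
      conv_lhs => rw [← Nat.sub_add_cancel hik.le, Function.iterate_add_apply, h1]
    rcases V7_cycle (k - i) with h3 | h3
    · exact ⟨0, Nat.zero_le _, by rw [h2, h3]; rfl⟩
    · refine ⟨1, by omega, ?_⟩
      rw [h2, h3]
      decide
  · refine ⟨i - k, by omega, ?_⟩
    rw [← Function.iterate_add_apply, Nat.sub_add_cancel hik, h1]

/-- `T^[t] n ≥ n / 2 ^ t`. -/
theorem ET_le (t n : ℕ) (h : ET t n) : n ≤ 2 ^ t := by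
  obtain ⟨i, hi, h1⟩ := h
  have h2 := enc_spec i n
  rw [h1, mul_one] at h2
  have h3 : n ≤ 3 ^ (enc i n).1 * n := Nat.le_mul_of_pos_left n (by positivity)
  have h4 : 2 ^ i ≤ 2 ^ t := Nat.pow_le_pow_right (by norm_num) hi
  omega

/-- Lower law. Induction on `X`, `Λ / 2 ≤ log X`. If `log X ≤ Λ`:
`Ql = 1 - Qg ≥ 1 - exp (-8 Λ)` (`Qg_markov`), `bb_le`, `pow_m_small`. If `log X > Λ`: for `t ≤ kk X`,
`bb_le_of_small` with `K = 2 ^ kk X` (`ET_le`) and `pow_m_small`; for `t > kk X`, `scale_step` with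
`B' = ET (t - kk X)`, the induction hypothesis at `Y = XJ (kk X) j X` (`log Y ≥ log X / 2 > Λ / 2`,
`typ_facts`), `XJ_lower`, `Ql_mono`, `Ql_conv` and `gain_potential`. The bracket
`4 Λ ^ (-c) - (log X) ^ (-c)` is at least `2 Λ ^ (-c)`. -/
theorem lower_rec (c : ℝ) (hc : 0 < c) (hc1 : c < 1 / 2) :
    ∃ D : ℝ, 0 < D ∧ ∃ Λ₀ : ℝ, 1 ≤ Λ₀ ∧ ∀ Λ : ℝ, Λ₀ ≤ Λ → ∀ X m t : ℕ, Λ / 2 ≤ Real.log X →
      (m : ℝ) ≤ Real.log X ^ (1 / 2 - c) →
      bb m X (ET t) ≤ X * (Ql t (10 * Λ - (Real.log X + (X : ℝ) ^ (-(1 / 4 : ℝ)))) +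
        D * (4 * Λ ^ (-c) - Real.log X ^ (-c))) := by
  obtain ⟨κ, hκ⟩ : ∃ κ : ℝ, κ = 1 / 2 - c := ⟨_, rfl⟩
  have hκ0 : 0 < κ := by rw [hκ]; linarith
  have hκ1 : κ < 1 / 2 := by rw [hκ]; linarith
  obtain ⟨θ₁, hθ₁0, hθ₁a, C, hC, X₀, hX₀⟩ := scale_step c hc hc1
  obtain ⟨l, hl⟩ : ∃ l : ℝ, l = Real.log (4 / 3) := ⟨_, rfl⟩
  have hl4 : 1 / 4 ≤ l := by
    have h := Real.one_sub_inv_le_log_of_pos (x := 4 / 3) (by norm_num)
    have h2 : (1 : ℝ) - (4 / 3)⁻¹ = 1 / 4 := by norm_num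
    rw [hl]; linarith
  have hl0 : 0 < l := by linarith
  obtain ⟨X₁, hX₁⟩ := typ_facts θ₁ hθ₁0 hθ₁a
  obtain ⟨X₂, hX₂⟩ := size_facts κ θ₁ hκ0 hκ1 hθ₁0
  obtain ⟨X₃, hX₃⟩ := XJ_lower θ₁ hθ₁0 hθ₁a
  obtain ⟨X₄, hX₄⟩ := pow_m_small κ c 1 hκ0 hκ1 one_pos
  obtain ⟨δ, hδ⟩ : ∃ δ : ℝ, δ = 1 / 1000 := ⟨_, rfl⟩
  have hδ0 : 0 < δ := by rw [hδ]; norm_num
  have hδ1 : δ < 1 := by rw [hδ]; norm_num
  have hcδ : 0 < c * δ := mul_pos hc hδ0
  obtain ⟨D, hD⟩ : ∃ D : ℝ, D = 2 + C / (c * δ) := ⟨_, rfl⟩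
  have hCd : 0 < C / (c * δ) := div_pos hC hcδ
  have hD0 : 0 < D := by rw [hD]; positivity
  have hD1 : 2 ≤ D := by rw [hD]; linarith
  have hDc : C ≤ D * (c * δ) := by
    have h1 : C / (c * δ) ≤ D := by rw [hD]; linarith
    rwa [div_le_iff₀ hcδ] at h1
  obtain ⟨N₀, hN₀⟩ : ∃ N₀ : ℕ, N₀ = max 1 (max (max X₀ X₁) (max (max X₂ X₃) X₄)) := ⟨_, rfl⟩
  have hN1 : 1 ≤ N₀ := by rw [hN₀]; exact le_max_left _ _
  have hN' : max (max X₀ X₁) (max (max X₂ X₃) X₄) ≤ N₀ := by rw [hN₀]; exact le_max_right _ _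
  have hNX0 : X₀ ≤ N₀ := ((le_max_left _ _).trans (le_max_left _ _)).trans hN'
  have hNX1 : X₁ ≤ N₀ := ((le_max_right _ _).trans (le_max_left _ _)).trans hN'
  have hN'' : max (max X₂ X₃) X₄ ≤ N₀ := (le_max_right _ _).trans hN'
  have hNX2 : X₂ ≤ N₀ := ((le_max_left _ _).trans (le_max_left _ _)).trans hN''
  have hNX3 : X₃ ≤ N₀ := ((le_max_right _ _).trans (le_max_left _ _)).trans hN''
  have hNX4 : X₄ ≤ N₀ := (le_max_right _ _).trans hN''
  have hNr : (1 : ℝ) ≤ N₀ := by exact_mod_cast hN1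
  have hlogN0 : 0 ≤ Real.log N₀ := Real.log_nonneg hNr
  refine ⟨D, hD0, 2 * (1 + Real.log N₀), by linarith, ?_⟩
  intro Λ hΛ X
  have hΛ1 : 1 ≤ Λ := by linarith
  have hΛ0 : 0 < Λ := by linarith
  obtain ⟨LΛ, hLΛ⟩ : ∃ LΛ : ℝ, LΛ = Λ ^ (-c) := ⟨_, rfl⟩
  have hLΛ0 : 0 < LΛ := by rw [hLΛ]; exact Real.rpow_pos_of_pos hΛ0 _
  rw [← hLΛ]
  rw [← hκ]
  induction X using Nat.strong_induction_on with
  | _ X ih =>
  intro m t hΛX hm
  obtain ⟨L, hL⟩ : ∃ L : ℝ, L = Real.log X := ⟨_, rfl⟩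
  rw [← hL] at hΛX
  have hL1 : 1 + Real.log N₀ ≤ L := by linarith
  have hL0 : 0 < L := by linarith
  have hXN : N₀ ≤ X := by
    by_contra hcon
    push Not at hcon
    have h1 : (X : ℝ) ≤ N₀ := by exact_mod_cast hcon.le
    rcases Nat.eq_zero_or_pos X with hx | hx
    · rw [hL, hx] at hL0
      simp at hL0
    · have h2 : Real.log X ≤ Real.log N₀ := Real.log_le_log (by exact_mod_cast hx) h1
      linarith
  have hXr : (N₀ : ℝ) ≤ X := by exact_mod_cast hXN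
  have hX0 : (0 : ℝ) < X := by linarith
  have hX1 : (1 : ℝ) ≤ X := by linarith
  obtain ⟨LX, hLX⟩ : ∃ LX : ℝ, LX = L ^ (-c) := ⟨_, rfl⟩
  have hLX0 : 0 < LX := by rw [hLX]; exact Real.rpow_pos_of_pos hL0 _
  have hXq : (X : ℝ) ^ (-(1 / 4 : ℝ)) ≤ 1 :=
    Real.rpow_le_one_of_one_le_of_nonpos hX1 (by norm_num)
  have hpm := hX₄ X m (hNX4.trans hXN) hm
  rw [← hL, ← hLX, one_mul] at hpm
  rw [← hL, ← hLX]
  rcases le_or_gt L Λ with hLΛ' | hLΛ'
  · -- `log X ≤ Λ`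
    have h1 := bb_le m X (ET t)
    have h2 : (3 : ℝ) ^ m ≤ 3 ^ m * 2 ^ kk X :=
      le_mul_of_one_le_right (by positivity) (one_le_pow₀ (by norm_num))
    have h3 : 1 - Real.exp (-(8 * Λ)) ≤ Ql t (10 * Λ - (L + (X : ℝ) ^ (-(1 / 4 : ℝ)))) := by
      have h4 := Qg_add_Ql t (10 * Λ - (L + (X : ℝ) ^ (-(1 / 4 : ℝ))))
      have h5 := Qg_markov t (10 * Λ - (L + (X : ℝ) ^ (-(1 / 4 : ℝ))))
      have h6 : Real.exp (-(10 * Λ - (L + (X : ℝ) ^ (-(1 / 4 : ℝ))))) ≤ Real.exp (-(8 * Λ)) :=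
        Real.exp_le_exp.2 (by linarith)
      linarith
    have h7 : Real.exp (-(8 * Λ)) ≤ LΛ := by
      have h8 : Λ ^ (-(1 : ℝ)) ≤ Λ ^ (-c) :=
        Real.rpow_le_rpow_of_exponent_le hΛ1 (by linarith)
      rw [Real.rpow_neg_one, ← hLΛ] at h8
      have h9 : Real.exp (-(8 * Λ)) ≤ Λ⁻¹ := by
        rw [Real.exp_neg]
        have h10 := Real.add_one_le_exp (8 * Λ)
        exact inv_anti₀ hΛ0 (by linarith)
      linarith
    have h11 : LX ≤ 2 * LΛ := by
      have h12 : L ^ (-c) ≤ (Λ / 2) ^ (-c) :=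
        Real.rpow_le_rpow_of_nonpos (by linarith) hΛX (by linarith)
      have h13 : (Λ / 2) ^ (-c) = LΛ * 2 ^ c := by
        rw [Real.div_rpow hΛ0.le (by norm_num), ← hLΛ, Real.rpow_neg (by norm_num : (0:ℝ) ≤ 2), div_inv_eq_mul]
      have h14 : (2 : ℝ) ^ c ≤ 2 ^ (1 : ℝ) :=
        Real.rpow_le_rpow_of_exponent_le (by norm_num) (by linarith)
      rw [Real.rpow_one] at h14
      rw [hLX]
      calc L ^ (-c) ≤ LΛ * 2 ^ c := by rw [← h13]; exact h12
        _ ≤ LΛ * 2 := mul_le_mul_of_nonneg_left h14 hLΛ0.le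
        _ = 2 * LΛ := by ring
    have h15 : LX * D ≤ 2 * LΛ * D := mul_le_mul_of_nonneg_right h11 hD0.le
    have h16 : 2 * LΛ ≤ D * LΛ := mul_le_mul_of_nonneg_right hD1 hLΛ0.le
    have h17 : 1 + LX ≤ Ql t (10 * Λ - (L + (X : ℝ) ^ (-(1 / 4 : ℝ)))) + D * (4 * LΛ - LX) := by
      have h18 : D * (4 * LΛ - LX) = 4 * (D * LΛ) - LX * D := by ring
      have h19 : 2 * LΛ * D = 2 * (D * LΛ) := by ring
      rw [h18]
      linarith
    have h20 : X * (1 + LX) ≤
        X * (Ql t (10 * Λ - (L + (X : ℝ) ^ (-(1 / 4 : ℝ)))) + D * (4 * LΛ - LX)) :=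
      mul_le_mul_of_nonneg_left h17 hX0.le
    have h21 : (X : ℝ) * (1 + LX) = X + LX * X := by ring
    linarith
  · -- `log X > Λ`
    have hLXΛ : LX ≤ LΛ := by
      rw [hLX, hLΛ]
      exact Real.rpow_le_rpow_of_nonpos hΛ0 hLΛ'.le (by linarith)
    obtain ⟨hs1, hs2, hs3, hs4, hs5, hs6, hs7, hs8⟩ := hX₂ X m (hNX2.trans hXN) hm
    obtain ⟨k, hk⟩ : ∃ k : ℕ, k = kk X := ⟨_, rfl⟩
    obtain ⟨m', hm'⟩ : ∃ m' : ℕ, m' = mk κ X := ⟨_, rfl⟩
    have hty := fun j => hX₁ X j (hNX1.trans hXN)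
    have hlow := fun j => hX₃ X j (hNX3.trans hXN)
    have hsc := hX₀ X m (ET t) (ET (t - kk X)) (hNX0.trans hXN) (by rw [← hκ]; exact hm)
    rw [← hk] at hs1 hs3 hs4 hs5 hs6 hty hlow hsc hpm
    rw [← hm'] at hs2 hs3 hs7 hs8
    rw [← hκ, ← hm'] at hsc
    rw [← hL] at hs5 hs6 hs7 hs8 hm hty hlow hsc
    rw [← hl] at hty
    rw [← hLX] at hsc
    have hk0 : (0 : ℝ) < k := by linarith
    obtain ⟨a, ha⟩ : ∃ a : ℝ, a = 10 * Λ - (L + (X : ℝ) ^ (-(1 / 4 : ℝ))) := ⟨_, rfl⟩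
    rw [← ha]
    rcases Nat.lt_or_ge k t with htk | htk
    · obtain ⟨J, hJ⟩ : ∃ J : Finset ℕ,
        J = (range (k + 1)).filter (fun j : ℕ => |(j : ℝ) - k / 2| ≤ θ₁ * k) := ⟨_, rfl⟩
      have hJsub : J ⊆ range (k + 1) := by rw [hJ]; exact filter_subset _ _
      have hJmem : ∀ j ∈ J, |(j : ℝ) - k / 2| ≤ θ₁ * k := by
        intro j hj; rw [hJ] at hj; exact (mem_filter.1 hj).2
      rw [← hJ] at hsc
      have hstep := hsc (fun n hn => ET_iter t k n hn htk)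
      have hMnn : ∀ j, 0 ≤ M (1 / 2) k j := fun j => M_nonneg (by norm_num) (by norm_num) k j
      -- the potential after one step
      obtain ⟨G, hG⟩ : ∃ G : ℝ, G = D * (4 * LΛ - LX) - D * (c * δ) * LX := ⟨_, rfl⟩
      have hcδ1 : c * δ ≤ 1 := by rw [hδ]; linarith
      have hG0 : 0 ≤ G := by
        have h1 : c * δ * LX ≤ 1 * LX := mul_le_mul_of_nonneg_right hcδ1 hLX0.le
        have h2 : 0 ≤ 4 * LΛ - LX - c * δ * LX := by linarith
        have h3 : G = D * (4 * LΛ - LX - c * δ * LX) := by rw [hG]; ring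
        rw [h3]
        exact mul_nonneg hD0.le h2
      have hbb : ∀ j ∈ J, bb m' (XJ k j X) (ET (t - k)) / (XJ k j X : ℕ) ≤
          Ql (t - k) (a - (j * Real.log 3 - k * Real.log 2)) + G := by
        intro j hj
        obtain ⟨hy1, hy2, hy3⟩ := hty j (hJmem j hj)
        have hu := hlow j (hJmem j hj)
        obtain ⟨Y, hY⟩ : ∃ Y : ℕ, Y = XJ k j X := ⟨_, rfl⟩
        rw [← hY] at hy1 hy2 hy3 hu ⊢
        obtain ⟨y, hy⟩ : ∃ y : ℝ, y = Real.log Y := ⟨_, rfl⟩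
        rw [← hy] at hy2 hy3 hu
        have hy0 : 0 < y := by linarith
        have hY0 : (0 : ℝ) < Y := by
          rcases Nat.eq_zero_or_pos Y with hx | hx
          · rw [hy, hx] at hy0
            simp at hy0
          · exact_mod_cast hx
        have hv : 1 / 10 ≤ l / 2 - 2 * θ₁ := by linarith
        have hyL : y ≤ L * (1 - δ) := by
          have h1 : L / 40 * (1 / 10) ≤ k * (l / 2 - 2 * θ₁) :=
            mul_le_mul hs5 hv (by norm_num) hk0.le
          have h2 : L * (1 - δ) = L - L / 1000 := by rw [hδ]; ring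
          rw [h2]
          linarith
        have hgp := gain_potential c δ L y hc hδ0 hδ1 hL0 hy0 hyL
        rw [← hLX] at hgp
        have hm2 : (m' : ℝ) ≤ y ^ κ :=
          hs8.trans (Real.rpow_le_rpow (by linarith) hy2 hκ0.le)
        have hih := ih Y hy1 m' (t - k) (by rw [← hy]; linarith) (by rw [← hy]; exact hm2)
        rw [← hy] at hih
        rw [div_le_iff₀ hY0, mul_comm]
        refine hih.trans (mul_le_mul_of_nonneg_left ?_ hY0.le)
        have h4 : D * (LX + c * δ * LX) ≤ D * y ^ (-c) := mul_le_mul_of_nonneg_left hgp hD0.le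
        have h5 : Ql (t - k) (10 * Λ - (y + (Y : ℝ) ^ (-(1 / 4 : ℝ)))) ≤
            Ql (t - k) (a - (j * Real.log 3 - k * Real.log 2)) := by
          apply Ql_mono
          rw [ha]
          linarith
        rw [hG]
        linarith
      have hsum : ∑ j ∈ J, M (1 / 2) k j *
          (bb m' (XJ k j X) (ET (t - k)) / (XJ k j X : ℕ)) ≤ Ql t a + G := by
        have h1 : ∀ j ∈ J, M (1 / 2) k j *
            (bb m' (XJ k j X) (ET (t - k)) / (XJ k j X : ℕ)) ≤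
            M (1 / 2) k j * Ql (t - k) (a - (j * Real.log 3 - k * Real.log 2)) +
              M (1 / 2) k j * G := by
          intro j hj
          rw [← mul_add]
          exact mul_le_mul_of_nonneg_left (hbb j hj) (hMnn j)
        refine (sum_le_sum h1).trans ?_
        rw [sum_add_distrib, ← sum_mul]
        have h5 : ∑ j ∈ J, M (1 / 2) k j ≤ 1 :=
          (sum_le_sum_of_subset_of_nonneg hJsub fun j _ _ => hMnn j).trans_eq
            (M_sum (α := 1 / 2) k)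
        have h6 : (∑ j ∈ J, M (1 / 2) k j) * G ≤ 1 * G := mul_le_mul_of_nonneg_right h5 hG0
        have h7 : ∑ j ∈ J, M (1 / 2) k j *
            Ql (t - k) (a - (j * Real.log 3 - k * Real.log 2)) ≤ Ql t a := by
          have h8 := Ql_conv k (t - k) a
          rw [Nat.add_sub_cancel' htk.le] at h8
          rw [h8]
          exact sum_le_sum_of_subset_of_nonneg hJsub fun j _ _ =>
            mul_nonneg (hMnn j) (Ql_nonneg _ _)
        linarith
      refine hstep.trans (mul_le_mul_of_nonneg_left ?_ hX0.le)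
      have h9 : C * LX ≤ D * (c * δ) * LX := mul_le_mul_of_nonneg_right hDc hLX0.le
      rw [hG] at hsum
      linarith
    · -- `t ≤ k`
      have h1 := bb_le_of_small m X (2 ^ k) (ET t)
        (fun n hn => (ET_le t n hn).trans (Nat.pow_le_pow_right (by norm_num) htk))
      push_cast at h1
      have h2 : LX * X ≤ X * (Ql t a + D * (4 * LΛ - LX)) := by
        rw [mul_comm LX]
        refine mul_le_mul_of_nonneg_left ?_ hX0.le
        have h3 := Ql_nonneg t a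
        have h4 : 2 * (4 * LΛ - LX) ≤ D * (4 * LΛ - LX) :=
          mul_le_mul_of_nonneg_right hD1 (by linarith)
        linarith
      exact (h1.trans hpm).trans h2

end Pool.Agent.Syr66
end

section

set_option autoImplicit false

namespace Pool.Agent.Syr66

open Finset

/-- Upper law. Induction on `X ≥ N`. If `log X ≤ Λ`: for `t ≥ (2 / log (4 / 3) + 1) log X` use
`recursion` with `ε = 1`; otherwise `t log 2 < (2 / log (4 / 3) + 1) Λ`, `Qg = 1` (`Qg_eq_one`) and `bb_le`,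
`pow_m_small`. If `log X > Λ`: for `t < kk X` again `Qg = 1`; for `t ≥ kk X`, `scale_step` with
`B' = BN N (t - kk X)` (`BN_iter`), the induction hypothesis at `Y = XJ (kk X) j X` (if `Y < N`,
`bb_BN_zero`), `XJ_upper`, `Qg_anti`, `Qg_conv` and `gain_potential`
(`log Y ≤ (1 - 1 / 1000) log X` by `typ_facts`). -/
theorem upper_rec (c : ℝ) (hc : 0 < c) (hc1 : c < 1 / 2) :
    ∃ D : ℝ, 0 < D ∧ ∃ N₀ : ℕ, 3 ≤ N₀ ∧ ∀ (N : ℕ) (Λ : ℝ), N₀ ≤ N → 0 ≤ Λ → ∀ X m t : ℕ, N ≤ X →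
      (m : ℝ) ≤ Real.log X ^ (1 / 2 - c) →
      bb m X (BN N t) ≤ X * (Qg t (-((2 / Real.log (4 / 3) + 1) * Λ) -
          (Real.log X - (X : ℝ) ^ (-(1 / 4 : ℝ)))) +
        D * (2 * Real.log N ^ (-c) - Real.log X ^ (-c))) := by
  obtain ⟨κ, hκ⟩ : ∃ κ : ℝ, κ = 1 / 2 - c := ⟨_, rfl⟩
  have hκ0 : 0 < κ := by rw [hκ]; linarith
  have hκ1 : κ < 1 / 2 := by rw [hκ]; linarith
  obtain ⟨D₁, hD₁, N₁, hN₁3, hrec⟩ := recursion 1 c one_pos le_rfl hc hc1
  obtain ⟨θ₁, hθ₁0, hθ₁a, C, hC, X₀, hX₀⟩ := scale_step c hc hc1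
  obtain ⟨l, hl⟩ : ∃ l : ℝ, l = Real.log (4 / 3) := ⟨_, rfl⟩
  have hl4 : 1 / 4 ≤ l := by
    have h := Real.one_sub_inv_le_log_of_pos (x := 4 / 3) (by norm_num)
    have h2 : (1 : ℝ) - (4 / 3)⁻¹ = 1 / 4 := by norm_num
    rw [hl]; linarith
  have hl0 : 0 < l := by linarith
  obtain ⟨X₁, hX₁⟩ := typ_facts θ₁ hθ₁0 hθ₁a
  obtain ⟨X₂, hX₂⟩ := size_facts κ θ₁ hκ0 hκ1 hθ₁0
  obtain ⟨X₃, hX₃⟩ := XJ_upper θ₁ hθ₁0 hθ₁a
  obtain ⟨X₄, hX₄⟩ := pow_m_small κ c 1 hκ0 hκ1 one_pos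
  obtain ⟨δ, hδ⟩ : ∃ δ : ℝ, δ = 1 / 1000 := ⟨_, rfl⟩
  have hδ0 : 0 < δ := by rw [hδ]; norm_num
  have hδ1 : δ < 1 := by rw [hδ]; norm_num
  have hcδ : 0 < c * δ := mul_pos hc hδ0
  obtain ⟨D, hD⟩ : ∃ D : ℝ, D = D₁ + 1 + C / (c * δ) := ⟨_, rfl⟩
  have hCd : 0 < C / (c * δ) := div_pos hC hcδ
  have hD0 : 0 < D := by rw [hD]; positivity
  have hDD₁ : D₁ ≤ D := by rw [hD]; linarith
  have hD1 : 1 ≤ D := by rw [hD]; linarith
  have hDc : C ≤ D * (c * δ) := by
    have h1 : C / (c * δ) ≤ D := by rw [hD]; linarith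
    rwa [div_le_iff₀ hcδ] at h1
  obtain ⟨μ, hμ⟩ : ∃ μ : ℝ, μ = 2 / l + 1 := ⟨_, rfl⟩
  have hμ1 : 1 ≤ μ := by
    have : 0 < 2 / l := by positivity
    rw [hμ]; linarith
  refine ⟨D, hD0, max N₁ (max (max X₀ X₁) (max (max X₂ X₃) (max X₄ 8))),
    hN₁3.trans (le_max_left _ _), ?_⟩
  intro N Λ hN hΛ X
  have hNN1 : N₁ ≤ N := (le_max_left _ _).trans hN
  have hN' : max (max X₀ X₁) (max (max X₂ X₃) (max X₄ 8)) ≤ N := (le_max_right _ _).trans hN
  have hNX0 : X₀ ≤ N := ((le_max_left _ _).trans (le_max_left _ _)).trans hN'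
  have hNX1 : X₁ ≤ N := ((le_max_right _ _).trans (le_max_left _ _)).trans hN'
  have hN'' : max (max X₂ X₃) (max X₄ 8) ≤ N := (le_max_right _ _).trans hN'
  have hNX2 : X₂ ≤ N := ((le_max_left _ _).trans (le_max_left _ _)).trans hN''
  have hNX3 : X₃ ≤ N := ((le_max_right _ _).trans (le_max_left _ _)).trans hN''
  have hNX4 : X₄ ≤ N := ((le_max_left _ _).trans (le_max_right _ _)).trans hN''
  have hN8 : 8 ≤ N := ((le_max_right _ _).trans (le_max_right _ _)).trans hN''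
  have hNr : (8 : ℝ) ≤ N := by exact_mod_cast hN8
  have hlogN2 : 2 ≤ Real.log N := by
    rw [Real.le_log_iff_exp_le (by linarith)]
    have h1 := Real.exp_one_lt_d9
    have h2 : Real.exp 2 = Real.exp 1 * Real.exp 1 := by
      rw [← Real.exp_add]; norm_num
    have h3 := Real.exp_pos 1
    nlinarith
  obtain ⟨LN, hLN⟩ : ∃ LN : ℝ, LN = Real.log N ^ (-c) := ⟨_, rfl⟩
  have hLN0 : 0 < LN := by rw [hLN]; exact Real.rpow_pos_of_pos (by linarith) _
  rw [← hl, ← hLN, ← hμ]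
  rw [← hκ]
  induction X using Nat.strong_induction_on with
  | _ X ih =>
  intro m t hNX hm
  have hXr : (N : ℝ) ≤ X := by exact_mod_cast hNX
  have hX0 : (0 : ℝ) < X := by linarith
  have hX1 : (1 : ℝ) ≤ X := by linarith
  obtain ⟨L, hL⟩ : ∃ L : ℝ, L = Real.log X := ⟨_, rfl⟩
  have hLge : Real.log N ≤ L := by
    rw [hL]; exact Real.log_le_log (by linarith) hXr
  have hL2 : 2 ≤ L := hlogN2.trans hLge
  have hL0 : 0 < L := by linarith
  obtain ⟨LX, hLX⟩ : ∃ LX : ℝ, LX = L ^ (-c) := ⟨_, rfl⟩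
  have hLX0 : 0 < LX := by rw [hLX]; exact Real.rpow_pos_of_pos hL0 _
  have hLXN : LX ≤ LN := by
    rw [hLX, hLN]
    exact Real.rpow_le_rpow_of_nonpos (by linarith) hLge (by linarith)
  have hXq : (X : ℝ) ^ (-(1 / 4 : ℝ)) ≤ 1 :=
    Real.rpow_le_one_of_one_le_of_nonpos hX1 (by norm_num)
  have hμΛ : 0 ≤ μ * Λ := mul_nonneg (by linarith) hΛ
  have hlog2 : Real.log 2 ≤ 1 := by
    have := Real.log_two_lt_d9
    linarith
  have hlog2' : 0 < Real.log 2 := Real.log_pos (by norm_num)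
  -- bound with `Qg = 1`
  have hpm := hX₄ X m (hNX4.trans hNX) hm
  rw [← hL, ← hLX, one_mul] at hpm
  have htriv : bb m X (BN N t) ≤ X * (1 + D * (2 * LN - LX)) := by
    have h1 := bb_le m X (BN N t)
    have h2 : (3 : ℝ) ^ m ≤ 3 ^ m * 2 ^ kk X :=
      le_mul_of_one_le_right (by positivity) (one_le_pow₀ (by norm_num))
    have h3 : LX ≤ D * (2 * LN - LX) := by
      have h4 : 1 * LX ≤ D * (2 * LN - LX) :=
        mul_le_mul hD1 (by linarith) hLX0.le hD0.le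
      linarith
    have h5 : LX * X ≤ D * (2 * LN - LX) * X := mul_le_mul_of_nonneg_right h3 hX0.le
    have h6 : X * (1 + D * (2 * LN - LX)) = X + D * (2 * LN - LX) * X := by ring
    rw [h6]
    linarith
  rw [← hL, ← hLX]
  have hQ1 : (t : ℝ) * Real.log 2 < μ * Λ + (L - (X : ℝ) ^ (-(1 / 4 : ℝ))) →
      bb m X (BN N t) ≤ X * (Qg t (-(μ * Λ) - (L - (X : ℝ) ^ (-(1 / 4 : ℝ)))) +
        D * (2 * LN - LX)) := by
    intro h
    rw [Qg_eq_one t _ (by linarith)]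
    exact htriv
  rcases le_or_gt L Λ with hLΛ | hLΛ
  · -- `log X ≤ Λ`
    rcases le_or_gt (μ * L) (t : ℝ) with ht | ht
    · have h1 := hrec N hNN1 X m t hNX (by rw [← hκ]; exact hm)
        (by rw [← hl, ← hL, ← hμ]; exact ht)
      rw [← hLN, ← hL, ← hLX] at h1
      refine h1.trans (mul_le_mul_of_nonneg_left ?_ hX0.le)
      have h2 : D₁ * (2 * LN - LX) ≤ D * (2 * LN - LX) :=
        mul_le_mul_of_nonneg_right hDD₁ (by linarith)
      have h3 := Qg_nonneg t (-(μ * Λ) - (L - (X : ℝ) ^ (-(1 / 4 : ℝ))))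
      linarith
    · apply hQ1
      have h1 : (t : ℝ) * Real.log 2 ≤ t * 1 :=
        mul_le_mul_of_nonneg_left hlog2 (Nat.cast_nonneg _)
      have h2 : μ * L ≤ μ * Λ := mul_le_mul_of_nonneg_left hLΛ (by linarith)
      linarith
  · -- `log X > Λ`
    obtain ⟨hs1, hs2, hs3, hs4, hs5, hs6, hs7, hs8⟩ := hX₂ X m (hNX2.trans hNX) hm
    obtain ⟨k, hk⟩ : ∃ k : ℕ, k = kk X := ⟨_, rfl⟩
    obtain ⟨m', hm'⟩ : ∃ m' : ℕ, m' = mk κ X := ⟨_, rfl⟩
    have hty := fun j => hX₁ X j (hNX1.trans hNX)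
    have hup := fun j => hX₃ X j (hNX3.trans hNX)
    have hsc := hX₀ X m (BN N t) (BN N (t - kk X)) (hNX0.trans hNX) (by rw [← hκ]; exact hm)
    rw [← hk] at hs1 hs3 hs4 hs5 hs6 hty hup hsc
    rw [← hm'] at hs2 hs3 hs7 hs8
    rw [← hκ, ← hm'] at hsc
    rw [← hL] at hs5 hs6 hs7 hs8 hm hty hup hsc
    rw [← hl] at hty
    rw [← hLX] at hsc
    have hk0 : (0 : ℝ) < k := by linarith
    rcases Nat.lt_or_ge t k with htk | htk
    · apply hQ1
      have h0 : (t : ℝ) ≤ k := by exact_mod_cast htk.le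
      have h1 : (t : ℝ) * Real.log 2 ≤ k * 1 :=
        mul_le_mul h0 hlog2 hlog2'.le hk0.le
      linarith
    · obtain ⟨J, hJ⟩ : ∃ J : Finset ℕ,
        J = (range (k + 1)).filter (fun j : ℕ => |(j : ℝ) - k / 2| ≤ θ₁ * k) := ⟨_, rfl⟩
      have hJsub : J ⊆ range (k + 1) := by rw [hJ]; exact filter_subset _ _
      have hJmem : ∀ j ∈ J, |(j : ℝ) - k / 2| ≤ θ₁ * k := by
        intro j hj; rw [hJ] at hj; exact (mem_filter.1 hj).2
      rw [← hJ] at hsc
      have hstep := hsc (fun n hn => BN_iter N t k n hn htk)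
      have hMnn : ∀ j, 0 ≤ M (1 / 2) k j := fun j => M_nonneg (by norm_num) (by norm_num) k j
      obtain ⟨a, ha⟩ : ∃ a : ℝ, a = -(μ * Λ) - (L - (X : ℝ) ^ (-(1 / 4 : ℝ))) := ⟨_, rfl⟩
      rw [← ha]
      -- the potential after one step
      obtain ⟨G, hG⟩ : ∃ G : ℝ, G = D * (2 * LN - LX) - D * (c * δ) * LX := ⟨_, rfl⟩
      have hcδ1 : c * δ ≤ 1 := by rw [hδ]; linarith
      have hG0 : 0 ≤ G := by
        have h1 : c * δ * LX ≤ 1 * LX := mul_le_mul_of_nonneg_right hcδ1 hLX0.le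
        have h2 : 0 ≤ 2 * LN - LX - c * δ * LX := by linarith
        have h3 : G = D * (2 * LN - LX - c * δ * LX) := by rw [hG]; ring
        rw [h3]
        exact mul_nonneg hD0.le h2
      have hbb : ∀ j ∈ J, bb m' (XJ k j X) (BN N (t - k)) / (XJ k j X : ℕ) ≤
          Qg (t - k) (a - (j * Real.log 3 - k * Real.log 2)) + G := by
        intro j hj
        obtain ⟨hy1, hy2, hy3⟩ := hty j (hJmem j hj)
        have hu := hup j (hJmem j hj)
        obtain ⟨Y, hY⟩ : ∃ Y : ℕ, Y = XJ k j X := ⟨_, rfl⟩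
        rw [← hY] at hy1 hy2 hy3 hu ⊢
        have hQn := Qg_nonneg (t - k) (a - (j * Real.log 3 - k * Real.log 2))
        rcases Nat.lt_or_ge Y N with hYN | hYN
        · rw [bb_BN_zero m' Y N (t - k) hYN.le, zero_div]
          linarith
        · have hYr : (N : ℝ) ≤ Y := by exact_mod_cast hYN
          have hY0 : (0 : ℝ) < Y := by linarith
          obtain ⟨y, hy⟩ : ∃ y : ℝ, y = Real.log Y := ⟨_, rfl⟩
          rw [← hy] at hy2 hy3 hu
          have hy0 : 0 < y := by linarith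
          have hv : 1 / 10 ≤ l / 2 - 2 * θ₁ := by linarith
          have hyL : y ≤ L * (1 - δ) := by
            have h1 : L / 40 * (1 / 10) ≤ k * (l / 2 - 2 * θ₁) :=
              mul_le_mul hs5 hv (by norm_num) hk0.le
            have h2 : L * (1 - δ) = L - L / 1000 := by rw [hδ]; ring
            rw [h2]
            linarith
          have hgp := gain_potential c δ L y hc hδ0 hδ1 hL0 hy0 hyL
          rw [← hLX] at hgp
          have hm2 : (m' : ℝ) ≤ y ^ κ :=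
            hs8.trans (Real.rpow_le_rpow (by linarith) hy2 hκ0.le)
          have hih := ih Y hy1 m' (t - k) hYN (by rw [← hy]; exact hm2)
          rw [← hy] at hih
          rw [div_le_iff₀ hY0, mul_comm]
          refine hih.trans (mul_le_mul_of_nonneg_left ?_ hY0.le)
          have h4 : D * (LX + c * δ * LX) ≤ D * y ^ (-c) := mul_le_mul_of_nonneg_left hgp hD0.le
          have h5 : Qg (t - k) (-(μ * Λ) - (y - (Y : ℝ) ^ (-(1 / 4 : ℝ)))) ≤
              Qg (t - k) (a - (j * Real.log 3 - k * Real.log 2)) := by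
            apply Qg_anti
            rw [ha]
            linarith
          rw [hG]
          linarith
      have hsum : ∑ j ∈ J, M (1 / 2) k j *
          (bb m' (XJ k j X) (BN N (t - k)) / (XJ k j X : ℕ)) ≤ Qg t a + G := by
        have h1 : ∀ j ∈ J, M (1 / 2) k j *
            (bb m' (XJ k j X) (BN N (t - k)) / (XJ k j X : ℕ)) ≤
            M (1 / 2) k j * Qg (t - k) (a - (j * Real.log 3 - k * Real.log 2)) +
              M (1 / 2) k j * G := by
          intro j hj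
          rw [← mul_add]
          exact mul_le_mul_of_nonneg_left (hbb j hj) (hMnn j)
        refine (sum_le_sum h1).trans ?_
        rw [sum_add_distrib, ← sum_mul]
        have h5 : ∑ j ∈ J, M (1 / 2) k j ≤ 1 :=
          (sum_le_sum_of_subset_of_nonneg hJsub fun j _ _ => hMnn j).trans_eq
            (M_sum (α := 1 / 2) k)
        have h6 : (∑ j ∈ J, M (1 / 2) k j) * G ≤ 1 * G := mul_le_mul_of_nonneg_right h5 hG0
        have h7 : ∑ j ∈ J, M (1 / 2) k j *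
            Qg (t - k) (a - (j * Real.log 3 - k * Real.log 2)) ≤ Qg t a := by
          have h8 := Qg_conv k (t - k) a
          rw [Nat.add_sub_cancel' htk] at h8
          rw [h8]
          exact sum_le_sum_of_subset_of_nonneg hJsub fun j _ _ =>
            mul_nonneg (hMnn j) (Qg_nonneg _ _)
        linarith
      refine hstep.trans (mul_le_mul_of_nonneg_left ?_ hX0.le)
      have h9 : C * LX ≤ D * (c * δ) * LX := mul_le_mul_of_nonneg_right hDc hLX0.le
      rw [hG] at hsum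
      linarith

end Pool.Agent.Syr66
end

section

set_option autoImplicit false

namespace Pool.Agent.Syr66

open Finset

open Classical in
private theorem v11_card_le (h : ∀ n : ℕ, 1 ≤ n → ∃ k : ℕ, T^[k] n = 1) (y : ℝ) (x : ℕ) :
    (((Finset.Icc 1 x).filter (fun n : ℕ =>
      ((sInf {k : ℕ | T^[k] n = 1} : ℕ) : ℝ) ≤ y)).card : ℝ) ≤ bb 0 x (ET ⌊y⌋₊) := by
  have hb : bb 0 x (ET ⌊y⌋₊) =
      (((Finset.Icc 1 x).filter (fun n : ℕ => ET ⌊y⌋₊ n)).card : ℝ) := by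
    unfold bb
    rw [Finset.card_filter]
    push_cast
    refine Finset.sum_congr rfl (fun n _ => ?_)
    by_cases hn : ET ⌊y⌋₊ n
    · simp [hn, p]
    · simp [hn]
  rw [hb]
  have hsub : (Finset.Icc 1 x).filter (fun n : ℕ =>
      ((sInf {k : ℕ | T^[k] n = 1} : ℕ) : ℝ) ≤ y) ⊆
      (Finset.Icc 1 x).filter (fun n : ℕ => ET ⌊y⌋₊ n) := by
    intro n hn
    rw [Finset.mem_filter] at hn ⊢
    refine ⟨hn.1, sInf {k : ℕ | T^[k] n = 1}, Nat.le_floor hn.2, ?_⟩
    have hne : {k : ℕ | T^[k] n = 1}.Nonempty := h n (Finset.mem_Icc.1 hn.1).1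
    exact Nat.sInf_mem hne
  exact_mod_cast Finset.card_le_card hsub

private theorem v11_ha : Filter.Tendsto (fun n : ℕ =>
    ((10 * Real.log (n : ℝ) ^ (1 / 4 : ℝ) - (Real.log (n : ℝ) + (n : ℝ) ^ (-(1 / 4 : ℝ)))) +
      Real.log (n : ℝ)) / Real.sqrt (Real.log (n : ℝ))) Filter.atTop (nhds 0) := by
  have hL : Filter.Tendsto (fun n : ℕ => Real.log (n : ℝ)) Filter.atTop Filter.atTop :=
    Real.tendsto_log_atTop.comp tendsto_natCast_atTop_atTop
  have hsq : Filter.Tendsto (fun n : ℕ => Real.sqrt (Real.log (n : ℝ))) Filter.atTop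
      Filter.atTop := Real.tendsto_sqrt_atTop.comp hL
  have hinv : Filter.Tendsto (fun n : ℕ => (Real.sqrt (Real.log (n : ℝ)))⁻¹) Filter.atTop
      (nhds 0) := tendsto_inv_atTop_zero.comp hsq
  have h1 : Filter.Tendsto (fun n : ℕ => Real.log (n : ℝ) ^ (-(1 / 4 : ℝ))) Filter.atTop
      (nhds 0) := (tendsto_rpow_neg_atTop (by norm_num : (0 : ℝ) < 1 / 4)).comp hL
  have h2 : Filter.Tendsto (fun n : ℕ => (n : ℝ) ^ (-(1 / 4 : ℝ))) Filter.atTop
      (nhds 0) := (tendsto_rpow_neg_atTop (by norm_num : (0 : ℝ) < 1 / 4)).comp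
        tendsto_natCast_atTop_atTop
  have h3 : Filter.Tendsto (fun n : ℕ => 10 * Real.log (n : ℝ) ^ (-(1 / 4 : ℝ)) -
      (n : ℝ) ^ (-(1 / 4 : ℝ)) * (Real.sqrt (Real.log (n : ℝ)))⁻¹) Filter.atTop (nhds 0) := by
    have := (h1.const_mul 10).sub (h2.mul hinv)
    simpa using this
  refine h3.congr' ?_
  filter_upwards [hL.eventually_gt_atTop 0] with n hn
  have hs : 0 < Real.sqrt (Real.log (n : ℝ)) := Real.sqrt_pos.2 hn
  have e1 : Real.log (n : ℝ) ^ (-(1 / 4 : ℝ)) =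
      Real.log (n : ℝ) ^ (1 / 4 : ℝ) / Real.sqrt (Real.log (n : ℝ)) := by
    rw [Real.sqrt_eq_rpow, ← Real.rpow_sub hn]
    norm_num
  rw [e1]
  field_simp
  ring

private theorem v11_ht (u μ s : ℝ) (hμ : 0 < μ) : Filter.Tendsto (fun n : ℕ =>
    ((⌊μ * Real.log (n : ℝ) + u * s * Real.sqrt (Real.log (n : ℝ))⌋₊ : ℝ) -
      μ * Real.log (n : ℝ)) / Real.sqrt (Real.log (n : ℝ))) Filter.atTop (nhds (u * s)) := by
  have hL : Filter.Tendsto (fun n : ℕ => Real.log (n : ℝ)) Filter.atTop Filter.atTop :=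
    Real.tendsto_log_atTop.comp tendsto_natCast_atTop_atTop
  have hsq : Filter.Tendsto (fun n : ℕ => Real.sqrt (Real.log (n : ℝ))) Filter.atTop
      Filter.atTop := Real.tendsto_sqrt_atTop.comp hL
  have hinv : Filter.Tendsto (fun n : ℕ => (Real.sqrt (Real.log (n : ℝ)))⁻¹) Filter.atTop
      (nhds 0) := tendsto_inv_atTop_zero.comp hsq
  have hbig : Filter.Tendsto (fun n : ℕ => μ * Real.sqrt (Real.log (n : ℝ))) Filter.atTop
      Filter.atTop := hsq.const_mul_atTop hμ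
  rw [← tendsto_sub_nhds_zero_iff]
  refine squeeze_zero_norm' ?_ hinv
  filter_upwards [hL.eventually_gt_atTop 0, hbig.eventually_ge_atTop (-(u * s))] with n hn hn2
  have hs : 0 < Real.sqrt (Real.log (n : ℝ)) := Real.sqrt_pos.2 hn
  have hss : Real.sqrt (Real.log (n : ℝ)) * Real.sqrt (Real.log (n : ℝ)) = Real.log (n : ℝ) :=
    Real.mul_self_sqrt hn.le
  set r := Real.sqrt (Real.log (n : ℝ)) with hr
  set y := μ * Real.log (n : ℝ) + u * s * r with hy
  have hy0 : 0 ≤ y := by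
    have : y = r * (μ * r + u * s) := by rw [hy, ← hss]; ring
    rw [this]
    exact mul_nonneg hs.le (by linarith)
  have h1 := Nat.floor_le hy0
  have h2 := Nat.lt_floor_add_one y
  have e : ((⌊y⌋₊ : ℝ) - μ * Real.log (n : ℝ)) / r - u * s = ((⌊y⌋₊ : ℝ) - y) * r⁻¹ := by
    rw [hy]
    field_simp
    ring
  rw [e, norm_mul, Real.norm_eq_abs, Real.norm_eq_abs, abs_of_pos (inv_pos.2 hs)]
  have h3 : |(⌊y⌋₊ : ℝ) - y| ≤ 1 := by
    rw [abs_le]
    constructor <;> linarith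
  calc |(⌊y⌋₊ : ℝ) - y| * r⁻¹ ≤ 1 * r⁻¹ := mul_le_mul_of_nonneg_right h3 (inv_pos.2 hs).le
    _ = r⁻¹ := one_mul _

open Classical in
/-- Lower half of the Gaussian law: `σ n ≤ y` and `n` reaches `1` imply `ET t n`, `t = ⌊y⌋`; `lower_rec`
with `m = 0`, `c = 1 / 4`, `Λ = (log x) ^ (1 / 4)`, `Ql_limit`. -/
theorem gauss_lower (h : ∀ n : ℕ, 1 ≤ n → ∃ k : ℕ, T^[k] n = 1) (u η : ℝ) (hη : 0 < η) :
    ∀ᶠ x : ℕ in Filter.atTop, (((Finset.Icc 1 x).filter (fun n : ℕ =>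
        ((sInf {k : ℕ | T^[k] n = 1} : ℕ) : ℝ) ≤ 2 / Real.log (4 / 3) * Real.log x +
          u * (Real.log 3 / 2 * (2 / Real.log (4 / 3)) ^ (3 / 2 : ℝ)) * Real.sqrt (Real.log x))).card
          : ℝ) ≤ (Phi u + η) * x := by
  have hμ : 0 < 2 / Real.log (4 / 3) := div_pos two_pos (Real.log_pos (by norm_num))
  have hL : Filter.Tendsto (fun n : ℕ => Real.log (n : ℝ)) Filter.atTop Filter.atTop :=
    Real.tendsto_log_atTop.comp tendsto_natCast_atTop_atTop
  obtain ⟨D, hD, Λ₀, hΛ₀, hrec⟩ := lower_rec (1 / 4) (by norm_num) (by norm_num)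
  have hlim := Ql_limit u (fun n : ℕ => Real.log (n : ℝ))
    (fun n : ℕ => 10 * Real.log (n : ℝ) ^ (1 / 4 : ℝ) -
      (Real.log (n : ℝ) + (n : ℝ) ^ (-(1 / 4 : ℝ))))
    (fun n : ℕ => ⌊2 / Real.log (4 / 3) * Real.log (n : ℝ) +
      u * (Real.log 3 / 2 * (2 / Real.log (4 / 3)) ^ (3 / 2 : ℝ)) *
        Real.sqrt (Real.log (n : ℝ))⌋₊) hL v11_ha (v11_ht u _ _ hμ)
  have hLam : Filter.Tendsto (fun n : ℕ => Real.log (n : ℝ) ^ (1 / 4 : ℝ)) Filter.atTop
      Filter.atTop := (tendsto_rpow_atTop (by norm_num : (0 : ℝ) < 1 / 4)).comp hL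
  have hLc : Filter.Tendsto (fun n : ℕ =>
      D * (4 * (Real.log (n : ℝ) ^ (1 / 4 : ℝ)) ^ (-(1 / 4 : ℝ)))) Filter.atTop (nhds 0) := by
    have := ((tendsto_rpow_neg_atTop (by norm_num : (0 : ℝ) < 1 / 4)).comp hLam)
    have := (this.const_mul 4).const_mul D
    simpa using this
  filter_upwards [hL.eventually_ge_atTop 1, hLam.eventually_ge_atTop Λ₀,
    hlim.eventually (gt_mem_nhds (show Phi u < Phi u + η / 2 by linarith)),
    hLc.eventually (gt_mem_nhds (show (0 : ℝ) < η / 2 by linarith))] with x hx1 hx2 hx3 hx4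
  have hx0 : 0 ≤ Real.log (x : ℝ) := by linarith
  have hle : Real.log (x : ℝ) ^ (1 / 4 : ℝ) / 2 ≤ Real.log (x : ℝ) := by
    have : Real.log (x : ℝ) ^ (1 / 4 : ℝ) ≤ Real.log (x : ℝ) ^ (1 : ℝ) :=
      Real.rpow_le_rpow_of_exponent_le hx1 (by norm_num)
    rw [Real.rpow_one] at this
    linarith
  have hm : ((0 : ℕ) : ℝ) ≤ Real.log (x : ℝ) ^ (1 / 2 - 1 / 4 : ℝ) := by
    rw [Nat.cast_zero]
    exact Real.rpow_nonneg hx0 _
  refine (v11_card_le h _ x).trans ?_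
  refine (hrec _ hx2 x 0 _ hle hm).trans ?_
  rw [mul_comm (Phi u + η) (x : ℝ)]
  refine mul_le_mul_of_nonneg_left ?_ (Nat.cast_nonneg x)
  have h5 : 0 ≤ D * Real.log (x : ℝ) ^ (-(1 / 4 : ℝ)) :=
    mul_nonneg hD.le (Real.rpow_nonneg hx0 _)
  have h6 : D * (4 * (Real.log (x : ℝ) ^ (1 / 4 : ℝ)) ^ (-(1 / 4 : ℝ)) -
      Real.log (x : ℝ) ^ (-(1 / 4 : ℝ))) ≤ η / 2 := by
    rw [mul_sub]
    linarith
  have h7 := hx3.le
  linarith

end Pool.Agent.Syr66
end

section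

set_option autoImplicit false

namespace Pool.Agent.Syr66

open Finset

private theorem v10_T_pos (n : ℕ) (hn : 1 ≤ n) : 1 ≤ T n := by
  unfold T
  split_ifs with h
  · omega
  · omega

private theorem v10_iter_pos (n : ℕ) (hn : 1 ≤ n) (i : ℕ) : 1 ≤ T^[i] n := by
  induction i with
  | zero => simpa using hn
  | succ i ih =>
    rw [Function.iterate_succ_apply']
    exact v10_T_pos _ ih

open Classical in
private theorem v10_card_le (h : ∀ n : ℕ, 1 ≤ n → ∃ k : ℕ, T^[k] n = 1) (N G : ℕ)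
    (hG : ∀ n : ℕ, n ≤ N → sInf {k : ℕ | T^[k] n = 1} ≤ G) (y : ℝ) (hy : (G : ℝ) ≤ y) (x : ℕ) :
    (((Finset.Icc 1 x).filter (fun n : ℕ =>
      y < ((sInf {k : ℕ | T^[k] n = 1} : ℕ) : ℝ))).card : ℝ) ≤ bb 0 x (BN N (⌊y⌋₊ - G)) := by
  have hb : bb 0 x (BN N (⌊y⌋₊ - G)) =
      (((Finset.Icc 1 x).filter (fun n : ℕ => BN N (⌊y⌋₊ - G) n)).card : ℝ) := by
    unfold bb
    rw [Finset.card_filter]
    push_cast
    refine Finset.sum_congr rfl (fun n _ => ?_)
    by_cases hn : BN N (⌊y⌋₊ - G) n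
    · simp [hn, p]
    · simp [hn]
  rw [hb]
  have hsub : (Finset.Icc 1 x).filter (fun n : ℕ =>
      y < ((sInf {k : ℕ | T^[k] n = 1} : ℕ) : ℝ)) ⊆
      (Finset.Icc 1 x).filter (fun n : ℕ => BN N (⌊y⌋₊ - G) n) := by
    intro n hn
    rw [Finset.mem_filter] at hn ⊢
    refine ⟨hn.1, ?_⟩
    intro i hi
    by_contra hcon
    have hle : T^[i] n ≤ N := not_lt.1 hcon
    have hpos : 1 ≤ T^[i] n := v10_iter_pos n (Finset.mem_Icc.1 hn.1).1 i
    have hne : {k : ℕ | T^[k] (T^[i] n) = 1}.Nonempty := h _ hpos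
    have h1 : T^[sInf {k : ℕ | T^[k] (T^[i] n) = 1}] (T^[i] n) = 1 := Nat.sInf_mem hne
    have h2 := hG _ hle
    have h3 : sInf {k : ℕ | T^[k] n = 1} ≤ sInf {k : ℕ | T^[k] (T^[i] n) = 1} + i := by
      refine Nat.sInf_le ?_
      show T^[sInf {k : ℕ | T^[k] (T^[i] n) = 1} + i] n = 1
      rw [Function.iterate_add_apply]
      exact h1
    have hGy : G ≤ ⌊y⌋₊ := Nat.le_floor hy
    have h4 : sInf {k : ℕ | T^[k] n = 1} ≤ ⌊y⌋₊ := by omega
    have h5 : (⌊y⌋₊ : ℝ) ≤ y := Nat.floor_le ((Nat.cast_nonneg G).trans hy)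
    have h6 : ((sInf {k : ℕ | T^[k] n = 1} : ℕ) : ℝ) ≤ (⌊y⌋₊ : ℝ) := by exact_mod_cast h4
    linarith [hn.2]
  exact_mod_cast Finset.card_le_card hsub

private theorem v10_ha (B : ℝ) : Filter.Tendsto (fun n : ℕ =>
    ((-(B * Real.log (n : ℝ) ^ (1 / 4 : ℝ)) - (Real.log (n : ℝ) - (n : ℝ) ^ (-(1 / 4 : ℝ)))) +
      Real.log (n : ℝ)) / Real.sqrt (Real.log (n : ℝ))) Filter.atTop (nhds 0) := by
  have hL : Filter.Tendsto (fun n : ℕ => Real.log (n : ℝ)) Filter.atTop Filter.atTop :=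
    Real.tendsto_log_atTop.comp tendsto_natCast_atTop_atTop
  have hsq : Filter.Tendsto (fun n : ℕ => Real.sqrt (Real.log (n : ℝ))) Filter.atTop
      Filter.atTop := Real.tendsto_sqrt_atTop.comp hL
  have hinv : Filter.Tendsto (fun n : ℕ => (Real.sqrt (Real.log (n : ℝ)))⁻¹) Filter.atTop
      (nhds 0) := tendsto_inv_atTop_zero.comp hsq
  have h1 : Filter.Tendsto (fun n : ℕ => Real.log (n : ℝ) ^ (-(1 / 4 : ℝ))) Filter.atTop
      (nhds 0) := (tendsto_rpow_neg_atTop (by norm_num : (0 : ℝ) < 1 / 4)).comp hL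
  have h2 : Filter.Tendsto (fun n : ℕ => (n : ℝ) ^ (-(1 / 4 : ℝ))) Filter.atTop
      (nhds 0) := (tendsto_rpow_neg_atTop (by norm_num : (0 : ℝ) < 1 / 4)).comp
        tendsto_natCast_atTop_atTop
  have h3 : Filter.Tendsto (fun n : ℕ => (n : ℝ) ^ (-(1 / 4 : ℝ)) *
      (Real.sqrt (Real.log (n : ℝ)))⁻¹ - B * Real.log (n : ℝ) ^ (-(1 / 4 : ℝ)))
      Filter.atTop (nhds 0) := by
    have := (h2.mul hinv).sub (h1.const_mul B)
    simpa using this
  refine h3.congr' ?_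
  filter_upwards [hL.eventually_gt_atTop 0] with n hn
  have hs : 0 < Real.sqrt (Real.log (n : ℝ)) := Real.sqrt_pos.2 hn
  have e1 : Real.log (n : ℝ) ^ (-(1 / 4 : ℝ)) =
      Real.log (n : ℝ) ^ (1 / 4 : ℝ) / Real.sqrt (Real.log (n : ℝ)) := by
    rw [Real.sqrt_eq_rpow, ← Real.rpow_sub hn]
    norm_num
  rw [e1]
  field_simp
  ring

private theorem v10_big (u μ s : ℝ) (hμ : 0 < μ) : Filter.Tendsto (fun n : ℕ =>
    μ * Real.log (n : ℝ) + u * s * Real.sqrt (Real.log (n : ℝ))) Filter.atTop Filter.atTop := by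
  have hL : Filter.Tendsto (fun n : ℕ => Real.log (n : ℝ)) Filter.atTop Filter.atTop :=
    Real.tendsto_log_atTop.comp tendsto_natCast_atTop_atTop
  have hsq : Filter.Tendsto (fun n : ℕ => Real.sqrt (Real.log (n : ℝ))) Filter.atTop
      Filter.atTop := Real.tendsto_sqrt_atTop.comp hL
  have hbig : Filter.Tendsto (fun n : ℕ => μ * Real.sqrt (Real.log (n : ℝ)) + u * s) Filter.atTop
      Filter.atTop := Filter.tendsto_atTop_add_const_right _ _ (hsq.const_mul_atTop hμ)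
  have hprod := hsq.atTop_mul_atTop₀ hbig
  refine hprod.congr' ?_
  filter_upwards [hL.eventually_gt_atTop 0] with n hn
  have hss : Real.sqrt (Real.log (n : ℝ)) * Real.sqrt (Real.log (n : ℝ)) = Real.log (n : ℝ) :=
    Real.mul_self_sqrt hn.le
  have e : Real.sqrt (Real.log (n : ℝ)) * (μ * Real.sqrt (Real.log (n : ℝ)) + u * s) =
      μ * (Real.sqrt (Real.log (n : ℝ)) * Real.sqrt (Real.log (n : ℝ))) +
        u * s * Real.sqrt (Real.log (n : ℝ)) := by ring
  rw [e, hss]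

private theorem v10_ht (u μ s : ℝ) (hμ : 0 < μ) (G : ℕ) : Filter.Tendsto (fun n : ℕ =>
    (((⌊μ * Real.log (n : ℝ) + u * s * Real.sqrt (Real.log (n : ℝ))⌋₊ - G : ℕ) : ℝ) -
      μ * Real.log (n : ℝ)) / Real.sqrt (Real.log (n : ℝ))) Filter.atTop (nhds (u * s)) := by
  have hL : Filter.Tendsto (fun n : ℕ => Real.log (n : ℝ)) Filter.atTop Filter.atTop :=
    Real.tendsto_log_atTop.comp tendsto_natCast_atTop_atTop
  have hsq : Filter.Tendsto (fun n : ℕ => Real.sqrt (Real.log (n : ℝ))) Filter.atTop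
      Filter.atTop := Real.tendsto_sqrt_atTop.comp hL
  have hinv : Filter.Tendsto (fun n : ℕ => (Real.sqrt (Real.log (n : ℝ)))⁻¹) Filter.atTop
      (nhds 0) := tendsto_inv_atTop_zero.comp hsq
  have hinvG : Filter.Tendsto (fun n : ℕ => ((G : ℝ) + 1) * (Real.sqrt (Real.log (n : ℝ)))⁻¹)
      Filter.atTop (nhds 0) := by
    have := hinv.const_mul ((G : ℝ) + 1)
    simpa using this
  rw [← tendsto_sub_nhds_zero_iff]
  refine squeeze_zero_norm' ?_ hinvG
  filter_upwards [hL.eventually_gt_atTop 0, (v10_big u μ s hμ).eventually_ge_atTop (G : ℝ)]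
    with n hn hn2
  have hs : 0 < Real.sqrt (Real.log (n : ℝ)) := Real.sqrt_pos.2 hn
  have hss : Real.sqrt (Real.log (n : ℝ)) * Real.sqrt (Real.log (n : ℝ)) = Real.log (n : ℝ) :=
    Real.mul_self_sqrt hn.le
  set r := Real.sqrt (Real.log (n : ℝ)) with hr
  set y := μ * Real.log (n : ℝ) + u * s * r with hy
  have hG0 : (0 : ℝ) ≤ G := Nat.cast_nonneg G
  have hy0 : 0 ≤ y := hG0.trans hn2
  have hGy : G ≤ ⌊y⌋₊ := Nat.le_floor hn2
  have h1 := Nat.floor_le hy0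
  have h2 := Nat.lt_floor_add_one y
  rw [Nat.cast_sub hGy]
  have e : (((⌊y⌋₊ : ℝ) - G) - μ * Real.log (n : ℝ)) / r - u * s =
      (((⌊y⌋₊ : ℝ) - G) - y) * r⁻¹ := by
    rw [hy]
    field_simp
    ring
  rw [e, norm_mul, Real.norm_eq_abs, Real.norm_eq_abs, abs_of_pos (inv_pos.2 hs)]
  have h3 : |((⌊y⌋₊ : ℝ) - G) - y| ≤ (G : ℝ) + 1 := by
    rw [abs_le]
    constructor <;> linarith
  exact mul_le_mul_of_nonneg_right h3 (inv_pos.2 hs).le

open Classical in
/-- Upper half of the Gaussian law: if every orbit reaches `1`, the number of `n ≤ x` with `σ n > t` is at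
most the number with `BN N (t - G)`, `G = max_{n ≤ N} σ n`; `upper_rec` with `m = 0`, `c = 1 / 4`,
`Λ = (log x) ^ (1 / 4)`, `Ql_limit`; then `N → ∞`. -/
theorem gauss_upper (h : ∀ n : ℕ, 1 ≤ n → ∃ k : ℕ, T^[k] n = 1) (u η : ℝ) (hη : 0 < η) :
    ∀ᶠ x : ℕ in Filter.atTop, (((Finset.Icc 1 x).filter (fun n : ℕ =>
        2 / Real.log (4 / 3) * Real.log x +
          u * (Real.log 3 / 2 * (2 / Real.log (4 / 3)) ^ (3 / 2 : ℝ)) * Real.sqrt (Real.log x) <
          ((sInf {k : ℕ | T^[k] n = 1} : ℕ) : ℝ))).card : ℝ) ≤ (1 - Phi u + η) * x := by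
  have hμ : 0 < 2 / Real.log (4 / 3) := div_pos two_pos (Real.log_pos (by norm_num))
  have hL : Filter.Tendsto (fun n : ℕ => Real.log (n : ℝ)) Filter.atTop Filter.atTop :=
    Real.tendsto_log_atTop.comp tendsto_natCast_atTop_atTop
  obtain ⟨D, hD, N₀, hN₀, hrec⟩ := upper_rec (1 / 4) (by norm_num) (by norm_num)
  have hLc : Filter.Tendsto (fun n : ℕ =>
      D * (2 * Real.log (n : ℝ) ^ (-(1 / 4 : ℝ)))) Filter.atTop (nhds 0) := by
    have := ((tendsto_rpow_neg_atTop (by norm_num : (0 : ℝ) < 1 / 4)).comp hL)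
    have := (this.const_mul 2).const_mul D
    simpa using this
  obtain ⟨N, hNN, hNη⟩ := ((Filter.eventually_ge_atTop N₀).and
    (hLc.eventually (gt_mem_nhds (show (0 : ℝ) < η / 2 by linarith)))).exists
  obtain ⟨G, hG⟩ : ∃ G : ℕ, ∀ n : ℕ, n ≤ N → sInf {k : ℕ | T^[k] n = 1} ≤ G := by
    refine ⟨(Finset.range (N + 1)).sup (fun n => sInf {k : ℕ | T^[k] n = 1}), fun n hn => ?_⟩
    exact Finset.le_sup (f := fun n => sInf {k : ℕ | T^[k] n = 1})
      (Finset.mem_range.2 (Nat.lt_succ_of_le hn))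
  have hlim := Ql_limit u (fun n : ℕ => Real.log (n : ℝ))
    (fun n : ℕ => -((2 / Real.log (4 / 3) + 1) * Real.log (n : ℝ) ^ (1 / 4 : ℝ)) -
      (Real.log (n : ℝ) - (n : ℝ) ^ (-(1 / 4 : ℝ))))
    (fun n : ℕ => ⌊2 / Real.log (4 / 3) * Real.log (n : ℝ) +
      u * (Real.log 3 / 2 * (2 / Real.log (4 / 3)) ^ (3 / 2 : ℝ)) *
        Real.sqrt (Real.log (n : ℝ))⌋₊ - G) hL (v10_ha _) (v10_ht u _ _ hμ G)
  filter_upwards [hL.eventually_ge_atTop 1, Filter.eventually_ge_atTop N,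
    hlim.eventually (lt_mem_nhds (show Phi u - η / 2 < Phi u by linarith)),
    (v10_big u _ (Real.log 3 / 2 * (2 / Real.log (4 / 3)) ^ (3 / 2 : ℝ))
      hμ).eventually_ge_atTop (G : ℝ)] with x hx1 hx2 hx3 hx4
  have hx0 : 0 ≤ Real.log (x : ℝ) := by linarith
  have hm : ((0 : ℕ) : ℝ) ≤ Real.log (x : ℝ) ^ (1 / 2 - 1 / 4 : ℝ) := by
    rw [Nat.cast_zero]
    exact Real.rpow_nonneg hx0 _
  refine (v10_card_le h N G hG _ hx4 x).trans ?_
  refine (hrec N (Real.log (x : ℝ) ^ (1 / 4 : ℝ)) hNN (Real.rpow_nonneg hx0 _) x 0 _ hx2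
    hm).trans ?_
  rw [mul_comm (1 - Phi u + η) (x : ℝ)]
  refine mul_le_mul_of_nonneg_left ?_ (Nat.cast_nonneg x)
  have h5 : 0 ≤ D * Real.log (x : ℝ) ^ (-(1 / 4 : ℝ)) :=
    mul_nonneg hD.le (Real.rpow_nonneg hx0 _)
  have h6 : D * (2 * Real.log (N : ℝ) ^ (-(1 / 4 : ℝ)) -
      Real.log (x : ℝ) ^ (-(1 / 4 : ℝ))) ≤ η / 2 := by
    rw [mul_sub]
    linarith
  have h7 := Qg_add_Ql (⌊2 / Real.log (4 / 3) * Real.log (x : ℝ) +
      u * (Real.log 3 / 2 * (2 / Real.log (4 / 3)) ^ (3 / 2 : ℝ)) *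
        Real.sqrt (Real.log (x : ℝ))⌋₊ - G)
    (-((2 / Real.log (4 / 3) + 1) * Real.log (x : ℝ) ^ (1 / 4 : ℝ)) -
      (Real.log (x : ℝ) - (x : ℝ) ^ (-(1 / 4 : ℝ))))
  linarith

end Pool.Agent.Syr66
end

section

set_option autoImplicit false

namespace Pool.Agent.Syr66

open Finset

open Classical in
/-- The two sets are complementary. -/
theorem gaussian_law (h : ∀ n : ℕ, 1 ≤ n → ∃ k : ℕ, T^[k] n = 1) (u : ℝ) :
    Filter.Tendsto (fun x : ℕ => (((Finset.Icc 1 x).filter (fun n : ℕ =>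
        ((sInf {k : ℕ | T^[k] n = 1} : ℕ) : ℝ) ≤ 2 / Real.log (4 / 3) * Real.log x +
          u * (Real.log 3 / 2 * (2 / Real.log (4 / 3)) ^ (3 / 2 : ℝ)) * Real.sqrt (Real.log x))).card
          : ℝ) / x) Filter.atTop (nhds (Phi u)) := by
  have hcard : ∀ x : ℕ, ((((Finset.Icc 1 x).filter (fun n : ℕ =>
        ((sInf {k : ℕ | T^[k] n = 1} : ℕ) : ℝ) ≤ 2 / Real.log (4 / 3) * Real.log x +
          u * (Real.log 3 / 2 * (2 / Real.log (4 / 3)) ^ (3 / 2 : ℝ)) * Real.sqrt (Real.log x))).card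
          : ℝ)) + (((Finset.Icc 1 x).filter (fun n : ℕ =>
        2 / Real.log (4 / 3) * Real.log x +
          u * (Real.log 3 / 2 * (2 / Real.log (4 / 3)) ^ (3 / 2 : ℝ)) * Real.sqrt (Real.log x) <
          ((sInf {k : ℕ | T^[k] n = 1} : ℕ) : ℝ))).card : ℝ) = x := by
    intro x
    have h1 := Finset.card_filter_add_card_filter_not (s := Finset.Icc 1 x) (fun n : ℕ =>
        ((sInf {k : ℕ | T^[k] n = 1} : ℕ) : ℝ) ≤ 2 / Real.log (4 / 3) * Real.log x +
          u * (Real.log 3 / 2 * (2 / Real.log (4 / 3)) ^ (3 / 2 : ℝ)) * Real.sqrt (Real.log x))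
    simp only [not_le, Nat.card_Icc, Nat.add_sub_cancel] at h1
    exact_mod_cast h1
  rw [tendsto_order]
  constructor
  · intro a ha
    filter_upwards [gauss_upper h u ((Phi u - a) / 2) (by linarith),
      Filter.eventually_ge_atTop 1] with x hx hx1
    have hx0 : (0 : ℝ) < x := by exact_mod_cast hx1
    rw [lt_div_iff₀ hx0]
    have h2 := hcard x
    have h3 : 0 < (Phi u - a) / 2 * x := mul_pos (by linarith) hx0
    nlinarith
  · intro a ha
    filter_upwards [gauss_lower h u ((a - Phi u) / 2) (by linarith),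
      Filter.eventually_ge_atTop 1] with x hx hx1
    have hx0 : (0 : ℝ) < x := by exact_mod_cast hx1
    rw [div_lt_iff₀ hx0]
    have h3 : 0 < (a - Phi u) / 2 * x := mul_pos (by linarith) hx0
    nlinarith

end Pool.Agent.Syr66
end
end
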